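import Pool.Agent.DPFib.Defs

/-!
# MP_9669a9_ag, module A: algebra of the obstruction map
-/

namespace Pool.Agent.DPFib

open Polynomial

noncomputable section

/-- The curve `B = 0` in `P^1 x P^1` is smooth. -/
theorem Bf_smooth {K : Type*} [Field K] [CharZero K] {u0 u1 v0 v1 : K}
    (hu : u0 ≠ 0 ∨ u1 ≠ 0) (hv : v0 ≠ 0 ∨ v1 ≠ 0)
    (h0 : Bu0 u0 u1 v0 v1 = 0) (h1 : Bu1 u0 u1 v0 v1 = 0)
    (h2 : Bv0 u0 u1 v0 v1 = 0) (h3 : Bv1 u0 u1 v0 v1 = 0) : False := by
  unfold Bu0 at h0
  unfold Bu1 at h1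
  unfold Bv0 at h2
  unfold Bv1 at h3
  by_cases hvv : v0 * v1 = 0
  · have hs : v0 + v1 ≠ 0 := by
      intro hs
      have e1 : v1 = -v0 := by linear_combination hs
      rw [e1] at hvv hv
      have e2 : v0 = 0 := by
        have : v0 * v0 = 0 := by linear_combination -hvv
        exact mul_self_eq_zero.mp this
      rw [e2] at hv
      simp at hv
    have hus : u0 + u1 = 0 := by
      have e3 : (u0 + u1) * (v0 + v1) ^ 2 = 0 := by
        have : (2 : K) * ((u0 + u1) * (v0 + v1) ^ 2) = 0 := by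
          linear_combination h0 + u1 * hvv
        exact (mul_eq_zero.mp this).resolve_left two_ne_zero
      exact (mul_eq_zero.mp e3).resolve_right (pow_ne_zero _ hs)
    have e1 : u1 = -u0 := by linear_combination hus
    have hu0 : u0 ≠ 0 := by
      rintro rfl
      rw [e1] at hu
      simp at hu
    have e4 : v1 = 0 := by
      have : u0 * u0 * v1 = 0 := by
        rw [e1] at h2
        linear_combination h2
      exact (mul_eq_zero.mp this).resolve_left (mul_ne_zero hu0 hu0)
    have e5 : v0 = 0 := by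
      have : u0 * u0 * v0 = 0 := by
        rw [e1] at h3
        linear_combination h3
      exact (mul_eq_zero.mp this).resolve_left (mul_ne_zero hu0 hu0)
    rw [e4, e5] at hv
    simp at hv
  · have e1 : u0 = u1 := by
      have : (u0 - u1) * (v0 * v1) = 0 := by linear_combination h0 - h1
      exact sub_eq_zero.mp ((mul_eq_zero.mp this).resolve_right hvv)
    subst e1
    have hu0 : u0 ≠ 0 := by
      rcases hu with h | h <;> exact h
    have e2 : v0 = v1 := by
      have : (u0 * u0) * (v0 - v1) = 0 := by linear_combination h2 - h3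
      exact sub_eq_zero.mp ((mul_eq_zero.mp this).resolve_left (mul_ne_zero hu0 hu0))
    subst e2
    have : (15 : K) * (u0 * (v0 * v0)) = 0 := by linear_combination h0
    rcases mul_eq_zero.mp this with h | h
    · norm_num at h
    · rcases mul_eq_zero.mp h with h | h
      · exact hu0 h
      · exact hvv h

theorem coprime_add {u0 u1 : ℂ[X]} (h : IsCoprime u0 u1) : IsCoprime (u0 * u1) ((u0 + u1) ^ 2) := by
  apply IsCoprime.pow_right
  apply IsCoprime.mul_left
  · have := h.add_mul_left_right 1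
    rw [mul_one] at this
    rw [add_comm]
    exact this
  · have := h.symm.add_mul_left_right 1
    rw [mul_one] at this
    exact this

/-- There is no section with `w = 0` when `a < b`. -/
theorem Bf_ne_zero {a b : ℕ} (hab : a < b) {u0 u1 v0 v1 : ℂ[X]}
    (hu0 : u0.natDegree ≤ a) (hu1 : u1.natDegree ≤ a) (hv0 : v0.natDegree ≤ b)
    (hv1 : v1.natDegree ≤ b) (hu : NoZero a u0 u1) (hv : NoZero b v0 v1) :
    Bf u0 u1 v0 v1 ≠ 0 := by
  -- it is enough to treat the case where `v0` has degree `b`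
  have key : ∀ v0 v1 : ℂ[X], v0.natDegree ≤ b → v1.natDegree ≤ b → IsCoprime v0 v1 →
      v0.coeff b ≠ 0 → Bf u0 u1 v0 v1 ≠ 0 := by
    intro v0 v1 hv0 hv1 hc hcb hB
    have hE : (u0 + u1) ^ 2 * (v0 + v1) ^ 2 = u0 * u1 * (v0 * v1) := by
      unfold Bf at hB
      linear_combination hB
    have hd0 : v0.natDegree = b := le_antisymm hv0 (le_natDegree_of_ne_zero hcb)
    have hv0' : v0 ≠ 0 := by
      rintro rfl
      simp at hcb
    have hv1' : v1 ≠ 0 := by
      rintro rfl
      rw [isCoprime_zero_right] at hc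
      have := natDegree_eq_zero_of_isUnit hc
      omega
    have hus : u0 + u1 ≠ 0 := by
      intro hs
      have e1 : u1 = -u0 := by linear_combination hs
      rw [hs] at hE
      have e2 : u0 * u1 = 0 := by
        have : u0 * u1 * (v0 * v1) = 0 := by rw [← hE]; ring
        exact (mul_eq_zero.mp this).resolve_right (mul_ne_zero hv0' hv1')
      have e3 : u0 = 0 := by
        rw [e1] at e2
        have : u0 * u0 = 0 := by linear_combination -e2
        exact mul_self_eq_zero.mp this
      have := hu.1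
      rw [e1, e3, neg_zero] at this
      exact not_isCoprime_zero_zero this
    have hdvd : v0 * v1 ∣ (u0 + u1) ^ 2 := by
      refine (coprime_add hc).dvd_of_dvd_mul_right ?_
      rw [hE]
      exact dvd_mul_left _ _
    have hle := natDegree_le_of_dvd hdvd (pow_ne_zero _ hus)
    rw [natDegree_mul hv0' hv1', natDegree_pow, hd0] at hle
    have hus' : (u0 + u1).natDegree ≤ a := (natDegree_add_le _ _).trans (max_le hu0 hu1)
    have hd1 : v1.natDegree < b := by omega
    have hvs : (v0 + v1).natDegree = b := by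
      rw [natDegree_add_eq_left_of_natDegree_lt (by omega), hd0]
    have hvs' : v0 + v1 ≠ 0 := by
      intro h
      rw [h, natDegree_zero] at hvs
      omega
    have huu : u0 * u1 ≠ 0 := by
      intro h
      rw [h, zero_mul] at hE
      exact mul_ne_zero (pow_ne_zero _ hus) (pow_ne_zero _ hvs') hE
    have hdvd2 : (v0 + v1) ^ 2 ∣ u0 * u1 := by
      refine (coprime_add hc).symm.dvd_of_dvd_mul_right ?_
      rw [← hE]
      exact dvd_mul_left _ _
    have hle2 := natDegree_le_of_dvd hdvd2 huu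
    have hu0' : u0 ≠ 0 := left_ne_zero_of_mul huu
    have hu1' : u1 ≠ 0 := right_ne_zero_of_mul huu
    rw [natDegree_pow, hvs, natDegree_mul hu0' hu1'] at hle2
    omega
  rcases hv.2 with h | h
  · exact key v0 v1 hv0 hv1 hv.1 h
  · have := key v1 v0 hv1 hv0 hv.1.symm h
    intro hB
    apply this
    rw [← hB]
    unfold Bf
    ring

theorem exists_pair_aux {n : ℕ} (hn : 1 ≤ n) {u0 u1 : ℂ[X]} (h0 : u0.natDegree ≤ n)
    (h1 : u1.natDegree ≤ n) (h : IsCoprime u0 u1) (hc : u0.coeff n ≠ 0) (Q : ℂ[X])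
    (hQ : Q.degree < (2 * n : ℕ)) :
    ∃ d0 d1 : ℂ[X], d0.natDegree ≤ n - 1 ∧ d1.natDegree ≤ n - 1 ∧ u0 * d1 - u1 * d0 = Q := by
  obtain ⟨p, q, hpq⟩ := h
  have hd : u0.natDegree = n := le_antisymm h0 (le_natDegree_of_ne_zero hc)
  have hne : u0 ≠ 0 := by
    rintro rfl
    simp at hc
  set d0 := (-(Q * q)) % u0 with hd0
  set t := (-(Q * q)) / u0 with ht
  have hdm : u0 * t + d0 = -(Q * q) := EuclideanDomain.div_add_mod _ _
  have hd0n : d0.natDegree ≤ n - 1 := by
    by_cases hz : d0 = 0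
    · rw [hz, natDegree_zero]
      exact Nat.zero_le _
    · have h2 : d0.degree < u0.degree := degree_mod_lt _ hne
      have h3 := natDegree_lt_natDegree hz h2
      omega
  have heq : u0 * (Q * p - u1 * t) = Q + u1 * d0 := by
    linear_combination Q * hpq - u1 * hdm
  refine ⟨d0, Q * p - u1 * t, hd0n, ?_, by linear_combination heq⟩
  by_cases hz : Q * p - u1 * t = 0
  · rw [hz, natDegree_zero]
    exact Nat.zero_le _
  · have h2 : (u0 * (Q * p - u1 * t)).natDegree = n + (Q * p - u1 * t).natDegree := by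
      rw [natDegree_mul hne hz, hd]
    have h3 : Q.natDegree ≤ 2 * n - 1 := by
      by_cases hQ0 : Q = 0
      · rw [hQ0, natDegree_zero]
        exact Nat.zero_le _
      · rw [degree_eq_natDegree hQ0] at hQ
        have : Q.natDegree < 2 * n := by exact_mod_cast hQ
        omega
    have h4 : (Q + u1 * d0).natDegree ≤ 2 * n - 1 := by
      refine (natDegree_add_le _ _).trans (max_le h3 ?_)
      refine natDegree_mul_le.trans ?_
      omega
    rw [← heq, h2] at h4
    omega

theorem exists_pair {n : ℕ} (hn : 1 ≤ n) {u0 u1 : ℂ[X]} (h0 : u0.natDegree ≤ n)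
    (h1 : u1.natDegree ≤ n) (h : NoZero n u0 u1) (Q : ℂ[X]) (hQ : Q.degree < (2 * n : ℕ)) :
    ∃ d0 d1 : ℂ[X], d0.natDegree ≤ n - 1 ∧ d1.natDegree ≤ n - 1 ∧ u0 * d1 - u1 * d0 = Q := by
  rcases h.2 with hc | hc
  · exact exists_pair_aux hn h0 h1 h.1 hc Q hQ
  · obtain ⟨d0, d1, e0, e1, e2⟩ := exists_pair_aux hn h1 h0 h.1.symm hc (-Q) (by rwa [degree_neg])
    exact ⟨d1, d0, e1, e0, by linear_combination -e2⟩

theorem derivative_Bf (u0 u1 v0 v1 : ℂ[X]) : derivative (Bf u0 u1 v0 v1) =
    Bu0 u0 u1 v0 v1 * derivative u0 + Bu1 u0 u1 v0 v1 * derivative u1 +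
      Bv0 u0 u1 v0 v1 * derivative v0 + Bv1 u0 u1 v0 v1 * derivative v1 := by
  unfold Bf Bu0 Bu1 Bv0 Bv1
  simp only [derivative_mul, derivative_pow, derivative_add, derivative_sub]
  push_cast
  simp only [pow_one, map_ofNat]
  ring

/-- the Wronskian -/
theorem wronskian {a : ℕ} (ha : 1 ≤ a) {u0 u1 : ℂ[X]} (hu0 : u0.natDegree ≤ a)
    (hu1 : u1.natDegree ≤ a) (hu : NoZero a u0 u1) :
    u0 * derivative u1 - u1 * derivative u0 ≠ 0 ∧
      (u0 * derivative u1 - u1 * derivative u0).degree < (2 * a - 1 : ℕ) := by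
  constructor
  · intro h
    have hconst : ∀ p q : ℂ[X], IsCoprime p q → p * derivative q - q * derivative p = 0 →
        p.natDegree = 0 := by
      intro p q hpq he
      by_cases hp : p = 0
      · rw [hp, natDegree_zero]
      have h1 : p ∣ derivative p := by
        refine hpq.dvd_of_dvd_mul_left ?_
        exact ⟨derivative q, by linear_combination -he⟩
      by_contra hd
      have h2 : derivative p ≠ 0 := by
        intro h3
        exact hd (derivative_eq_zero.mp h3)
      have h3 := natDegree_le_of_dvd h1 h2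
      have h4 := natDegree_derivative_lt hd
      omega
    have h1 := hconst u0 u1 hu.1 h
    have h2 := hconst u1 u0 hu.1.symm (by linear_combination -h)
    rcases hu.2 with h3 | h3
    · exact h3 (coeff_eq_zero_of_natDegree_lt (by omega))
    · exact h3 (coeff_eq_zero_of_natDegree_lt (by omega))
  · rw [degree_lt_iff_coeff_zero]
    intro k hk
    have hb : ∀ p q : ℂ[X], p.natDegree ≤ a → q.natDegree ≤ a → 2 * a - 1 < k →
        (p * derivative q).coeff k = 0 := by
      intro p q hp hq hk'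
      apply coeff_eq_zero_of_natDegree_lt
      refine lt_of_le_of_lt natDegree_mul_le ?_
      have := natDegree_derivative_le q
      omega
    rcases Nat.lt_or_ge (2 * a - 1) k with h | h
    · rw [coeff_sub, hb u0 u1 hu0 hu1 h, hb u1 u0 hu1 hu0 h, sub_zero]
    · have hk' : k = a + (a - 1) := by omega
      have hc : ∀ p q : ℂ[X], p.natDegree ≤ a → q.natDegree ≤ a →
          (p * derivative q).coeff (a + (a - 1)) = p.coeff a * (q.coeff a * a) := by
        intro p q hp hq
        rw [coeff_mul_add_eq_of_natDegree_le hp ((natDegree_derivative_le q).trans (by omega)),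
          coeff_derivative, show a - 1 + 1 = a by omega]
        congr 2
        have : ((a - 1 : ℕ) : ℂ) + 1 = ((a - 1 + 1 : ℕ) : ℂ) := by push_cast; ring
        rw [this, show a - 1 + 1 = a by omega]
      rw [hk', coeff_sub, hc u0 u1 hu0 hu1, hc u1 u0 hu1 hu0]
      ring

/-- Unobstructedness in good coordinates. -/
theorem surj_good {a b : ℕ} (ha : 1 ≤ a) (hab : a + 1 ≤ b) {u0 u1 v0 v1 w c : ℂ[X]}
    (hu0 : u0.natDegree ≤ a) (hu1 : u1.natDegree ≤ a) (hv0 : v0.natDegree ≤ b)
    (hv1 : v1.natDegree ≤ b) (hw : w.natDegree = a + b - 1) (hc : c.natDegree = 2)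
    (hu : NoZero a u0 u1) (hv : NoZero b v0 v1) (hE : c * w ^ 2 = Bf u0 u1 v0 v1)
    (H : ℂ[X]) (hH : H.natDegree ≤ 2 * a + 2 * b - 3) :
    ∃ d0 d1 e0 e1 f : ℂ[X], d0.natDegree ≤ a - 1 ∧ d1.natDegree ≤ a - 1 ∧
      e0.natDegree ≤ b - 1 ∧ e1.natDegree ≤ b - 1 ∧ f.natDegree ≤ a + b - 2 ∧
      c ∣ u0 * d1 - u1 * d0 ∧ c ∣ v0 * e1 - v1 * e0 ∧
      Bu0 u0 u1 v0 v1 * d0 + Bu1 u0 u1 v0 v1 * d1 + Bv0 u0 u1 v0 v1 * e0 +
        Bv1 u0 u1 v0 v1 * e1 - 2 * c * w * f = c * H := by
  obtain ⟨α, β, hαβ⟩ := hv.1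
  obtain ⟨α', β', hαβ'⟩ := hu.1
  set B0 := Bu0 u0 u1 v0 v1 with hB0
  set B1 := Bu1 u0 u1 v0 v1 with hB1
  set C0 := Bv0 u0 u1 v0 v1 with hC0
  set C1 := Bv1 u0 u1 v0 v1 with hC1
  have eul_u : u0 * B0 + u1 * B1 = 2 * (c * w ^ 2) := by
    rw [hE, hB0, hB1]
    unfold Bf Bu0 Bu1
    ring
  have eul_v : v0 * C0 + v1 * C1 = 2 * (c * w ^ 2) := by
    rw [hE, hC0, hC1]
    unfold Bf Bv0 Bv1
    ring
  set κ := α * C1 - β * C0 with hκ
  set μ := α' * B1 - β' * B0 with hμ
  have eC0 : C0 = -κ * v1 + 2 * α * (c * w ^ 2) := by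
    rw [hκ]
    linear_combination (-C0) * hαβ + α * eul_v
  have eC1 : C1 = κ * v0 + 2 * β * (c * w ^ 2) := by
    rw [hκ]
    linear_combination (-C1) * hαβ + β * eul_v
  have eB0 : B0 = -μ * u1 + 2 * α' * (c * w ^ 2) := by
    rw [hμ]
    linear_combination (-B0) * hαβ' + α' * eul_u
  have eB1 : B1 = μ * u0 + 2 * β' * (c * w ^ 2) := by
    rw [hμ]
    linear_combination (-B1) * hαβ' + β' * eul_u
  have hwne : w ≠ 0 := by
    rintro rfl
    rw [natDegree_zero] at hw
    omega
  have hcne : c ≠ 0 := by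
    rintro rfl
    rw [natDegree_zero] at hc
    omega
  -- the gcd
  set g := EuclideanDomain.gcd κ w with hg
  obtain ⟨κ', hκ'⟩ : g ∣ κ := EuclideanDomain.gcd_dvd_left _ _
  obtain ⟨w', hw'⟩ : g ∣ w := EuclideanDomain.gcd_dvd_right _ _
  have hgne : g ≠ 0 := by
    intro h
    rw [h, zero_mul] at hw'
    exact hwne hw'
  have hw'ne : w' ≠ 0 := by
    intro h
    rw [h, mul_zero] at hw'
    exact hwne hw'
  have hcop : IsCoprime κ' w' := by
    obtain ⟨x, y, h1⟩ : ∃ x y, g = κ * x + w * y := ⟨_, _, EuclideanDomain.gcd_eq_gcd_ab κ w⟩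
    refine ⟨x, y, ?_⟩
    apply mul_left_cancel₀ hgne
    linear_combination (-x) * hκ' - y * hw' - h1
  have hμg : IsCoprime μ g := by
    rw [Polynomial.isCoprime_iff_aeval_ne_zero_of_isAlgClosed ℂ ℂ]
    intro r
    by_contra hcon
    push Not at hcon
    obtain ⟨hr1, hr2⟩ := hcon
    rw [coe_aeval_eq_eval] at hr1 hr2
    have hwr : w.eval r = 0 := by rw [hw', eval_mul, hr2, zero_mul]
    have hκr : κ.eval r = 0 := by rw [hκ', eval_mul, hr2, zero_mul]
    have q1 : B0.eval r = 0 := by
      rw [eB0]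
      simp only [eval_add, eval_mul, eval_neg, eval_pow, hr1, hwr]
      ring
    have q2 : B1.eval r = 0 := by
      rw [eB1]
      simp only [eval_add, eval_mul, eval_pow, hr1, hwr]
      ring
    have q3 : C0.eval r = 0 := by
      rw [eC0]
      simp only [eval_add, eval_mul, eval_neg, eval_pow, hκr, hwr]
      ring
    have q4 : C1.eval r = 0 := by
      rw [eC1]
      simp only [eval_add, eval_mul, eval_pow, hκr, hwr]
      ring
    have p1 : u0.eval r ≠ 0 ∨ u1.eval r ≠ 0 := by
      by_contra hcon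
      push Not at hcon
      have := congrArg (eval r) hαβ'
      simp only [eval_add, eval_mul, hcon.1, hcon.2, eval_one] at this
      norm_num at this
    have p2 : v0.eval r ≠ 0 ∨ v1.eval r ≠ 0 := by
      by_contra hcon
      push Not at hcon
      have := congrArg (eval r) hαβ
      simp only [eval_add, eval_mul, hcon.1, hcon.2, eval_one] at this
      norm_num at this
    refine Bf_smooth p1 p2 ?_ ?_ ?_ ?_
    · rw [← q1, hB0]
      unfold Bu0
      simp
    · rw [← q2, hB1]
      unfold Bu1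
      simp
    · rw [← q3, hC0]
      unfold Bv0
      simp
    · rw [← q4, hC1]
      unfold Bv1
      simp
  obtain ⟨hωne, hωdeg⟩ := wronskian ha hu0 hu1 hu
  set ω := u0 * derivative u1 - u1 * derivative u0 with hω
  have hgω : g ∣ ω := by
    refine hμg.symm.dvd_of_dvd_mul_left ?_
    have h1 := derivative_Bf u0 u1 v0 v1
    rw [← hE, ← hB0, ← hB1, ← hC0, ← hC1] at h1
    rw [derivative_mul, derivative_pow] at h1
    have h2 : μ * ω = derivative c * w ^ 2 + c * (C ((2 : ℕ) : ℂ) * w ^ (2 - 1) * derivative w) -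
        2 * (c * w ^ 2) * (α' * derivative u0 + β' * derivative u1 + α * derivative v0 +
          β * derivative v1) + κ * (v1 * derivative v0 - v0 * derivative v1) := by
      rw [h1, hω]
      linear_combination (-derivative u0) * eB0 - derivative u1 * eB1 - derivative v0 * eC0 -
        derivative v1 * eC1
    rw [h2]
    have hgw : g ∣ w := ⟨w', hw'⟩
    have hgκ : g ∣ κ := ⟨κ', hκ'⟩
    refine dvd_add (dvd_sub (dvd_add ?_ ?_) ?_) ?_
    · exact Dvd.dvd.mul_left (dvd_pow hgw two_ne_zero) _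
    · refine Dvd.dvd.mul_left (Dvd.dvd.mul_right (Dvd.dvd.mul_left ?_ _) _) _
      exact dvd_pow hgw (by norm_num)
    · exact Dvd.dvd.mul_right (Dvd.dvd.mul_left (Dvd.dvd.mul_left (dvd_pow hgw two_ne_zero) _) _) _
    · exact Dvd.dvd.mul_right hgκ _
  have hgdeg : g.degree < (2 * a - 1 : ℕ) := lt_of_le_of_lt (degree_le_of_dvd hgω hωne) hωdeg
  -- choice of `P`
  obtain ⟨x, y, hxy⟩ := hμg
  set P := (x * H) % g with hP
  have hPm : g * ((x * H) / g) + P = x * H := EuclideanDomain.div_add_mod _ _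
  have hPdeg : P.degree < (2 * a - 2 : ℕ) := by
    have h1 : P.degree < g.degree := degree_mod_lt _ hgne
    rw [degree_eq_natDegree hgne] at h1 hgdeg
    have h2 : g.natDegree < 2 * a - 1 := by exact_mod_cast hgdeg
    refine lt_of_lt_of_le h1 ?_
    exact_mod_cast (by omega : g.natDegree ≤ 2 * a - 2)
  set H' := y * H + μ * ((x * H) / g) with hH'
  have hHH : H - μ * P = g * H' := by
    rw [hH']
    linear_combination (-H) * hxy - μ * hPm
  -- choice of `R`
  obtain ⟨x', y', hxy'⟩ := hcop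
  set R := (x' * H') % w' with hR
  have hRm : w' * ((x' * H') / w') + R = x' * H' := EuclideanDomain.div_add_mod _ _
  have hRdeg : R.degree < (2 * b - 2 : ℕ) := by
    have h1 : R.degree < w'.degree := degree_mod_lt _ hw'ne
    rw [degree_eq_natDegree hw'ne] at h1
    refine lt_of_lt_of_le h1 ?_
    have h2 : w.natDegree = g.natDegree + w'.natDegree := by
      conv_lhs => rw [hw']
      exact natDegree_mul hgne hw'ne
    exact_mod_cast (by omega : w'.natDegree ≤ 2 * b - 2)
  set S := y' * H' + κ' * ((x' * H') / w') with hS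
  have hfin : μ * P + κ * R = H - w * S := by
    have h1 : H' - κ' * R = w' * S := by
      rw [hS]
      linear_combination (-H') * hxy' - κ' * hRm
    have h2 : κ * R = g * (κ' * R) := by
      conv_lhs => rw [hκ']
      ring
    have h3 : w * S = g * (w' * S) := by
      conv_lhs => rw [hw']
      ring
    rw [h2, h3, ← h1]
    linear_combination -hHH
  have hcP : (c * P).degree < (2 * a : ℕ) := by
    by_cases hz : P = 0
    · rw [hz, mul_zero, degree_zero]
      exact WithBot.bot_lt_coe _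
    · rw [degree_mul, degree_eq_natDegree hcne, degree_eq_natDegree hz, hc]
      rw [degree_eq_natDegree hz] at hPdeg
      have : P.natDegree < 2 * a - 2 := by exact_mod_cast hPdeg
      exact_mod_cast (by omega : 2 + P.natDegree < 2 * a)
  have hcR : (c * R).degree < (2 * b : ℕ) := by
    by_cases hz : R = 0
    · rw [hz, mul_zero, degree_zero]
      exact WithBot.bot_lt_coe _
    · rw [degree_mul, degree_eq_natDegree hcne, degree_eq_natDegree hz, hc]
      rw [degree_eq_natDegree hz] at hRdeg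
      have : R.natDegree < 2 * b - 2 := by exact_mod_cast hRdeg
      exact_mod_cast (by omega : 2 + R.natDegree < 2 * b)
  obtain ⟨d0, d1, hd0, hd1, hd⟩ := exists_pair ha hu0 hu1 hu _ hcP
  obtain ⟨e0, e1, he0, he1, he⟩ := exists_pair (by omega) hv0 hv1 hv _ hcR
  set Λ := α' * d0 + β' * d1 + α * e0 + β * e1 with hΛ
  set f := C (1 / 2 : ℂ) * (2 * w * Λ - S) with hf
  have h2f : 2 * f = 2 * w * Λ - S := by
    rw [hf, ← mul_assoc]
    have : (2 : ℂ[X]) * C (1 / 2 : ℂ) = 1 := by
      rw [show (2 : ℂ[X]) = C (2 : ℂ) from (map_ofNat C 2).symm, ← C_mul]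
      norm_num
    rw [this, one_mul]
  have hmain : B0 * d0 + B1 * d1 + C0 * e0 + C1 * e1 - 2 * c * w * f = c * H := by
    have h1 : 2 * c * w * f = c * w * (2 * f) := by ring
    rw [h1, h2f, hΛ]
    linear_combination d0 * eB0 + d1 * eB1 + e0 * eC0 + e1 * eC1 + μ * hd + κ * he + c * hfin
  refine ⟨d0, d1, e0, e1, f, hd0, hd1, he0, he1, ?_, ⟨P, hd⟩, ⟨R, he⟩, hmain⟩
  -- the degree of `f`
  by_cases hz : f = 0
  · rw [hz, natDegree_zero]
    exact Nat.zero_le _
  have hs1 : (u0 + u1).natDegree ≤ a := (natDegree_add_le _ _).trans (max_le hu0 hu1)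
  have hs2 : (v0 + v1).natDegree ≤ b := (natDegree_add_le _ _).trans (max_le hv0 hv1)
  have hmul : ∀ {p q : ℂ[X]} {m n : ℕ}, p.natDegree ≤ m → q.natDegree ≤ n →
      (p * q).natDegree ≤ m + n := fun hp hq => natDegree_mul_le.trans (add_le_add hp hq)
  have hpow : ∀ {p : ℂ[X]} {m : ℕ}, p.natDegree ≤ m → (p ^ 2).natDegree ≤ 2 * m :=
    fun hp => natDegree_pow_le.trans (Nat.mul_le_mul_left 2 hp)
  have htwo : (2 : ℂ[X]).natDegree ≤ 0 := by simp
  have hsub : ∀ {p q : ℂ[X]} {m : ℕ}, p.natDegree ≤ m → q.natDegree ≤ m →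
      (p - q).natDegree ≤ m := fun hp hq => (natDegree_sub_le _ _).trans (max_le hp hq)
  have hadd : ∀ {p q : ℂ[X]} {m : ℕ}, p.natDegree ≤ m → q.natDegree ≤ m →
      (p + q).natDegree ≤ m := fun hp hq => (natDegree_add_le _ _).trans (max_le hp hq)
  have b0 : B0.natDegree ≤ a + 2 * b := by
    rw [hB0]
    unfold Bu0
    refine hsub ?_ ?_
    · exact (hmul (hmul htwo hs1) (hpow hs2)).trans (by omega)
    · exact (hmul hu1 (hmul hv0 hv1)).trans (by omega)
  have b1 : B1.natDegree ≤ a + 2 * b := by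
    rw [hB1]
    unfold Bu1
    refine hsub ?_ ?_
    · exact (hmul (hmul htwo hs1) (hpow hs2)).trans (by omega)
    · exact (hmul hu0 (hmul hv0 hv1)).trans (by omega)
  have c0 : C0.natDegree ≤ 2 * a + b := by
    rw [hC0]
    unfold Bv0
    refine hsub ?_ ?_
    · exact (hmul (hmul htwo (hpow hs1)) hs2).trans (by omega)
    · exact (hmul (hmul hu0 hu1) hv1).trans (by omega)
  have c1 : C1.natDegree ≤ 2 * a + b := by
    rw [hC1]
    unfold Bv1
    refine hsub ?_ ?_
    · exact (hmul (hmul htwo (hpow hs1)) hs2).trans (by omega)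
    · exact (hmul (hmul hu0 hu1) hv0).trans (by omega)
  have htot : (2 * c * w * f).natDegree ≤ 2 * a + 2 * b - 1 := by
    have e : 2 * c * w * f = B0 * d0 + B1 * d1 + C0 * e0 + C1 * e1 - c * H := by
      linear_combination -hmain
    rw [e]
    refine hsub (hadd (hadd (hadd ?_ ?_) ?_) ?_) ?_
    · exact (hmul b0 hd0).trans (by omega)
    · exact (hmul b1 hd1).trans (by omega)
    · exact (hmul c0 he0).trans (by omega)
    · exact (hmul c1 he1).trans (by omega)
    · exact (hmul hc.le hH).trans (by omega)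
  have htot2 : (2 * c * w * f).natDegree = 2 + (a + b - 1) + f.natDegree := by
    rw [natDegree_mul (mul_ne_zero (mul_ne_zero two_ne_zero hcne) hwne) hz,
      natDegree_mul (mul_ne_zero two_ne_zero hcne) hwne, natDegree_mul two_ne_zero hcne, hw, hc]
    simp
  omega

end

end Pool.Agent.DPFib
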