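import Pool.Agent.DPFib.Defs

/-!
# MP_9669a9_ag: basic lemmas on `pol`, `U0`, ..., `NoZero`
-/

namespace Pool.Agent.DPFib

open Polynomial

noncomputable section

section Ring

variable {R S : Type*} [CommRing R] [CommRing S] {n a b : ℕ}

theorem map_pol (φ : R →+* S) (c : Fin n → R) : (pol c).map φ = pol fun i => φ (c i) := by
  simp [pol, Polynomial.map_sum]

theorem coeff_pol (c : Fin n → R) (k : ℕ) :
    (pol c).coeff k = if h : k < n then c ⟨k, h⟩ else 0 := by
  simp only [pol, finsetSum_coeff, coeff_C_mul, coeff_X_pow]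
  split_ifs with h
  · rw [Finset.sum_eq_single (⟨k, h⟩ : Fin n)]
    · simp
    · intro i _ hi
      rw [if_neg, mul_zero]
      intro hk; apply hi; ext; simp [hk]
    · simp
  · refine Finset.sum_eq_zero fun i _ => ?_
    rw [if_neg, mul_zero]
    have := i.2; omega

theorem coeff_pol_of_lt (c : Fin n → R) {k : ℕ} (h : k < n) : (pol c).coeff k = c ⟨k, h⟩ := by
  rw [coeff_pol, dif_pos h]

theorem natDegree_pol_le (c : Fin (n + 1) → R) : (pol c).natDegree ≤ n := by
  rw [natDegree_le_iff_coeff_eq_zero]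
  intro k hk
  rw [coeff_pol, dif_neg (by omega)]

theorem natDegree_pol_le' (c : Fin n → R) : (pol c).natDegree ≤ n - 1 := by
  rw [natDegree_le_iff_coeff_eq_zero]
  intro k hk
  rw [coeff_pol, dif_neg (by omega)]

theorem degree_pol_lt (c : Fin n → R) : (pol c).degree < n := by
  rw [degree_lt_iff_coeff_zero]
  intro k hk
  rw [coeff_pol, dif_neg (by omega)]

theorem pol_coeff_of_degree_lt {f : R[X]} (hf : f.degree < n) :
    pol (fun i : Fin n => f.coeff i) = f := by
  ext k
  rw [coeff_pol]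
  split_ifs with h
  · rfl
  · exact (degree_lt_iff_coeff_zero _ _ |>.mp hf k (by omega)).symm

theorem pol_coeff_of_natDegree_le {f : R[X]} (hf : f.natDegree ≤ n) :
    pol (fun i : Fin (n + 1) => f.coeff i) = f := by
  ext k
  rw [coeff_pol]
  split_ifs with h
  · rfl
  · exact (coeff_eq_zero_of_natDegree_lt (by omega)).symm

theorem pol_add (c d : Fin n → R) : pol (c + d) = pol c + pol d := by
  simp [pol, add_mul, Finset.sum_add_distrib]

theorem pol_smul (r : R) (c : Fin n → R) : pol (r • c) = C r * pol c := by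
  simp [pol, Finset.mul_sum, mul_assoc]

theorem eval_pol (c : Fin n → R) (r : R) : (pol c).eval r = ∑ i, c i * r ^ (i : ℕ) := by
  simp [pol, eval_finsetSum]

theorem natDegree_U0 (s : Ix a b → R) : (U0 s).natDegree ≤ a := natDegree_pol_le _
theorem natDegree_U1 (s : Ix a b → R) : (U1 s).natDegree ≤ a := natDegree_pol_le _
theorem natDegree_V0 (s : Ix a b → R) : (V0 s).natDegree ≤ b := natDegree_pol_le _
theorem natDegree_V1 (s : Ix a b → R) : (V1 s).natDegree ≤ b := natDegree_pol_le _
theorem natDegree_Wp (s : Ix a b → R) : (Wp s).natDegree ≤ a + b - 1 := natDegree_pol_le' _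

theorem map_U0 (φ : R →+* S) (s : Ix a b → R) : (U0 s).map φ = U0 fun i => φ (s i) := map_pol _ _
theorem map_U1 (φ : R →+* S) (s : Ix a b → R) : (U1 s).map φ = U1 fun i => φ (s i) := map_pol _ _
theorem map_V0 (φ : R →+* S) (s : Ix a b → R) : (V0 s).map φ = V0 fun i => φ (s i) := map_pol _ _
theorem map_V1 (φ : R →+* S) (s : Ix a b → R) : (V1 s).map φ = V1 fun i => φ (s i) := map_pol _ _
theorem map_Wp (φ : R →+* S) (s : Ix a b → R) : (Wp s).map φ = Wp fun i => φ (s i) := map_pol _ _

/-- coefficient vector of five polynomials -/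
def mkS (a b : ℕ) (u0 u1 v0 v1 w : R[X]) : Ix a b → R :=
  Sum.elim (fun i => u0.coeff i) (Sum.elim (fun i => u1.coeff i)
    (Sum.elim (fun i => v0.coeff i) (Sum.elim (fun i => v1.coeff i) (fun i => w.coeff i))))

theorem U0_mkS {u0 u1 v0 v1 w : R[X]} (h : u0.natDegree ≤ a) :
    U0 (mkS a b u0 u1 v0 v1 w) = u0 := pol_coeff_of_natDegree_le h
theorem U1_mkS {u0 u1 v0 v1 w : R[X]} (h : u1.natDegree ≤ a) :
    U1 (mkS a b u0 u1 v0 v1 w) = u1 := pol_coeff_of_natDegree_le h
theorem V0_mkS {u0 u1 v0 v1 w : R[X]} (h : v0.natDegree ≤ b) :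
    V0 (mkS a b u0 u1 v0 v1 w) = v0 := pol_coeff_of_natDegree_le h
theorem V1_mkS {u0 u1 v0 v1 w : R[X]} (h : v1.natDegree ≤ b) :
    V1 (mkS a b u0 u1 v0 v1 w) = v1 := pol_coeff_of_natDegree_le h
theorem Wp_mkS (hab : 1 ≤ a + b) {u0 u1 v0 v1 w : R[X]} (h : w.natDegree ≤ a + b - 1) :
    Wp (mkS a b u0 u1 v0 v1 w) = w := by
  refine pol_coeff_of_degree_lt ?_
  by_cases hw : w = 0
  · rw [hw, degree_zero]; exact bot_lt_iff_ne_bot.mpr (by simp)
  · rw [degree_eq_natDegree hw]; exact_mod_cast (by omega : w.natDegree < a + b)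

theorem mkS_self (s : Ix a b → R) : mkS a b (U0 s) (U1 s) (V0 s) (V1 s) (Wp s) = s := by
  funext i
  rcases i with i | i | i | i | i
  · exact coeff_pol_of_lt _ i.2
  · exact coeff_pol_of_lt _ i.2
  · exact coeff_pol_of_lt _ i.2
  · exact coeff_pol_of_lt _ i.2
  · exact coeff_pol_of_lt _ i.2

end Ring

section Res

variable {n : ℕ} {f g : ℂ[X]}

/-- `NoZero` by a resultant of fixed format. -/
theorem noZero_iff (hn : n ≠ 0) (hf : f.natDegree ≤ n) (hg : g.natDegree ≤ n) :
    NoZero n f g ↔ resultant f g n n ≠ 0 := by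
  constructor
  · rintro ⟨hc, h⟩
    rcases h with h | h
    · have hfn : f.natDegree = n := le_antisymm hf (le_natDegree_of_ne_zero h)
      obtain ⟨k, hk⟩ := Nat.exists_eq_add_of_le hg
      have h1 : resultant f g n n = resultant f g n (g.natDegree + k) := by rw [← hk]
      rw [h1, resultant_add_right_deg _ _ _ _ _ le_rfl]
      refine mul_ne_zero (pow_ne_zero _ h) ?_
      have h2 := resultant_eq_zero_iff (f := f) (g := g)
      rw [hfn] at h2
      rw [Ne, h2]
      exact fun h3 => h3.2 hc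
    · have hgn : g.natDegree = n := le_antisymm hg (le_natDegree_of_ne_zero h)
      obtain ⟨k, hk⟩ := Nat.exists_eq_add_of_le hf
      have h1 : resultant f g n n = resultant f g (f.natDegree + k) n := by rw [← hk]
      rw [h1, resultant_add_left_deg _ _ _ _ _ le_rfl]
      refine mul_ne_zero (mul_ne_zero (pow_ne_zero _ (by norm_num)) (pow_ne_zero _ h)) ?_
      have h2 := resultant_eq_zero_iff (f := f) (g := g)
      rw [hgn] at h2
      rw [Ne, h2]
      exact fun h3 => h3.2 hc
  · intro h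
    obtain ⟨p, q, -, -, e⟩ := exists_mul_add_mul_eq_C_resultant f g hf hg (Or.inl hn)
    refine ⟨⟨C (resultant f g n n)⁻¹ * p, C (resultant f g n n)⁻¹ * q, ?_⟩, ?_⟩
    · have : C (resultant f g n n)⁻¹ * C (resultant f g n n) = (1 : ℂ[X]) := by
        rw [← C_mul, inv_mul_cancel₀ h, C_1]
      linear_combination C (resultant f g n n)⁻¹ * e + this
    · by_contra hcon
      push Not at hcon
      apply h
      have h1 : ∀ q : ℂ[X], q.natDegree ≤ n → q.coeff n = 0 → q.natDegree < n := by
        intro q hq hq0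
        rcases lt_or_eq_of_le hq with h2 | h2
        · exact h2
        · exfalso
          have : q = 0 := by
            rw [← leadingCoeff_eq_zero, leadingCoeff, h2, hq0]
          rw [this, natDegree_zero] at h2
          exact hn h2.symm
      exact resultant_eq_zero_of_lt_lt _ _ _ _ (h1 f hf hcon.1) (h1 g hg hcon.2)

end Res

end

end Pool.Agent.DPFib
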