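import Mathlib

/-!
# MP_9669a9_ag, module E: images in the curve `(1+x^2)(1+ρ^2) = xρ`
-/

namespace Pool.Agent.DPFib

open MvPolynomial

noncomputable section

section ChevPoly

open Polynomial

/-- the equation of the curve as a polynomial in two variables -/
def chevQ : ℂ[X][X] :=
  Polynomial.C (1 + Polynomial.X ^ 2) * (1 + Polynomial.X ^ 2) -
    Polynomial.C Polynomial.X * Polynomial.X

/-- the eliminant of `a Y + b` and the curve -/
def chevR (a b : ℂ[X]) : ℂ[X] :=
  (1 + Polynomial.X ^ 2) * (a ^ 2 + b ^ 2) + Polynomial.X * (a * b)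

theorem chev_pseudo (p : ℂ[X][X]) : ∃ (k : ℕ) (q : ℂ[X][X]) (a b : ℂ[X]),
    Polynomial.C ((1 + Polynomial.X ^ 2) ^ k) * p =
      chevQ * q + Polynomial.C a * Polynomial.X + Polynomial.C b := by
  induction p using Polynomial.induction_on' with
  | add p1 p2 h1 h2 =>
    obtain ⟨k1, q1, a1, b1, e1⟩ := h1
    obtain ⟨k2, q2, a2, b2, e2⟩ := h2
    refine ⟨k1 + k2, Polynomial.C ((1 + Polynomial.X ^ 2) ^ k2) * q1 +
      Polynomial.C ((1 + Polynomial.X ^ 2) ^ k1) * q2,
      (1 + Polynomial.X ^ 2) ^ k2 * a1 + (1 + Polynomial.X ^ 2) ^ k1 * a2,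
      (1 + Polynomial.X ^ 2) ^ k2 * b1 + (1 + Polynomial.X ^ 2) ^ k1 * b2, ?_⟩
    have h : (Polynomial.C ((1 + Polynomial.X ^ 2) ^ (k1 + k2)) : ℂ[X][X]) =
        Polynomial.C ((1 + Polynomial.X ^ 2) ^ k1) * Polynomial.C ((1 + Polynomial.X ^ 2) ^ k2) := by
      rw [← Polynomial.C_mul, pow_add]
    rw [h]
    simp only [Polynomial.C_add, Polynomial.C_mul]
    linear_combination Polynomial.C ((1 + Polynomial.X ^ 2) ^ k2) * e1 +
      Polynomial.C ((1 + Polynomial.X ^ 2) ^ k1) * e2
  | monomial n c =>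
    induction n with
    | zero =>
      refine ⟨0, 0, 0, c, ?_⟩
      simp
    | succ n ih =>
      obtain ⟨k, q, a, b, e⟩ := ih
      refine ⟨k + 1, Polynomial.C (1 + Polynomial.X ^ 2) * Polynomial.X * q + Polynomial.C a,
        Polynomial.X * a + (1 + Polynomial.X ^ 2) * b, -(1 + Polynomial.X ^ 2) * a, ?_⟩
      have h : (Polynomial.C ((1 + Polynomial.X ^ 2) ^ (k + 1)) : ℂ[X][X]) =
          Polynomial.C ((1 + Polynomial.X ^ 2) ^ k) * Polynomial.C (1 + Polynomial.X ^ 2) := by
        rw [← Polynomial.C_mul, pow_succ]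
      have h2 : (Polynomial.monomial (n + 1) c : ℂ[X][X]) =
          Polynomial.monomial n c * Polynomial.X := by
        rw [Polynomial.monomial_mul_X]
      rw [h, h2]
      have h3 : (Polynomial.C (-(1 + Polynomial.X ^ 2) * a) : ℂ[X][X]) =
          -(Polynomial.C (1 + Polynomial.X ^ 2) * Polynomial.C a) := by
        rw [← Polynomial.C_mul, ← Polynomial.C_neg]
        congr 1
        ring
      rw [h3]
      have h4 : (Polynomial.C (Polynomial.X * a + (1 + Polynomial.X ^ 2) * b) : ℂ[X][X]) =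
          Polynomial.C Polynomial.X * Polynomial.C a +
            Polynomial.C (1 + Polynomial.X ^ 2) * Polynomial.C b := by
        rw [Polynomial.C_add, Polynomial.C_mul, Polynomial.C_mul]
      rw [h4]
      have h5 : chevQ = Polynomial.C (1 + Polynomial.X ^ 2) * (1 + Polynomial.X ^ 2) -
        Polynomial.C Polynomial.X * Polynomial.X := rfl
      linear_combination (Polynomial.C (1 + Polynomial.X ^ 2) * Polynomial.X) * e -
        Polynomial.C a * h5

theorem chev_disc (a b : ℂ[X]) (h : chevR a b = 0) : a = 0 ∧ b = 0 := by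
  have h1 : (1 + Polynomial.X ^ 2 : ℂ[X]) ≠ 0 := by
    intro h0
    have := congrArg (Polynomial.eval 0) h0
    simp at this
  by_cases ha : a = 0
  · refine ⟨ha, ?_⟩
    rw [chevR, ha] at h
    have h2 : (1 + Polynomial.X ^ 2 : ℂ[X]) * b ^ 2 = 0 := by linear_combination h
    rcases mul_eq_zero.1 h2 with h3 | h3
    · exact absurd h3 h1
    · exact pow_eq_zero_iff (two_ne_zero) |>.1 h3
  · exfalso
    obtain ⟨s, hs⟩ := IsAlgClosed.exists_pow_nat_eq (-15 : ℂ) (n := 2) (by norm_num)
    set r : ℂ := (1 + s) / 4 with hr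
    have hr2 : 2 * r ^ 2 - r + 2 = 0 := by
      rw [hr]; linear_combination (1 / 8 : ℂ) * hs
    set c : ℂ[X] := 2 * (1 + Polynomial.X ^ 2) * b + Polynomial.X * a with hc
    set D' : ℂ[X] := -2 * (Polynomial.X - Polynomial.C (1 / 2 - r)) *
      (2 * Polynomial.X ^ 2 + Polynomial.X + 2) with hD'
    have hD : c ^ 2 = a ^ 2 * ((Polynomial.X - Polynomial.C r) * D') := by
      have h2 : (Polynomial.X - Polynomial.C r : ℂ[X]) * (Polynomial.X - Polynomial.C (1 / 2 - r)) =
          Polynomial.X ^ 2 - Polynomial.C (1 / 2) * Polynomial.X + 1 := by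
        have h3 : (Polynomial.C r : ℂ[X]) * Polynomial.C (1 / 2 - r) = 1 := by
          rw [← Polynomial.C_mul, ← Polynomial.C_1]
          congr 1
          linear_combination (-1 / 2 : ℂ) * hr2
        have h4 : (Polynomial.C (1 / 2 - r) : ℂ[X]) = Polynomial.C (1 / 2) - Polynomial.C r := by
          rw [Polynomial.C_sub]
        linear_combination h3 + (-(Polynomial.X : ℂ[X])) * h4
      have h5 : (Polynomial.C (1 / 2) : ℂ[X]) * 2 = 1 := by
        have : (2 : ℂ[X]) = Polynomial.C 2 := (map_ofNat Polynomial.C 2).symm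
        rw [this, ← Polynomial.C_mul, ← Polynomial.C_1]
        norm_num
      have h6 : (Polynomial.X - Polynomial.C r : ℂ[X]) * D' =
          -(2 * Polynomial.X ^ 2 - Polynomial.X + 2) * (2 * Polynomial.X ^ 2 + Polynomial.X + 2) := by
        rw [hD']
        linear_combination (-2 * (2 * Polynomial.X ^ 2 + Polynomial.X + 2 : ℂ[X])) * h2 +
          (Polynomial.X * (2 * Polynomial.X ^ 2 + Polynomial.X + 2) : ℂ[X]) * h5
      rw [h6, hc]
      unfold chevR at h
      linear_combination (4 * (1 + Polynomial.X ^ 2) : ℂ[X]) * h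
    have hD'r : D'.eval r ≠ 0 := by
      rw [hD']
      simp only [Polynomial.eval_mul, Polynomial.eval_neg, Polynomial.eval_ofNat,
        Polynomial.eval_sub, Polynomial.eval_X, Polynomial.eval_C, Polynomial.eval_add,
        Polynomial.eval_pow]
      have e1 : r ≠ 0 := by
        intro h0
        rw [h0] at hr2
        norm_num at hr2
      have e2 : r - (1 / 2 - r) ≠ 0 := by
        intro h0
        have h3 : r = 1 / 4 := by linear_combination h0 / 2
        rw [h3] at hr2
        norm_num at hr2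
      have e3 : 2 * r ^ 2 + r + 2 ≠ 0 := by
        intro h0
        apply e1
        linear_combination (h0 - hr2) / 2
      exact mul_ne_zero (mul_ne_zero (by norm_num) e2) e3
    have hD'0 : D' ≠ 0 := by
      intro h0
      rw [h0] at hD'r
      simp at hD'r
    have hX : (Polynomial.X - Polynomial.C r : ℂ[X]) ≠ 0 := Polynomial.X_sub_C_ne_zero r
    have hne : a ^ 2 * ((Polynomial.X - Polynomial.C r) * D') ≠ 0 :=
      mul_ne_zero (pow_ne_zero _ ha) (mul_ne_zero hX hD'0)
    have hc0 : c ≠ 0 := by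
      intro h0
      rw [h0] at hD
      apply hne
      rw [← hD]
      simp
    have hm := congrArg (Polynomial.rootMultiplicity r) hD
    rw [Polynomial.rootMultiplicity_mul hne, Polynomial.rootMultiplicity_mul (mul_ne_zero hX hD'0),
      Polynomial.rootMultiplicity_X_sub_C_self, Polynomial.rootMultiplicity_eq_zero hD'r,
      pow_two, pow_two, Polynomial.rootMultiplicity_mul (mul_ne_zero hc0 hc0),
      Polynomial.rootMultiplicity_mul (mul_ne_zero ha ha)] at hm
    omega

/-- evaluation of a polynomial in two variables -/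
def chevEv {S : Type} [CommRing S] [Algebra ℂ S] (x y : S) : ℂ[X][X] →+* S :=
  Polynomial.eval₂RingHom (Polynomial.eval₂RingHom (algebraMap ℂ S) x) y

theorem chevEv_C {S : Type} [CommRing S] [Algebra ℂ S] (x y : S) (a : ℂ[X]) :
    chevEv x y (Polynomial.C a) = Polynomial.eval₂ (algebraMap ℂ S) x a := by
  simp [chevEv]

theorem chevEv_X {S : Type} [CommRing S] [Algebra ℂ S] (x y : S) :
    chevEv x y Polynomial.X = y := by
  simp [chevEv]

theorem chevEv_Q {S : Type} [CommRing S] [Algebra ℂ S] (x y : S) :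
    chevEv x y chevQ = (1 + x ^ 2) * (1 + y ^ 2) - x * y := by
  have h1 : chevEv x y (Polynomial.C (1 + Polynomial.X ^ 2)) = 1 + x ^ 2 := by
    rw [chevEv_C]; simp
  have h2 : chevEv x y (1 + Polynomial.X ^ 2) = 1 + y ^ 2 := by
    rw [map_add, map_one, map_pow, chevEv_X]
  have h3 : chevEv x y (Polynomial.C Polynomial.X) = x := by
    rw [chevEv_C]; simp
  unfold chevQ
  rw [map_sub, map_mul, map_mul, h1, h2, h3, chevEv_X]

/-- an element of a domain over `ℂ` which satisfies a nonzero polynomial equation is a constant -/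
theorem chev_const {S : Type} [CommRing S] [IsDomain S] [Algebra ℂ S] {x : S} {r : ℂ[X]}
    (hr : r ≠ 0) (h : Polynomial.eval₂ (algebraMap ℂ S) x r = 0) :
    ∃ α : ℂ, x = algebraMap ℂ S α := by
  have hs := IsAlgClosed.splits r
  rw [hs.eq_prod_roots, Polynomial.eval₂_mul, Polynomial.eval₂_C] at h
  rcases mul_eq_zero.1 h with h1 | h1
  · exfalso
    apply hr
    rw [← Polynomial.leadingCoeff_eq_zero]
    exact (map_eq_zero_iff _ (algebraMap ℂ S).injective).1 h1
  · rw [← Polynomial.coe_eval₂RingHom, map_multiset_prod, Multiset.prod_eq_zero_iff] at h1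
    simp only [Multiset.map_map, Multiset.mem_map, Function.comp] at h1
    obtain ⟨α, -, h2⟩ := h1
    refine ⟨α, ?_⟩
    simp only [Polynomial.coe_eval₂RingHom, Polynomial.eval₂_sub, Polynomial.eval₂_X,
      Polynomial.eval₂_C] at h2
    exact sub_eq_zero.1 h2

/-- the curve: all but finitely many of its points do not lie on `f = 0`, if `f` does not vanish at
a generic point -/
theorem chev_finite (r : ℂ[X]) (hr : r ≠ 0) :
    {z : ℂ × ℂ | (1 + z.1 ^ 2) * (1 + z.2 ^ 2) = z.1 * z.2 ∧ r.eval z.1 = 0}.Finite := by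
  have hsub : {z : ℂ × ℂ | (1 + z.1 ^ 2) * (1 + z.2 ^ 2) = z.1 * z.2 ∧ r.eval z.1 = 0} ⊆
      ⋃ x ∈ r.roots.toFinset, (fun y => (x, y)) '' {y : ℂ |
        ((Polynomial.C (1 + x ^ 2) * (1 + Polynomial.X ^ 2) - Polynomial.C x * Polynomial.X :
          ℂ[X])).IsRoot y} := by
    rintro ⟨x, y⟩ ⟨h1, h2⟩
    simp only [Set.mem_iUnion, exists_prop]
    refine ⟨x, ?_, y, ?_, rfl⟩
    · rw [Multiset.mem_toFinset, Polynomial.mem_roots hr]
      exact h2
    · simp only [Set.mem_setOf_eq, Polynomial.IsRoot.def, Polynomial.eval_sub, Polynomial.eval_mul,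
        Polynomial.eval_add, Polynomial.eval_C, Polynomial.eval_one, Polynomial.eval_pow,
        Polynomial.eval_X]
      linear_combination h1
  refine Set.Finite.subset ?_ hsub
  refine Set.Finite.biUnion (Finset.finite_toSet _) fun x _ => ?_
  refine Set.Finite.image _ ?_
  refine Polynomial.finite_setOf_isRoot ?_
  intro h0
  have e0 := congrArg (Polynomial.eval 0) h0
  have e1 := congrArg (Polynomial.eval 1) h0
  simp only [Polynomial.eval_sub, Polynomial.eval_mul,
        Polynomial.eval_add, Polynomial.eval_C, Polynomial.eval_one, Polynomial.eval_pow,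
        Polynomial.eval_X, Polynomial.eval_zero] at e0 e1
  have e2 : x = 0 := by linear_combination 2 * e0 - e1
  rw [e2] at e0
  norm_num at e0

end ChevPoly

/-- A non-constant rational map from an irreducible variety to the (irreducible) affine curve
`(1+x^2)(1+ρ^2) = xρ` hits all but finitely many points. -/
theorem chev {σ : Type} [Finite σ] (P : Ideal (MvPolynomial σ ℂ)) [P.IsPrime]
    {f al be ga de : MvPolynomial σ ℂ}
    (hrel : (be ^ 2 + al ^ 2) * (de ^ 2 + ga ^ 2) - al * be * (ga * de) ∈ P)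
    {z1 z2 : σ → ℂ} (hz1 : z1 ∈ zeroLocus ℂ P) (hz2 : z2 ∈ zeroLocus ℂ P)
    (hf1 : eval z1 f ≠ 0) (hbe1 : eval z1 be ≠ 0) (hde1 : eval z1 de ≠ 0)
    (hf2 : eval z2 f ≠ 0) (hbe2 : eval z2 be ≠ 0) (hde2 : eval z2 de ≠ 0)
    (hne : eval z1 al * eval z2 be ≠ eval z2 al * eval z1 be ∨
      eval z1 ga * eval z2 de ≠ eval z2 ga * eval z1 de) :
    ∃ N : Set (ℂ × ℂ), N.Finite ∧ ∀ x ρ : ℂ, (1 + x ^ 2) * (1 + ρ ^ 2) = x * ρ →
      (x, ρ) ∉ N → ∃ z ∈ zeroLocus ℂ P, eval z f ≠ 0 ∧ eval z be ≠ 0 ∧ eval z de ≠ 0 ∧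
        eval z al = x * eval z be ∧ eval z ga = ρ * eval z de := by
  -- the coordinate ring and its localization
  set g0 : MvPolynomial σ ℂ := f * be * de with hg0
  set gb : MvPolynomial σ ℂ ⧸ P := Ideal.Quotient.mk P g0 with hgb
  have hmem : ∀ z ∈ zeroLocus ℂ P, ∀ p ∈ P, eval z p = 0 := by
    intro z hz p hp
    have h1 := hz p hp
    have h2 : (aeval z) p = eval z p := by
      rw [← MvPolynomial.coe_aeval_eq_eval]
      rfl
    rwa [h2] at h1
  have hgb0 : gb ≠ 0 := by
    intro h0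
    rw [hgb, Ideal.Quotient.eq_zero_iff_mem] at h0
    have h1 := hmem z1 hz1 g0 h0
    rw [hg0, map_mul, map_mul] at h1
    exact mul_ne_zero (mul_ne_zero hf1 hbe1) hde1 h1
  let S := Localization.Away gb
  have hle : Submonoid.powers gb ≤ nonZeroDivisors (MvPolynomial σ ℂ ⧸ P) :=
    powers_le_nonZeroDivisors_of_noZeroDivisors hgb0
  haveI : IsDomain S := IsLocalization.isDomain_localization hle
  set j : MvPolynomial σ ℂ →+* S :=
    (algebraMap (MvPolynomial σ ℂ ⧸ P) S).comp (Ideal.Quotient.mk P) with hj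
  have hj0 : ∀ p : MvPolynomial σ ℂ, j p = 0 → p ∈ P := by
    intro p hp
    rw [hj, RingHom.comp_apply] at hp
    have h1 := (map_eq_zero_iff _ (IsLocalization.injective S hle)).1 hp
    rwa [Ideal.Quotient.eq_zero_iff_mem] at h1
  have hjC : ∀ c : ℂ, j (MvPolynomial.C c) = algebraMap ℂ S c := by
    intro c
    rw [hj, RingHom.comp_apply]
    rfl
  have hjg : IsUnit (j g0) := IsLocalization.Away.algebraMap_isUnit gb
  have hjbe : IsUnit (j be) := by
    rw [hg0, map_mul, map_mul] at hjg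
    exact isUnit_of_mul_isUnit_right (isUnit_of_mul_isUnit_left hjg)
  have hjde : IsUnit (j de) := by
    rw [hg0, map_mul, map_mul] at hjg
    exact isUnit_of_mul_isUnit_right hjg
  obtain ⟨ib, hib⟩ := hjbe.exists_right_inv
  obtain ⟨idd, hid⟩ := hjde.exists_right_inv
  set xb : S := j al * ib with hxb
  set rb : S := j ga * idd with hrb
  have hal : j al = xb * j be := by rw [hxb]; linear_combination -(j al) * hib
  have hga : j ga = rb * j de := by rw [hrb]; linear_combination -(j ga) * hid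
  have hcurve : (1 + xb ^ 2) * (1 + rb ^ 2) = xb * rb := by
    have h1 : j ((be ^ 2 + al ^ 2) * (de ^ 2 + ga ^ 2) - al * be * (ga * de)) = 0 := by
      rw [hj, RingHom.comp_apply, Ideal.Quotient.eq_zero_iff_mem.2 hrel, map_zero]
    simp only [map_sub, map_mul, map_add, map_pow, hal, hga] at h1
    have h2 : (j be) ^ 2 * (j de) ^ 2 * ((1 + xb ^ 2) * (1 + rb ^ 2) - xb * rb) = 0 := by
      linear_combination h1
    rcases mul_eq_zero.1 h2 with h3 | h3
    · exact absurd h3 (mul_ne_zero (pow_ne_zero _ hjbe.ne_zero) (pow_ne_zero _ hjde.ne_zero))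
    · exact sub_eq_zero.1 h3
  -- `xb` is transcendental
  have htr : ∀ r : Polynomial ℂ, Polynomial.eval₂ (algebraMap ℂ S) xb r = 0 → r = 0 := by
    intro r hr
    by_contra hr0
    obtain ⟨α, hα⟩ := chev_const hr0 hr
    have hr2 : Polynomial.eval₂ (algebraMap ℂ S) rb
        (Polynomial.C (1 + α ^ 2) * (1 + Polynomial.X ^ 2) - Polynomial.C α * Polynomial.X) = 0 := by
      simp only [Polynomial.eval₂_sub, Polynomial.eval₂_mul, Polynomial.eval₂_C,
        Polynomial.eval₂_add, Polynomial.eval₂_one, Polynomial.eval₂_pow, Polynomial.eval₂_X,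
        map_add, map_one, map_pow, ← hα]
      exact sub_eq_zero.2 hcurve
    have hr3 : (Polynomial.C (1 + α ^ 2) * (1 + Polynomial.X ^ 2) -
        Polynomial.C α * Polynomial.X : Polynomial ℂ) ≠ 0 := by
      intro h0
      have e0 := congrArg (Polynomial.eval 0) h0
      have e1 := congrArg (Polynomial.eval 1) h0
      simp only [Polynomial.eval_sub, Polynomial.eval_mul,
        Polynomial.eval_add, Polynomial.eval_C, Polynomial.eval_one, Polynomial.eval_pow,
        Polynomial.eval_X, Polynomial.eval_zero] at e0 e1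
      have e2 : α = 0 := by linear_combination 2 * e0 - e1
      rw [e2] at e0
      norm_num at e0
    obtain ⟨β, hβ⟩ := chev_const hr3 hr2
    have hcon : ∀ (γ : ℂ) (p q : MvPolynomial σ ℂ), j p = algebraMap ℂ S γ * j q →
        eval z1 p * eval z2 q = eval z2 p * eval z1 q := by
      intro γ p q hpq
      have h1 : p - MvPolynomial.C γ * q ∈ P := by
        apply hj0
        rw [map_sub, map_mul, hjC, hpq, sub_self]
      have h2 := hmem z1 hz1 _ h1
      have h3 := hmem z2 hz2 _ h1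
      rw [map_sub, map_mul, eval_C] at h2 h3
      linear_combination (eval z2 q) * h2 - (eval z1 q) * h3
    rcases hne with h | h
    · exact h (hcon α al be (by rw [hal, hα]))
    · exact h (hcon β ga de (by rw [hga, hβ]))
  have h1X : (1 + Polynomial.X ^ 2 : Polynomial ℂ) ≠ 0 := by
    intro h0
    have := congrArg (Polynomial.eval 0) h0
    simp at this
  -- the ring homomorphism from the polynomial ring in two variables
  set φ : Polynomial (Polynomial ℂ) →+* S := chevEv xb rb with hφ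
  have hφQ : φ chevQ = 0 := by
    rw [hφ, chevEv_Q, hcurve, sub_self]
  have hft : φ.FiniteType := by
    have h1 : (φ.comp (Polynomial.C.comp Polynomial.C)) = algebraMap ℂ S := by
      ext c
      simp [hφ, chevEv]
    have h2 : (algebraMap ℂ S).FiniteType := by
      rw [RingHom.finiteType_algebraMap]
      infer_instance
    rw [← h1] at h2
    exact RingHom.FiniteType.of_comp_finiteType h2
  have hfp : φ.FinitePresentation := RingHom.FinitePresentation.of_finiteType.1 hft
  have hcons := PrimeSpectrum.isConstructible_range_comap hfp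
  rw [← PrimeSpectrum.exists_constructibleSetData_iff] at hcons
  obtain ⟨D, hD⟩ := hcons
  have hbot : PrimeSpectrum.comap φ ⊥ ∈ D.toSet := by
    rw [hD]
    exact ⟨⊥, rfl⟩
  rw [PrimeSpectrum.ConstructibleSetData.toSet, Set.mem_iUnion₂] at hbot
  obtain ⟨E, hE, hbE⟩ := hbot
  have hbE2 : (∀ i, φ (E.g i) = 0) ∧ φ E.f ≠ 0 := by
    rw [PrimeSpectrum.BasicConstructibleSetData.toSet, Set.mem_diff, PrimeSpectrum.mem_zeroLocus,
      PrimeSpectrum.mem_zeroLocus] at hbE
    refine ⟨fun i => ?_, fun h0 => hbE.2 ?_⟩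
    · have h1 := hbE.1 ⟨i, rfl⟩
      have h2 : φ (E.g i) ∈ (⊥ : PrimeSpectrum S).asIdeal := h1
      exact (Ideal.mem_bot).1 h2
    · intro q hq
      rw [Set.mem_singleton_iff.1 hq]
      change φ E.f ∈ (⊥ : PrimeSpectrum S).asIdeal
      rw [h0]
      exact Ideal.zero_mem _
  obtain ⟨hEg, hEf⟩ := hbE2
  -- elements of the kernel vanish on the curve
  have hker : ∀ p : Polynomial (Polynomial ℂ), φ p = 0 → ∀ x ρ : ℂ,
      (1 + x ^ 2) * (1 + ρ ^ 2) = x * ρ → 1 + x ^ 2 ≠ 0 → chevEv x ρ p = 0 := by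
    intro p hp x ρ hx hx2
    obtain ⟨k, q, a, b, e⟩ := chev_pseudo p
    have e1 := congrArg φ e
    rw [map_mul, hp, mul_zero, map_add, map_add, map_mul, hφQ, zero_mul, zero_add, map_mul] at e1
    rw [hφ, chevEv_C, chevEv_C, chevEv_X] at e1
    have hR : chevR a b = 0 := by
      apply htr
      unfold chevR
      simp only [Polynomial.eval₂_add, Polynomial.eval₂_mul, Polynomial.eval₂_pow,
        Polynomial.eval₂_one, Polynomial.eval₂_X]
      set A := Polynomial.eval₂ (algebraMap ℂ S) xb a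
      set B := Polynomial.eval₂ (algebraMap ℂ S) xb b
      linear_combination A ^ 2 * hcurve - ((1 + xb ^ 2) * (B - A * rb) + xb * A) * e1
    obtain ⟨ha, hb⟩ := chev_disc a b hR
    have e2 := congrArg (chevEv x ρ) e
    rw [ha, hb, map_mul, map_add, map_add, map_mul, chevEv_Q, chevEv_C] at e2
    simp only [Polynomial.eval₂_pow, Polynomial.eval₂_add, Polynomial.eval₂_one,
      Polynomial.eval₂_X, map_zero, zero_mul, add_zero, hx, sub_self] at e2
    exact (mul_eq_zero.1 e2).resolve_left (pow_ne_zero _ hx2)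
  obtain ⟨k, q, a, b, e⟩ := chev_pseudo E.f
  have hR : chevR a b ≠ 0 := by
    intro h0
    obtain ⟨ha, hb⟩ := chev_disc a b h0
    have e1 := congrArg φ e
    rw [ha, hb, map_mul, map_add, map_add, map_mul, hφQ] at e1
    simp only [map_zero, zero_mul, add_zero] at e1
    rcases mul_eq_zero.1 e1 with h1 | h1
    · rw [hφ, chevEv_C] at h1
      exact pow_ne_zero _ h1X (htr _ h1)
    · exact hEf h1
  refine ⟨{z : ℂ × ℂ | (1 + z.1 ^ 2) * (1 + z.2 ^ 2) = z.1 * z.2 ∧
    ((1 + Polynomial.X ^ 2) * chevR a b : Polynomial ℂ).eval z.1 = 0},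
    chev_finite _ (mul_ne_zero h1X hR), ?_⟩
  intro x ρ hx hN
  have hN2 : ((1 + Polynomial.X ^ 2) * chevR a b : Polynomial ℂ).eval x ≠ 0 := fun h => hN ⟨hx, h⟩
  rw [Polynomial.eval_mul] at hN2
  have hx2 : 1 + x ^ 2 ≠ 0 := by
    have := left_ne_zero_of_mul hN2
    simpa using this
  have hRx : (chevR a b).eval x ≠ 0 := right_ne_zero_of_mul hN2
  -- the point as a prime ideal
  set ψ : Polynomial (Polynomial ℂ) →+* ℂ := chevEv x ρ with hψ
  have hψE : ψ E.f ≠ 0 := by
    intro h0
    have e1 := congrArg ψ e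
    rw [map_mul, h0, mul_zero, map_add, map_add, map_mul, map_mul, hψ, chevEv_Q, chevEv_C, chevEv_C,
      chevEv_X, hx, sub_self, zero_mul, zero_add] at e1
    apply hRx
    unfold chevR
    have ea : Polynomial.eval₂ (algebraMap ℂ ℂ) x a = a.eval x := rfl
    have eb : Polynomial.eval₂ (algebraMap ℂ ℂ) x b = b.eval x := rfl
    rw [ea, eb] at e1
    simp only [Polynomial.eval_add, Polynomial.eval_mul, Polynomial.eval_pow,
        Polynomial.eval_one, Polynomial.eval_X]
    linear_combination (a.eval x) ^ 2 * hx -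
      ((1 + x ^ 2) * (b.eval x - a.eval x * ρ) + x * a.eval x) * e1
  let 𝔪 : PrimeSpectrum (Polynomial (Polynomial ℂ)) := ⟨RingHom.ker ψ, RingHom.ker_isPrime ψ⟩
  have h𝔪 : 𝔪 ∈ D.toSet := by
    rw [PrimeSpectrum.ConstructibleSetData.toSet, Set.mem_iUnion₂]
    refine ⟨E, hE, ?_⟩
    rw [PrimeSpectrum.BasicConstructibleSetData.toSet, Set.mem_diff, PrimeSpectrum.mem_zeroLocus,
      PrimeSpectrum.mem_zeroLocus]
    constructor
    · rintro q ⟨i, rfl⟩
      change ψ (E.g i) = 0
      exact hker _ (hEg i) x ρ hx hx2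
    · intro h0
      exact hψE (h0 (Set.mem_singleton _))
  rw [hD] at h𝔪
  obtain ⟨𝔓, h𝔓⟩ := h𝔪
  have h𝔓2 : ∀ q, φ q ∈ 𝔓.asIdeal ↔ ψ q = 0 := by
    intro q
    have h1 : q ∈ (PrimeSpectrum.comap φ 𝔓).asIdeal ↔ q ∈ 𝔪.asIdeal := by rw [h𝔓]
    exact h1
  haveI : 𝔓.asIdeal.IsPrime := 𝔓.2
  set J : Ideal (MvPolynomial σ ℂ) := 𝔓.asIdeal.comap j with hJ
  haveI : J.IsPrime := Ideal.IsPrime.comap j
  have hJg : g0 ∉ J := by
    intro h0
    exact 𝔓.2.ne_top (Ideal.eq_top_of_isUnit_mem _ h0 hjg)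
  have hex : ∃ z ∈ zeroLocus ℂ J, eval z g0 ≠ 0 := by
    by_contra hcon
    push Not at hcon
    apply hJg
    rw [← MvPolynomial.IsPrime.vanishingIdeal_zeroLocus (K := ℂ) J,
      MvPolynomial.mem_vanishingIdeal_iff]
    intro z hz
    rw [← hcon z hz, ← MvPolynomial.coe_aeval_eq_eval]
    rfl
  obtain ⟨z, hz, hzg⟩ := hex
  have hzJ : ∀ p ∈ J, eval z p = 0 := by
    intro p hp
    have h1 := hz p hp
    have h2 : (aeval z) p = eval z p := by
      rw [← MvPolynomial.coe_aeval_eq_eval]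
      rfl
    rwa [h2] at h1
  have hPJ : P ≤ J := by
    intro p hp
    change j p ∈ 𝔓.asIdeal
    rw [hj, RingHom.comp_apply, Ideal.Quotient.eq_zero_iff_mem.2 hp, map_zero]
    exact Ideal.zero_mem _
  rw [hg0, map_mul, map_mul] at hzg
  have hx1 : xb - algebraMap ℂ S x ∈ 𝔓.asIdeal := by
    have h1 := (h𝔓2 (Polynomial.C (Polynomial.X - Polynomial.C x))).2 (by
      rw [hψ, chevEv_C]; simp)
    rwa [hφ, chevEv_C, Polynomial.eval₂_sub, Polynomial.eval₂_X, Polynomial.eval₂_C] at h1
  have hr1 : rb - algebraMap ℂ S ρ ∈ 𝔓.asIdeal := by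
    have h1 := (h𝔓2 (Polynomial.X - Polynomial.C (Polynomial.C ρ))).2 (by
      rw [map_sub, hψ, chevEv_C, chevEv_X]; simp)
    rwa [map_sub, hφ, chevEv_C, chevEv_X, Polynomial.eval₂_C] at h1
  refine ⟨z, fun p hp => hz p (hPJ hp), left_ne_zero_of_mul (left_ne_zero_of_mul hzg),
    right_ne_zero_of_mul (left_ne_zero_of_mul hzg), right_ne_zero_of_mul hzg, ?_, ?_⟩
  · have h1 : al - MvPolynomial.C x * be ∈ J := by
      change j (al - MvPolynomial.C x * be) ∈ 𝔓.asIdeal
      have h2 : j (al - MvPolynomial.C x * be) = (xb - algebraMap ℂ S x) * j be := by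
        rw [map_sub, map_mul, hjC, hal]
        ring
      rw [h2]
      exact Ideal.mul_mem_right _ _ hx1
    have h3 := hzJ _ h1
    rw [map_sub, map_mul, eval_C] at h3
    exact sub_eq_zero.1 h3
  · have h1 : ga - MvPolynomial.C ρ * de ∈ J := by
      change j (ga - MvPolynomial.C ρ * de) ∈ 𝔓.asIdeal
      have h2 : j (ga - MvPolynomial.C ρ * de) = (rb - algebraMap ℂ S ρ) * j de := by
        rw [map_sub, map_mul, hjC, hga]
        ring
      rw [h2]
      exact Ideal.mul_mem_right _ _ hr1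
    have h3 := hzJ _ h1
    rw [map_sub, map_mul, eval_C] at h3
    exact sub_eq_zero.1 h3

end

end Pool.Agent.DPFib
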