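import Pool.Agent.DPFib.Defs

/-!
# MP_9669a9_ag, module F: irreducible components of sets of points
-/

namespace Pool.Agent.DPFib

open MvPolynomial

set_option linter.unusedSectionVars false

noncomputable section

/-- minimal primes of a finite intersection of primes are among these primes -/
theorem minimalPrimes_subset_of_inf {R : Type*} [CommRing R] {ι : Type*} (s : Finset ι)
    (J : ι → Ideal R) (hJ : ∀ i ∈ s, (J i).IsPrime) (I : Ideal R) (hI : s.inf J = I)
    {P : Ideal R} (hP : P ∈ I.minimalPrimes) : ∃ i ∈ s, J i = P := by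
  have hprime : P.IsPrime := hP.1.1
  have hle : s.inf J ≤ P := by rw [hI]; exact hP.1.2
  obtain ⟨i, hi, hiP⟩ := (Ideal.IsPrime.inf_le' hprime).mp hle
  refine ⟨i, hi, le_antisymm hiP ?_⟩
  exact hP.2 ⟨hJ i hi, by rw [← hI]; exact Finset.inf_le hi⟩ hiP

variable {σ : Type*} [Finite σ] {Z Z1 Z2 : Set (σ → ℂ)}

omit [Finite σ] in
theorem vanishingIdeal_radical (Z : Set (σ → ℂ)) :
    (vanishingIdeal ℂ Z : Ideal (MvPolynomial σ ℂ)).radical = vanishingIdeal ℂ Z := by
  refine le_antisymm ?_ Ideal.le_radical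
  intro f hf
  obtain ⟨n, hn⟩ := hf
  intro z hz
  have h1 := hn z hz
  rw [map_pow] at h1
  exact eq_zero_of_pow_eq_zero h1

theorem comps_finite (Z : Set (σ → ℂ)) : (comps Z).Finite :=
  Ideal.finite_minimalPrimes_of_isNoetherianRing _ _

theorem comps_isPrime {P : Ideal (MvPolynomial σ ℂ)} (hP : P ∈ comps Z) : P.IsPrime := hP.1.1

theorem vanishingIdeal_eq_inf (Z : Set (σ → ℂ)) :
    (comps_finite Z).toFinset.inf id = (vanishingIdeal ℂ Z : Ideal (MvPolynomial σ ℂ)) := by
  rw [← vanishingIdeal_radical Z, ← Ideal.sInf_minimalPrimes, Finset.inf_id_eq_sInf]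
  congr 1
  ext P
  simp [comps]

/-- Every component has a polynomial that vanishes on all the other components only. -/
theorem comps_isolate {P : Ideal (MvPolynomial σ ℂ)} (hP : P ∈ comps Z) :
    ∃ h ∉ P, ∀ P' ∈ comps Z, P' ≠ P → h ∈ P' := by
  classical
  have hprime : P.IsPrime := hP.1.1
  have h1 : ∀ P' ∈ comps Z, P' ≠ P → ∃ h ∈ P', h ∉ P := by
    intro P' hP' hne
    by_contra hcon
    push Not at hcon
    have hle : P' ≤ P := hcon
    exact hne (le_antisymm hle (hP.2 hP'.1 hle))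
  choose! f hf1 hf2 using h1
  refine ⟨∏ P' ∈ (comps_finite Z).toFinset.erase P, f P', ?_, ?_⟩
  · intro hmem
    rw [Ideal.IsPrime.prod_mem_iff] at hmem
    obtain ⟨P', hP', hin⟩ := hmem
    rw [Finset.mem_erase, Set.Finite.mem_toFinset] at hP'
    exact hf2 P' hP'.2 hP'.1 hin
  · intro P' hP' hne
    refine Ideal.mem_of_dvd _ (Finset.dvd_prod_of_mem f ?_) (hf1 P' hP' hne)
    rw [Finset.mem_erase, Set.Finite.mem_toFinset]
    exact ⟨hne, hP'⟩

theorem comps_cover {z : σ → ℂ} (hz : z ∈ Z) : ∃ P ∈ comps Z, z ∈ zeroLocus ℂ P := by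
  have hle : vanishingIdeal ℂ Z ≤ (vanishingIdeal ℂ {z} : Ideal (MvPolynomial σ ℂ)) :=
    vanishingIdeal_anti_mono (by simpa using hz)
  have : (vanishingIdeal ℂ {z} : Ideal (MvPolynomial σ ℂ)).IsPrime := inferInstance
  obtain ⟨P, hP, hPle⟩ := Ideal.exists_minimalPrimes_le hle
  refine ⟨P, hP, ?_⟩
  intro p hp
  exact hPle hp z rfl

theorem comps_vanishingIdeal_inter {P : Ideal (MvPolynomial σ ℂ)} (hP : P ∈ comps Z) :
    vanishingIdeal ℂ (Z ∩ zeroLocus ℂ P) = P := by
  have hprime : P.IsPrime := hP.1.1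
  refine le_antisymm ?_ ?_
  · intro f hf
    obtain ⟨h, hh, hiso⟩ := comps_isolate hP
    have hmem : f * h ∈ (vanishingIdeal ℂ Z : Ideal (MvPolynomial σ ℂ)) := by
      intro z hz
      rw [map_mul]
      obtain ⟨P', hP', hzP'⟩ := comps_cover hz
      by_cases heq : P' = P
      · subst heq
        rw [hf z ⟨hz, hzP'⟩, zero_mul]
      · rw [hzP' h (hiso P' hP' heq), mul_zero]
    rcases hprime.mem_or_mem (hP.1.2 hmem) with h1 | h1
    · exact h1
    · exact absurd h1 hh
  · intro f hf z hz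
    exact hz.2 f hf

theorem comps_le (h : Z1 ⊆ Z2) {Q : Ideal (MvPolynomial σ ℂ)} (hQ : Q ∈ comps Z1) :
    ∃ P ∈ comps Z2, P ≤ Q := by
  have : Q.IsPrime := hQ.1.1
  exact Ideal.exists_minimalPrimes_le ((vanishingIdeal_anti_mono h).trans hQ.1.2)

theorem comps_ncard_le_of_cover {ι : Type*} [Finite ι] (Y : ι → Set (σ → ℂ))
    (hZ : Z = ⋃ i, Y i) (hY : ∀ i, (vanishingIdeal ℂ (Y i)).IsPrime) :
    (comps Z).ncard ≤ Nat.card ι := by
  classical
  have : Fintype ι := Fintype.ofFinite ι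
  have hinf : (Finset.univ : Finset ι).inf (fun i => vanishingIdeal ℂ (Y i)) =
      (vanishingIdeal ℂ Z : Ideal (MvPolynomial σ ℂ)) := by
    ext f
    rw [Submodule.mem_finsetInf]
    constructor
    · intro h z hz
      rw [hZ] at hz
      obtain ⟨i, hi⟩ := Set.mem_iUnion.mp hz
      exact h i (Finset.mem_univ i) z hi
    · intro h i _ z hz
      exact h z (by rw [hZ]; exact Set.mem_iUnion.mpr ⟨i, hz⟩)
  have hsub : comps Z ⊆ Set.range (fun i => (vanishingIdeal ℂ (Y i) : Ideal (MvPolynomial σ ℂ))) := by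
    intro P hP
    obtain ⟨i, _, hi⟩ := minimalPrimes_subset_of_inf Finset.univ _ (fun i _ => hY i) _ hinf hP
    exact ⟨i, hi⟩
  calc (comps Z).ncard ≤ (Set.range (fun i => (vanishingIdeal ℂ (Y i) :
        Ideal (MvPolynomial σ ℂ)))).ncard := Set.ncard_le_ncard hsub (Set.finite_range _)
    _ ≤ Nat.card ι := by
        rw [← Set.image_univ, ← Set.ncard_univ]
        exact Set.ncard_image_le Set.finite_univ

theorem comps_ncard_le_of_surj {σ' : Type*} [Finite σ'] {Z' : Set (σ' → ℂ)}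
    (φ : σ' → MvPolynomial σ ℂ) (hφ : (fun z i => eval z (φ i)) '' Z = Z') :
    (comps Z').ncard ≤ (comps Z).ncard := by
  classical
  set Φ : MvPolynomial σ' ℂ →ₐ[ℂ] MvPolynomial σ ℂ := aeval φ with hΦ
  have heval : ∀ (z : σ → ℂ) (f : MvPolynomial σ' ℂ),
      aeval z (Φ f) = aeval (fun i => eval z (φ i)) f := by
    intro z f
    have : ((aeval z : MvPolynomial σ ℂ →ₐ[ℂ] ℂ).comp Φ) =
        (aeval (fun i => eval z (φ i)) : MvPolynomial σ' ℂ →ₐ[ℂ] ℂ) := by
      ext i
      simp [hΦ, aeval_eq_eval]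
    exact DFunLike.congr_fun this f
  have hcomap : ∀ f : MvPolynomial σ' ℂ, f ∈ (vanishingIdeal ℂ Z' : Ideal (MvPolynomial σ' ℂ)) ↔
      Φ f ∈ (vanishingIdeal ℂ Z : Ideal (MvPolynomial σ ℂ)) := by
    intro f
    constructor
    · intro h z hz
      rw [heval]
      exact h _ (by rw [← hφ]; exact ⟨z, hz, rfl⟩)
    · intro h z' hz'
      rw [← hφ] at hz'
      obtain ⟨z, hz, rfl⟩ := hz'
      have := h z hz
      rwa [heval] at this
  have hinf : (comps_finite Z).toFinset.inf (fun P => P.comap Φ.toRingHom) =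
      (vanishingIdeal ℂ Z' : Ideal (MvPolynomial σ' ℂ)) := by
    ext f
    rw [Submodule.mem_finsetInf, hcomap, ← vanishingIdeal_eq_inf Z, Submodule.mem_finsetInf]
    rfl
  have hsub : comps Z' ⊆ (fun P : Ideal (MvPolynomial σ ℂ) => P.comap Φ.toRingHom) '' comps Z := by
    intro Q hQ
    obtain ⟨P, hP, hPQ⟩ := minimalPrimes_subset_of_inf _ _ (fun P hP => by
      have : P.IsPrime := comps_isPrime ((Set.Finite.mem_toFinset _).mp hP)
      exact Ideal.IsPrime.comap _) _ hinf hQ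
    exact ⟨P, (Set.Finite.mem_toFinset _).mp hP, hPQ⟩
  exact (Set.ncard_le_ncard hsub ((comps_finite Z).image _)).trans
    (Set.ncard_image_le (comps_finite Z))

end

end Pool.Agent.DPFib
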