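import Pool.Agent.DPFib.Basic
import Pool.Agent.DPFib.Alg

/-!
# MP_9669a9_ag, module D: the sign of a section
-/

namespace Pool.Agent.DPFib

open Polynomial

noncomputable section

section SignRing

variable {R S : Type*} [CommRing R] [CommRing S]

/-- resultants are multiplicative in the second argument, any format -/
theorem resultant_mul_right_format (f g₁ g₂ : R[X]) (m n₁ n₂ : ℕ) (hm : f.natDegree ≤ m)
    (h1 : g₁.natDegree ≤ n₁) (h2 : g₂.natDegree ≤ n₂) :
    resultant f (g₁ * g₂) m (n₁ + n₂) = resultant f g₁ m n₁ * resultant f g₂ m n₂ := by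
  obtain ⟨k₁, rfl⟩ := Nat.exists_eq_add_of_le h1
  obtain ⟨k₂, rfl⟩ := Nat.exists_eq_add_of_le h2
  have e : g₁.natDegree + k₁ + (g₂.natDegree + k₂) =
      (g₁.natDegree + g₂.natDegree) + (k₁ + k₂) := by ring
  rw [e, resultant_add_right_deg _ _ _ _ _ natDegree_mul_le,
    resultant_mul_right _ _ _ _ hm, resultant_add_right_deg _ _ _ _ _ le_rfl,
    resultant_add_right_deg _ _ _ _ _ le_rfl]
  ring

/-- the quadratic polynomial in the parameter -/
def psi (l : R) (u0 u1 v0 v1 : R[X]) : R[X] :=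
  C (l ^ 2) * (u0 * v0) + C (2 * l) * ((u0 + u1) * (v0 + v1)) + u1 * v1

/-- the square root of `B` modulo `psi` -/
def tee (l : R) (u0 u1 v0 v1 : R[X]) : R[X] :=
  (u0 + u1) * (v0 + v1) + C l * (u0 * v0)

theorem tee_sq (l : R) (u0 u1 v0 v1 : R[X]) :
    tee l u0 u1 v0 v1 * tee l u0 u1 v0 v1 =
      Bf u0 u1 v0 v1 + psi l u0 u1 v0 v1 * (u0 * v0) := by
  simp only [tee, psi, Bf, map_mul, map_pow, map_ofNat]
  ring

theorem map_psi (φ : R →+* S) (l : R) (u0 u1 v0 v1 : R[X]) :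
    (psi l u0 u1 v0 v1).map φ = psi (φ l) (u0.map φ) (u1.map φ) (v0.map φ) (v1.map φ) := by
  simp only [psi, Polynomial.map_add, Polynomial.map_mul, Polynomial.map_C,
    RingHom.map_mul φ, RingHom.map_pow φ, map_ofNat φ]

theorem map_tee (φ : R →+* S) (l : R) (u0 u1 v0 v1 : R[X]) :
    (tee l u0 u1 v0 v1).map φ = tee (φ l) (u0.map φ) (u1.map φ) (v0.map φ) (v1.map φ) := by
  simp only [tee, Polynomial.map_add, Polynomial.map_mul, map_C]

variable {a b : ℕ} {u0 u1 v0 v1 w : R[X]}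

theorem natDegree_mul_le_add {f g : R[X]} {m n : ℕ} (hf : f.natDegree ≤ m)
    (hg : g.natDegree ≤ n) : (f * g).natDegree ≤ m + n :=
  natDegree_mul_le.trans (add_le_add hf hg)

theorem natDegree_psi (l : R) (hu0 : u0.natDegree ≤ a) (hu1 : u1.natDegree ≤ a)
    (hv0 : v0.natDegree ≤ b) (hv1 : v1.natDegree ≤ b) :
    (psi l u0 u1 v0 v1).natDegree ≤ a + b := by
  unfold psi
  refine natDegree_add_le_of_degree_le (natDegree_add_le_of_degree_le ?_ ?_) ?_
  · exact (natDegree_C_mul_le _ _).trans (natDegree_mul_le_add hu0 hv0)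
  · exact (natDegree_C_mul_le _ _).trans (natDegree_mul_le_add
      (natDegree_add_le_of_degree_le hu0 hu1) (natDegree_add_le_of_degree_le hv0 hv1))
  · exact natDegree_mul_le_add hu1 hv1

theorem natDegree_tee (l : R) (hu0 : u0.natDegree ≤ a) (hu1 : u1.natDegree ≤ a)
    (hv0 : v0.natDegree ≤ b) (hv1 : v1.natDegree ≤ b) :
    (tee l u0 u1 v0 v1).natDegree ≤ a + b := by
  unfold tee
  refine natDegree_add_le_of_degree_le ?_ ?_
  · exact natDegree_mul_le_add
      (natDegree_add_le_of_degree_le hu0 hu1) (natDegree_add_le_of_degree_le hv0 hv1)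
  · exact (natDegree_C_mul_le _ _).trans (natDegree_mul_le_add hu0 hv0)

theorem resultant_psi_tee (hab : 1 ≤ a + b) (l : R) (hu0 : u0.natDegree ≤ a)
    (hu1 : u1.natDegree ≤ a) (hv0 : v0.natDegree ≤ b) (hv1 : v1.natDegree ≤ b)
    (hw : w.natDegree ≤ a + b - 1) (hE : X * w ^ 2 = Bf u0 u1 v0 v1) :
    resultant (psi l u0 u1 v0 v1) (tee l u0 u1 v0 v1) (a + b) (a + b) ^ 2 =
      (-1) ^ (a + b) * (psi l u0 u1 v0 v1).coeff (a + b) * (psi l u0 u1 v0 v1).coeff 0 *
        resultant (psi l u0 u1 v0 v1) w (a + b) (a + b - 1) ^ 2 := by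
  have hpsi := natDegree_psi l hu0 hu1 hv0 hv1
  have htee := natDegree_tee l hu0 hu1 hv0 hv1
  set P := psi l u0 u1 v0 v1 with hP
  set T := tee l u0 u1 v0 v1 with hT
  rw [pow_two, ← resultant_mul_right_format P T T (a + b) (a + b) (a + b) hpsi htee htee, hT,
    tee_sq, ← hP, resultant_add_mul_right _ _ _ _ _ (by
      have := natDegree_mul_le_add hu0 hv0
      omega) hpsi]
  · rw [← hE]
    have e : a + b + (a + b) = 2 + ((a + b - 1) + (a + b - 1)) := by omega
    rw [e, resultant_mul_right_format P X (w ^ 2) (a + b) 2 _ hpsi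
      (natDegree_X_le.trans (by norm_num)) (by
        rw [pow_two]; exact natDegree_mul_le_add hw hw), pow_two w,
      resultant_mul_right_format P w w _ _ _ hpsi hw hw]
    have e2 : resultant P X (a + b) 2 = P.coeff (a + b) * ((-1) ^ (a + b) * P.coeff 0) := by
      have h1 : resultant P X (a + b) 2 = resultant P X (a + b) (1 + 1) := rfl
      rw [h1, resultant_add_right_deg _ _ _ _ _ natDegree_X_le, pow_one]
      congr 1
      have h2 := resultant_X_sub_C_right P (a + b) (0 : R) hpsi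
      rw [C_0, sub_zero] at h2
      rw [h2, coeff_zero_eq_eval_zero]
    rw [e2]
    ring

theorem coeff_zero_tee_sq (l : R) (hE : X * w ^ 2 = Bf u0 u1 v0 v1) :
    (tee l u0 u1 v0 v1).coeff 0 ^ 2 =
      (psi l u0 u1 v0 v1).coeff 0 * (u0.coeff 0 * v0.coeff 0) := by
  have h := congrArg (fun p : R[X] => p.coeff 0) (tee_sq l u0 u1 v0 v1)
  simp only [coeff_add, mul_coeff_zero, ← hE, coeff_X_zero, zero_mul, zero_add] at h
  rw [pow_two, h]

end SignRing

section SignC

/-- a good parameter exists -/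
theorem exists_param {u0 u1 v0 v1 w : ℂ[X]} (hu : IsCoprime u0 u1) (hv : IsCoprime v0 v1)
    (hw : w ≠ 0) (hE : X * w ^ 2 = Bf u0 u1 v0 v1) (h0 : u0.coeff 0 * v0.coeff 0 ≠ 0) :
    ∃ l : ℂ, l ≠ 0 ∧ (tee l u0 u1 v0 v1).coeff 0 ≠ 0 ∧ IsCoprime (psi l u0 u1 v0 v1) w := by
  classical
  set Q : ℂ → ℂ[X] := fun r => C (u0.eval r * v0.eval r) * X ^ 2 +
    C (2 * ((u0.eval r + u1.eval r) * (v0.eval r + v1.eval r))) * X +
    C (u1.eval r * v1.eval r) with hQ
  have hQ0 : ∀ r ∈ w.roots.toFinset, Q r ≠ 0 := by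
    intro r hr hzero
    have hr0 : w.eval r = 0 := by
      rw [Multiset.mem_toFinset, mem_roots hw] at hr
      exact hr
    have hB := congrArg (fun p : ℂ[X] => p.eval r) hE
    simp only [Bf, eval_mul, eval_X, eval_pow, eval_sub, eval_add, hr0] at hB
    have c0 : u1.eval r * v1.eval r = 0 := by
      have := congrArg (fun p : ℂ[X] => p.eval 0) hzero
      simpa [hQ] using this
    have c2 : u0.eval r * v0.eval r = 0 := by
      have := congrArg (fun p : ℂ[X] => p.coeff 2) hzero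
      simp only [hQ, coeff_add, coeff_C_mul, coeff_X_pow, coeff_X, coeff_C, coeff_zero] at this
      simpa using this
    have hu' : u0.eval r ≠ 0 ∨ u1.eval r ≠ 0 := by
      obtain ⟨p, q, e⟩ := hu
      by_contra hcon
      push Not at hcon
      have := congrArg (fun p : ℂ[X] => p.eval r) e
      simp [hcon.1, hcon.2] at this
    have hv' : v0.eval r ≠ 0 ∨ v1.eval r ≠ 0 := by
      obtain ⟨p, q, e⟩ := hv
      by_contra hcon
      push Not at hcon
      have := congrArg (fun p : ℂ[X] => p.eval r) e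
      simp [hcon.1, hcon.2] at this
    have hphi : (u0.eval r + u1.eval r) * (v0.eval r + v1.eval r) = 0 := by
      have : ((u0.eval r + u1.eval r) * (v0.eval r + v1.eval r)) ^ 2 = 0 := by
        have c3 : u0.eval r * v0.eval r * (u1.eval r * v1.eval r) = 0 := by rw [c2, zero_mul]
        linear_combination -hB + c3
      exact pow_eq_zero_iff (two_ne_zero) |>.mp this
    generalize u0.eval r = p0 at *
    generalize u1.eval r = p1 at *
    generalize v0.eval r = q0 at *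
    generalize v1.eval r = q1 at *
    rcases mul_eq_zero.mp c2 with hp0 | hq0
    · subst hp0
      have hp1 : p1 ≠ 0 := by simpa using hu'
      have hq1 : q1 = 0 := by
        rcases mul_eq_zero.mp c0 with h | h
        · exact absurd h hp1
        · exact h
      subst hq1
      have hq0 : q0 ≠ 0 := by simpa using hv'
      rw [zero_add, add_zero] at hphi
      exact (mul_ne_zero hp1 hq0) hphi
    · subst hq0
      have hq1 : q1 ≠ 0 := by simpa using hv'
      have hp1 : p1 = 0 := by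
        rcases mul_eq_zero.mp c0 with h | h
        · exact h
        · exact absurd h hq1
      subst hp1
      have hp0 : p0 ≠ 0 := by simpa using hu'
      rw [zero_add, add_zero] at hphi
      exact (mul_ne_zero hp0 hq1) hphi
  have hne : X * (C ((u0.coeff 0 + u1.coeff 0) * (v0.coeff 0 + v1.coeff 0)) +
      C (u0.coeff 0 * v0.coeff 0) * X) * ∏ r ∈ w.roots.toFinset, Q r ≠ 0 := by
    refine mul_ne_zero (mul_ne_zero X_ne_zero ?_) (Finset.prod_ne_zero_iff.mpr hQ0)
    intro hz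
    have := congrArg (fun p : ℂ[X] => p.coeff 1) hz
    simp only [coeff_add, coeff_C_mul, coeff_X, coeff_C, coeff_zero] at this
    apply h0
    simpa using this
  obtain ⟨l, hl⟩ := exists_eval_ne_zero_of_natDegree_lt_card _ hne
    (lt_of_lt_of_le (Cardinal.natCast_lt_aleph0) (Cardinal.aleph0_le_mk ℂ))
  rw [eval_mul, eval_mul, eval_prod, eval_X] at hl
  have hl1 := left_ne_zero_of_mul (left_ne_zero_of_mul hl)
  have hl2 := right_ne_zero_of_mul (left_ne_zero_of_mul hl)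
  have hl3 := right_ne_zero_of_mul hl
  refine ⟨l, hl1, ?_, ?_⟩
  · intro hz
    apply hl2
    simp only [tee, coeff_add, mul_coeff_zero, coeff_C_zero] at hz
    simp only [eval_add, eval_C, eval_mul, eval_X]
    linear_combination hz
  · rw [isCoprime_iff_aeval_ne_zero_of_isAlgClosed (k := ℂ) (K := ℂ)]
    intro r
    by_contra hcon
    push Not at hcon
    obtain ⟨e1, e2⟩ := hcon
    simp only [coe_aeval_eq_eval] at e1 e2
    have hr : r ∈ w.roots.toFinset := by
      rw [Multiset.mem_toFinset, mem_roots hw]; exact e2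
    have := (Finset.prod_ne_zero_iff.mp hl3) r hr
    apply this
    simp only [hQ, eval_add, eval_C, eval_mul, eval_X, eval_pow]
    simp only [psi, eval_add, eval_C, eval_mul] at e1
    linear_combination e1

/-- nonvanishing of a resultant of format `(n, n - 1)` -/
theorem resultant_ne_zero_of_coprime {P w : ℂ[X]} {n m : ℕ} (hP : P.natDegree ≤ n)
    (hn : P.coeff n ≠ 0) (hw : w.natDegree ≤ m) (hc : IsCoprime P w) :
    resultant P w n m ≠ 0 := by
  have hfn : P.natDegree = n := le_antisymm hP (le_natDegree_of_ne_zero hn)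
  obtain ⟨k, rfl⟩ := Nat.exists_eq_add_of_le hw
  rw [resultant_add_right_deg _ _ _ _ _ le_rfl]
  refine mul_ne_zero (pow_ne_zero _ hn) ?_
  have h2 := resultant_eq_zero_iff (f := P) (g := w)
  rw [hfn] at h2
  rw [Ne, h2]
  exact fun h3 => h3.2 hc

theorem coeff_mul_top {f g : ℂ[X]} {a b : ℕ} (hf : f.natDegree ≤ a) (hg : g.natDegree ≤ b) :
    (f * g).coeff (a + b) = f.coeff a * g.coeff b :=
  coeff_mul_add_eq_of_natDegree_le hf hg

theorem coeff_psi_top (l : ℂ) {u0 u1 v0 v1 : ℂ[X]} {a b : ℕ} (hu0 : u0.natDegree ≤ a)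
    (hu1 : u1.natDegree ≤ a) (hv0 : v0.natDegree ≤ b) (hv1 : v1.natDegree ≤ b) :
    (psi l u0 u1 v0 v1).coeff (a + b) = l ^ 2 * (u0.coeff a * v0.coeff b) +
      2 * l * ((u0.coeff a + u1.coeff a) * (v0.coeff b + v1.coeff b)) +
      u1.coeff a * v1.coeff b := by
  simp only [psi, coeff_add, coeff_C_mul, coeff_mul_top hu0 hv0, coeff_mul_top hu1 hv1,
    coeff_mul_top (natDegree_add_le_of_degree_le hu0 hu1) (natDegree_add_le_of_degree_le hv0 hv1)]

theorem Bf_swap {R : Type*} [CommRing R] (u0 u1 v0 v1 : R) :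
    Bf u0 u1 v1 v0 = Bf u0 u1 v0 v1 := by
  simp only [Bf]; ring

end SignC

/-- generic point -/
def gen (a b : ℕ) : Ix a b → MvPolynomial (Ix a b) ℂ := fun i => MvPolynomial.X i

theorem eval_gen {a b : ℕ} (s : Ix a b → ℂ) : (fun i => MvPolynomial.eval s (gen a b i)) = s := by
  funext i; simp [gen]

theorem map_gen {a b : ℕ} (s : Ix a b → ℂ) :
    (U0 (gen a b)).map (MvPolynomial.eval s) = U0 s ∧
    (U1 (gen a b)).map (MvPolynomial.eval s) = U1 s ∧
    (V0 (gen a b)).map (MvPolynomial.eval s) = V0 s ∧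
    (V1 (gen a b)).map (MvPolynomial.eval s) = V1 s ∧
    (Wp (gen a b)).map (MvPolynomial.eval s) = Wp s := by
  refine ⟨?_, ?_, ?_, ?_, ?_⟩
  · rw [map_U0, eval_gen]
  · rw [map_U1, eval_gen]
  · rw [map_V0, eval_gen]
  · rw [map_V1, eval_gen]
  · rw [map_Wp, eval_gen]

/-- On the space of all sections the value `V1(0)/V0(0)` is the square of a rational function,
and near each section a representation without poles and zeros is available. -/
theorem sign_num_den {a b : ℕ} (ha : 1 ≤ a) (hab : a + 1 ≤ b) {s0 : Ix a b → ℂ}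
    (hs0 : s0 ∈ Full a b) (h0 : (U0 s0).coeff 0 ≠ 0) (h1 : (U1 s0).coeff 0 ≠ 0)
    (h2 : (V0 s0).coeff 0 ≠ 0) (h3 : (V1 s0).coeff 0 ≠ 0) :
    ∃ num den : MvPolynomial (Ix a b) ℂ, MvPolynomial.eval s0 num ≠ 0 ∧
      MvPolynomial.eval s0 den ≠ 0 ∧
      ∀ s ∈ Full a b, MvPolynomial.eval s num ^ 2 * (V1 s).coeff 0 =
        MvPolynomial.eval s den ^ 2 * (V0 s).coeff 0 := by
  have hab1 : 1 ≤ a + b := by omega
  obtain ⟨hU, hV, hUa, hVb, hE⟩ := hs0
  have hB : Bf (U0 s0) (U1 s0) (V0 s0) (V1 s0) ≠ 0 :=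
    Bf_ne_zero (by omega) (natDegree_U0 s0) (natDegree_U1 s0) (natDegree_V0 s0)
      (natDegree_V1 s0) hU hV
  have hw : Wp s0 ≠ 0 := by
    intro h
    apply hB
    rw [← hE, h]; ring
  have hE' : X * Wp s0 ^ 2 = Bf (U0 s0) (U1 s0) (V1 s0) (V0 s0) := by rw [hE, Bf_swap]
  obtain ⟨l, hl0, hl1, hl2⟩ := exists_param hU.1 hV.1 hw hE (mul_ne_zero h0 h2)
  obtain ⟨m, hm0, hm1, hm2⟩ := exists_param hU.1 hV.1.symm hw hE' (mul_ne_zero h0 h3)
  -- the two elements
  set n := a + b with hn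
  set G := gen a b with hG
  set PG := psi (MvPolynomial.C l) (U0 G) (U1 G) (V0 G) (V1 G) with hPG
  set TG := tee (MvPolynomial.C l) (U0 G) (U1 G) (V0 G) (V1 G) with hTG
  set PG' := psi (MvPolynomial.C m) (U0 G) (U1 G) (V1 G) (V0 G) with hPG'
  set TG' := tee (MvPolynomial.C m) (U0 G) (U1 G) (V1 G) (V0 G) with hTG'
  have evP : ∀ s : Ix a b → ℂ, PG.map (MvPolynomial.eval s) =
      psi l (U0 s) (U1 s) (V0 s) (V1 s) := by
    intro s
    obtain ⟨g1, g2, g3, g4, g5⟩ := map_gen (a := a) (b := b) s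
    rw [hPG, map_psi, g1, g2, g3, g4, MvPolynomial.eval_C]
  have evT : ∀ s : Ix a b → ℂ, TG.map (MvPolynomial.eval s) =
      tee l (U0 s) (U1 s) (V0 s) (V1 s) := by
    intro s
    obtain ⟨g1, g2, g3, g4, g5⟩ := map_gen (a := a) (b := b) s
    rw [hTG, map_tee, g1, g2, g3, g4, MvPolynomial.eval_C]
  have evP' : ∀ s : Ix a b → ℂ, PG'.map (MvPolynomial.eval s) =
      psi m (U0 s) (U1 s) (V1 s) (V0 s) := by
    intro s
    obtain ⟨g1, g2, g3, g4, g5⟩ := map_gen (a := a) (b := b) s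
    rw [hPG', map_psi, g1, g2, g3, g4, MvPolynomial.eval_C]
  have evT' : ∀ s : Ix a b → ℂ, TG'.map (MvPolynomial.eval s) =
      tee m (U0 s) (U1 s) (V1 s) (V0 s) := by
    intro s
    obtain ⟨g1, g2, g3, g4, g5⟩ := map_gen (a := a) (b := b) s
    rw [hTG', map_tee, g1, g2, g3, g4, MvPolynomial.eval_C]
  have evW : ∀ s : Ix a b → ℂ, (Wp G).map (MvPolynomial.eval s) = Wp s := fun s =>
    (map_gen (a := a) (b := b) s).2.2.2.2
  have ev1 : ∀ s : Ix a b → ℂ, MvPolynomial.eval s (resultant PG' TG' n n *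
      resultant PG (Wp G) n (n - 1) * TG.coeff 0) =
      resultant (psi m (U0 s) (U1 s) (V1 s) (V0 s)) (tee m (U0 s) (U1 s) (V1 s) (V0 s)) n n *
      resultant (psi l (U0 s) (U1 s) (V0 s) (V1 s)) (Wp s) n (n - 1) *
      (tee l (U0 s) (U1 s) (V0 s) (V1 s)).coeff 0 := by
    intro s
    rw [map_mul, map_mul, ← resultant_map_map, ← resultant_map_map, ← coeff_map, evP, evT, evP',
      evT', evW]
  have ev2 : ∀ s : Ix a b → ℂ, MvPolynomial.eval s (MvPolynomial.C (Complex.I * m) *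
      (resultant PG TG n n * resultant PG' (Wp G) n (n - 1) * TG'.coeff 0)) =
      (Complex.I * m) * (
      resultant (psi l (U0 s) (U1 s) (V0 s) (V1 s)) (tee l (U0 s) (U1 s) (V0 s) (V1 s)) n n *
      resultant (psi m (U0 s) (U1 s) (V1 s) (V0 s)) (Wp s) n (n - 1) *
      (tee m (U0 s) (U1 s) (V1 s) (V0 s)).coeff 0) := by
    intro s
    rw [RingHom.map_mul, MvPolynomial.eval_C, RingHom.map_mul, RingHom.map_mul,
      ← resultant_map_map, ← resultant_map_map,
      ← coeff_map, evP, evT, evP', evT', evW]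
  have key : ∀ s ∈ Full a b,
      (resultant (psi l (U0 s) (U1 s) (V0 s) (V1 s)) (tee l (U0 s) (U1 s) (V0 s) (V1 s)) n n ^ 2 =
        (-1) ^ n * ((U1 s).coeff a * (V1 s).coeff b) *
          (psi l (U0 s) (U1 s) (V0 s) (V1 s)).coeff 0 *
          resultant (psi l (U0 s) (U1 s) (V0 s) (V1 s)) (Wp s) n (n - 1) ^ 2) ∧
      (resultant (psi m (U0 s) (U1 s) (V1 s) (V0 s)) (tee m (U0 s) (U1 s) (V1 s) (V0 s)) n n ^ 2 =
        (-1) ^ n * (- m ^ 2 * ((U1 s).coeff a * (V1 s).coeff b)) *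
          (psi m (U0 s) (U1 s) (V1 s) (V0 s)).coeff 0 *
          resultant (psi m (U0 s) (U1 s) (V1 s) (V0 s)) (Wp s) n (n - 1) ^ 2) ∧
      (tee l (U0 s) (U1 s) (V0 s) (V1 s)).coeff 0 ^ 2 =
        (psi l (U0 s) (U1 s) (V0 s) (V1 s)).coeff 0 * ((U0 s).coeff 0 * (V0 s).coeff 0) ∧
      (tee m (U0 s) (U1 s) (V1 s) (V0 s)).coeff 0 ^ 2 =
        (psi m (U0 s) (U1 s) (V1 s) (V0 s)).coeff 0 * ((U0 s).coeff 0 * (V1 s).coeff 0) ∧
      (psi l (U0 s) (U1 s) (V0 s) (V1 s)).coeff n = (U1 s).coeff a * (V1 s).coeff b ∧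
      (psi m (U0 s) (U1 s) (V1 s) (V0 s)).coeff n =
        - m ^ 2 * ((U1 s).coeff a * (V1 s).coeff b) ∧
      (U1 s).coeff a ≠ 0 ∧ (V1 s).coeff b ≠ 0 := by
    intro s hs
    obtain ⟨hU, hV, hUa, hVb, hE⟩ := hs
    have hE' : X * Wp s ^ 2 = Bf (U0 s) (U1 s) (V1 s) (V0 s) := by rw [hE, Bf_swap]
    have k1 := resultant_psi_tee hab1 l (natDegree_U0 s) (natDegree_U1 s) (natDegree_V0 s)
      (natDegree_V1 s) (natDegree_Wp s) hE
    have k2 := resultant_psi_tee hab1 m (natDegree_U0 s) (natDegree_U1 s) (natDegree_V1 s)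
      (natDegree_V0 s) (natDegree_Wp s) hE'
    have k3 := coeff_zero_tee_sq l hE
    have k4 := coeff_zero_tee_sq m hE'
    have k5 := coeff_psi_top l (natDegree_U0 s) (natDegree_U1 s) (natDegree_V0 s)
      (natDegree_V1 s)
    have k6 := coeff_psi_top m (natDegree_U0 s) (natDegree_U1 s) (natDegree_V1 s)
      (natDegree_V0 s)
    rw [coeff_add] at hUa
    have hUa' : (U0 s).coeff a = - (U1 s).coeff a := by linear_combination hUa
    have k5' : (psi l (U0 s) (U1 s) (V0 s) (V1 s)).coeff n =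
        (U1 s).coeff a * (V1 s).coeff b := by
      rw [hn, k5, hUa, hVb]; ring
    have k6' : (psi m (U0 s) (U1 s) (V1 s) (V0 s)).coeff n =
        - m ^ 2 * ((U1 s).coeff a * (V1 s).coeff b) := by
      rw [hn, k6, hUa, hVb, hUa']; ring
    refine ⟨?_, ?_, k3, k4, k5', k6', ?_, ?_⟩
    · rw [← k5', hn]; exact k1
    · rw [← k6', hn]; exact k2
    · rcases hU.2 with h | h
      · intro h'
        rw [h', add_zero] at hUa
        exact h hUa
      · exact h
    · rcases hV.2 with h | h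
      · exact absurd hVb h
      · exact h
  obtain ⟨q1, q2, q3, q4, q5, q6, q7, q8⟩ := key s0 ⟨hU, hV, hUa, hVb, hE⟩
  have r1 : resultant (psi l (U0 s0) (U1 s0) (V0 s0) (V1 s0)) (Wp s0) n (n - 1) ≠ 0 := by
    refine resultant_ne_zero_of_coprime (natDegree_psi l (natDegree_U0 s0) (natDegree_U1 s0)
      (natDegree_V0 s0) (natDegree_V1 s0)) ?_ (natDegree_Wp s0) hl2
    rw [q5]
    exact mul_ne_zero q7 q8
  have r2 : resultant (psi m (U0 s0) (U1 s0) (V1 s0) (V0 s0)) (Wp s0) n (n - 1) ≠ 0 := by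
    refine resultant_ne_zero_of_coprime (natDegree_psi m (natDegree_U0 s0) (natDegree_U1 s0)
      (natDegree_V1 s0) (natDegree_V0 s0)) ?_ (natDegree_Wp s0) hm2
    rw [q6]
    exact mul_ne_zero (neg_ne_zero.mpr (pow_ne_zero _ hm0)) (mul_ne_zero q7 q8)
  have p1 : (psi l (U0 s0) (U1 s0) (V0 s0) (V1 s0)).coeff 0 ≠ 0 := by
    intro h
    rw [h, zero_mul] at q3
    exact hl1 (pow_eq_zero_iff two_ne_zero |>.mp q3)
  have p2 : (psi m (U0 s0) (U1 s0) (V1 s0) (V0 s0)).coeff 0 ≠ 0 := by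
    intro h
    rw [h, zero_mul] at q4
    exact hm1 (pow_eq_zero_iff two_ne_zero |>.mp q4)
  have t1 : resultant (psi l (U0 s0) (U1 s0) (V0 s0) (V1 s0))
      (tee l (U0 s0) (U1 s0) (V0 s0) (V1 s0)) n n ≠ 0 := by
    intro h
    rw [h, zero_pow two_ne_zero] at q1
    exact mul_ne_zero (mul_ne_zero (mul_ne_zero (pow_ne_zero _ (by norm_num))
      (mul_ne_zero q7 q8)) p1) (pow_ne_zero 2 r1) q1.symm
  have t2 : resultant (psi m (U0 s0) (U1 s0) (V1 s0) (V0 s0))
      (tee m (U0 s0) (U1 s0) (V1 s0) (V0 s0)) n n ≠ 0 := by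
    intro h
    rw [h, zero_pow two_ne_zero] at q2
    exact mul_ne_zero (mul_ne_zero (mul_ne_zero (pow_ne_zero _ (by norm_num))
      (mul_ne_zero (neg_ne_zero.mpr (pow_ne_zero _ hm0)) (mul_ne_zero q7 q8))) p2)
      (pow_ne_zero 2 r2) q2.symm
  refine ⟨resultant PG' TG' n n * resultant PG (Wp G) n (n - 1) * TG.coeff 0,
    MvPolynomial.C (Complex.I * m) *
      (resultant PG TG n n * resultant PG' (Wp G) n (n - 1) * TG'.coeff 0), ?_, ?_, ?_⟩
  · rw [ev1 s0]
    exact mul_ne_zero (mul_ne_zero t2 r1) hl1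
  · rw [ev2 s0]
    exact mul_ne_zero (mul_ne_zero Complex.I_ne_zero hm0) (mul_ne_zero (mul_ne_zero t1 r2) hm1)
  · intro s hs
    rw [ev1 s, ev2 s]
    obtain ⟨k1, k2, k3, k4, -, -, -, -⟩ := key s hs
    have I2 : Complex.I ^ 2 = -1 := Complex.I_sq
    rw [mul_pow, mul_pow, mul_pow, mul_pow, mul_pow, mul_pow, k1, k2, k3, k4, I2]
    ring

end

end Pool.Agent.DPFib
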