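import Pool.Agent.DPFib.Open
import Pool.Agent.DPFib.Sign
import Pool.Agent.DPFib.Chev
import Pool.Agent.DPFib.Comp
import Pool.Agent.DPFib.Basic

/-!
# MP_9669a9_ag, module G: sections through a very general point of `E` have at least twice as
many components
-/

namespace Pool.Agent.DPFib

open MvPolynomial

noncomputable section

variable {a b : ℕ}

/-- the polynomial functions `U0(0)`, `U1(0)`, `V0(0)`, `V1(0)` -/
def cU0 (a b : ℕ) : MvPolynomial (Ix a b) ℂ := (U0 fun i => X i : Polynomial _).coeff 0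
def cU1 (a b : ℕ) : MvPolynomial (Ix a b) ℂ := (U1 fun i => X i : Polynomial _).coeff 0
def cV0 (a b : ℕ) : MvPolynomial (Ix a b) ℂ := (V0 fun i => X i : Polynomial _).coeff 0
def cV1 (a b : ℕ) : MvPolynomial (Ix a b) ℂ := (V1 fun i => X i : Polynomial _).coeff 0

/-- the polynomial function whose non-vanishing means: no common zeros -/
def hOpen (a b : ℕ) : MvPolynomial (Ix a b) ℂ :=
  Polynomial.resultant (U0 fun i => X i) (U1 fun i => X i) a a *
    Polynomial.resultant (V0 fun i => X i) (V1 fun i => X i) b b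

theorem eval_cU0 (s : Ix a b → ℂ) : eval s (cU0 a b) = (U0 s).coeff 0 := by
  have := map_U0 (eval s) (fun i : Ix a b => (X i : MvPolynomial (Ix a b) ℂ))
  simp only [eval_X] at this
  rw [← this, Polynomial.coeff_map]; rfl
theorem eval_cU1 (s : Ix a b → ℂ) : eval s (cU1 a b) = (U1 s).coeff 0 := by
  have := map_U1 (eval s) (fun i : Ix a b => (X i : MvPolynomial (Ix a b) ℂ))
  simp only [eval_X] at this
  rw [← this, Polynomial.coeff_map]; rfl
theorem eval_cV0 (s : Ix a b → ℂ) : eval s (cV0 a b) = (V0 s).coeff 0 := by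
  have := map_V0 (eval s) (fun i : Ix a b => (X i : MvPolynomial (Ix a b) ℂ))
  simp only [eval_X] at this
  rw [← this, Polynomial.coeff_map]; rfl
theorem eval_cV1 (s : Ix a b → ℂ) : eval s (cV1 a b) = (V1 s).coeff 0 := by
  have := map_V1 (eval s) (fun i : Ix a b => (X i : MvPolynomial (Ix a b) ℂ))
  simp only [eval_X] at this
  rw [← this, Polynomial.coeff_map]; rfl

theorem eval_hOpen (s : Ix a b → ℂ) : eval s (hOpen a b) =
    Polynomial.resultant (U0 s) (U1 s) a a * Polynomial.resultant (V0 s) (V1 s) b b := by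
  have h0 := map_U0 (eval s) (fun i : Ix a b => (X i : MvPolynomial (Ix a b) ℂ))
  have h1 := map_U1 (eval s) (fun i : Ix a b => (X i : MvPolynomial (Ix a b) ℂ))
  have h2 := map_V0 (eval s) (fun i : Ix a b => (X i : MvPolynomial (Ix a b) ℂ))
  have h3 := map_V1 (eval s) (fun i : Ix a b => (X i : MvPolynomial (Ix a b) ℂ))
  simp only [eval_X] at h0 h1 h2 h3
  rw [← h0, ← h1, ← h2, ← h3, Polynomial.resultant_map_map, Polynomial.resultant_map_map, hOpen,
    map_mul]

theorem hOpen_ne_zero_iff (ha : 2 ≤ a) (hb : 2 ≤ b) (s : Ix a b → ℂ) :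
    eval s (hOpen a b) ≠ 0 ↔ NoZero a (U0 s) (U1 s) ∧ NoZero b (V0 s) (V1 s) := by
  rw [eval_hOpen, mul_ne_zero_iff, noZero_iff (by omega) (natDegree_U0 s) (natDegree_U1 s),
    noZero_iff (by omega) (natDegree_V0 s) (natDegree_V1 s)]

/-- membership in `Full` for points of the closure of `Full` -/
theorem mem_Full_of_mem_closure (ha : 2 ≤ a) (hb : 2 ≤ b) {z : Ix a b → ℂ}
    (hz : z ∈ zeroLocus ℂ (vanishingIdeal ℂ (Full a b))) (ho : eval z (hOpen a b) ≠ 0) :
    z ∈ Full a b := by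
  have key : ∀ q : MvPolynomial (Ix a b) ℂ, (∀ s ∈ Full a b, eval s q = 0) → eval z q = 0 := by
    intro q hq
    have h1 : q ∈ vanishingIdeal ℂ (Full a b) := by
      rw [mem_vanishingIdeal_iff]
      intro s hs
      simpa [aeval_def, ← eval₂_eq_eval_map] using hq s hs
    have h2 := hz q h1
    simpa using h2
  obtain ⟨h1, h2⟩ := (hOpen_ne_zero_iff ha hb z).mp ho
  refine ⟨h1, h2, ?_, ?_, ?_⟩
  · have := key ((U0 (fun i => X i) + U1 (fun i => X i) : Polynomial _).coeff a) ?_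
    · rw [← Polynomial.coeff_map, Polynomial.map_add, map_U0, map_U1] at this
      simpa using this
    · intro s hs
      rw [← Polynomial.coeff_map, Polynomial.map_add, map_U0, map_U1]
      simpa using hs.2.2.1
  · have := key ((V0 (fun i => X i) : Polynomial _).coeff b) ?_
    · rw [← Polynomial.coeff_map, map_V0] at this
      simpa using this
    · intro s hs
      rw [← Polynomial.coeff_map, map_V0]
      simpa using hs.2.2.2.1
  · ext k
    rw [← sub_eq_zero]
    have := key ((Polynomial.X * Wp (fun i => X i) ^ 2 - Bf (U0 (fun i => X i))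
      (U1 (fun i => X i)) (V0 (fun i => X i)) (V1 (fun i => X i)) : Polynomial _).coeff k) ?_
    · rw [← Polynomial.coeff_map] at this
      simp only [Bf, Polynomial.map_sub, Polynomial.map_mul, Polynomial.map_pow,
        Polynomial.map_add, Polynomial.map_X, map_U0, map_U1, map_V0, map_V1, map_Wp, eval_X,
        Polynomial.coeff_sub] at this ⊢
      linear_combination this
    · intro s hs
      rw [← Polynomial.coeff_map]
      have h3 := hs.2.2.2.2
      simp only [Bf, Polynomial.map_sub, Polynomial.map_mul, Polynomial.map_pow,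
        Polynomial.map_add, Polynomial.map_X, map_U0, map_U1, map_V0, map_V1, map_Wp, eval_X] at h3 ⊢
      rw [h3, sub_self, Polynomial.coeff_zero]


theorem Full_at_zero {s : Ix a b → ℂ} (hs : s ∈ Full a b) :
    ((U0 s).coeff 0 + (U1 s).coeff 0) ^ 2 * ((V0 s).coeff 0 + (V1 s).coeff 0) ^ 2 =
      (U0 s).coeff 0 * (U1 s).coeff 0 * ((V0 s).coeff 0 * (V1 s).coeff 0) := by
  have h := congrArg (Polynomial.eval 0) hs.2.2.2.2
  simp only [Bf, Polynomial.eval_mul, Polynomial.eval_X, zero_mul, Polynomial.eval_sub,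
    Polynomial.eval_pow, Polynomial.eval_add] at h
  simp only [Polynomial.coeff_zero_eq_eval_zero]
  linear_combination -h

theorem NoZero.coeff_zero {n : ℕ} {f g : Polynomial ℂ} (h : NoZero n f g)
    (hf : f.coeff 0 = 0) (hg : g.coeff 0 = 0) : False := by
  obtain ⟨⟨p, q, e⟩, -⟩ := h
  have := congrArg (Polynomial.eval 0) e
  rw [Polynomial.coeff_zero_eq_eval_zero] at hf hg
  simp [hf, hg] at this

theorem eval_ne_zero_mem_nhds {σ : Type*} [Finite σ] (f : MvPolynomial σ ℂ) {s : σ → ℂ}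
    (h : eval s f ≠ 0) : {t : σ → ℂ | eval t f ≠ 0} ∈ nhds s := by
  have : Continuous fun t : σ → ℂ => eval t f := by
    have := MvPolynomial.continuous_eval f
    exact this
  exact this.continuousAt.eventually_ne h

theorem mem_zeroLocus_of_isolate {P : Ideal (MvPolynomial (Ix a b) ℂ)}
    {h : MvPolynomial (Ix a b) ℂ} (hh : ∀ P' ∈ comps (Full a b), P' ≠ P → h ∈ P')
    {z : Ix a b → ℂ} (hz : z ∈ Full a b) (hhz : eval z h ≠ 0) : z ∈ zeroLocus ℂ P := by
  obtain ⟨P', hP', hz'⟩ := comps_cover hz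
  by_cases e : P' = P
  · exact e ▸ hz'
  · exact absurd (by simpa using hz' h (hh P' hP' e)) hhz

theorem mem_prime_of_Full {P : Ideal (MvPolynomial (Ix a b) ℂ)} (hP : P ∈ comps (Full a b))
    {f : MvPolynomial (Ix a b) ℂ} (hf : ∀ s ∈ Full a b, eval s f = 0) : f ∈ P := by
  have h1 : f ∈ vanishingIdeal ℂ (Full a b) := by
    rw [mem_vanishingIdeal_iff]
    intro s hs
    simpa using hf s hs
  exact hP.1.2 h1

theorem comp_step (ha : 2 ≤ a) (hab : a + 1 ≤ b) {P : Ideal (MvPolynomial (Ix a b) ℂ)}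
    (hP : P ∈ comps (Full a b)) :
    ∃ (h num den : MvPolynomial (Ix a b) ℂ) (N : Set (ℂ × ℂ)), N.Finite ∧
      (∀ P' ∈ comps (Full a b), P' ≠ P → h ∈ P') ∧
      (∀ s ∈ Full a b, eval s num ^ 2 * (V1 s).coeff 0 = eval s den ^ 2 * (V0 s).coeff 0) ∧
      ∀ x ρ : ℂ, (1 + x ^ 2) * (1 + ρ ^ 2) = x * ρ → (x, ρ) ∉ N →
        ∃ z ∈ At a b (x ^ 2) (ρ ^ 2), eval z h ≠ 0 ∧ eval z den ≠ 0 ∧
          eval z num = ρ * eval z den := by
  have hPp : P.IsPrime := comps_isPrime hP
  obtain ⟨h, hhP, hh⟩ := comps_isolate hP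
  have hvan := comps_vanishingIdeal_inter hP
  -- a point where a given function not in `P` does not vanish
  have hpt : ∀ f : MvPolynomial (Ix a b) ℂ, f ∉ P → ∃ s ∈ Full a b, s ∈ zeroLocus ℂ P ∧
      eval s f ≠ 0 := by
    intro f hf
    rw [← hvan, mem_vanishingIdeal_iff] at hf
    push Not at hf
    obtain ⟨s, hs, hsf⟩ := hf
    exact ⟨s, hs.1, hs.2, by simpa using hsf⟩
  have hnot : ∀ {f : MvPolynomial (Ix a b) ℂ} {s : Ix a b → ℂ}, s ∈ zeroLocus ℂ P →
      eval s f ≠ 0 → f ∉ P := by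
    intro f s hs hsf hfP
    exact hsf (by simpa using hs f hfP)
  have hb : 2 ≤ b := by omega
  -- the four coordinates at zero do not vanish identically on the component
  obtain ⟨s, hs, hsP, hsh⟩ := hpt h hhP
  obtain ⟨t, ht, htN, hst⟩ := move_Full ha hab hs (eval_ne_zero_mem_nhds h hsh)
  have htP : t ∈ zeroLocus ℂ P := mem_zeroLocus_of_isolate hh ht htN
  have hc : cU0 a b * cU1 a b * (cV0 a b * cV1 a b) ∉ P := by
    intro hc
    have es := Full_at_zero hs
    have et := Full_at_zero ht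
    have key : ∀ r ∈ Full a b, r ∈ zeroLocus ℂ P →
        (U0 r).coeff 0 * (U1 r).coeff 0 * ((V0 r).coeff 0 * (V1 r).coeff 0) = 0 := by
      intro r _ hr
      have := hr _ hc
      simpa [eval_cU0, eval_cU1, eval_cV0, eval_cV1] using this
    have hsum : ∀ r ∈ Full a b, r ∈ zeroLocus ℂ P →
        ((U0 r).coeff 0 + (U1 r).coeff 0 = 0) ∨ ((V0 r).coeff 0 + (V1 r).coeff 0 = 0) := by
      intro r hr hrP
      have h1 := Full_at_zero hr
      rw [key r hr hrP] at h1
      rcases mul_eq_zero.mp h1 with h2 | h2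
      · left; simpa using h2
      · right; simpa using h2
    rcases hPp.mem_or_mem hc with h1 | h1
    · have hcoef : ((U0 s).coeff 0 = 0 ∧ (U0 t).coeff 0 = 0) ∨
          ((U1 s).coeff 0 = 0 ∧ (U1 t).coeff 0 = 0) := by
        rcases hPp.mem_or_mem h1 with h2 | h2
        · left
          exact ⟨by simpa [eval_cU0] using hsP _ h2, by simpa [eval_cU0] using htP _ h2⟩
        · right
          exact ⟨by simpa [eval_cU1] using hsP _ h2, by simpa [eval_cU1] using htP _ h2⟩
      have hV : ∀ r ∈ Full a b, r ∈ zeroLocus ℂ P → ((U0 r).coeff 0 = 0 ∨ (U1 r).coeff 0 = 0) →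
          (V0 r).coeff 0 + (V1 r).coeff 0 = 0 := by
        intro r hr hrP h3
        rcases hsum r hr hrP with h4 | h4
        · exfalso
          rcases h3 with h3 | h3
          · exact NoZero.coeff_zero hr.1 h3 (by rw [h3, zero_add] at h4; exact h4)
          · exact NoZero.coeff_zero hr.1 (by rw [h3, add_zero] at h4; exact h4) h3
        · exact h4
      rcases hcoef with ⟨c1, c2⟩ | ⟨c1, c2⟩
      · have v1 := hV s hs hsP (Or.inl c1)
        have v2 := hV t ht htP (Or.inl c2)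
        rcases hst with h5 | h5
        · apply h5; rw [c1, c2]; ring
        · apply h5; linear_combination (V0 s).coeff 0 * v2 - (V0 t).coeff 0 * v1
      · have v1 := hV s hs hsP (Or.inr c1)
        have v2 := hV t ht htP (Or.inr c2)
        rcases hst with h5 | h5
        · apply h5; rw [c1, c2]; ring
        · apply h5; linear_combination (V0 s).coeff 0 * v2 - (V0 t).coeff 0 * v1
    · have hcoef : ((V0 s).coeff 0 = 0 ∧ (V0 t).coeff 0 = 0) ∨
          ((V1 s).coeff 0 = 0 ∧ (V1 t).coeff 0 = 0) := by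
        rcases hPp.mem_or_mem h1 with h2 | h2
        · left
          exact ⟨by simpa [eval_cV0] using hsP _ h2, by simpa [eval_cV0] using htP _ h2⟩
        · right
          exact ⟨by simpa [eval_cV1] using hsP _ h2, by simpa [eval_cV1] using htP _ h2⟩
      have hU : ∀ r ∈ Full a b, r ∈ zeroLocus ℂ P → ((V0 r).coeff 0 = 0 ∨ (V1 r).coeff 0 = 0) →
          (U0 r).coeff 0 + (U1 r).coeff 0 = 0 := by
        intro r hr hrP h3
        rcases hsum r hr hrP with h4 | h4
        · exact h4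
        · exfalso
          rcases h3 with h3 | h3
          · exact NoZero.coeff_zero hr.2.1 h3 (by rw [h3, zero_add] at h4; exact h4)
          · exact NoZero.coeff_zero hr.2.1 (by rw [h3, add_zero] at h4; exact h4) h3
      rcases hcoef with ⟨c1, c2⟩ | ⟨c1, c2⟩
      · have v1 := hU s hs hsP (Or.inl c1)
        have v2 := hU t ht htP (Or.inl c2)
        rcases hst with h5 | h5
        · apply h5; linear_combination (U0 s).coeff 0 * v2 - (U0 t).coeff 0 * v1
        · apply h5; rw [c1, c2]; ring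
      · have v1 := hU s hs hsP (Or.inr c1)
        have v2 := hU t ht htP (Or.inr c2)
        rcases hst with h5 | h5
        · apply h5; linear_combination (U0 s).coeff 0 * v2 - (U0 t).coeff 0 * v1
        · apply h5; rw [c1, c2]; ring
  -- the sign function
  obtain ⟨s0, hs0, hs0P, hs0f⟩ := hpt (h * (cU0 a b * cU1 a b * (cV0 a b * cV1 a b)))
    (fun hcon => (hPp.mem_or_mem hcon).elim hhP hc)
  have hs0f' := hs0f
  simp only [map_mul, eval_cU0, eval_cU1, eval_cV0, eval_cV1, mul_ne_zero_iff] at hs0f'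
  obtain ⟨hs0h, ⟨n0, n1⟩, n2, n3⟩ := hs0f'
  obtain ⟨num, den, hnum, hden, hrel⟩ := sign_num_den (by omega) hab hs0 n0 n1 n2 n3
  -- relations on `Full`
  have rel1 : ∀ r ∈ Full a b,
      eval r ((cU0 a b + cU1 a b) * (cV0 a b + cV1 a b) * den) ^ 2 * (U1 r).coeff 0 =
        eval r (cU1 a b * cV1 a b * num) ^ 2 * (U0 r).coeff 0 := by
    intro r hr
    have h1 := Full_at_zero hr
    have h2 := hrel r hr
    simp only [map_mul, map_add, eval_cU0, eval_cU1, eval_cV0, eval_cV1]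
    linear_combination (eval r den) ^ 2 * (U1 r).coeff 0 * h1 -
      (U1 r).coeff 0 ^ 2 * (V1 r).coeff 0 * (U0 r).coeff 0 * h2
  set f := h * (cU0 a b * cU1 a b * (cV0 a b * cV1 a b)) * (num * den) * hOpen a b with hf
  have hopen0 : eval s0 (hOpen a b) ≠ 0 := (hOpen_ne_zero_iff ha hb s0).mpr ⟨hs0.1, hs0.2.1⟩
  have hfs0 : eval s0 f ≠ 0 := by
    rw [hf, map_mul, map_mul]
    exact mul_ne_zero (mul_ne_zero hs0f (by rw [map_mul]; exact mul_ne_zero hnum hden)) hopen0
  obtain ⟨t0, ht0, ht0N, hst0⟩ := move_Full ha hab hs0 (eval_ne_zero_mem_nhds f hfs0)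
  have ht0f : eval t0 f ≠ 0 := ht0N
  have split : ∀ r : Ix a b → ℂ, eval r f ≠ 0 → eval r h ≠ 0 ∧ (U0 r).coeff 0 ≠ 0 ∧
      (U1 r).coeff 0 ≠ 0 ∧ (V0 r).coeff 0 ≠ 0 ∧ (V1 r).coeff 0 ≠ 0 ∧ eval r num ≠ 0 ∧
      eval r den ≠ 0 ∧ eval r (hOpen a b) ≠ 0 := by
    intro r hr
    rw [hf] at hr
    simp only [map_mul, eval_cU0, eval_cU1, eval_cV0, eval_cV1, mul_ne_zero_iff] at hr
    obtain ⟨⟨⟨m0, ⟨m1, m2⟩, m3, m4⟩, m5, m6⟩, m7⟩ := hr
    exact ⟨m0, m1, m2, m3, m4, m5, m6, m7⟩
  obtain ⟨p0, p1, p2, p3, p4, p5, p6, p7⟩ := split s0 hfs0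
  obtain ⟨q0, q1, q2, q3, q4, q5, q6, q7⟩ := split t0 ht0f
  have ht0P : t0 ∈ zeroLocus ℂ P := mem_zeroLocus_of_isolate hh ht0 q0
  have b1 : eval s0 (cU1 a b * cV1 a b * num) ≠ 0 := by
    rw [map_mul, map_mul, eval_cU1, eval_cV1]
    exact mul_ne_zero (mul_ne_zero p2 p4) p5
  have b2 : eval t0 (cU1 a b * cV1 a b * num) ≠ 0 := by
    rw [map_mul, map_mul, eval_cU1, eval_cV1]
    exact mul_ne_zero (mul_ne_zero q2 q4) q5
  have hrelP : ((cU1 a b * cV1 a b * num) ^ 2 +
        ((cU0 a b + cU1 a b) * (cV0 a b + cV1 a b) * den) ^ 2) * (den ^ 2 + num ^ 2) -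
        (cU0 a b + cU1 a b) * (cV0 a b + cV1 a b) * den * (cU1 a b * cV1 a b * num) *
        (num * den) ∈ P := by
    have h1 : cV1 a b * (((cU1 a b * cV1 a b * num) ^ 2 +
        ((cU0 a b + cU1 a b) * (cV0 a b + cV1 a b) * den) ^ 2) * (den ^ 2 + num ^ 2) -
        (cU0 a b + cU1 a b) * (cV0 a b + cV1 a b) * den * (cU1 a b * cV1 a b * num) *
        (num * den)) ∈ P := by
      refine mem_prime_of_Full hP ?_
      intro r hr
      have h1 := Full_at_zero hr
      have h2 := hrel r hr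
      simp only [map_mul, map_add, map_sub, map_pow, eval_cU0, eval_cU1, eval_cV0, eval_cV1]
      generalize (U0 r).coeff 0 = u0 at h1 h2 ⊢
      generalize (U1 r).coeff 0 = u1 at h1 h2 ⊢
      generalize (V0 r).coeff 0 = v0 at h1 h2 ⊢
      generalize (V1 r).coeff 0 = v1 at h1 h2 ⊢
      generalize eval r den = d at h2 ⊢
      generalize eval r num = n at h2 ⊢
      linear_combination (d ^ 2 * v1 * (d ^ 2 + n ^ 2)) * h1 +
        (u1 * v0 * v1 * d ^ 2 * (u0 + u1) + u1 ^ 2 * v1 ^ 2 * (d ^ 2 + n ^ 2) -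
          (u0 + u1) * (v0 + v1) * d ^ 2 * u1 * v1) * h2
    rcases hPp.mem_or_mem h1 with h2 | h2
    · exact absurd h2 (hnot hs0P (by rwa [eval_cV1]))
    · exact h2
  have hne : eval s0 ((cU0 a b + cU1 a b) * (cV0 a b + cV1 a b) * den) *
        eval t0 (cU1 a b * cV1 a b * num) ≠
      eval t0 ((cU0 a b + cU1 a b) * (cV0 a b + cV1 a b) * den) *
        eval s0 (cU1 a b * cV1 a b * num) ∨
      eval s0 num * eval t0 den ≠ eval t0 num * eval s0 den := by
    by_contra hcon
    push Not at hcon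
    obtain ⟨e1, e2⟩ := hcon
    have r1 := rel1 s0 hs0
    have r2 := rel1 t0 ht0
    rcases hst0 with h5 | h5
    · apply h5
      have h6 : eval s0 (cU1 a b * cV1 a b * num) ^ 2 * eval t0 (cU1 a b * cV1 a b * num) ^ 2 ≠ 0 :=
        mul_ne_zero (pow_ne_zero _ b1) (pow_ne_zero _ b2)
      apply mul_left_cancel₀ h6
      have e3 := congrArg (· ^ 2) e1
      simp only [mul_pow] at e3
      linear_combination (-(eval t0 (cU1 a b * cV1 a b * num) ^ 2 * (U1 t0).coeff 0)) * r1 +
        (eval s0 (cU1 a b * cV1 a b * num) ^ 2 * (U1 s0).coeff 0) * r2 +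
        (U1 s0).coeff 0 * (U1 t0).coeff 0 * e3
    · apply h5
      have h6 : eval s0 den ^ 2 * eval t0 den ^ 2 ≠ 0 :=
        mul_ne_zero (pow_ne_zero _ p6) (pow_ne_zero _ q6)
      apply mul_left_cancel₀ h6
      have e3 := congrArg (· ^ 2) e2
      simp only [mul_pow] at e3
      have k1 := hrel s0 hs0
      have k2 := hrel t0 ht0
      linear_combination (-(eval t0 den ^ 2 * (V1 t0).coeff 0)) * k1 +
        (eval s0 den ^ 2 * (V1 s0).coeff 0) * k2 +
        (V1 s0).coeff 0 * (V1 t0).coeff 0 * e3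
  obtain ⟨N, hN, hcov⟩ := chev P hrelP hs0P ht0P hfs0 b1 p6 ht0f b2 q6 hne
  refine ⟨h, num, den, N, hN, hh, hrel, ?_⟩
  intro x ρ hE hxρ
  obtain ⟨z, hzP, hzf, hzbe, hzde, hzal, hzga⟩ := hcov x ρ hE hxρ
  obtain ⟨r0, r1, r2, r3, r4, r5, r6, r7⟩ := split z hzf
  have hzF : z ∈ Full a b := by
    refine mem_Full_of_mem_closure ha hb (zeroLocus_anti_mono ?_ hzP) r7
    exact hP.1.2
  refine ⟨z, ⟨hzF, ?_, ?_⟩, r0, r6, hzga⟩
  · have h1 := rel1 z hzF
    rw [hzal] at h1
    have h2 : eval z (cU1 a b * cV1 a b * num) ^ 2 ≠ 0 := pow_ne_zero _ hzbe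
    apply mul_left_cancel₀ h2
    linear_combination -h1
  · have h1 := hrel z hzF
    rw [hzga] at h1
    have h2 : eval z den ^ 2 ≠ 0 := pow_ne_zero _ r6
    apply mul_left_cancel₀ h2
    linear_combination -h1

theorem At_subset_Full (ν ζ : ℂ) : At a b ν ζ ⊆ Full a b := fun _ h => h.1

theorem At_V1_ne {ν ζ : ℂ} {t : Ix a b → ℂ} (ht : t ∈ At a b ν ζ) : (V1 t).coeff 0 ≠ 0 := by
  intro h
  have h2 := ht.2.2
  rw [h, mul_zero] at h2
  exact NoZero.coeff_zero ht.1.2.1 h2 h

theorem core : ∃ N : Set (ℂ × ℂ), N.Countable ∧ ∀ x ρ : ℂ,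
    (1 + x ^ 2) * (1 + ρ ^ 2) = x * ρ → (x, ρ) ∉ N → ρ ≠ 0 → ∀ a b : ℕ, 2 ≤ a → a + 1 ≤ b →
      2 * (comps (Full a b)).ncard ≤ (comps (At a b (x ^ 2) (ρ ^ 2))).ncard := by
  classical
  have H : ∀ (a b : ℕ) (P : Ideal (MvPolynomial (Ix a b) ℂ)),
      ∃ (h num den : MvPolynomial (Ix a b) ℂ) (N : Set (ℂ × ℂ)), N.Finite ∧
      (2 ≤ a → a + 1 ≤ b → P ∈ comps (Full a b) →
      (∀ P' ∈ comps (Full a b), P' ≠ P → h ∈ P') ∧
      (∀ s ∈ Full a b, eval s num ^ 2 * (V1 s).coeff 0 = eval s den ^ 2 * (V0 s).coeff 0) ∧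
      ∀ x ρ : ℂ, (1 + x ^ 2) * (1 + ρ ^ 2) = x * ρ → (x, ρ) ∉ N →
        ∃ z ∈ At a b (x ^ 2) (ρ ^ 2), eval z h ≠ 0 ∧ eval z den ≠ 0 ∧
          eval z num = ρ * eval z den) := by
    intro a b P
    by_cases hc : 2 ≤ a ∧ a + 1 ≤ b ∧ P ∈ comps (Full a b)
    · obtain ⟨h, num, den, N, hN, h1, h2, h3⟩ := comp_step hc.1 hc.2.1 hc.2.2
      exact ⟨h, num, den, N, hN, fun _ _ _ => ⟨h1, h2, h3⟩⟩
    · exact ⟨0, 0, 0, ∅, Set.finite_empty, fun h1 h2 h3 => absurd ⟨h1, h2, h3⟩ hc⟩
  choose h num den N hN hall using H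
  refine ⟨⋃ (a : ℕ) (b : ℕ), ⋃ P ∈ comps (Full a b),
    (N a b P ∪ (fun p : ℂ × ℂ => (-p.1, -p.2)) '' N a b P), ?_, ?_⟩
  · refine Set.countable_iUnion fun a => Set.countable_iUnion fun b => ?_
    refine Set.Countable.biUnion (comps_finite _).countable fun P _ => ?_
    exact ((hN a b P).union ((hN a b P).image _)).countable
  intro x ρ hE hxρ hρ a b ha hab
  have hN1 : ∀ P ∈ comps (Full a b), (x, ρ) ∉ N a b P := by
    intro P hP hmem
    apply hxρ
    simp only [Set.mem_iUnion]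
    exact ⟨a, b, P, hP, Or.inl hmem⟩
  have hN2 : ∀ P ∈ comps (Full a b), (-x, -ρ) ∉ N a b P := by
    intro P hP hmem
    apply hxρ
    simp only [Set.mem_iUnion]
    exact ⟨a, b, P, hP, Or.inr ⟨(-x, -ρ), hmem, by simp⟩⟩
  -- the points
  have hz : ∀ q : comps (Full a b) × Bool, ∃ z ∈ At a b (x ^ 2) (ρ ^ 2),
      eval z (h a b q.1) ≠ 0 ∧ eval z (den a b q.1) ≠ 0 ∧
      eval z (num a b q.1) = (if q.2 then ρ else -ρ) * eval z (den a b q.1) := by
    rintro ⟨⟨P, hP⟩, ε⟩
    obtain ⟨-, -, h3⟩ := hall a b P ha hab hP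
    cases ε
    · obtain ⟨z, hz, h4, h5, h6⟩ := h3 (-x) (-ρ) (by linear_combination hE) (hN2 P hP)
      rw [neg_sq, neg_sq] at hz
      exact ⟨z, hz, h4, h5, by simpa using h6⟩
    · obtain ⟨z, hz, h4, h5, h6⟩ := h3 x ρ hE (hN1 P hP)
      exact ⟨z, hz, h4, h5, by simpa using h6⟩
  choose z hzA hzh hzd hzn using hz
  have hQ : ∀ q : comps (Full a b) × Bool, ∃ Q : comps (At a b (x ^ 2) (ρ ^ 2)),
      z q ∈ zeroLocus ℂ Q.1 := by
    intro q
    obtain ⟨Q, hQ, hzQ⟩ := comps_cover (hzA q)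
    exact ⟨⟨Q, hQ⟩, hzQ⟩
  choose Q hzQ using hQ
  have hinj : Function.Injective Q := by
    intro q q' hqq
    obtain ⟨P'', hP'', hle⟩ := comps_le (At_subset_Full (a := a) (b := b) (x ^ 2) (ρ ^ 2)) (Q q).2
    have hdet : ∀ r : comps (Full a b) × Bool, z r ∈ zeroLocus ℂ (Q q).1 → r.1.1 = P'' := by
      intro r hr
      by_contra hne
      obtain ⟨h1, -, -⟩ := hall a b r.1.1 ha hab r.1.2
      have h2 := h1 P'' hP'' (Ne.symm hne)
      exact hzh r (by simpa using hr _ (hle h2))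
    have e1 := hdet q (hzQ q)
    have e2 := hdet q' (hqq ▸ hzQ q')
    have e3 : q.1 = q'.1 := Subtype.ext (e1.trans e2.symm)
    have hprime : (Q q).1.IsPrime := comps_isPrime (Q q).2
    obtain ⟨-, hrel, -⟩ := hall a b q.1.1 ha hab q.1.2
    have hmem : (num a b q.1 - C ρ * den a b q.1) * (num a b q.1 + C ρ * den a b q.1) ∈ (Q q).1 := by
      refine (Q q).2.1.2 ?_
      rw [mem_vanishingIdeal_iff]
      intro t ht
      have h1 := hrel t ht.1
      have h2 := At_V1_ne ht
      have h3 := ht.2.2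
      have h4 : eval t (num a b q.1) ^ 2 = ρ ^ 2 * eval t (den a b q.1) ^ 2 := by
        apply mul_right_cancel₀ h2
        rw [h1, h3]; ring
      have : eval t ((num a b q.1 - C ρ * den a b q.1) * (num a b q.1 + C ρ * den a b q.1)) = 0 := by
        simp only [map_mul, map_sub, map_add, eval_C]
        linear_combination h4
      simpa using this
    -- which factor
    have hfac : ∀ r : comps (Full a b) × Bool, r.1 = q.1 → z r ∈ zeroLocus ℂ (Q q).1 →
        (r.2 = true ↔ num a b q.1 - C ρ * den a b q.1 ∈ (Q q).1) := by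
      rintro ⟨r1, ε⟩ hr1 hr
      simp only at hr1
      subst hr1
      have hd := hzd (q.1, ε)
      have hn := hzn (q.1, ε)
      simp only at hd hn
      cases ε
      · simp only [Bool.false_eq_true, if_false, false_iff] at hn ⊢
        intro hmem2
        have h5 := hr _ hmem2
        have h6 : eval (z (q.1, false)) (num a b q.1 - C ρ * den a b q.1) = 0 := by simpa using h5
        simp only [map_sub, map_mul, eval_C, hn] at h6
        have h7 : (-2 * ρ) * eval (z (q.1, false)) (den a b q.1) = 0 := by linear_combination h6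
        rcases mul_eq_zero.mp h7 with h8 | h8
        · exact hρ (by simpa using h8)
        · exact hd h8
      · simp only [if_true, true_iff] at hn ⊢
        rcases hprime.mem_or_mem hmem with h5 | h5
        · exact h5
        · exfalso
          have h5' := hr _ h5
          have h6 : eval (z (q.1, true)) (num a b q.1 + C ρ * den a b q.1) = 0 := by simpa using h5'
          simp only [map_add, map_mul, eval_C, hn] at h6
          have h7 : (2 * ρ) * eval (z (q.1, true)) (den a b q.1) = 0 := by linear_combination h6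
          rcases mul_eq_zero.mp h7 with h8 | h8
          · exact hρ (by simpa using h8)
          · exact hd h8
    have f1 := hfac q rfl (hzQ q)
    have f2 := hfac q' e3.symm (hqq ▸ hzQ q')
    refine Prod.ext e3 ?_
    rw [Bool.eq_iff_iff, f1, f2]
  have hfinA := comps_finite (At a b (x ^ 2) (ρ ^ 2))
  have : Finite (comps (At a b (x ^ 2) (ρ ^ 2))) := hfinA
  have hcard := Nat.card_le_card_of_injective Q hinj
  rw [Nat.card_prod, Nat.card_coe_set_eq, Nat.card_coe_set_eq] at hcard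
  simpa [mul_comm] using hcard

end

end Pool.Agent.DPFib
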