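import Mathlib

/-!
# MP_9669a9_ag: common definitions for the technical part

`B(u,v) = (u0+u1)^2 (v0+v1)^2 - u0 u1 v0 v1` is a form of bidegree (2,2); its zero set `E` in
`P^1 x P^1` is a smooth curve of genus one.  Binary forms of degree `n` in `(θ,σ)` are written as
polynomials of degree `≤ n` in `X = θ/σ`.
-/

namespace Pool.Agent.DPFib

open Polynomial

noncomputable section

section Form

variable {R : Type*} [CommRing R]

/-- the (2,2)-form -/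
def Bf (u0 u1 v0 v1 : R) : R := (u0 + u1) ^ 2 * (v0 + v1) ^ 2 - u0 * u1 * (v0 * v1)

/-- partial derivatives of `Bf` -/
def Bu0 (u0 u1 v0 v1 : R) : R := 2 * (u0 + u1) * (v0 + v1) ^ 2 - u1 * (v0 * v1)
def Bu1 (u0 u1 v0 v1 : R) : R := 2 * (u0 + u1) * (v0 + v1) ^ 2 - u0 * (v0 * v1)
def Bv0 (u0 u1 v0 v1 : R) : R := 2 * (u0 + u1) ^ 2 * (v0 + v1) - u0 * u1 * v1
def Bv1 (u0 u1 v0 v1 : R) : R := 2 * (u0 + u1) ^ 2 * (v0 + v1) - u0 * u1 * v0

/-- polynomial with given coefficients -/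
def pol {n : ℕ} (c : Fin n → R) : R[X] := ∑ i, C (c i) * X ^ (i : ℕ)

/-- index set of the coefficients of `(u0,u1,v0,v1,w)`, forms of degrees `a, a, b, b, a+b-1` -/
abbrev Ix (a b : ℕ) : Type := Fin (a + 1) ⊕ Fin (a + 1) ⊕ Fin (b + 1) ⊕ Fin (b + 1) ⊕ Fin (a + b)

variable {a b : ℕ}

def U0 (s : Ix a b → R) : R[X] := pol fun i => s (Sum.inl i)
def U1 (s : Ix a b → R) : R[X] := pol fun i => s (Sum.inr (Sum.inl i))
def V0 (s : Ix a b → R) : R[X] := pol fun i => s (Sum.inr (Sum.inr (Sum.inl i)))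
def V1 (s : Ix a b → R) : R[X] := pol fun i => s (Sum.inr (Sum.inr (Sum.inr (Sum.inl i))))
def Wp (s : Ix a b → R) : R[X] := pol fun i => s (Sum.inr (Sum.inr (Sum.inr (Sum.inr i))))

end Form

/-- two forms of degree `n` without a common zero on `P^1` -/
def NoZero (n : ℕ) (f g : ℂ[X]) : Prop := IsCoprime f g ∧ (f.coeff n ≠ 0 ∨ g.coeff n ≠ 0)

/-- sections of bidegree `(a,b)` through the point `u = -1, v = 0` of `E` at infinity -/
def Full (a b : ℕ) : Set (Ix a b → ℂ) :=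
  {s | NoZero a (U0 s) (U1 s) ∧ NoZero b (V0 s) (V1 s) ∧ (U0 s + U1 s).coeff a = 0 ∧
    (V0 s).coeff b = 0 ∧ X * Wp s ^ 2 = Bf (U0 s) (U1 s) (V0 s) (V1 s)}

/-- ... which moreover pass through `(ν,ζ)` at `0` -/
def At (a b : ℕ) (ν ζ : ℂ) : Set (Ix a b → ℂ) :=
  {s ∈ Full a b | (U0 s).coeff 0 = ν * (U1 s).coeff 0 ∧ (V0 s).coeff 0 = ζ * (V1 s).coeff 0}

/-- ... which do not pass through `(ν,ζ)` at `0` -/
def Off (a b : ℕ) (ν ζ : ℂ) : Set (Ix a b → ℂ) :=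
  {s ∈ Full a b | ¬ ((U0 s).coeff 0 = ν * (U1 s).coeff 0 ∧ (V0 s).coeff 0 = ζ * (V1 s).coeff 0)}

/-- irreducible components of (the Zariski closure of) a set of points, as prime ideals -/
def comps {σ : Type*} (Z : Set (σ → ℂ)) : Set (Ideal (MvPolynomial σ ℂ)) :=
  (MvPolynomial.vanishingIdeal ℂ Z).minimalPrimes

end

end Pool.Agent.DPFib
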