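import Pool.Agent.DPFib.Threefold

/-!
# MP_9669a9_ag, module H1: a polynomial vanishing near a point of `{Feq = 0}` is divisible by `Feq`
-/

namespace Pool.Agent.DPFib

open MvPolynomial Topology

noncomputable section

/-- the polynomial `B'` in the variables -/
def BpX (ν ζ : ℂ) : MvPolynomial Var ℂ :=
  Bp (MvPolynomial.C ν) (MvPolynomial.C ζ) (MvPolynomial.X Var.e) (MvPolynomial.X Var.g)
      (MvPolynomial.X Var.x) (MvPolynomial.X Var.y) (MvPolynomial.X Var.p) (MvPolynomial.X Var.q)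

theorem Feq_eq (ν ζ : ℂ) : Feq ν ζ = X Var.s * X Var.t * X Var.w ^ 2 - BpX ν ζ := rfl

theorem eval_BpX (ν ζ : ℂ) (z : Var → ℂ) : eval z (BpX ν ζ) =
    Bp ν ζ (z .e) (z .g) (z .x) (z .y) (z .p) (z .q) := by
  simp [BpX, Bp]

theorem eval_BpX_update (ν ζ : ℂ) (z : Var → ℂ) (a : ℂ) :
    eval (Function.update z Var.t a) (BpX ν ζ) = eval z (BpX ν ζ) := by
  rw [eval_BpX, eval_BpX]
  simp [Function.update]

/-- pseudo-division -/
theorem pseudo_div (ν ζ : ℂ) (G : MvPolynomial Var ℂ) : ∃ (N : ℕ) (R : MvPolynomial Var ℂ),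
    (∀ z a, eval (Function.update z Var.t a) R = eval z R) ∧
    Feq ν ζ ∣ (X Var.s * X Var.w ^ 2) ^ N * G - R := by
  induction G using MvPolynomial.induction_on with
  | C a => exact ⟨0, C a, fun z b => by simp, by simp⟩
  | add p q hp hq =>
    obtain ⟨N1, R1, h1, k1, e1⟩ := hp
    obtain ⟨N2, R2, h2, k2, e2⟩ := hq
    refine ⟨N1 + N2, (X Var.s * X Var.w ^ 2) ^ N2 * R1 + (X Var.s * X Var.w ^ 2) ^ N1 * R2, ?_,
      (X Var.s * X Var.w ^ 2) ^ N2 * k1 + (X Var.s * X Var.w ^ 2) ^ N1 * k2, ?_⟩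
    · intro z a
      simp [h1, h2, Function.update]
    · linear_combination (X Var.s * X Var.w ^ 2) ^ N2 * e1 + (X Var.s * X Var.w ^ 2) ^ N1 * e2
  | mul_X p v hp =>
    obtain ⟨N, R, h, k, e⟩ := hp
    by_cases hv : v = Var.t
    · subst hv
      refine ⟨N + 1, R * BpX ν ζ, ?_, (X Var.s * X Var.w ^ 2) ^ N * p + k * BpX ν ζ, ?_⟩
      · intro z a
        rw [map_mul, map_mul, h, eval_BpX_update]
      · rw [Feq_eq] at e ⊢
        linear_combination (BpX ν ζ) * e
    · refine ⟨N, R * X v, ?_, k * X v, ?_⟩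
      · intro z a
        rw [map_mul, map_mul, h, eval_X, eval_X, Function.update_of_ne hv]
      · linear_combination (X v) * e

/-- cancellation of a variable -/
theorem dvd_cancel_X {F H : MvPolynomial Var ℂ} {v : Var} {z : Var → ℂ} (hz : z v = 0)
    (hF : eval z F ≠ 0) (h : F ∣ X v * H) : F ∣ H := by
  obtain ⟨K, hK⟩ := h
  have hp : Prime (X v : MvPolynomial Var ℂ) := X_prime
  have h1 : X v ∣ F * K := ⟨H, hK.symm⟩
  rcases hp.dvd_or_dvd h1 with ⟨L, hL⟩ | ⟨L, hL⟩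
  · exfalso
    apply hF
    rw [hL, map_mul, eval_X, hz, zero_mul]
  · refine ⟨L, ?_⟩
    apply mul_left_cancel₀ hp.ne_zero
    rw [hK, hL]
    ring

/-- a point with `v = 0` off the hypersurface -/
theorem exists_off {ν ζ : ℂ} (hζ : ζ ≠ 0) {v : Var} (hv : v = .s ∨ v = .w) :
    ∃ z : Var → ℂ, z v = 0 ∧ eval z (Feq ν ζ) ≠ 0 := by
  refine ⟨fun r => match r with
    | .t => 1 | .s => 0 | .e => 1 | .g => 1 | .x => 1 | .y => 0 | .p => 0 | .q => 1 | .w => 0,
    ?_, ?_⟩
  · rcases hv with rfl | rfl <;> rfl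
  · rw [Feq_eq, map_sub, eval_BpX]
    simp [Bp, hζ]

theorem dvd_of_dvd_pow_mul {ν ζ : ℂ} (hζ : ζ ≠ 0) (N : ℕ) {G : MvPolynomial Var ℂ}
    (h : Feq ν ζ ∣ (X Var.s * X Var.w ^ 2) ^ N * G) : Feq ν ζ ∣ G := by
  obtain ⟨z1, hz1, hF1⟩ := exists_off (ν := ν) hζ (Or.inl rfl : Var.s = .s ∨ Var.s = .w)
  obtain ⟨z2, hz2, hF2⟩ := exists_off (ν := ν) hζ (Or.inr rfl : Var.w = .s ∨ Var.w = .w)
  induction N with
  | zero => simpa using h
  | succ N ih =>
    apply ih
    apply dvd_cancel_X hz2 hF2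
    apply dvd_cancel_X hz2 hF2
    apply dvd_cancel_X hz1 hF1
    convert h using 1
    ring

/-- `Feq = s w^2 t - B'` is linear in `t`.  Pseudo-division: for every `G` there are `N` and `R`
independent of `t` with `Feq ∣ (s w^2)^N G - R`. -/
theorem dominance_alg {ν ζ : ℂ} (hζ : ζ ≠ 0) {G : MvPolynomial Var ℂ} {z0 : Var → ℂ}
    (h0 : eval z0 (Feq ν ζ) = 0) (hs : z0 .s ≠ 0) (hw : z0 .w ≠ 0)
    (hG : ∀ᶠ z in 𝓝 z0, eval z (Feq ν ζ) = 0 → eval z G = 0) : Feq ν ζ ∣ G := by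
  obtain ⟨N, R, hR, K, hK⟩ := pseudo_div ν ζ G
  -- the retraction to the hypersurface
  set ψ : (Var → ℂ) → (Var → ℂ) := fun z =>
    Function.update z Var.t (eval z (BpX ν ζ) / (z .s * z .w ^ 2)) with hψ
  have hu0 : z0 .s * z0 .w ^ 2 ≠ 0 := mul_ne_zero hs (pow_ne_zero _ hw)
  have hcB : Continuous fun z : Var → ℂ => eval z (BpX ν ζ) := by
    simp only [eval_BpX, Bp]
    fun_prop
  have hcu : Continuous fun z : Var → ℂ => z .s * z .w ^ 2 := by fun_prop
  have hψ0 : ψ z0 = z0 := by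
    simp only [hψ]
    rw [Function.update_eq_self_iff]
    rw [Feq_eq, map_sub, map_mul, map_mul, map_pow, eval_X, eval_X, eval_X] at h0
    field_simp
    linear_combination -h0
  have hψc : ContinuousAt ψ z0 := by
    rw [continuousAt_pi]
    intro v
    by_cases hv : v = Var.t
    · subst hv
      simp only [hψ, Function.update_self]
      exact hcB.continuousAt.div hcu.continuousAt hu0
    · simp only [hψ, Function.update_of_ne hv]
      exact (continuous_apply v).continuousAt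
  have hR0 : ∀ᶠ z in 𝓝 z0, eval z R = 0 := by
    have h1 : ∀ᶠ z in 𝓝 z0, eval (ψ z) (Feq ν ζ) = 0 → eval (ψ z) G = 0 := by
      have := hψc.tendsto
      rw [hψ0] at this
      exact this.eventually hG
    have h2 : ∀ᶠ z in 𝓝 z0, z .s * z .w ^ 2 ≠ 0 := hcu.continuousAt.eventually_ne hu0
    filter_upwards [h1, h2] with z hz1 hz2
    have e1 : eval (ψ z) (Feq ν ζ) = 0 := by
      rw [Feq_eq, map_sub, map_mul, map_mul, map_pow, eval_X, eval_X, eval_X]
      simp only [hψ, eval_BpX_update, Function.update_self]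
      rw [Function.update_of_ne (by decide), Function.update_of_ne (by decide)]
      have e4 := div_mul_cancel₀ (eval z (BpX ν ζ)) hz2
      linear_combination e4
    have e2 := hz1 e1
    have e3 := congrArg (eval (ψ z)) hK
    rw [map_sub, map_mul, map_mul, e2, e1, mul_zero, zero_mul, zero_sub] at e3
    rw [← hR z (eval z (BpX ν ζ) / (z .s * z .w ^ 2))]
    exact neg_eq_zero.mp e3
  have hR1 : R = 0 := by
    rw [Metric.eventually_nhds_iff_ball] at hR0
    obtain ⟨δ, hδ, hball⟩ := hR0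
    refine MvPolynomial.funext_set (fun v => Metric.ball (z0 v) δ) (fun v => ?_) (fun x hx => ?_)
    · exact infinite_of_mem_nhds (z0 v) (Metric.ball_mem_nhds _ hδ)
    · rw [hball x, map_zero]
      rw [Metric.mem_ball, dist_pi_lt_iff hδ]
      intro v
      exact hx v (Set.mem_univ v)
  refine dvd_of_dvd_pow_mul hζ N ⟨K, ?_⟩
  rw [← hK, hR1, sub_zero]

end

end Pool.Agent.DPFib
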