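import Pool.Agent.DPFib.Comp

/-!
# MP_9669a9_ag, module H2: families over `(ℂ*)^2` of an irreducible set are irreducible
-/

namespace Pool.Agent.DPFib

open MvPolynomial

noncomputable section

/-- a polynomial function of Laurent polynomials in one variable is a Laurent polynomial -/
theorem laurent_comp {κ : Type*} (h : ℂ → κ → ℂ)
    (hA : ∀ i, ∃ (N : ℕ) (A : Polynomial ℂ), ∀ t : ℂ, t ≠ 0 → A.eval t = t ^ N * h t i)
    (f : MvPolynomial κ ℂ) :
    ∃ (N : ℕ) (A : Polynomial ℂ), ∀ t : ℂ, t ≠ 0 → A.eval t = t ^ N * eval (h t) f := by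
  induction f using MvPolynomial.induction_on with
  | C c => exact ⟨0, Polynomial.C c, fun t _ => by simp⟩
  | add p q hp hq =>
    obtain ⟨N1, A1, h1⟩ := hp
    obtain ⟨N2, A2, h2⟩ := hq
    refine ⟨N1 + N2, Polynomial.X ^ N2 * A1 + Polynomial.X ^ N1 * A2, fun t ht => ?_⟩
    simp only [Polynomial.eval_add, Polynomial.eval_mul, Polynomial.eval_pow, Polynomial.eval_X,
      h1 t ht, h2 t ht, map_add]
    ring
  | mul_X p i hp =>
    obtain ⟨N1, A1, h1⟩ := hp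
    obtain ⟨N2, A2, h2⟩ := hA i
    refine ⟨N1 + N2, A1 * A2, fun t ht => ?_⟩
    simp only [Polynomial.eval_mul, h1 t ht, h2 t ht, map_mul, eval_X]
    ring

/-- two Laurent polynomials that are not zero have a common point of non-vanishing -/
theorem laurent_common {g1 g2 : ℂ → ℂ}
    (h1 : ∃ (N : ℕ) (A : Polynomial ℂ), ∀ t : ℂ, t ≠ 0 → A.eval t = t ^ N * g1 t)
    (h2 : ∃ (N : ℕ) (A : Polynomial ℂ), ∀ t : ℂ, t ≠ 0 → A.eval t = t ^ N * g2 t)
    {t1 t2 : ℂ} (ht1 : t1 ≠ 0) (ht2 : t2 ≠ 0) (hg1 : g1 t1 ≠ 0) (hg2 : g2 t2 ≠ 0) :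
    ∃ t : ℂ, t ≠ 0 ∧ g1 t ≠ 0 ∧ g2 t ≠ 0 := by
  obtain ⟨N1, A1, e1⟩ := h1
  obtain ⟨N2, A2, e2⟩ := h2
  have n1 : A1 ≠ 0 := by
    rintro rfl
    have := e1 t1 ht1
    rw [Polynomial.eval_zero] at this
    exact mul_ne_zero (pow_ne_zero _ ht1) hg1 this.symm
  have n2 : A2 ≠ 0 := by
    rintro rfl
    have := e2 t2 ht2
    rw [Polynomial.eval_zero] at this
    exact mul_ne_zero (pow_ne_zero _ ht2) hg2 this.symm
  have n3 : Polynomial.X * A1 * A2 ≠ 0 := mul_ne_zero (mul_ne_zero Polynomial.X_ne_zero n1) n2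
  obtain ⟨t, ht⟩ := Polynomial.exists_eval_ne_zero_of_natDegree_lt_card _ n3
    (by simpa using Cardinal.natCast_lt_aleph0 |>.trans_le (Cardinal.aleph0_le_mk ℂ))
  rw [Polynomial.eval_mul, Polynomial.eval_mul, Polynomial.eval_X] at ht
  have ht0 : t ≠ 0 := fun h => ht (by rw [h]; ring)
  refine ⟨t, ht0, fun h => ht ?_, fun h => ht ?_⟩
  · rw [e1 t ht0, h]; ring
  · rw [e2 t ht0, h]; ring

/-- For fixed `(t,s)` the map `m t s` is polynomial; for fixed `r` it is a Laurent polynomial in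
`t` and in `s`. -/
theorem isPrime_vanishingIdeal_family {σ κ : Type*} [Finite σ] [Finite κ] {Y : Set (σ → ℂ)}
    (hY : (vanishingIdeal ℂ Y).IsPrime) (m : ℂ → ℂ → (σ → ℂ) → (κ → ℂ))
    (hm : ∀ t s : ℂ, t ≠ 0 → s ≠ 0 → ∀ i, ∃ F : MvPolynomial σ ℂ, ∀ r, eval r F = m t s r i)
    (ht : ∀ (s : ℂ) (r : σ → ℂ), s ≠ 0 → ∀ i, ∃ (N : ℕ) (A : Polynomial ℂ), ∀ t : ℂ, t ≠ 0 →
      A.eval t = t ^ N * m t s r i)
    (hs : ∀ (t : ℂ) (r : σ → ℂ), t ≠ 0 → ∀ i, ∃ (N : ℕ) (A : Polynomial ℂ), ∀ s : ℂ, s ≠ 0 →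
      A.eval s = s ^ N * m t s r i) :
    (vanishingIdeal ℂ {c : κ → ℂ | ∃ t s r, t ≠ 0 ∧ s ≠ 0 ∧ r ∈ Y ∧ c = m t s r}).IsPrime := by
  have hYne : Y.Nonempty := by
    rw [Set.nonempty_iff_ne_empty]
    rintro rfl
    exact hY.ne_top ((Ideal.eq_top_iff_one _).2 fun z hz => hz.elim)
  constructor
  · intro htop
    obtain ⟨r, hr⟩ := hYne
    have h1 : (1 : MvPolynomial κ ℂ) ∈
        vanishingIdeal ℂ {c : κ → ℂ | ∃ t s r, t ≠ 0 ∧ s ≠ 0 ∧ r ∈ Y ∧ c = m t s r} := by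
      rw [htop]; trivial
    have := h1 (m 1 1 r) ⟨1, 1, r, one_ne_zero, one_ne_zero, hr, rfl⟩
    simp at this
  · intro f1 f2 hf
    by_contra hcon
    push Not at hcon
    obtain ⟨hf1, hf2⟩ := hcon
    rw [mem_vanishingIdeal_iff] at hf1 hf2
    push Not at hf1 hf2
    obtain ⟨_, ⟨t1, s1, r1, ht1, hs1, hr1, rfl⟩, hv1⟩ := hf1
    obtain ⟨_, ⟨t2, s2, r2, ht2, hs2, hr2, rfl⟩, hv2⟩ := hf2
    rw [aeval_eq_eval] at hv1 hv2
    obtain ⟨t, ht0, w1, w2⟩ := laurent_common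
      (laurent_comp (fun t => m t s1 r1) (ht s1 r1 hs1) f1)
      (laurent_comp (fun t => m t s2 r2) (ht s2 r2 hs2) f2) ht1 ht2 hv1 hv2
    obtain ⟨s, hs0, w3, w4⟩ := laurent_common
      (laurent_comp (fun s => m t s r1) (hs t r1 ht0) f1)
      (laurent_comp (fun s => m t s r2) (hs t r2 ht0) f2) hs1 hs2 w1 w2
    choose F hF using hm t s ht0 hs0
    have hcomp : ∀ (f : MvPolynomial κ ℂ) (r : σ → ℂ),
        eval r (aeval F f) = eval (m t s r) f := by
      intro f r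
      rw [show m t s r = fun i => eval r (F i) from funext fun i => (hF i r).symm]
      induction f using MvPolynomial.induction_on with
      | C c => simp
      | add p q hp hq => simp only [map_add, hp, hq]
      | mul_X p i hp => simp only [map_mul, hp, aeval_X, eval_X]
    have hprod : aeval F f1 * aeval F f2 ∈ (vanishingIdeal ℂ Y : Ideal (MvPolynomial σ ℂ)) := by
      intro r hr
      have := hf (m t s r) ⟨t, s, r, ht0, hs0, hr, rfl⟩
      rw [aeval_eq_eval] at this ⊢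
      rw [map_mul, hcomp, hcomp, ← map_mul]
      exact this
    rcases hY.mem_or_mem hprod with h | h
    · have := h r1 hr1
      rw [aeval_eq_eval, hcomp] at this
      exact w3 this
    · have := h r2 hr2
      rw [aeval_eq_eval, hcomp] at this
      exact w4 this

theorem vanishingIdeal_open {σ : Type*} [Finite σ] {Z : Set (σ → ℂ)}
    {P : Ideal (MvPolynomial σ ℂ)} (hP : P ∈ comps Z) (l1 l2 : MvPolynomial σ ℂ)
    (hne : ∃ z ∈ Z ∩ zeroLocus ℂ P, eval z l1 ≠ 0 ∨ eval z l2 ≠ 0) :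
    vanishingIdeal ℂ {z ∈ Z ∩ zeroLocus ℂ P | eval z l1 ≠ 0 ∨ eval z l2 ≠ 0} = P := by
  have hprime : P.IsPrime := hP.1.1
  refine le_antisymm ?_ ?_
  · intro f hf
    have key : ∀ l : MvPolynomial σ ℂ, (∀ z, eval z l ≠ 0 → eval z l1 ≠ 0 ∨ eval z l2 ≠ 0) →
        f * l ∈ P := by
      intro l hl
      rw [← comps_vanishingIdeal_inter hP]
      intro z hz
      rw [map_mul]
      by_cases h0 : eval z l = 0
      · rw [aeval_eq_eval, h0, mul_zero]
      · rw [hf z ⟨hz, hl z h0⟩, zero_mul]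
    have h1 := key l1 fun z h => Or.inl h
    have h2 := key l2 fun z h => Or.inr h
    rcases hprime.mem_or_mem h1 with h | h
    · exact h
    rcases hprime.mem_or_mem h2 with h' | h'
    · exact h'
    obtain ⟨z, hz, hz'⟩ := hne
    have e1 := hz.2 l1 h
    have e2 := hz.2 l2 h'
    rw [aeval_eq_eval] at e1 e2
    rcases hz' with h3 | h3
    · exact absurd e1 h3
    · exact absurd e2 h3
  · intro f hf z hz
    exact hz.1.2 f hf

end

end Pool.Agent.DPFib
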