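import Pool.Agent.DPFib.SecPol2
import Pool.Agent.DPFib.Comp
import Pool.Agent.DPFib.PrimeFam

/-!
# MP_9669a9_ag, module H: the families of profile `(false, true)`
-/

namespace Pool.Agent.DPFib

open Polynomial

noncomputable section

/-- the class of profile `(false, true)` -/
def clFT (a b : ℤ) : Var → ℤ
  | .t => 1
  | .s => 0
  | .e => 0
  | .g => 1
  | .x => a
  | .y => a - 1
  | .p => b
  | .q => b - 1
  | .w => a + b - 1

variable {a b : ℕ} {ν ζ : ℂ}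

/-- the nine polynomials -/
def PFT (ν ζ t s : ℂ) (r : Ix a b → ℂ) : Var → ℂ[X]
  | .t => C t * X
  | .s => C s
  | .e => C t⁻¹
  | .g => C s⁻¹
  | .x => C (t / (1 + ν)) * (U0 r - C ν * U1 r)
  | .y => C (s / (1 + ν)) * (U0 r + U1 r)
  | .p => C t * (C ζ⁻¹ * V0 r - V1 r)
  | .q => C (s / ζ) * V0 r
  | .w => Wp r

/-- the section with given `t`, `s` and given image in `Off` -/
def mkFT (a b : ℕ) (ν ζ t s : ℂ) (r : Ix a b → ℂ) : CIx (clFT a b) → ℂ :=
  ofP (clFT a b) (PFT ν ζ t s r)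

theorem good_clFT (ha : 1 ≤ a) (hb : 1 ≤ b) : Good a b (clFT a b) :=
  good_FT ha hb _ ⟨rfl, rfl, rfl, rfl, rfl, rfl, rfl, rfl, rfl⟩

theorem natDegree_le_pred_ft {f : ℂ[X]} {n : ℕ} (hn : 1 ≤ n) (hf : f.natDegree ≤ n)
    (h : f.coeff n = 0) : f.natDegree ≤ n - 1 := by
  rw [natDegree_le_iff_coeff_eq_zero]
  intro k hk
  rcases Nat.lt_or_ge n k with h1 | h1
  · exact coeff_eq_zero_of_natDegree_lt (by omega)
  · have : k = n := by omega
    rw [this, h]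

theorem PFT_natDegree (ha : 1 ≤ a) (hb : 1 ≤ b) {t s : ℂ} {r : Ix a b → ℂ}
    (h1 : (U0 r + U1 r).coeff a = 0) (h2 : (V0 r).coeff b = 0) (ρ : Var) :
    (PFT ν ζ t s r ρ).natDegree ≤ (clFT a b ρ).toNat := by
  have d0 := natDegree_U0 r
  have d1 := natDegree_U1 r
  have d2 := natDegree_V0 r
  have d3 := natDegree_V1 r
  have d4 := natDegree_Wp r
  cases ρ
  · simp only [PFT, clFT]
    refine (natDegree_C_mul_le _ _).trans ?_
    simp
  · simp [PFT, clFT]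
  · simp [PFT, clFT]
  · simp [PFT, clFT]
  · simp only [PFT, clFT]
    refine (natDegree_C_mul_le _ _).trans ?_
    rw [Int.toNat_natCast]
    refine (natDegree_sub_le _ _).trans (max_le d0 ((natDegree_C_mul_le _ _).trans d1))
  · simp only [PFT, clFT]
    refine (natDegree_C_mul_le _ _).trans ?_
    have : ((a : ℤ) - 1).toNat = a - 1 := by omega
    rw [this]
    exact natDegree_le_pred_ft ha ((natDegree_add_le _ _).trans (max_le d0 d1)) h1
  · simp only [PFT, clFT]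
    refine (natDegree_C_mul_le _ _).trans ?_
    rw [Int.toNat_natCast]
    refine (natDegree_sub_le _ _).trans (max_le ((natDegree_C_mul_le _ _).trans d2) d3)
  · simp only [PFT, clFT]
    refine (natDegree_C_mul_le _ _).trans ?_
    have : ((b : ℤ) - 1).toNat = b - 1 := by omega
    rw [this]
    exact natDegree_le_pred_ft hb d2 h2
  · simp only [PFT, clFT]
    have : ((a : ℤ) + b - 1).toNat = a + b - 1 := by omega
    rw [this]
    exact d4

theorem Pc_mkFT (ha : 1 ≤ a) (hb : 1 ≤ b) {t s : ℂ} {r : Ix a b → ℂ}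
    (h1 : (U0 r + U1 r).coeff a = 0) (h2 : (V0 r).coeff b = 0) (ρ : Var) :
    Pc (mkFT a b ν ζ t s r) ρ = PFT ν ζ t s r ρ :=
  Pc_ofP' ((good_clFT ha hb).nonneg ρ) (PFT_natDegree ha hb h1 h2 ρ)

theorem pt_mkFT (ha : 1 ≤ a) (hb : 1 ≤ b) {t s : ℂ} {r : Ix a b → ℂ}
    (h1 : (U0 r + U1 r).coeff a = 0) (h2 : (V0 r).coeff b = 0) (θ σ : ℂ) (ρ : Var) :
    pt (mkFT a b ν ζ t s r) θ σ ρ = hom (clFT a b ρ).toNat (PFT ν ζ t s r ρ) θ σ := by
  rw [pt_eq_hom _ _ ((good_clFT ha hb).nonneg ρ), Pc_mkFT ha hb h1 h2]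

theorem hom_pred {f : ℂ[X]} {n : ℕ} (hn : 1 ≤ n) (hf : f.natDegree ≤ n - 1) (θ σ : ℂ) :
    σ * hom (n - 1) f θ σ = hom n f θ σ := by
  have h := hom_mul (n := 1) (m := n - 1) (f := (1 : ℂ[X])) (g := f) (by simp) hf θ σ
  rw [hom_one_one, one_mul, Nat.add_sub_cancel' hn] at h
  exact h.symm

theorem PFT_eq (hνζ : (1 + ν) ^ 2 * (1 + ζ) ^ 2 = ν * ζ) (hν : ν ≠ -1) (hζ : ζ ≠ 0) {t s : ℂ}
    (ht : t ≠ 0) (hs : s ≠ 0) {r : Ix a b → ℂ}
    (h : X * Wp r ^ 2 = Bf (U0 r) (U1 r) (V0 r) (V1 r)) :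
    PFT ν ζ t s r .s * PFT ν ζ t s r .t * PFT ν ζ t s r .w ^ 2 =
      Bp (C ν) (C ζ) (PFT ν ζ t s r .e) (PFT ν ζ t s r .g) (PFT ν ζ t s r .x) (PFT ν ζ t s r .y)
        (PFT ν ζ t s r .p) (PFT ν ζ t s r .q) := by
  have hν1 : (1 + ν) ≠ 0 := fun h0 => hν (by linear_combination h0)
  have hB := Bp_spec (C ν) (C ζ) (PFT ν ζ t s r .e) (PFT ν ζ t s r .g) (PFT ν ζ t s r .x)
    (PFT ν ζ t s r .y) (PFT ν ζ t s r .p) (PFT ν ζ t s r .q)
  have hz : ((1 + C ν) ^ 2 * (1 + C ζ) ^ 2 - C ν * C ζ : ℂ[X]) = 0 := by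
    have : (C ((1 + ν) ^ 2 * (1 + ζ) ^ 2) : ℂ[X]) = C (ν * ζ) := by rw [hνζ]
    simp only [C_mul, C_pow, C_add, C_1] at this
    rw [this, sub_self]
  rw [hz, mul_zero, sub_zero] at hB
  have e1 : (C t⁻¹ * C (t / (1 + ν)) : ℂ[X]) = C (1 + ν)⁻¹ := by
    rw [← C_mul]; congr 1; field_simp
  have e2 : (C s⁻¹ * C (s / (1 + ν)) : ℂ[X]) = C (1 + ν)⁻¹ := by
    rw [← C_mul]; congr 1; field_simp
  have e3 : (C t⁻¹ * C t : ℂ[X]) = 1 := by
    rw [← C_mul, inv_mul_cancel₀ ht, C_1]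
  have e4 : (C s⁻¹ * C (s / ζ) : ℂ[X]) = C ζ⁻¹ := by
    rw [← C_mul]; congr 1; field_simp
  have e5 : (C s⁻¹ * C s : ℂ[X]) = 1 := by
    rw [← C_mul, inv_mul_cancel₀ hs, C_1]
  have e6 : (C ζ * C ζ⁻¹ : ℂ[X]) = 1 := by
    rw [← C_mul, mul_inv_cancel₀ hζ, C_1]
  have e7 : ((1 + C ν) * C (1 + ν)⁻¹ : ℂ[X]) = 1 := by
    rw [← C_1, ← C_add, ← C_mul, mul_inv_cancel₀ hν1]
  have f1 : (C ν * PFT ν ζ t s r .g * PFT ν ζ t s r .y + PFT ν ζ t s r .e * PFT ν ζ t s r .x) =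
      U0 r := by
    simp only [PFT]
    linear_combination (C ν * (U0 r + U1 r)) * e2 + (U0 r - C ν * U1 r) * e1 + (U0 r) * e7
  have f2 : (PFT ν ζ t s r .g * PFT ν ζ t s r .y - PFT ν ζ t s r .e * PFT ν ζ t s r .x) =
      U1 r := by
    simp only [PFT]
    linear_combination (U0 r + U1 r) * e2 - (U0 r - C ν * U1 r) * e1 + (U1 r) * e7
  have f3 : (C ζ * PFT ν ζ t s r .g * PFT ν ζ t s r .q) = V0 r := by
    simp only [PFT]
    linear_combination (C ζ * V0 r) * e4 + (V0 r) * e6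
  have f4 : (PFT ν ζ t s r .g * PFT ν ζ t s r .q - PFT ν ζ t s r .e * PFT ν ζ t s r .p) =
      V1 r := by
    simp only [PFT]
    linear_combination (V0 r) * e4 - (C ζ⁻¹ * V0 r - V1 r) * e3
  rw [f1, f2, f3, f4, ← h] at hB
  have hne : PFT ν ζ t s r .e * PFT ν ζ t s r .g ≠ 0 := by
    simp only [PFT]
    exact mul_ne_zero (C_ne_zero.mpr (inv_ne_zero ht)) (C_ne_zero.mpr (inv_ne_zero hs))
  apply mul_left_cancel₀ hne
  rw [hB]
  simp only [PFT]
  linear_combination (X * Wp r ^ 2) * (C s⁻¹ * C s) * e3 + (X * Wp r ^ 2) * e5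

theorem mkFT_mem_Sec (ha : 1 ≤ a) (hb : 1 ≤ b) (hνζ : (1 + ν) ^ 2 * (1 + ζ) ^ 2 = ν * ζ)
    (hν : ν ≠ -1) (hζ : ζ ≠ 0) {t s : ℂ} (ht : t ≠ 0) (hs : s ≠ 0) {r : Ix a b → ℂ}
    (hr : r ∈ Off a b ν ζ) : mkFT a b ν ζ t s r ∈ Sec ν ζ (clFT a b) := by
  obtain ⟨⟨hU, hV, h1, h2, h⟩, hoff⟩ := hr
  have hν1 : (1 + ν) ≠ 0 := fun h0 => hν (by linear_combination h0)
  have hgood := good_clFT ha hb
  have hU' := (noZero_iff_forall (natDegree_U0 r) (natDegree_U1 r)).mp hU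
  have hV' := (noZero_iff_forall (natDegree_V0 r) (natDegree_V1 r)).mp hV
  have hpt := pt_mkFT (ν := ν) (ζ := ζ) (t := t) (s := s) ha hb h1 h2
  have d0 := natDegree_U0 r
  have d1 := natDegree_U1 r
  have d2 := natDegree_V0 r
  have vt : ∀ θ σ, pt (mkFT a b ν ζ t s r) θ σ .t = t * θ := by
    intro θ σ
    rw [hpt]
    change hom 1 (C t * X) θ σ = _
    rw [hom_C_mul, hom_X]
  have vs : ∀ θ σ, pt (mkFT a b ν ζ t s r) θ σ .s = s := by
    intro θ σ
    rw [hpt]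
    change hom 0 (C s) θ σ = _
    rw [hom_zero_C]
  have ve : ∀ θ σ, pt (mkFT a b ν ζ t s r) θ σ .e = t⁻¹ := by
    intro θ σ
    rw [hpt]
    change hom 0 (C t⁻¹) θ σ = _
    rw [hom_zero_C]
  have vg : ∀ θ σ, pt (mkFT a b ν ζ t s r) θ σ .g = s⁻¹ * σ := by
    intro θ σ
    rw [hpt]
    change hom 1 (C s⁻¹) θ σ = _
    rw [← mul_one (C s⁻¹), hom_C_mul, hom_one_one]
  have vx : ∀ θ σ, pt (mkFT a b ν ζ t s r) θ σ .x =
      t / (1 + ν) * (hom a (U0 r) θ σ - ν * hom a (U1 r) θ σ) := by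
    intro θ σ
    rw [hpt]
    change hom a (C (t / (1 + ν)) * (U0 r - C ν * U1 r)) θ σ = _
    rw [hom_C_mul, hom_sub, hom_C_mul]
  have vy : ∀ θ σ, σ * pt (mkFT a b ν ζ t s r) θ σ .y =
      s / (1 + ν) * (hom a (U0 r) θ σ + hom a (U1 r) θ σ) := by
    intro θ σ
    rw [hpt]
    have e1 : (clFT a b .y).toNat = a - 1 := by
      change ((a : ℤ) - 1).toNat = a - 1
      omega
    rw [e1, hom_pred ha]
    · change hom a (C (s / (1 + ν)) * (U0 r + U1 r)) θ σ = _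
      rw [hom_C_mul, hom_add]
    · refine (natDegree_C_mul_le _ _).trans ?_
      exact natDegree_le_pred_ft ha ((natDegree_add_le _ _).trans (max_le d0 d1)) h1
  have vp : ∀ θ σ, pt (mkFT a b ν ζ t s r) θ σ .p =
      t * (ζ⁻¹ * hom b (V0 r) θ σ - hom b (V1 r) θ σ) := by
    intro θ σ
    rw [hpt]
    change hom b (C t * (C ζ⁻¹ * V0 r - V1 r)) θ σ = _
    rw [hom_C_mul, hom_sub, hom_C_mul]
  have vq : ∀ θ σ, σ * pt (mkFT a b ν ζ t s r) θ σ .q = s / ζ * hom b (V0 r) θ σ := by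
    intro θ σ
    rw [hpt]
    have e1 : (clFT a b .q).toNat = b - 1 := by
      change ((b : ℤ) - 1).toNat = b - 1
      omega
    rw [e1, hom_pred hb]
    · change hom b (C (s / ζ) * V0 r) θ σ = _
      rw [hom_C_mul]
    · refine (natDegree_C_mul_le _ _).trans ?_
      exact natDegree_le_pred_ft hb d2 h2
  have hEq : ∀ θ σ, EqX ν ζ (pt (mkFT a b ν ζ t s r) θ σ) := by
    apply EqX_all hgood.nonneg hgood.cls
    intro θ
    have hp := congrArg (Polynomial.eval θ) (PFT_eq hνζ hν hζ ht hs h)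
    have hev : ∀ ρ, (PFT ν ζ t s r ρ).eval θ = pt (mkFT a b ν ζ t s r) θ 1 ρ := by
      intro ρ
      rw [hpt, hom_one (PFT_natDegree ha hb h1 h2 ρ)]
    unfold EqX
    simp only [← hev]
    unfold Bp at hp ⊢
    simpa using hp
  intro θ σ hθσ
  have het : pt (mkFT a b ν ζ t s r) θ σ .e * pt (mkFT a b ν ζ t s r) θ σ .t = θ := by
    rw [ve, vt]; field_simp
  have hgs : pt (mkFT a b ν ζ t s r) θ σ .g * pt (mkFT a b ν ζ t s r) θ σ .s = σ := by
    rw [vg, vs]; field_simp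
  refine ⟨⟨?_, ?_, ?_, ?_, ?_, ?_⟩, het, hgs⟩
  · rw [het, hgs]; exact hθσ
  · by_contra hcon
    push Not at hcon
    obtain ⟨c1, c2⟩ := hcon
    rw [ve, vx] at c1
    rw [vg, mul_assoc, vy] at c2
    have c1' : hom a (U0 r) θ σ - ν * hom a (U1 r) θ σ = 0 := by
      field_simp at c1
      simpa using c1
    have c2' : hom a (U0 r) θ σ + hom a (U1 r) θ σ = 0 := by
      field_simp at c2
      simpa using c2
    have c3 : (1 + ν) * hom a (U1 r) θ σ = 0 := by linear_combination c2' - c1'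
    have c4 : hom a (U1 r) θ σ = 0 := by
      rcases mul_eq_zero.mp c3 with h | h
      · exact absurd h hν1
      · exact h
    have c5 : hom a (U0 r) θ σ = 0 := by linear_combination c2' - c4
    rcases hU' θ σ hθσ with h | h
    · exact h c5
    · exact h c4
  · by_contra hcon
    push Not at hcon
    obtain ⟨c1, c2, -⟩ := hcon
    rw [ve, vp] at c1
    rw [vg, mul_assoc, vq] at c2
    have c2' : hom b (V0 r) θ σ = 0 := by
      field_simp at c2
      simpa using c2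
    rw [c2', mul_zero, zero_sub] at c1
    have c1' : hom b (V1 r) θ σ = 0 := by
      field_simp at c1
      simpa using c1
    rcases hV' θ σ hθσ with h | h
    · exact h c2'
    · exact h c1'
  · by_contra hcon
    push Not at hcon
    obtain ⟨c1, c2, c3⟩ := hcon
    rw [vt] at c1
    have hθ : θ = 0 := by
      rcases mul_eq_zero.mp c1 with h | h
      · exact absurd h ht
      · exact h
    have hσ : σ ≠ 0 := by
      rcases hθσ with h | h
      · exact absurd hθ h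
      · exact h
    have hom0 : ∀ (n : ℕ) (f : ℂ[X]), f.natDegree ≤ n → hom n f θ σ = σ ^ n * f.coeff 0 := by
      intro n f hf
      rw [hom_eq hf hσ, hθ, zero_div, coeff_zero_eq_eval_zero]
    rw [vx, hom0 a _ d0, hom0 a _ d1] at c2
    rw [vp, hom0 b _ d2, hom0 b _ (natDegree_V1 r)] at c3
    apply hoff
    have hσa : σ ^ a ≠ 0 := pow_ne_zero _ hσ
    have hσb : σ ^ b ≠ 0 := pow_ne_zero _ hσ
    constructor
    · have : t / (1 + ν) * σ ^ a * ((U0 r).coeff 0 - ν * (U1 r).coeff 0) = 0 := by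
        linear_combination c2
      rcases mul_eq_zero.mp this with h | h
      · exact absurd h (mul_ne_zero (div_ne_zero ht hν1) hσa)
      · linear_combination h
    · have : t * σ ^ b * (ζ⁻¹ * (V0 r).coeff 0 - (V1 r).coeff 0) = 0 := by
        linear_combination c3
      rcases mul_eq_zero.mp this with h | h
      · exact absurd h (mul_ne_zero ht hσb)
      · have e := mul_inv_cancel₀ hζ
        linear_combination ζ * h - (V0 r).coeff 0 * e
  · left; rw [vs]; exact hs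
  · exact hEq θ σ

theorem sec_FT (ha : 1 ≤ a) (hb : 1 ≤ b) (hνζ : (1 + ν) ^ 2 * (1 + ζ) ^ 2 = ν * ζ)
    (hν : ν ≠ -1) (hζ : ζ ≠ 0) {c : CIx (clFT a b) → ℂ} (hc : c ∈ Sec ν ζ (clFT a b)) :
    toIx a b ν ζ c ∈ Off a b ν ζ ∧
      ∃ t s : ℂ, t ≠ 0 ∧ s ≠ 0 ∧ c = mkFT a b ν ζ t s (toIx a b ν ζ c) := by
  have hg := good_clFT ha hb
  have hν1 : (1 + ν) ≠ 0 := fun h0 => hν (by linear_combination h0)
  obtain ⟨h1, h2, h3⟩ := sec_pols hg.nonneg hc
  obtain ⟨s, hs, hPs, hPg⟩ := sec_s_g hg hc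
  have he : (Pc c .e).natDegree ≤ 0 := natDegree_Pc c .e
  have he' := eq_C_of_natDegree_le_zero he
  set e1 := (Pc c .e).coeff 0 with he1
  have he0 : e1 ≠ 0 := by
    intro h
    rw [he', h, C_0, zero_mul] at h1
    exact X_ne_zero h1.symm
  have hti : (e1⁻¹)⁻¹ = e1 := inv_inv e1
  have hPt : Pc c .t = C e1⁻¹ * X := by
    have e3 : (C e1⁻¹ * C e1 : ℂ[X]) = 1 := by rw [← C_mul, inv_mul_cancel₀ he0, C_1]
    rw [← h1, he']
    linear_combination (-(Pc c .t)) * e3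
  have k1 : (C (e1⁻¹ / (1 + ν)) * (1 + C ν) * C e1 : ℂ[X]) = 1 := by
    rw [← C_1, ← C_add, ← C_mul, ← C_mul]; congr 1; field_simp
  have k2 : (C (s / (1 + ν)) * (1 + C ν) * C s⁻¹ : ℂ[X]) = 1 := by
    rw [← C_1, ← C_add, ← C_mul, ← C_mul]; congr 1; field_simp
  have k3 : (C e1⁻¹ * C e1 : ℂ[X]) = 1 := by rw [← C_mul, inv_mul_cancel₀ he0, C_1]
  have k4 : (C ζ⁻¹ * C ζ : ℂ[X]) = 1 := by rw [← C_mul, inv_mul_cancel₀ hζ, C_1]
  have k5 : (C (s / ζ) * C ζ * C s⁻¹ : ℂ[X]) = 1 := by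
    rw [← C_mul, ← C_mul, ← C_1]; congr 1; field_simp
  have hall : ∀ ρ, Pc c ρ = PFT ν ζ e1⁻¹ s (toIx a b ν ζ c) ρ := by
    intro ρ
    cases ρ
    · exact hPt
    · exact hPs
    · simp only [PFT]; rw [hti]; exact he'
    · exact hPg
    · simp only [PFT]
      rw [toIx_U0 hg, toIx_U1 hg, qU0, qU1, he', hPg]
      linear_combination (-(Pc c .x)) * k1
    · simp only [PFT]
      rw [toIx_U0 hg, toIx_U1 hg, qU0, qU1, he', hPg]
      linear_combination (-(Pc c .y)) * k2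
    · simp only [PFT]
      rw [toIx_V0 hg, toIx_V1 hg, qV0, qV1, he', hPg]
      linear_combination (-(Pc c .p)) * k3 - C e1⁻¹ * (C s⁻¹ * Pc c .q) * k4
    · simp only [PFT]
      rw [toIx_V0 hg, qV0, hPg]
      linear_combination (-(Pc c .q)) * k5
    · simp only [PFT]
      rw [toIx_Wp hg]
  refine ⟨⟨toIx_mem_Full hg hνζ hν hζ hc, ?_⟩, e1⁻¹, s, inv_ne_zero he0, hs, ?_⟩
  · rintro ⟨c1, c2⟩
    have h4 := (hc 0 1 (Or.inr one_ne_zero)).1.2.2.2.1
    rw [pt_one hg.nonneg, pt_one hg.nonneg, pt_one hg.nonneg, hall .t, hall .x, hall .p] at h4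
    simp only [PFT, eval_mul, eval_C, eval_X, eval_sub, mul_zero, ne_eq, not_true_eq_false,
      false_or, ← coeff_zero_eq_eval_zero] at h4
    rcases h4 with h4 | h4
    · apply h4; rw [c1, sub_self, mul_zero]
    · apply h4; rw [c2, ← mul_assoc, inv_mul_cancel₀ hζ, one_mul, sub_self, mul_zero]
  · conv_lhs => rw [← ofP_Pc c]
    rw [mkFT]
    congr 1
    funext ρ
    exact hall ρ

/-- functions given by a polynomial -/
def PolyFn {σ : Type*} (f : (σ → ℂ) → ℂ) : Prop :=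
  ∃ F : MvPolynomial σ ℂ, ∀ r, MvPolynomial.eval r F = f r

namespace PolyFn

variable {σ : Type*} {f g : (σ → ℂ) → ℂ}

theorem const (c : ℂ) : PolyFn (fun _ : σ → ℂ => c) := ⟨MvPolynomial.C c, fun r => by simp⟩
theorem coord (i : σ) : PolyFn (fun r : σ → ℂ => r i) := ⟨MvPolynomial.X i, fun r => by simp⟩
theorem add (hf : PolyFn f) (hg : PolyFn g) : PolyFn (fun r => f r + g r) := by
  obtain ⟨F, hF⟩ := hf
  obtain ⟨G, hG⟩ := hg
  exact ⟨F + G, fun r => by simp [hF, hG]⟩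
theorem sub (hf : PolyFn f) (hg : PolyFn g) : PolyFn (fun r => f r - g r) := by
  obtain ⟨F, hF⟩ := hf
  obtain ⟨G, hG⟩ := hg
  exact ⟨F - G, fun r => by simp [hF, hG]⟩
theorem mul (hf : PolyFn f) (hg : PolyFn g) : PolyFn (fun r => f r * g r) := by
  obtain ⟨F, hF⟩ := hf
  obtain ⟨G, hG⟩ := hg
  exact ⟨F * G, fun r => by simp [hF, hG]⟩

theorem coeff_pol {n : ℕ} (j : Fin n → σ) (k : ℕ) :
    PolyFn (fun r : σ → ℂ => (pol fun i => r (j i)).coeff k) := by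
  by_cases h : k < n
  · obtain ⟨F, hF⟩ := coord (j ⟨k, h⟩)
    exact ⟨F, fun r => by rw [hF]; exact (coeff_pol_of_lt (fun i => r (j i)) h).symm⟩
  · obtain ⟨F, hF⟩ := const (σ := σ) 0
    exact ⟨F, fun r => by rw [hF]; simp only []; rw [Pool.Agent.DPFib.coeff_pol, dif_neg h]⟩

end PolyFn

theorem polyFn_PFT (ν ζ t s : ℂ) (ρ : Var) (k : ℕ) :
    PolyFn (fun r : Ix a b → ℂ => (PFT ν ζ t s r ρ).coeff k) := by
  have u0 : PolyFn (fun r : Ix a b → ℂ => (U0 r).coeff k) := PolyFn.coeff_pol _ k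
  have u1 : PolyFn (fun r : Ix a b → ℂ => (U1 r).coeff k) := PolyFn.coeff_pol _ k
  have v0 : PolyFn (fun r : Ix a b → ℂ => (V0 r).coeff k) := PolyFn.coeff_pol _ k
  have v1 : PolyFn (fun r : Ix a b → ℂ => (V1 r).coeff k) := PolyFn.coeff_pol _ k
  have w : PolyFn (fun r : Ix a b → ℂ => (Wp r).coeff k) := PolyFn.coeff_pol _ k
  cases ρ
  · exact PolyFn.const _
  · exact PolyFn.const _
  · exact PolyFn.const _
  · exact PolyFn.const _
  · simp only [PFT, coeff_C_mul, coeff_sub]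
    exact (PolyFn.const _).mul (u0.sub ((PolyFn.const _).mul u1))
  · simp only [PFT, coeff_C_mul, coeff_add]
    exact (PolyFn.const _).mul (u0.add u1)
  · simp only [PFT, coeff_C_mul, coeff_sub]
    exact (PolyFn.const _).mul (((PolyFn.const _).mul v0).sub v1)
  · simp only [PFT, coeff_C_mul]
    exact (PolyFn.const _).mul v0
  · exact w

/-- Laurent polynomials in one variable -/
def LaurFn (f : ℂ → ℂ) : Prop :=
  ∃ (N : ℕ) (A : Polynomial ℂ), ∀ t : ℂ, t ≠ 0 → A.eval t = t ^ N * f t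

namespace LaurFn

variable {f g : ℂ → ℂ}

theorem const (c : ℂ) : LaurFn (fun _ => c) := ⟨0, C c, fun t _ => by simp⟩
theorem id : LaurFn (fun t => t) := ⟨0, X, fun t _ => by simp⟩
theorem inv : LaurFn (fun t => t⁻¹) := ⟨1, 1, fun t ht => by simp [ht]⟩
theorem mul (hf : LaurFn f) (hg : LaurFn g) : LaurFn (fun t => f t * g t) := by
  obtain ⟨N, A, h⟩ := hf
  obtain ⟨M, B, h'⟩ := hg
  exact ⟨N + M, A * B, fun t ht => by rw [eval_mul, h t ht, h' t ht]; ring⟩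
theorem div_const (hf : LaurFn f) (c : ℂ) : LaurFn (fun t => f t / c) := by
  simp only [div_eq_mul_inv]
  exact hf.mul (const _)

end LaurFn

theorem laurFn_t (ν ζ s : ℂ) (r : Ix a b → ℂ) (ρ : Var) (k : ℕ) :
    LaurFn (fun t => (PFT ν ζ t s r ρ).coeff k) := by
  cases ρ
  · simp only [PFT, coeff_C_mul]
    exact LaurFn.id.mul (LaurFn.const _)
  · exact LaurFn.const _
  · simp only [PFT, coeff_C]
    by_cases hk : k = 0
    · simp only [hk, if_true]; exact LaurFn.inv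
    · simp only [hk, if_false]; exact LaurFn.const 0
  · exact LaurFn.const _
  · simp only [PFT, coeff_C_mul]
    exact (LaurFn.id.div_const _).mul (LaurFn.const _)
  · exact LaurFn.const _
  · simp only [PFT, coeff_C_mul]
    exact LaurFn.id.mul (LaurFn.const _)
  · exact LaurFn.const _
  · exact LaurFn.const _

theorem laurFn_s (ν ζ t : ℂ) (r : Ix a b → ℂ) (ρ : Var) (k : ℕ) :
    LaurFn (fun s => (PFT ν ζ t s r ρ).coeff k) := by
  cases ρ
  · exact LaurFn.const _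
  · simp only [PFT, coeff_C]
    by_cases hk : k = 0
    · simp only [hk, if_true]; exact LaurFn.id
    · simp only [hk, if_false]; exact LaurFn.const 0
  · exact LaurFn.const _
  · simp only [PFT, coeff_C]
    by_cases hk : k = 0
    · simp only [hk, if_true]; exact LaurFn.inv
    · simp only [hk, if_false]; exact LaurFn.const 0
  · exact LaurFn.const _
  · simp only [PFT, coeff_C_mul]
    exact (LaurFn.id.div_const _).mul (LaurFn.const _)
  · exact LaurFn.const _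
  · simp only [PFT, coeff_C_mul]
    exact (LaurFn.id.div_const _).mul (LaurFn.const _)
  · exact LaurFn.const _

theorem families_ft {a b : ℕ} (ha : 2 ≤ a) (hab : a + 1 ≤ b) {ν ζ : ℂ}
    (hνζ : (1 + ν) ^ 2 * (1 + ζ) ^ 2 = ν * ζ) (hν : ν ≠ -1) (hζ : ζ ≠ 0) :
    (families ν ζ (clFT a b)).Finite ∧
      (families ν ζ (clFT a b)).ncard ≤ (comps (Full a b)).ncard := by
  have ha1 : 1 ≤ a := by omega
  have hb1 : 1 ≤ b := by omega
  have hsub : families ν ζ (clFT a b) ⊆ comps (Sec ν ζ (clFT a b)) := fun P hP => hP.1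
  have hfin := comps_finite (Sec ν ζ (clFT a b))
  refine ⟨hfin.subset hsub, (Set.ncard_le_ncard hsub hfin).trans ?_⟩
  set l1 : MvPolynomial (Ix a b) ℂ := MvPolynomial.X (Sum.inl 0) -
    MvPolynomial.C ν * MvPolynomial.X (Sum.inr (Sum.inl 0)) with hl1
  set l2 : MvPolynomial (Ix a b) ℂ := MvPolynomial.X (Sum.inr (Sum.inr (Sum.inl 0))) -
    MvPolynomial.C ζ * MvPolynomial.X (Sum.inr (Sum.inr (Sum.inr (Sum.inl 0)))) with hl2
  have hoff : ∀ z : Ix a b → ℂ, (¬ ((U0 z).coeff 0 = ν * (U1 z).coeff 0 ∧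
      (V0 z).coeff 0 = ζ * (V1 z).coeff 0)) ↔
      (MvPolynomial.eval z l1 ≠ 0 ∨ MvPolynomial.eval z l2 ≠ 0) := by
    intro z
    have e0 : (U0 z).coeff 0 = z (Sum.inl 0) := coeff_pol_of_lt _ (Nat.succ_pos _)
    have e1 : (U1 z).coeff 0 = z (Sum.inr (Sum.inl 0)) := coeff_pol_of_lt _ (Nat.succ_pos _)
    have e2 : (V0 z).coeff 0 = z (Sum.inr (Sum.inr (Sum.inl 0))) :=
      coeff_pol_of_lt _ (Nat.succ_pos _)
    have e3 : (V1 z).coeff 0 = z (Sum.inr (Sum.inr (Sum.inr (Sum.inl 0)))) :=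
      coeff_pol_of_lt _ (Nat.succ_pos _)
    rw [e0, e1, e2, e3, hl1, hl2]
    simp only [map_sub, map_mul, MvPolynomial.eval_X, MvPolynomial.eval_C, ne_eq, sub_eq_zero]
    tauto
  let S : Set (Ideal (MvPolynomial (Ix a b) ℂ)) := {P | P ∈ comps (Full a b) ∧
    ∃ z ∈ Full a b ∩ MvPolynomial.zeroLocus ℂ P,
      MvPolynomial.eval z l1 ≠ 0 ∨ MvPolynomial.eval z l2 ≠ 0}
  have hSsub : S ⊆ comps (Full a b) := fun P hP => hP.1
  have hSfin : S.Finite := (comps_finite _).subset hSsub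
  have : Finite S := hSfin.to_subtype
  let Y : S → Set (CIx (clFT a b) → ℂ) := fun P => {c | ∃ t s r, t ≠ 0 ∧ s ≠ 0 ∧
    r ∈ {z ∈ Full a b ∩ MvPolynomial.zeroLocus ℂ P.1 |
      MvPolynomial.eval z l1 ≠ 0 ∨ MvPolynomial.eval z l2 ≠ 0} ∧ c = mkFT a b ν ζ t s r}
  have hcover : Sec ν ζ (clFT a b) = ⋃ i, Y i := by
    ext c
    rw [Set.mem_iUnion]
    constructor
    · intro hc
      obtain ⟨h1, t, s, ht, hs, hcm⟩ := sec_FT ha1 hb1 hνζ hν hζ hc
      obtain ⟨P, hP, hzP⟩ := comps_cover h1.1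
      have h2 := (hoff _).mp h1.2
      exact ⟨⟨P, hP, _, ⟨h1.1, hzP⟩, h2⟩, t, s, _, ht, hs, ⟨⟨h1.1, hzP⟩, h2⟩, hcm⟩
    · rintro ⟨P, t, s, r, ht, hs, ⟨⟨hr1, hr2⟩, hr3⟩, rfl⟩
      exact mkFT_mem_Sec ha1 hb1 hνζ hν hζ ht hs ⟨hr1, (hoff r).mpr hr3⟩
  have hprime : ∀ i, (MvPolynomial.vanishingIdeal ℂ (Y i)).IsPrime := by
    intro P
    refine isPrime_vanishingIdeal_family ?_ (fun t s r => mkFT a b ν ζ t s r) ?_ ?_ ?_
    · rw [vanishingIdeal_open P.2.1 l1 l2 P.2.2]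
      exact comps_isPrime P.2.1
    · intro t s _ _ i
      obtain ⟨ρ, k⟩ := i
      exact polyFn_PFT ν ζ t s ρ k
    · intro s r _ i
      obtain ⟨ρ, k⟩ := i
      exact laurFn_t ν ζ s r ρ k
    · intro t r _ i
      obtain ⟨ρ, k⟩ := i
      exact laurFn_s ν ζ t r ρ k
  refine (comps_ncard_le_of_cover Y hcover hprime).trans ?_
  rw [Nat.card_coe_set_eq]
  exact Set.ncard_le_ncard hSsub (comps_finite _)

end

end Pool.Agent.DPFib
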