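import Pool.Agent.DPFib.FamTT2
import Pool.Agent.DPFib.FamFT

/-!
# MP_9669a9_ag, module H: families of sections of `X` in terms of `At` and `Full`

`families_tt` and `families_ft`.
-/
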