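import Pool.Agent.DPFib.Moeb
import Pool.Agent.DPFib.Basic

/-!
# MP_9669a9_ag, module C: deformations of sections (implicit function theorem)
-/

namespace Pool.Agent.DPFib

open Polynomial Topology

noncomputable section

/-- the equation of the threefold evaluated on a section -/
def Pf {a b : ℕ} (s : Ix a b → ℂ) : ℂ[X] := Bf (U0 s) (U1 s) (V0 s) (V1 s) - X * Wp s ^ 2

/-- its derivative -/
def DPf {a b : ℕ} (s v : Ix a b → ℂ) : ℂ[X] :=
  Bu0 (U0 s) (U1 s) (V0 s) (V1 s) * U0 v + Bu1 (U0 s) (U1 s) (V0 s) (V1 s) * U1 v +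
    Bv0 (U0 s) (U1 s) (V0 s) (V1 s) * V0 v + Bv1 (U0 s) (U1 s) (V0 s) (V1 s) * V1 v -
      2 * X * Wp s * Wp v

theorem U0_add {a b : ℕ} (s v : Ix a b → ℂ) : U0 (s + v) = U0 s + U0 v := by
  unfold U0; rw [← pol_add]; rfl
theorem U1_add {a b : ℕ} (s v : Ix a b → ℂ) : U1 (s + v) = U1 s + U1 v := by
  unfold U1; rw [← pol_add]; rfl
theorem V0_add {a b : ℕ} (s v : Ix a b → ℂ) : V0 (s + v) = V0 s + V0 v := by
  unfold V0; rw [← pol_add]; rfl
theorem V1_add {a b : ℕ} (s v : Ix a b → ℂ) : V1 (s + v) = V1 s + V1 v := by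
  unfold V1; rw [← pol_add]; rfl
theorem Wp_add {a b : ℕ} (s v : Ix a b → ℂ) : Wp (s + v) = Wp s + Wp v := by
  unfold Wp; rw [← pol_add]; rfl

theorem U0_smul {a b : ℕ} (r : ℂ) (v : Ix a b → ℂ) : U0 (r • v) = C r * U0 v := by
  unfold U0; rw [← pol_smul]; rfl
theorem U1_smul {a b : ℕ} (r : ℂ) (v : Ix a b → ℂ) : U1 (r • v) = C r * U1 v := by
  unfold U1; rw [← pol_smul]; rfl
theorem V0_smul {a b : ℕ} (r : ℂ) (v : Ix a b → ℂ) : V0 (r • v) = C r * V0 v := by
  unfold V0; rw [← pol_smul]; rfl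
theorem V1_smul {a b : ℕ} (r : ℂ) (v : Ix a b → ℂ) : V1 (r • v) = C r * V1 v := by
  unfold V1; rw [← pol_smul]; rfl
theorem Wp_smul {a b : ℕ} (r : ℂ) (v : Ix a b → ℂ) : Wp (r • v) = C r * Wp v := by
  unfold Wp; rw [← pol_smul]; rfl

theorem DPf_add {a b : ℕ} (s v w : Ix a b → ℂ) : DPf s (v + w) = DPf s v + DPf s w := by
  unfold DPf
  rw [U0_add, U1_add, V0_add, V1_add, Wp_add]
  ring

theorem coeff_mul_topO {m n : ℕ} {p q : ℂ[X]} (hp : p.natDegree ≤ m) (hq : q.natDegree ≤ n) :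
    (p * q).coeff (m + n) = p.coeff m * q.coeff n := coeff_mul_add_eq_of_natDegree_le hp hq

/-- Corrections vanishing at `τ`, with the points over `0` and `∞` fixed. -/
theorem surj_L1 {a b : ℕ} (ha : 1 ≤ a) (hab : a + 1 ≤ b) {s : Ix a b → ℂ} (hs : s ∈ Full a b)
    {τ : ℂ} (hτ : τ ≠ 0) {G : ℂ[X]} (hG : G.natDegree ≤ 2 * a + 2 * b - 1) (hG0 : G.coeff 0 = 0)
    (hGτ : G.eval τ = 0) :
    ∃ v : Ix a b → ℂ, (U0 v).eval τ = 0 ∧ (U1 v).eval τ = 0 ∧ (V0 v).eval τ = 0 ∧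
      (V1 v).eval τ = 0 ∧ (U0 v + U1 v).coeff a = 0 ∧ (V0 v).coeff b = 0 ∧
      (U0 s).coeff 0 * (U1 v).coeff 0 = (U1 s).coeff 0 * (U0 v).coeff 0 ∧
      (V0 s).coeff 0 * (V1 v).coeff 0 = (V1 s).coeff 0 * (V0 v).coeff 0 ∧ DPf s v = G := by
  obtain ⟨hnu, hnv, htu, htv, hE⟩ := hs
  obtain ⟨G1, rfl⟩ := X_dvd_iff.2 hG0
  have hG1 : G1.eval τ = 0 := by
    rw [eval_mul, eval_X] at hGτ
    exact (mul_eq_zero.1 hGτ).resolve_left hτ
  obtain ⟨H, rfl⟩ := dvd_iff_isRoot.2 hG1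
  have hH : H.natDegree ≤ 2 * a + 2 * b - 3 := by
    by_cases h0 : H = 0
    · rw [h0]; simp
    · rw [natDegree_mul X_ne_zero (mul_ne_zero (X_sub_C_ne_zero τ) h0),
        natDegree_mul (X_sub_C_ne_zero τ) h0, natDegree_X, natDegree_X_sub_C] at hG
      omega
  obtain ⟨d0, d1, e0, e1, f, hd0, hd1, he0, he1, hf, c1, c2, c3, c4, heq⟩ :=
    surj_X ha hab (natDegree_U0 s) (natDegree_U1 s) (natDegree_V0 s) (natDegree_V1 s)
      (natDegree_Wp s) hnu hnv hE H hH
  have hdeg : ∀ (n : ℕ) (p : ℂ[X]), p.natDegree ≤ n → ((X - C τ) * p).natDegree ≤ 1 + n := by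
    intro n p hp
    refine natDegree_mul_le.trans ?_
    rw [natDegree_X_sub_C]
    omega
  have hcoef : ∀ (n : ℕ) (p : ℂ[X]), p.natDegree ≤ n → ((X - C τ) * p).coeff (1 + n) = p.coeff n := by
    intro n p hp
    rw [coeff_mul_add_eq_of_natDegree_le (natDegree_X_sub_C τ).le hp, coeff_sub, coeff_X_one, coeff_C]
    simp
  have hzero : ∀ p : ℂ[X], ((X - C τ) * p).coeff 0 = -τ * p.coeff 0 := by
    intro p
    rw [mul_coeff_zero]
    simp
  refine ⟨mkS a b ((X - C τ) * d0) ((X - C τ) * d1) ((X - C τ) * e0) ((X - C τ) * e1)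
    ((X - C τ) * f), ?_⟩
  have ea : 1 + (a - 1) = a := by omega
  have eb : 1 + (b - 1) = b := by omega
  have ew : 1 + (a + b - 2) = a + b - 1 := by omega
  have hU0 : U0 (mkS a b ((X - C τ) * d0) ((X - C τ) * d1) ((X - C τ) * e0) ((X - C τ) * e1)
    ((X - C τ) * f)) = (X - C τ) * d0 := U0_mkS (ea ▸ hdeg _ _ hd0)
  have hU1 : U1 (mkS a b ((X - C τ) * d0) ((X - C τ) * d1) ((X - C τ) * e0) ((X - C τ) * e1)
    ((X - C τ) * f)) = (X - C τ) * d1 := U1_mkS (ea ▸ hdeg _ _ hd1)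
  have hV0 : V0 (mkS a b ((X - C τ) * d0) ((X - C τ) * d1) ((X - C τ) * e0) ((X - C τ) * e1)
    ((X - C τ) * f)) = (X - C τ) * e0 := V0_mkS (eb ▸ hdeg _ _ he0)
  have hV1 : V1 (mkS a b ((X - C τ) * d0) ((X - C τ) * d1) ((X - C τ) * e0) ((X - C τ) * e1)
    ((X - C τ) * f)) = (X - C τ) * e1 := V1_mkS (eb ▸ hdeg _ _ he1)
  have hWp : Wp (mkS a b ((X - C τ) * d0) ((X - C τ) * d1) ((X - C τ) * e0) ((X - C τ) * e1)
    ((X - C τ) * f)) = (X - C τ) * f := Wp_mkS (by omega) (ew ▸ hdeg _ _ hf)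
  rw [DPf, hU0, hU1, hV0, hV1, hWp]
  refine ⟨by simp, by simp, by simp, by simp, ?_, ?_, ?_, ?_, ?_⟩
  · have h2 : (U0 s * d1 - U1 s * d0).coeff (a + (a - 1)) = 0 := by
      have : a + (a - 1) = 2 * a - 1 := by omega
      rw [this]; exact c2
    rw [coeff_sub, coeff_mul_topO (natDegree_U0 s) hd1, coeff_mul_topO (natDegree_U1 s) hd0] at h2
    rw [coeff_add] at htu
    have hne : (U1 s).coeff a ≠ 0 := by
      intro h
      rw [h, add_zero] at htu
      exact hnu.2.elim (fun h' => h' htu) (fun h' => h' h)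
    have h3 : (U0 s).coeff a = -(U1 s).coeff a := eq_neg_of_add_eq_zero_left htu
    rw [h3] at h2
    have h4 : (U1 s).coeff a * (d0.coeff (a - 1) + d1.coeff (a - 1)) = 0 := by
      linear_combination -h2
    have h5 := (mul_eq_zero.1 h4).resolve_left hne
    have h6 := hcoef _ _ (natDegree_add_le_of_degree_le hd0 hd1)
    rw [ea, coeff_add, h5] at h6
    rw [← mul_add]
    exact h6
  · have h2 : (V0 s * e1 - V1 s * e0).coeff (b + (b - 1)) = 0 := by
      have : b + (b - 1) = 2 * b - 1 := by omega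
      rw [this]; exact c4
    rw [coeff_sub, coeff_mul_topO (natDegree_V0 s) he1, coeff_mul_topO (natDegree_V1 s) he0] at h2
    have hne : (V1 s).coeff b ≠ 0 := by
      intro h
      exact hnv.2.elim (fun h' => h' htv) (fun h' => h' h)
    rw [htv] at h2
    have h4 : (V1 s).coeff b * e0.coeff (b - 1) = 0 := by
      linear_combination -h2
    have h5 := (mul_eq_zero.1 h4).resolve_left hne
    have h6 := hcoef _ _ he0
    rw [eb, h5] at h6
    exact h6
  · rw [hzero, hzero]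
    rw [coeff_sub, mul_coeff_zero, mul_coeff_zero] at c1
    linear_combination (-τ) * c1
  · rw [hzero, hzero]
    rw [coeff_sub, mul_coeff_zero, mul_coeff_zero] at c3
    linear_combination (-τ) * c3
  · linear_combination (X - C τ) * heq

section Degree

variable {p q : ℂ[X]} {m n k : ℕ}

theorem dmul (hp : p.natDegree ≤ m) (hq : q.natDegree ≤ n) (h : m + n ≤ k) :
    (p * q).natDegree ≤ k := (natDegree_mul_le_of_le hp hq).trans h

theorem dadd (hp : p.natDegree ≤ k) (hq : q.natDegree ≤ k) : (p + q).natDegree ≤ k :=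
  natDegree_add_le_of_degree_le hp hq

theorem dsub (hp : p.natDegree ≤ k) (hq : q.natDegree ≤ k) : (p - q).natDegree ≤ k :=
  (natDegree_sub_le_of_le hp hq).trans (by simp)

theorem dpow (hp : p.natDegree ≤ m) (h : 2 * m ≤ k) : (p ^ 2).natDegree ≤ k := by
  rw [pow_two]
  exact dmul hp hp (by omega)

theorem d2 : (2 : ℂ[X]).natDegree ≤ 0 := by
  rw [natDegree_ofNat]

theorem natDegree_le_pred (h : p.natDegree ≤ n + 1) (h0 : p.coeff (n + 1) = 0) :
    p.natDegree ≤ n := by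
  rw [natDegree_le_iff_coeff_eq_zero] at h ⊢
  intro N hN
  rcases Nat.lt_or_ge (n + 1) N with h1 | h1
  · exact h N h1
  · have : N = n + 1 := by omega
    rw [this]; exact h0

end Degree

theorem natDegree_DPf {a b : ℕ} (hab : 1 ≤ a + b) (s v : Ix a b → ℂ) :
    (DPf s v).natDegree ≤ 2 * a + 2 * b := by
  have u0 := natDegree_U0 s
  have u1 := natDegree_U1 s
  have v0 := natDegree_V0 s
  have v1 := natDegree_V1 s
  have w := natDegree_Wp s
  have su := dadd u0 u1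
  have sv := dadd v0 v1
  unfold DPf Bu0 Bu1 Bv0 Bv1
  refine dsub (dadd (dadd (dadd ?_ ?_) ?_) ?_) ?_
  · refine dmul (m := a + 2 * b) (n := a) (dsub ?_ ?_) (natDegree_U0 v) (by omega)
    · exact dmul (dmul d2 su le_rfl) (dpow sv le_rfl) (by omega)
    · exact dmul u1 (dmul v0 v1 le_rfl) (by omega)
  · refine dmul (m := a + 2 * b) (n := a) (dsub ?_ ?_) (natDegree_U1 v) (by omega)
    · exact dmul (dmul d2 su le_rfl) (dpow sv le_rfl) (by omega)
    · exact dmul u0 (dmul v0 v1 le_rfl) (by omega)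
  · refine dmul (m := 2 * a + b) (n := b) (dsub ?_ ?_) (natDegree_V0 v) (by omega)
    · exact dmul (dmul d2 (dpow su le_rfl) le_rfl) sv (by omega)
    · exact dmul (dmul u0 u1 le_rfl) v1 (by omega)
  · refine dmul (m := 2 * a + b) (n := b) (dsub ?_ ?_) (natDegree_V1 v) (by omega)
    · exact dmul (dmul d2 (dpow su le_rfl) le_rfl) sv (by omega)
    · exact dmul (dmul u0 u1 le_rfl) v0 (by omega)
  · exact dmul (dmul (dmul d2 natDegree_X.le le_rfl) w le_rfl) (natDegree_Wp v) (by omega)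

theorem natDegree_Pf {a b : ℕ} (hab : 1 ≤ a + b) (s : Ix a b → ℂ)
    (h1 : (U0 s + U1 s).coeff a = 0) (h2 : (V0 s).coeff b = 0) :
    (Pf s).natDegree ≤ 2 * a + 2 * b - 1 := by
  have u0 := natDegree_U0 s
  have u1 := natDegree_U1 s
  have v0 := natDegree_V0 s
  have v1 := natDegree_V1 s
  have w := natDegree_Wp s
  have su := dadd u0 u1
  have sv := dadd v0 v1
  unfold Pf Bf
  refine dsub ?_ ?_
  · have e : 2 * a + 2 * b - 1 + 1 = 2 * a + 2 * b := by omega
    apply natDegree_le_pred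
    · rw [e]
      refine dsub ?_ ?_
      · exact dmul (dpow su le_rfl) (dpow sv le_rfl) le_rfl
      · exact dmul (dmul u0 u1 le_rfl) (dmul v0 v1 le_rfl) (by omega)
    · rw [e, coeff_sub, coeff_mul_topO (dpow su le_rfl) (dpow sv le_rfl), pow_two]
      have e2 : 2 * a + 2 * b = (a + a) + (b + b) := by ring
      have e3 : 2 * a = a + a := by ring
      rw [e3, coeff_mul_topO su su, h1]
      have e4 : a + a + 2 * b = (a + a) + (b + b) := by ring
      rw [e4, coeff_mul_topO (dmul u0 u1 le_rfl) (dmul v0 v1 le_rfl), coeff_mul_topO v0 v1, h2]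
      ring
  · exact dmul natDegree_X.le (dpow w le_rfl) (by omega)

/-- polynomials with prescribed values at `0, 1, ..., n` and prescribed top coefficient -/
theorem exists_interp (n : ℕ) (y : ℕ → ℂ) (g : ℂ) : ∃ G : ℂ[X], G.natDegree ≤ n + 1 ∧
    G.coeff (n + 1) = g ∧ ∀ i : ℕ, i ≤ n → G.eval (i : ℂ) = y i := by
  classical
  set L := Lagrange.interpolate (Finset.range (n + 1)) (fun i : ℕ => (i : ℂ))
    (fun i => y i - g * (i : ℂ) ^ (n + 1)) with hL
  have hinj : Set.InjOn (fun i : ℕ => (i : ℂ)) (Finset.range (n + 1) : Set ℕ) :=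
    fun i _ j _ h => Nat.cast_injective h
  have hdeg : L.degree < n + 1 := by
    have := Lagrange.degree_interpolate_lt (fun i => y i - g * (i : ℂ) ^ (n + 1)) hinj
    rw [Finset.card_range] at this
    exact lt_of_lt_of_eq this (by push_cast; rfl)
  have hcoef : L.coeff (n + 1) = 0 := coeff_eq_zero_of_degree_lt (by exact_mod_cast hdeg)
  refine ⟨C g * X ^ (n + 1) + L, ?_, ?_, ?_⟩
  · refine dadd ?_ ?_
    · exact natDegree_C_mul_X_pow_le _ _
    · have := natDegree_le_of_degree_le hdeg.le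
      exact_mod_cast this
  · rw [coeff_add, hcoef, coeff_C_mul, coeff_X_pow, if_pos rfl]
    ring
  · intro i hi
    have := Lagrange.eval_interpolate_at_node (fun i => y i - g * (i : ℂ) ^ (n + 1)) hinj
      (Finset.mem_range.2 (Nat.lt_succ_of_le hi))
    rw [eval_add, eval_mul, eval_C, eval_pow, eval_X, hL, this]
    ring

theorem X_mul_ne {w : ℂ[X]} {τ : ℂ} (hτ : τ ≠ 0) (hW : w.eval τ ≠ 0) : 2 * τ * w.eval τ ≠ 0 :=
  mul_ne_zero (mul_ne_zero two_ne_zero hτ) hW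

/-- Corrections with prescribed values at `τ` and prescribed behaviour over `0` and `∞`. -/
theorem surj_L {a b : ℕ} (ha : 1 ≤ a) (hab : a + 1 ≤ b) {s : Ix a b → ℂ} (hs : s ∈ Full a b)
    {τ : ℂ} (hτ : τ ≠ 0) (hW : (Wp s).eval τ ≠ 0) (v0 : Ix a b → ℂ) {G : ℂ[X]}
    (hG : G.natDegree ≤ 2 * a + 2 * b) (hG0 : G.coeff 0 = (DPf s v0).coeff 0)
    (hGt : G.coeff (2 * a + 2 * b) = (DPf s v0).coeff (2 * a + 2 * b)) :
    ∃ v : Ix a b → ℂ, (U0 v).eval τ = (U0 v0).eval τ ∧ (U1 v).eval τ = (U1 v0).eval τ ∧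
      (V0 v).eval τ = (V0 v0).eval τ ∧ (V1 v).eval τ = (V1 v0).eval τ ∧
      (U0 v + U1 v).coeff a = (U0 v0 + U1 v0).coeff a ∧ (V0 v).coeff b = (V0 v0).coeff b ∧
      (U0 s).coeff 0 * (U1 v).coeff 0 - (U1 s).coeff 0 * (U0 v).coeff 0 =
        (U0 s).coeff 0 * (U1 v0).coeff 0 - (U1 s).coeff 0 * (U0 v0).coeff 0 ∧
      (V0 s).coeff 0 * (V1 v).coeff 0 - (V1 s).coeff 0 * (V0 v).coeff 0 =
        (V0 s).coeff 0 * (V1 v0).coeff 0 - (V1 s).coeff 0 * (V0 v0).coeff 0 ∧ DPf s v = G := by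
  set c : ℂ := ((DPf s v0).eval τ - G.eval τ) / (2 * τ * (Wp s).eval τ) with hc
  set vf : Ix a b → ℂ := mkS a b 0 0 0 0 (C c) with hvf
  have f0 : U0 vf = 0 := U0_mkS (by simp)
  have f1 : U1 vf = 0 := U1_mkS (by simp)
  have f2 : V0 vf = 0 := V0_mkS (by simp)
  have f3 : V1 vf = 0 := V1_mkS (by simp)
  have f4 : Wp vf = C c := Wp_mkS (by omega) (by simp)
  have hD : DPf s vf = -(2 * X * Wp s * C c) := by
    unfold DPf
    rw [f0, f1, f2, f3, f4]
    ring
  set G' : ℂ[X] := G - DPf s v0 + 2 * X * Wp s * C c with hG'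
  have hdW : (2 * X * Wp s * C c).natDegree ≤ a + b :=
    dmul (dmul (dmul d2 natDegree_X.le le_rfl) (natDegree_Wp s) le_rfl) (natDegree_C c).le
      (by omega)
  have hdeg : G'.natDegree ≤ 2 * a + 2 * b - 1 := by
    refine dadd ?_ (hdW.trans (by omega))
    have e : 2 * a + 2 * b - 1 + 1 = 2 * a + 2 * b := by omega
    apply natDegree_le_pred
    · rw [e]
      exact dsub hG (natDegree_DPf (by omega) s v0)
    · rw [e, coeff_sub, hGt, sub_self]
  have hz : G'.coeff 0 = 0 := by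
    rw [hG', coeff_add, coeff_sub, hG0, sub_self, zero_add]
    rw [show 2 * X * Wp s * C c = X * (2 * Wp s * C c) by ring]
    exact coeff_X_mul_zero _
  have ht : G'.eval τ = 0 := by
    rw [hG', eval_add, eval_sub, eval_mul, eval_mul, eval_mul, eval_C, eval_X, eval_ofNat, hc]
    field_simp
    ring
  obtain ⟨v1, a0, a1, a2, a3, a4, a5, a6, a7, a8⟩ := surj_L1 ha hab hs hτ hdeg hz ht
  refine ⟨v0 + vf + v1, ?_, ?_, ?_, ?_, ?_, ?_, ?_, ?_, ?_⟩
  · rw [U0_add, U0_add, f0]; simp [a0]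
  · rw [U1_add, U1_add, f1]; simp [a1]
  · rw [V0_add, V0_add, f2]; simp [a2]
  · rw [V1_add, V1_add, f3]; simp [a3]
  · rw [U0_add, U0_add, U1_add, U1_add, f0, f1]
    rw [coeff_add] at a4
    simp only [coeff_add, coeff_zero]
    linear_combination a4
  · rw [V0_add, V0_add, f2]; simp [a5]
  · rw [U0_add, U0_add, U1_add, U1_add, f0, f1]
    simp only [coeff_add, coeff_zero]
    linear_combination a6
  · rw [V0_add, V0_add, V1_add, V1_add, f2, f3]
    simp only [coeff_add, coeff_zero]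
    linear_combination a7
  · rw [DPf_add, DPf_add, a8, hD]
    rw [hG']
    ring

section Analysis

open Filter

theorem eventually_noZero {ι : Type*} [Fintype ι] {n : ℕ} (hn : n ≠ 0) (f g : (ι → ℂ) → ℂ[X])
    (hf : ∀ k, Continuous fun t => (f t).coeff k) (hg : ∀ k, Continuous fun t => (g t).coeff k)
    (hfd : ∀ t, (f t).natDegree ≤ n) (hgd : ∀ t, (g t).natDegree ≤ n) {s : ι → ℂ}
    (hs : NoZero n (f s) (g s)) : ∀ᶠ t in 𝓝 s, NoZero n (f t) (g t) := by
  have hc : Continuous fun t => resultant (f t) (g t) n n := by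
    unfold resultant
    apply Continuous.matrix_det
    apply continuous_matrix
    intro i j
    unfold sylvester
    simp only [Matrix.of_apply]
    refine Fin.addCases (fun j₁ => ?_) (fun j₁ => ?_) j
    · simp only [Fin.addCases_left]
      split_ifs
      · exact hg _
      · exact continuous_const
    · simp only [Fin.addCases_right]
      split_ifs
      · exact hf _
      · exact continuous_const
  have hne := (noZero_iff hn (hfd s) (hgd s)).1 hs
  have := hc.continuousAt.eventually_ne hne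
  filter_upwards [this] with t ht
  exact (noZero_iff hn (hfd t) (hgd t)).2 ht

theorem continuous_coeff_pol {n : ℕ} {ι : Type*} (e : Fin n → ι) (k : ℕ) :
    Continuous fun t : ι → ℂ => (pol fun i => t (e i)).coeff k := by
  simp only [coeff_pol]
  by_cases h : k < n
  · simp only [dif_pos h]
    exact continuous_apply _
  · simp only [dif_neg h]
    exact continuous_const

theorem eventually_noZero_U {a b : ℕ} (ha : a ≠ 0) {s : Ix a b → ℂ}
    (hs : NoZero a (U0 s) (U1 s)) : ∀ᶠ t : Ix a b → ℂ in 𝓝 s, NoZero a (U0 t) (U1 t) :=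
  eventually_noZero ha (fun t : Ix a b → ℂ => U0 t) (fun t => U1 t)
    (fun k => continuous_coeff_pol _ k) (fun k => continuous_coeff_pol _ k) natDegree_U0
    natDegree_U1 hs

theorem eventually_noZero_V {a b : ℕ} (hb : b ≠ 0) {s : Ix a b → ℂ}
    (hs : NoZero b (V0 s) (V1 s)) : ∀ᶠ t : Ix a b → ℂ in 𝓝 s, NoZero b (V0 t) (V1 t) :=
  eventually_noZero hb (fun t : Ix a b → ℂ => V0 t) (fun t => V1 t)
    (fun k => continuous_coeff_pol _ k) (fun k => continuous_coeff_pol _ k) natDegree_V0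
    natDegree_V1 hs

/-- surjective derivative, tested on lines -/
theorem map_nhds_of_dir {E F : Type*} [NormedAddCommGroup E] [NormedSpace ℂ E] [CompleteSpace E]
    [NormedAddCommGroup F] [NormedSpace ℂ F] [CompleteSpace F] {Φ : E → F} {x : E}
    (hΦ : ContDiff ℂ 1 Φ)
    (h : ∀ y : F, ∃ v : E, HasDerivAt (fun r : ℂ => Φ (x + r • v)) y 0) :
    map Φ (𝓝 x) = 𝓝 (Φ x) := by
  have hs := (hΦ.contDiffAt (x := x)).hasStrictFDerivAt one_ne_zero
  apply hs.map_nhds_eq_of_surj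
  rw [LinearMap.range_eq_top]
  intro y
  obtain ⟨v, hv⟩ := h y
  refine ⟨v, ?_⟩
  have h1 : HasDerivAt (fun r : ℂ => x + r • v) v 0 := by
    have := ((hasDerivAt_id (0 : ℂ)).smul_const v).const_add x
    simpa using this
  have h2 : HasFDerivAt Φ (fderiv ℂ Φ x) (x + (0 : ℂ) • v) := by
    rw [zero_smul, add_zero]
    exact hs.hasFDerivAt
  have h3 := h2.comp_hasDerivAt (0 : ℂ) h1
  exact h3.unique hv

theorem hasDerivAt_line (A D : ℂ) : HasDerivAt (fun r : ℂ => A + r * D) D 0 := by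
  have := ((hasDerivAt_id (0 : ℂ)).mul_const D).const_add A
  simpa using this

theorem hasDerivAt_Bf {f0 f1 f2 f3 f4 : ℂ → ℂ} {d0 d1 d2 d3 d4 r x : ℂ} (h0 : HasDerivAt f0 d0 x)
    (h1 : HasDerivAt f1 d1 x) (h2 : HasDerivAt f2 d2 x) (h3 : HasDerivAt f3 d3 x)
    (h4 : HasDerivAt f4 d4 x) :
    HasDerivAt (fun t => Bf (f0 t) (f1 t) (f2 t) (f3 t) - r * f4 t ^ 2)
      (Bu0 (f0 x) (f1 x) (f2 x) (f3 x) * d0 + Bu1 (f0 x) (f1 x) (f2 x) (f3 x) * d1 +
        Bv0 (f0 x) (f1 x) (f2 x) (f3 x) * d2 + Bv1 (f0 x) (f1 x) (f2 x) (f3 x) * d3 -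
          2 * r * f4 x * d4) x := by
  have hA := ((h0.add h1).pow 2).mul ((h2.add h3).pow 2)
  have hB := (h0.mul h1).mul (h2.mul h3)
  have hC := (h4.pow 2).const_mul r
  have := (hA.sub hB).sub hC
  refine this.congr_deriv ?_
  simp only [Pi.add_apply, Pi.mul_apply, Pi.pow_apply, Bu0, Bu1, Bv0, Bv1]
  push_cast
  ring

theorem eval_Pf {a b : ℕ} (s : Ix a b → ℂ) (r : ℂ) : (Pf s).eval r =
    Bf ((U0 s).eval r) ((U1 s).eval r) ((V0 s).eval r) ((V1 s).eval r) - r * (Wp s).eval r ^ 2 := by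
  simp [Pf, Bf]

theorem eval_DPf {a b : ℕ} (s v : Ix a b → ℂ) (r : ℂ) : (DPf s v).eval r =
    Bu0 ((U0 s).eval r) ((U1 s).eval r) ((V0 s).eval r) ((V1 s).eval r) * (U0 v).eval r +
    Bu1 ((U0 s).eval r) ((U1 s).eval r) ((V0 s).eval r) ((V1 s).eval r) * (U1 v).eval r +
    Bv0 ((U0 s).eval r) ((U1 s).eval r) ((V0 s).eval r) ((V1 s).eval r) * (V0 v).eval r +
    Bv1 ((U0 s).eval r) ((U1 s).eval r) ((V0 s).eval r) ((V1 s).eval r) * (V1 v).eval r -
      2 * r * (Wp s).eval r * (Wp v).eval r := by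
  simp [DPf, Bu0, Bu1, Bv0, Bv1]

theorem hasDerivAt_Pf {a b : ℕ} (s v : Ix a b → ℂ) (r : ℂ) :
    HasDerivAt (fun h : ℂ => (Pf (s + h • v)).eval r) ((DPf s v).eval r) 0 := by
  have e : (fun h : ℂ => (Pf (s + h • v)).eval r) = fun h : ℂ =>
      Bf ((U0 s).eval r + h * (U0 v).eval r) ((U1 s).eval r + h * (U1 v).eval r)
        ((V0 s).eval r + h * (V0 v).eval r) ((V1 s).eval r + h * (V1 v).eval r) -
        r * ((Wp s).eval r + h * (Wp v).eval r) ^ 2 := by
    funext h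
    rw [eval_Pf, U0_add, U1_add, V0_add, V1_add, Wp_add, U0_smul, U1_smul, V0_smul, V1_smul,
      Wp_smul]
    simp only [eval_add, eval_mul, eval_C]
  rw [e, eval_DPf]
  have := hasDerivAt_Bf (r := r) (hasDerivAt_line ((U0 s).eval r) ((U0 v).eval r))
    (hasDerivAt_line ((U1 s).eval r) ((U1 v).eval r))
    (hasDerivAt_line ((V0 s).eval r) ((V0 v).eval r))
    (hasDerivAt_line ((V1 s).eval r) ((V1 v).eval r))
    (hasDerivAt_line ((Wp s).eval r) ((Wp v).eval r))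
  simpa only [zero_mul, add_zero] using this

/-- value of a form with variable coefficients at a variable point -/
theorem contDiff_evalpol {n : ℕ} {ι : Type*} [Fintype ι] (e : Fin n → ι) :
    ContDiff ℂ 1 fun p : (ι → ℂ) × ℂ => (pol fun i => p.1 (e i)).eval p.2 := by
  simp only [eval_pol]
  fun_prop

theorem contDiff_coeffpol {n : ℕ} {ι : Type*} [Fintype ι] (e : Fin n → ι) (k : ℕ) :
    ContDiff ℂ 1 fun t : ι → ℂ => (pol fun i => t (e i)).coeff k := by
  simp only [coeff_pol]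
  by_cases h : k < n
  · simp only [dif_pos h]
    fun_prop
  · simp only [dif_neg h]
    fun_prop

theorem contDiff_Pf {a b : ℕ} (r : ℂ) : ContDiff ℂ 1 fun t : Ix a b → ℂ => (Pf t).eval r := by
  have h : ∀ {n : ℕ} (e : Fin n → Fin (a + 1) ⊕ Fin (a + 1) ⊕ Fin (b + 1) ⊕ Fin (b + 1) ⊕
      Fin (a + b)), ContDiff ℂ 1 fun t : Ix a b → ℂ => (pol fun i => t (e i)).eval r := by
    intro n e
    have h1 : ContDiff ℂ 1 fun t : Ix a b → ℂ => (t, r) := by fun_prop
    exact (contDiff_evalpol e).comp h1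
  have e : (fun t : Ix a b → ℂ => (Pf t).eval r) = fun t => Bf ((U0 t).eval r) ((U1 t).eval r)
      ((V0 t).eval r) ((V1 t).eval r) - r * (Wp t).eval r ^ 2 := funext fun t => eval_Pf t r
  rw [e]
  have u0 : ContDiff ℂ 1 fun t : Ix a b → ℂ => (U0 t).eval r := h _
  have u1 : ContDiff ℂ 1 fun t : Ix a b → ℂ => (U1 t).eval r := h _
  have v0 : ContDiff ℂ 1 fun t : Ix a b → ℂ => (V0 t).eval r := h _
  have v1 : ContDiff ℂ 1 fun t : Ix a b → ℂ => (V1 t).eval r := h _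
  have w : ContDiff ℂ 1 fun t : Ix a b → ℂ => (Wp t).eval r := h _
  unfold Bf
  fun_prop

theorem eval_ne_of_noZero {n : ℕ} {f g : ℂ[X]} (h : NoZero n f g) (r : ℂ) :
    f.eval r ≠ 0 ∨ g.eval r ≠ 0 := by
  by_contra hc
  push Not at hc
  obtain ⟨p, q, e⟩ := h.1
  have := congrArg (eval r) e
  rw [eval_add, eval_mul, eval_mul, hc.1, hc.2, eval_one] at this
  simp at this

theorem coeff_ne_of_noZero {n : ℕ} {f g : ℂ[X]} (h : NoZero n f g) :
    f.coeff 0 ≠ 0 ∨ g.coeff 0 ≠ 0 := by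
  rw [coeff_zero_eq_eval_zero, coeff_zero_eq_eval_zero]
  exact eval_ne_of_noZero h 0

theorem exists_lin {p q : ℂ} (h : p ≠ 0 ∨ q ≠ 0) (z : ℂ) : ∃ x y : ℂ, p * x + q * y = z := by
  rcases h with h | h
  · exact ⟨z / p, 0, by field_simp; simp⟩
  · exact ⟨0, z / q, by field_simp; simp⟩

theorem Pf_eq_zero {a b : ℕ} {t : Ix a b → ℂ} (h : Pf t = 0) :
    X * Wp t ^ 2 = Bf (U0 t) (U1 t) (V0 t) (V1 t) := (sub_eq_zero.1 h).symm

theorem move_aux {a b : ℕ} (ha : 2 ≤ a) (hab : a + 1 ≤ b) {s : Ix a b → ℂ} (hs : s ∈ Full a b)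
    {N : Set (Ix a b → ℂ)} (hN : N ∈ 𝓝 s) (ℓ : (Ix a b → ℂ) → ℂ) (hc : ContDiff ℂ 1 ℓ)
    (hd : ∀ v, HasDerivAt (fun h : ℂ => ℓ (s + h • v)) (ℓ v) 0) (h0 : ℓ s = 0)
    (hsurj : ∀ (α β c : ℂ) (y : ℕ → ℂ), ∃ v : Ix a b → ℂ, (U0 v + U1 v).coeff a = α ∧
      (V0 v).coeff b = β ∧ ℓ v = c ∧ ∀ i : ℕ, i ≤ 2 * a + 2 * b - 1 → (DPf s v).eval (i : ℂ) = y i) :
    ∃ t ∈ Full a b, t ∈ N ∧ ℓ t ≠ 0 := by
  obtain ⟨hnu, hnv, htu, htv, hE⟩ := hs
  set n : ℕ := 2 * a + 2 * b - 1 with hn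
  let Φ : (Ix a b → ℂ) → (Fin (n + 1) → ℂ) × ℂ × ℂ × ℂ := fun t =>
    (fun i => (Pf t).eval ((i : ℕ) : ℂ), (U0 t + U1 t).coeff a, (V0 t).coeff b, ℓ t)
  have hΦ : ContDiff ℂ 1 Φ := by
    refine ContDiff.prodMk ?_ (ContDiff.prodMk ?_ (ContDiff.prodMk ?_ hc))
    · exact contDiff_pi.2 fun i => contDiff_Pf _
    · simp only [coeff_add]
      exact (contDiff_coeffpol _ _).add (contDiff_coeffpol _ _)
    · exact contDiff_coeffpol _ _
  have hmap := map_nhds_of_dir (x := s) hΦ (by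
    rintro ⟨y, α, β, c⟩
    obtain ⟨v, h1, h2, h3, h4⟩ := hsurj α β c (fun i => if h : i < n + 1 then y ⟨i, h⟩ else 0)
    refine ⟨v, HasDerivAt.prodMk ?_ (HasDerivAt.prodMk ?_ (HasDerivAt.prodMk ?_ ?_))⟩
    · rw [hasDerivAt_pi]
      intro i
      have h5 := h4 (i : ℕ) (by omega)
      rw [dif_pos i.2] at h5
      rw [← h5]
      exact hasDerivAt_Pf s v _
    · have e : (fun h : ℂ => (U0 (s + h • v) + U1 (s + h • v)).coeff a) =
          fun h : ℂ => (U0 s + U1 s).coeff a + h * (U0 v + U1 v).coeff a := by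
        funext h
        rw [U0_add, U1_add, U0_smul, U1_smul]
        simp only [coeff_add, coeff_C_mul]
        ring
      rw [e, ← h1]
      exact hasDerivAt_line _ _
    · have e : (fun h : ℂ => (V0 (s + h • v)).coeff b) =
          fun h : ℂ => (V0 s).coeff b + h * (V0 v).coeff b := by
        funext h
        rw [V0_add, V0_smul]
        simp only [coeff_add, coeff_C_mul]
      rw [e, ← h2]
      exact hasDerivAt_line _ _
    · rw [← h3]
      exact hd v)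
  have hP : Pf s = 0 := by
    unfold Pf
    rw [hE, sub_self]
  have hΦs : Φ s = (0, 0, 0, 0) := by
    show ((fun i : Fin (n + 1) => (Pf s).eval ((i : ℕ) : ℂ)), (U0 s + U1 s).coeff a,
      (V0 s).coeff b, ℓ s) = _
    rw [hP, htu, htv, h0]
    simp only [eval_zero]
    rfl
  have hopen : {t : Ix a b → ℂ | t ∈ N ∧ NoZero a (U0 t) (U1 t) ∧ NoZero b (V0 t) (V1 t)} ∈ 𝓝 s := by
    filter_upwards [hN, eventually_noZero_U (by omega) hnu, eventually_noZero_V (by omega) hnv]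
      with t h1 h2 h3
    exact ⟨h1, h2, h3⟩
  have himg := image_mem_map (m := Φ) hopen
  rw [hmap, hΦs] at himg
  have hcurve : Tendsto (fun c : ℂ => ((0, 0, 0, c) : (Fin (n + 1) → ℂ) × ℂ × ℂ × ℂ)) (𝓝 0)
      (𝓝 (0, 0, 0, 0)) := by
    have : Continuous (fun c : ℂ => ((0, 0, 0, c) : (Fin (n + 1) → ℂ) × ℂ × ℂ × ℂ)) := by
      fun_prop
    exact this.tendsto 0
  have hev := hcurve.eventually himg
  have hfr : ∃ᶠ c : ℂ in 𝓝 (0 : ℂ), c ≠ 0 := by
    have h1 : ∀ᶠ c : ℂ in 𝓝[≠] (0 : ℂ), c ≠ 0 := self_mem_nhdsWithin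
    exact h1.frequently.filter_mono nhdsWithin_le_nhds
  obtain ⟨c, hc0, ⟨t, ⟨htN, ht1, ht2⟩, hteq⟩⟩ := (hfr.and_eventually hev).exists
  have e1 := congrArg (fun z => z.1) hteq
  have e2 := congrArg (fun z => z.2.1) hteq
  have e3 := congrArg (fun z => z.2.2.1) hteq
  have e4 := congrArg (fun z => z.2.2.2) hteq
  have e1' : ∀ i : Fin (n + 1), (Pf t).eval ((i : ℕ) : ℂ) = 0 := fun i => congrFun e1 i
  have e2' : (U0 t + U1 t).coeff a = 0 := e2
  have e3' : (V0 t).coeff b = 0 := e3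
  have e4' : ℓ t = c := e4
  have hPt : Pf t = 0 := by
    apply eq_zero_of_natDegree_lt_card_of_eval_eq_zero (Pf t)
      (f := fun i : Fin (n + 1) => ((i : ℕ) : ℂ))
    · intro i j h
      exact Fin.ext (Nat.cast_injective h)
    · exact e1'
    · rw [Fintype.card_fin]
      have := natDegree_Pf (by omega) t e2' e3'
      omega
  exact ⟨t, ⟨ht1, ht2, e2', e3', Pf_eq_zero hPt⟩, htN, by rw [e4']; exact hc0⟩

/-- The point over `0` of a section can be moved by an arbitrarily small deformation. -/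
theorem move_Full {a b : ℕ} (ha : 2 ≤ a) (hab : a + 1 ≤ b) {s : Ix a b → ℂ} (hs : s ∈ Full a b)
    {N : Set (Ix a b → ℂ)} (hN : N ∈ 𝓝 s) :
    ∃ t ∈ Full a b, t ∈ N ∧
      ((U0 s).coeff 0 * (U1 t).coeff 0 ≠ (U1 s).coeff 0 * (U0 t).coeff 0 ∨
        (V0 s).coeff 0 * (V1 t).coeff 0 ≠ (V1 s).coeff 0 * (V0 t).coeff 0) := by
  have hs' := hs
  obtain ⟨hnu, hnv, htu, htv, hE⟩ := hs'
  -- a point where `w` does not vanish
  have hw : Wp s ≠ 0 := by
    intro h
    apply Bf_ne_zero (by omega) (natDegree_U0 s) (natDegree_U1 s) (natDegree_V0 s)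
      (natDegree_V1 s) hnu hnv
    rw [← hE, h]
    ring
  obtain ⟨τ, hτ, hW⟩ : ∃ τ : ℂ, τ ≠ 0 ∧ (Wp s).eval τ ≠ 0 := by
    by_contra hno
    push Not at hno
    apply mul_ne_zero X_ne_zero hw
    apply Polynomial.funext
    intro r
    rw [eval_mul, eval_X, eval_zero]
    by_cases hr : r = 0
    · rw [hr, zero_mul]
    · rw [hno r hr, mul_zero]
  set p0 := (U0 s).coeff 0 with hp0
  set p1 := (U1 s).coeff 0 with hp1
  set q0 := (V0 s).coeff 0 with hq0
  set q1 := (V1 s).coeff 0 with hq1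
  have hp : p0 ≠ 0 ∨ p1 ≠ 0 := coeff_ne_of_noZero hnu
  have hq : q0 ≠ 0 ∨ q1 ≠ 0 := coeff_ne_of_noZero hnv
  -- the basic variations
  have key : ∀ (α β c0 c1 k0 k1 : ℂ) (y : ℕ → ℂ),
      y 0 = Bu0 p0 p1 q0 q1 * c0 + Bu1 p0 p1 q0 q1 * c1 + Bv0 p0 p1 q0 q1 * k0 +
        Bv1 p0 p1 q0 q1 * k1 →
      ∃ v : Ix a b → ℂ, (U0 v + U1 v).coeff a = α ∧ (V0 v).coeff b = β ∧
        p0 * (U1 v).coeff 0 - p1 * (U0 v).coeff 0 = p0 * c1 - p1 * c0 ∧
        q0 * (V1 v).coeff 0 - q1 * (V0 v).coeff 0 = q0 * k1 - q1 * k0 ∧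
        ∀ i : ℕ, i ≤ 2 * a + 2 * b - 1 → (DPf s v).eval (i : ℂ) = y i := by
    intro α β c0 c1 k0 k1 y hy
    set v0 : Ix a b → ℂ := mkS a b (C c0 + C α * X ^ a) (C c1) (C k0 + C β * X ^ b) (C k1) 0
      with hv0
    have f0 : U0 v0 = C c0 + C α * X ^ a :=
      U0_mkS (dadd ((natDegree_C c0).le.trans (Nat.zero_le _)) (natDegree_C_mul_X_pow_le _ _))
    have f1 : U1 v0 = C c1 := U1_mkS ((natDegree_C c1).le.trans (Nat.zero_le _))
    have f2 : V0 v0 = C k0 + C β * X ^ b :=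
      V0_mkS (dadd ((natDegree_C k0).le.trans (Nat.zero_le _)) (natDegree_C_mul_X_pow_le _ _))
    have f3 : V1 v0 = C k1 := V1_mkS ((natDegree_C k1).le.trans (Nat.zero_le _))
    have ha0 : a ≠ 0 := by omega
    have hb0 : b ≠ 0 := by omega
    have g0 : (U0 v0).coeff 0 = c0 := by
      rw [f0, coeff_zero_eq_eval_zero]; simp [ha0]
    have g1 : (U1 v0).coeff 0 = c1 := by rw [f1, coeff_C_zero]
    have g2 : (V0 v0).coeff 0 = k0 := by
      rw [f2, coeff_zero_eq_eval_zero]; simp [hb0]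
    have g3 : (V1 v0).coeff 0 = k1 := by rw [f3, coeff_C_zero]
    have g4 : (U0 v0 + U1 v0).coeff a = α := by
      rw [f0, f1, coeff_add, coeff_add, coeff_C_mul, coeff_X_pow, coeff_C, coeff_C]
      simp [ha0]
    have g5 : (V0 v0).coeff b = β := by
      rw [f2, coeff_add, coeff_C_mul, coeff_X_pow, coeff_C]
      simp [hb0]
    obtain ⟨G, hG1, hG2, hG3⟩ := exists_interp (2 * a + 2 * b - 1) y
      ((DPf s v0).coeff (2 * a + 2 * b))
    have e : 2 * a + 2 * b - 1 + 1 = 2 * a + 2 * b := by omega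
    rw [e] at hG1 hG2
    have hG0 : G.coeff 0 = (DPf s v0).coeff 0 := by
      rw [coeff_zero_eq_eval_zero, coeff_zero_eq_eval_zero, eval_DPf]
      have := hG3 0 (Nat.zero_le _)
      rw [Nat.cast_zero] at this
      rw [this, hy]
      simp only [← coeff_zero_eq_eval_zero, g0, g1, g2, g3, ← hp0, ← hp1, ← hq0, ← hq1]
      ring
    obtain ⟨v, _, _, _, _, a5, a6, a7, a8, a9⟩ := surj_L (by omega) hab hs hτ hW v0 hG1 hG0 hG2
    refine ⟨v, by rw [a5, g4], by rw [a6, g5], by rw [a7, g0, g1], by rw [a8, g2, g3], ?_⟩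
    intro i hi
    rw [a9]
    exact hG3 i hi
  by_cases hB : Bv0 p0 p1 q0 q1 ≠ 0 ∨ Bv1 p0 p1 q0 q1 ≠ 0
  · obtain ⟨t, ht, htN, hne⟩ := move_aux ha hab hs hN
      (fun t => p0 * (U1 t).coeff 0 - p1 * (U0 t).coeff 0)
      (((contDiff_const).mul (contDiff_coeffpol _ _)).sub
        ((contDiff_const).mul (contDiff_coeffpol _ _)))
      (by
        intro v
        have e : (fun h : ℂ => p0 * (U1 (s + h • v)).coeff 0 - p1 * (U0 (s + h • v)).coeff 0) =
            fun h : ℂ => (p0 * (U1 s).coeff 0 - p1 * (U0 s).coeff 0) +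
              h * (p0 * (U1 v).coeff 0 - p1 * (U0 v).coeff 0) := by
          funext h
          rw [U0_add, U1_add, U0_smul, U1_smul]
          simp only [coeff_add, coeff_C_mul]
          ring
        rw [e]
        exact hasDerivAt_line _ _)
      (by show p0 * (U1 s).coeff 0 - p1 * (U0 s).coeff 0 = 0; rw [← hp0, ← hp1]; ring)
      (by
        intro α β c y
        obtain ⟨c1, c0', hcc⟩ := exists_lin hp c
        obtain ⟨k0, k1, hkk⟩ := exists_lin hB
          (y 0 - (Bu0 p0 p1 q0 q1 * (-c0') + Bu1 p0 p1 q0 q1 * c1))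
        obtain ⟨v, h1, h2, h3, _, h5⟩ := key α β (-c0') c1 k0 k1 y (by linear_combination -hkk)
        refine ⟨v, h1, h2, ?_, h5⟩
        show p0 * (U1 v).coeff 0 - p1 * (U0 v).coeff 0 = c
        rw [h3, ← hcc]
        ring)
    exact ⟨t, ht, htN, Or.inl fun h => hne (by
      show p0 * (U1 t).coeff 0 - p1 * (U0 t).coeff 0 = 0
      rw [h, sub_self])⟩
  · push Not at hB
    have hB' : Bu0 p0 p1 q0 q1 ≠ 0 ∨ Bu1 p0 p1 q0 q1 ≠ 0 := by
      by_contra hcon
      push Not at hcon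
      exact Bf_smooth hp hq hcon.1 hcon.2 hB.1 hB.2
    obtain ⟨t, ht, htN, hne⟩ := move_aux ha hab hs hN
      (fun t => q0 * (V1 t).coeff 0 - q1 * (V0 t).coeff 0)
      (((contDiff_const).mul (contDiff_coeffpol _ _)).sub
        ((contDiff_const).mul (contDiff_coeffpol _ _)))
      (by
        intro v
        have e : (fun h : ℂ => q0 * (V1 (s + h • v)).coeff 0 - q1 * (V0 (s + h • v)).coeff 0) =
            fun h : ℂ => (q0 * (V1 s).coeff 0 - q1 * (V0 s).coeff 0) +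
              h * (q0 * (V1 v).coeff 0 - q1 * (V0 v).coeff 0) := by
          funext h
          rw [V0_add, V1_add, V0_smul, V1_smul]
          simp only [coeff_add, coeff_C_mul]
          ring
        rw [e]
        exact hasDerivAt_line _ _)
      (by show q0 * (V1 s).coeff 0 - q1 * (V0 s).coeff 0 = 0; rw [← hq0, ← hq1]; ring)
      (by
        intro α β c y
        obtain ⟨k1, k0', hcc⟩ := exists_lin hq c
        obtain ⟨c0, c1, hkk⟩ := exists_lin hB'
          (y 0 - (Bv0 p0 p1 q0 q1 * (-k0') + Bv1 p0 p1 q0 q1 * k1))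
        obtain ⟨v, h1, h2, _, h4, h5⟩ := key α β c0 c1 (-k0') k1 y (by linear_combination -hkk)
        refine ⟨v, h1, h2, ?_, h5⟩
        show q0 * (V1 v).coeff 0 - q1 * (V0 v).coeff 0 = c
        rw [h4, ← hcc]
        ring)
    exact ⟨t, ht, htN, Or.inr fun h => hne (by
      show q0 * (V1 t).coeff 0 - q1 * (V0 t).coeff 0 = 0
      rw [h, sub_self])⟩

theorem hasDerivAt_eval_line (p q : ℂ[X]) (τ θ : ℂ) :
    HasDerivAt (fun h : ℂ => (p + C h * q).eval (τ + h * θ))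
      ((derivative p).eval τ * θ + q.eval τ) 0 := by
  have h1 := hasDerivAt_line τ θ
  have h2 : HasDerivAt (fun x : ℂ => p.eval x) ((derivative p).eval (τ + 0 * θ)) (τ + 0 * θ) :=
    p.hasDerivAt _
  have h3 : HasDerivAt (fun x : ℂ => q.eval x) ((derivative q).eval (τ + 0 * θ)) (τ + 0 * θ) :=
    q.hasDerivAt _
  have h4 := h2.comp (0 : ℂ) h1
  have h5 := (hasDerivAt_id (0 : ℂ)).mul (h3.comp (0 : ℂ) h1)
  have h6 := h4.add h5
  have e : (fun h : ℂ => (p + C h * q).eval (τ + h * θ)) =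
      (fun x : ℂ => p.eval x) ∘ (fun r : ℂ => τ + r * θ) +
        id * ((fun x : ℂ => q.eval x) ∘ fun r : ℂ => τ + r * θ) := by
    funext h
    simp
  rw [e]
  refine h6.congr_deriv ?_
  simp

/-- With the points over `0` and `∞` fixed, sections near `s` pass through every point near a
point of `s` (where `w ≠ 0`). -/
theorem fill_At {a b : ℕ} (ha : 2 ≤ a) (hab : a + 1 ≤ b) {ν ζ : ℂ} (hν : ν ≠ -1)
    {s : Ix a b → ℂ} (hs : s ∈ At a b ν ζ) {τ : ℂ} (hτ : τ ≠ 0) (hW : (Wp s).eval τ ≠ 0)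
    {N : Set (Ix a b → ℂ)} (hN : N ∈ 𝓝 s) :
    ∀ᶠ z : Fin 6 → ℂ in 𝓝 ![τ, (U0 s).eval τ, (U1 s).eval τ, (V0 s).eval τ, (V1 s).eval τ,
        (Wp s).eval τ],
      z 0 * z 5 ^ 2 = Bf (z 1) (z 2) (z 3) (z 4) →
      ∃ t ∈ At a b ν ζ, t ∈ N ∧ (U0 t).eval (z 0) = z 1 ∧ (U1 t).eval (z 0) = z 2 ∧
        (V0 t).eval (z 0) = z 3 ∧ (V1 t).eval (z 0) = z 4 ∧ (Wp t).eval (z 0) = z 5 := by
  have _ := hν
  obtain ⟨hF, hsν, hsζ⟩ := hs
  have hF' := hF
  obtain ⟨hnu, hnv, htu, htv, hE⟩ := hF'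
  have hU1 : (U1 s).coeff 0 ≠ 0 := by
    intro h
    rw [h, mul_zero] at hsν
    exact (coeff_ne_of_noZero hnu).elim (fun h' => h' hsν) (fun h' => h' h)
  have hV1 : (V1 s).coeff 0 ≠ 0 := by
    intro h
    rw [h, mul_zero] at hsζ
    exact (coeff_ne_of_noZero hnv).elim (fun h' => h' hsζ) (fun h' => h' h)
  -- the base point lies on `E`
  have hbase : Bf ν 1 ζ 1 = 0 := by
    have h1 : (X * Wp s ^ 2).eval 0 = (Bf (U0 s) (U1 s) (V0 s) (V1 s)).eval 0 := by rw [hE]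
    rw [eval_mul, eval_X, zero_mul] at h1
    have h2 : (Bf (U0 s) (U1 s) (V0 s) (V1 s)).eval 0 =
        ((U1 s).coeff 0) ^ 2 * ((V1 s).coeff 0) ^ 2 * Bf ν 1 ζ 1 := by
      simp only [Bf, eval_sub, eval_mul, eval_pow, eval_add, ← coeff_zero_eq_eval_zero]
      rw [hsν, hsζ]
      ring
    rw [h2] at h1
    rcases mul_eq_zero.1 h1.symm with h3 | h3
    · exact absurd h3 (mul_ne_zero (pow_ne_zero _ hU1) (pow_ne_zero _ hV1))
    · exact h3
  set n : ℕ := 2 * a + 2 * b - 1 with hn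
  let Φ : (Ix a b → ℂ) × ℂ → (Fin n → ℂ) × (ℂ × ℂ × ℂ × ℂ) × (ℂ × ℂ × ℂ × ℂ × ℂ) := fun p =>
    (fun i => (Pf p.1).eval (((i : ℕ) + 1 : ℕ) : ℂ),
      ((U0 p.1 + U1 p.1).coeff a, (V0 p.1).coeff b, (U0 p.1).coeff 0 - ν * (U1 p.1).coeff 0,
        (V0 p.1).coeff 0 - ζ * (V1 p.1).coeff 0),
      (p.2, (U0 p.1).eval p.2, (U1 p.1).eval p.2, (V0 p.1).eval p.2, (V1 p.1).eval p.2))
  have hfst : ContDiff ℂ 1 fun p : (Ix a b → ℂ) × ℂ => p.1 := contDiff_fst
  have hΦ : ContDiff ℂ 1 Φ := by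
    refine ContDiff.prodMk ?_ (ContDiff.prodMk (ContDiff.prodMk ?_ (ContDiff.prodMk ?_
      (ContDiff.prodMk ?_ ?_))) (ContDiff.prodMk ?_ (ContDiff.prodMk ?_ (ContDiff.prodMk ?_
      (ContDiff.prodMk ?_ ?_)))))
    · exact contDiff_pi.2 fun i => (contDiff_Pf _).comp hfst
    · simp only [coeff_add]
      exact ((contDiff_coeffpol _ _).comp hfst).add ((contDiff_coeffpol _ _).comp hfst)
    · exact (contDiff_coeffpol _ _).comp hfst
    · exact ((contDiff_coeffpol _ _).comp hfst).sub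
        (contDiff_const.mul ((contDiff_coeffpol _ _).comp hfst))
    · exact ((contDiff_coeffpol _ _).comp hfst).sub
        (contDiff_const.mul ((contDiff_coeffpol _ _).comp hfst))
    · exact contDiff_snd
    · exact contDiff_evalpol _
    · exact contDiff_evalpol _
    · exact contDiff_evalpol _
    · exact contDiff_evalpol _
  have hmap := map_nhds_of_dir (x := (s, τ)) hΦ (by
    rintro ⟨y, ⟨α, β, γ, δ⟩, ⟨θ, y1, y2, y3, y4⟩⟩
    -- the first approximation
    set z1 := y1 - (derivative (U0 s)).eval τ * θ with hz1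
    set z2 := y2 - (derivative (U1 s)).eval τ * θ with hz2
    set z3 := y3 - (derivative (V0 s)).eval τ * θ with hz3
    set z4 := y4 - (derivative (V1 s)).eval τ * θ with hz4
    set m1 : ℂ := (z1 - γ - α * τ ^ a) / τ with hm1
    set m3 : ℂ := (z3 - δ - β * τ ^ b) / τ with hm3
    set v0 : Ix a b → ℂ := mkS a b (C γ + C m1 * X ^ 1 + C α * X ^ a) (C (z2 / τ) * X ^ 1)
      (C δ + C m3 * X ^ 1 + C β * X ^ b) (C (z4 / τ) * X ^ 1) 0 with hv0
    have f0 : U0 v0 = C γ + C m1 * X ^ 1 + C α * X ^ a :=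
      U0_mkS (dadd (dadd ((natDegree_C γ).le.trans (Nat.zero_le _))
        ((natDegree_C_mul_X_pow_le _ _).trans (by omega))) (natDegree_C_mul_X_pow_le _ _))
    have f1 : U1 v0 = C (z2 / τ) * X ^ 1 :=
      U1_mkS ((natDegree_C_mul_X_pow_le _ _).trans (by omega))
    have f2 : V0 v0 = C δ + C m3 * X ^ 1 + C β * X ^ b :=
      V0_mkS (dadd (dadd ((natDegree_C δ).le.trans (Nat.zero_le _))
        ((natDegree_C_mul_X_pow_le _ _).trans (by omega))) (natDegree_C_mul_X_pow_le _ _))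
    have f3 : V1 v0 = C (z4 / τ) * X ^ 1 :=
      V1_mkS ((natDegree_C_mul_X_pow_le _ _).trans (by omega))
    have ha0 : a ≠ 0 := by omega
    have hb0 : b ≠ 0 := by omega
    have ha1 : a ≠ 1 := by omega
    have hb1 : b ≠ 1 := by omega
    have g0 : (U0 v0).coeff 0 = γ := by
      rw [f0, coeff_zero_eq_eval_zero]; simp [ha0]
    have g1 : (U1 v0).coeff 0 = 0 := by
      rw [f1, coeff_zero_eq_eval_zero]; simp
    have g2 : (V0 v0).coeff 0 = δ := by
      rw [f2, coeff_zero_eq_eval_zero]; simp [hb0]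
    have g3 : (V1 v0).coeff 0 = 0 := by
      rw [f3, coeff_zero_eq_eval_zero]; simp
    have g4 : (U0 v0 + U1 v0).coeff a = α := by
      rw [f0, f1]
      simp only [coeff_add, coeff_C_mul, coeff_X_pow, coeff_C]
      simp [ha0, ha1]
    have g5 : (V0 v0).coeff b = β := by
      rw [f2]
      simp only [coeff_add, coeff_C_mul, coeff_X_pow, coeff_C]
      simp [hb0, hb1]
    have t0 : (U0 v0).eval τ = z1 := by
      rw [f0]
      simp only [eval_add, eval_mul, eval_C, eval_pow, eval_X]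
      rw [hm1]
      field_simp
      ring
    have t1 : (U1 v0).eval τ = z2 := by
      rw [f1]
      simp only [eval_mul, eval_C, eval_pow, eval_X]
      field_simp
    have t2 : (V0 v0).eval τ = z3 := by
      rw [f2]
      simp only [eval_add, eval_mul, eval_C, eval_pow, eval_X]
      rw [hm3]
      field_simp
      ring
    have t3 : (V1 v0).eval τ = z4 := by
      rw [f3]
      simp only [eval_mul, eval_C, eval_pow, eval_X]
      field_simp
    obtain ⟨G, hG1, hG2, hG3⟩ := exists_interp n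
      (fun i => if h : 1 ≤ i ∧ i ≤ n then y ⟨i - 1, by omega⟩ else (DPf s v0).coeff 0)
      ((DPf s v0).coeff (2 * a + 2 * b))
    have e : n + 1 = 2 * a + 2 * b := by omega
    rw [e] at hG1 hG2
    have hG0 : G.coeff 0 = (DPf s v0).coeff 0 := by
      have := hG3 0 (Nat.zero_le _)
      rw [Nat.cast_zero, dif_neg (by omega)] at this
      rw [coeff_zero_eq_eval_zero, this]
    obtain ⟨v, b0, b1, b2, b3, b5, b6, b7, b8, b9⟩ :=
      surj_L (by omega) hab hF hτ hW v0 hG1 hG0 hG2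
    rw [t0] at b0
    rw [t1] at b1
    rw [t2] at b2
    rw [t3] at b3
    rw [g4] at b5
    rw [g5] at b6
    rw [g0, g1, hsν] at b7
    rw [g2, g3, hsζ] at b8
    have b7' : (U0 v).coeff 0 - ν * (U1 v).coeff 0 = γ := by
      apply mul_left_cancel₀ hU1
      linear_combination -b7
    have b8' : (V0 v).coeff 0 - ζ * (V1 v).coeff 0 = δ := by
      apply mul_left_cancel₀ hV1
      linear_combination -b8
    refine ⟨(v, θ), ?_⟩
    have hcomp : ∀ h : ℂ, (s, τ) + h • (v, θ) = (s + h • v, τ + h * θ) := fun h => rfl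
    simp only [hcomp]
    refine HasDerivAt.prodMk ?_ (HasDerivAt.prodMk (HasDerivAt.prodMk ?_ (HasDerivAt.prodMk ?_
      (HasDerivAt.prodMk ?_ ?_))) (HasDerivAt.prodMk ?_ (HasDerivAt.prodMk ?_ (HasDerivAt.prodMk ?_
      (HasDerivAt.prodMk ?_ ?_)))))
    · rw [hasDerivAt_pi]
      intro i
      have h5 := hG3 ((i : ℕ) + 1) (by omega)
      rw [dif_pos (by omega)] at h5
      have h6 : (⟨(i : ℕ) + 1 - 1, by omega⟩ : Fin n) = i := Fin.ext (by simp)
      rw [h6] at h5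
      rw [← h5, ← b9]
      exact hasDerivAt_Pf s v _
    · have e : (fun h : ℂ => (U0 (s + h • v) + U1 (s + h • v)).coeff a) =
          fun h : ℂ => (U0 s + U1 s).coeff a + h * (U0 v + U1 v).coeff a := by
        funext h
        rw [U0_add, U1_add, U0_smul, U1_smul]
        simp only [coeff_add, coeff_C_mul]
        ring
      show HasDerivAt (fun h : ℂ => (U0 (s + h • v) + U1 (s + h • v)).coeff a) α 0
      rw [e, ← b5]
      exact hasDerivAt_line _ _
    · have e : (fun h : ℂ => (V0 (s + h • v)).coeff b) =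
          fun h : ℂ => (V0 s).coeff b + h * (V0 v).coeff b := by
        funext h
        rw [V0_add, V0_smul]
        simp only [coeff_add, coeff_C_mul]
      show HasDerivAt (fun h : ℂ => (V0 (s + h • v)).coeff b) β 0
      rw [e, ← b6]
      exact hasDerivAt_line _ _
    · have e : (fun h : ℂ => (U0 (s + h • v)).coeff 0 - ν * (U1 (s + h • v)).coeff 0) =
          fun h : ℂ => ((U0 s).coeff 0 - ν * (U1 s).coeff 0) +
            h * ((U0 v).coeff 0 - ν * (U1 v).coeff 0) := by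
        funext h
        rw [U0_add, U1_add, U0_smul, U1_smul]
        simp only [coeff_add, coeff_C_mul]
        ring
      show HasDerivAt (fun h : ℂ => (U0 (s + h • v)).coeff 0 - ν * (U1 (s + h • v)).coeff 0) γ 0
      rw [e, ← b7']
      exact hasDerivAt_line _ _
    · have e : (fun h : ℂ => (V0 (s + h • v)).coeff 0 - ζ * (V1 (s + h • v)).coeff 0) =
          fun h : ℂ => ((V0 s).coeff 0 - ζ * (V1 s).coeff 0) +
            h * ((V0 v).coeff 0 - ζ * (V1 v).coeff 0) := by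
        funext h
        rw [V0_add, V1_add, V0_smul, V1_smul]
        simp only [coeff_add, coeff_C_mul]
        ring
      show HasDerivAt (fun h : ℂ => (V0 (s + h • v)).coeff 0 - ζ * (V1 (s + h • v)).coeff 0) δ 0
      rw [e, ← b8']
      exact hasDerivAt_line _ _
    · exact hasDerivAt_line _ _
    · have h7 := hasDerivAt_eval_line (U0 s) (U0 v) τ θ
      rw [b0, hz1] at h7
      simp only [← U0_smul, ← U0_add] at h7
      exact h7.congr_deriv (by ring)
    · have h7 := hasDerivAt_eval_line (U1 s) (U1 v) τ θ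
      rw [b1, hz2] at h7
      simp only [← U1_smul, ← U1_add] at h7
      exact h7.congr_deriv (by ring)
    · have h7 := hasDerivAt_eval_line (V0 s) (V0 v) τ θ
      rw [b2, hz3] at h7
      simp only [← V0_smul, ← V0_add] at h7
      exact h7.congr_deriv (by ring)
    · have h7 := hasDerivAt_eval_line (V1 s) (V1 v) τ θ
      rw [b3, hz4] at h7
      simp only [← V1_smul, ← V1_add] at h7
      exact h7.congr_deriv (by ring))
  have hP : Pf s = 0 := by
    unfold Pf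
    rw [hE, sub_self]
  have hΦs : Φ (s, τ) = (0, (0, 0, 0, 0),
      (τ, (U0 s).eval τ, (U1 s).eval τ, (V0 s).eval τ, (V1 s).eval τ)) := by
    show ((fun i : Fin n => (Pf s).eval (((i : ℕ) + 1 : ℕ) : ℂ)),
      ((U0 s + U1 s).coeff a, (V0 s).coeff b, (U0 s).coeff 0 - ν * (U1 s).coeff 0,
        (V0 s).coeff 0 - ζ * (V1 s).coeff 0),
      (τ, (U0 s).eval τ, (U1 s).eval τ, (V0 s).eval τ, (V1 s).eval τ)) = _
    rw [hP, htu, htv, hsν, hsζ, sub_self, sub_self]
    simp only [eval_zero]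
    rfl
  -- the neighbourhood of `(s, τ)`
  set ρ : ℝ := ‖(Wp s).eval τ‖ / 2 with hρ
  have hρ0 : 0 < ρ := by
    have := norm_pos_iff.2 hW
    positivity
  have hcW : Continuous fun p : (Ix a b → ℂ) × ℂ => (Wp p.1).eval p.2 :=
    (contDiff_evalpol (fun i : Fin (a + b) => (Sum.inr (Sum.inr (Sum.inr (Sum.inr i))) :
      Fin (a + 1) ⊕ Fin (a + 1) ⊕ Fin (b + 1) ⊕ Fin (b + 1) ⊕ Fin (a + b)))).continuous
  have hopen : {p : (Ix a b → ℂ) × ℂ | p.1 ∈ N ∧ NoZero a (U0 p.1) (U1 p.1) ∧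
      NoZero b (V0 p.1) (V1 p.1) ∧ ‖(Wp p.1).eval p.2 - (Wp s).eval τ‖ < ρ} ∈ 𝓝 (s, τ) := by
    have c1 : Tendsto (fun p : (Ix a b → ℂ) × ℂ => p.1) (𝓝 (s, τ)) (𝓝 s) :=
      continuous_fst.tendsto _
    have c2 : ∀ᶠ p : (Ix a b → ℂ) × ℂ in 𝓝 (s, τ), ‖(Wp p.1).eval p.2 - (Wp s).eval τ‖ < ρ := by
      have := (hcW.tendsto (s, τ)).eventually (Metric.ball_mem_nhds _ hρ0)
      filter_upwards [this] with p hp
      rwa [dist_eq_norm] at hp
    filter_upwards [c1.eventually hN, c1.eventually (eventually_noZero_U (by omega) hnu),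
      c1.eventually (eventually_noZero_V (by omega) hnv), c2] with p h1 h2 h3 h4
    exact ⟨h1, h2, h3, h4⟩
  have himg := image_mem_map (m := Φ) hopen
  rw [hmap, hΦs] at himg
  let z₀ : Fin 6 → ℂ := ![τ, (U0 s).eval τ, (U1 s).eval τ, (V0 s).eval τ, (V1 s).eval τ,
        (Wp s).eval τ]
  have hcurve : Tendsto (fun z : Fin 6 → ℂ => ((0, (0, 0, 0, 0), (z 0, z 1, z 2, z 3, z 4)) :
      (Fin n → ℂ) × (ℂ × ℂ × ℂ × ℂ) × (ℂ × ℂ × ℂ × ℂ × ℂ))) (𝓝 z₀)
      (𝓝 (0, (0, 0, 0, 0), (z₀ 0, z₀ 1, z₀ 2, z₀ 3, z₀ 4))) := by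
    have : Continuous (fun z : Fin 6 → ℂ => ((0, (0, 0, 0, 0), (z 0, z 1, z 2, z 3, z 4)) :
      (Fin n → ℂ) × (ℂ × ℂ × ℂ × ℂ) × (ℂ × ℂ × ℂ × ℂ × ℂ))) := by
      fun_prop
    exact this.tendsto z₀
  have hev := hcurve.eventually himg
  have hz0 : ∀ᶠ z : Fin 6 → ℂ in 𝓝 z₀, z 0 ≠ 0 := by
    have : Tendsto (fun z : Fin 6 → ℂ => z 0) (𝓝 z₀) (𝓝 τ) := (continuous_apply 0).tendsto z₀
    exact this.eventually_ne hτ
  have hz5 : ∀ᶠ z : Fin 6 → ℂ in 𝓝 z₀, ‖z 5 - (Wp s).eval τ‖ < ρ := by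
    have : Tendsto (fun z : Fin 6 → ℂ => z 5) (𝓝 z₀) (𝓝 ((Wp s).eval τ)) :=
      (continuous_apply 5).tendsto z₀
    have := this.eventually (Metric.ball_mem_nhds _ hρ0)
    filter_upwards [this] with p hp
    rwa [dist_eq_norm] at hp
  filter_upwards [hev, hz0, hz5] with z hz h0 h5 heq
  obtain ⟨⟨t, τ'⟩, ⟨htN, ht1, ht2, htW⟩, hteq⟩ := hz
  have e1 : ∀ i : Fin n, (Pf t).eval (((i : ℕ) + 1 : ℕ) : ℂ) = 0 := fun i =>
    congrFun (congrArg (fun w => w.1) hteq) i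
  have e2 : (U0 t + U1 t).coeff a = 0 := congrArg (fun w => w.2.1.1) hteq
  have e3 : (V0 t).coeff b = 0 := congrArg (fun w => w.2.1.2.1) hteq
  have e4 : (U0 t).coeff 0 - ν * (U1 t).coeff 0 = 0 := congrArg (fun w => w.2.1.2.2.1) hteq
  have e5 : (V0 t).coeff 0 - ζ * (V1 t).coeff 0 = 0 := congrArg (fun w => w.2.1.2.2.2) hteq
  have e6 : τ' = z 0 := congrArg (fun w => w.2.2.1) hteq
  have e7 : (U0 t).eval τ' = z 1 := congrArg (fun w => w.2.2.2.1) hteq
  have e8 : (U1 t).eval τ' = z 2 := congrArg (fun w => w.2.2.2.2.1) hteq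
  have e9 : (V0 t).eval τ' = z 3 := congrArg (fun w => w.2.2.2.2.2.1) hteq
  have e10 : (V1 t).eval τ' = z 4 := congrArg (fun w => w.2.2.2.2.2.2) hteq
  have htν : (U0 t).coeff 0 = ν * (U1 t).coeff 0 := sub_eq_zero.1 e4
  have htζ : (V0 t).coeff 0 = ζ * (V1 t).coeff 0 := sub_eq_zero.1 e5
  have hP0 : (Pf t).eval 0 = 0 := by
    rw [eval_Pf]
    simp only [← coeff_zero_eq_eval_zero]
    rw [htν, htζ]
    have : Bf (ν * (U1 t).coeff 0) ((U1 t).coeff 0) (ζ * (V1 t).coeff 0) ((V1 t).coeff 0) =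
        ((U1 t).coeff 0) ^ 2 * ((V1 t).coeff 0) ^ 2 * Bf ν 1 ζ 1 := by
      unfold Bf
      ring
    rw [this, hbase]
    ring
  have hPt : Pf t = 0 := by
    apply eq_zero_of_natDegree_lt_card_of_eval_eq_zero (Pf t)
      (f := fun i : Fin (n + 1) => ((i : ℕ) : ℂ))
    · intro i j h
      exact Fin.ext (Nat.cast_injective h)
    · intro i
      rcases Nat.eq_zero_or_pos (i : ℕ) with h | h
      · show (Pf t).eval ((i : ℕ) : ℂ) = 0
        rw [h, Nat.cast_zero]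
        exact hP0
      · have := e1 ⟨(i : ℕ) - 1, by omega⟩
        have h6 : (i : ℕ) - 1 + 1 = (i : ℕ) := by omega
        simp only [h6] at this
        exact this
    · rw [Fintype.card_fin]
      have := natDegree_Pf (by omega) t e2 e3
      omega
  have hEt := Pf_eq_zero hPt
  rw [e6] at e7 e8 e9 e10
  have htW' : ‖(Wp t).eval (z 0) - (Wp s).eval τ‖ < ρ := by
    rw [← e6]; exact htW
  refine ⟨t, ⟨⟨ht1, ht2, e2, e3, hEt⟩, htν, htζ⟩, htN, e7, e8, e9, e10, ?_⟩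
  have h7 : z 0 * (Wp t).eval (z 0) ^ 2 = z 0 * z 5 ^ 2 := by
    rw [heq, ← e7, ← e8, ← e9, ← e10]
    have := congrArg (eval (z 0)) hEt
    rw [eval_mul, eval_X, eval_pow] at this
    rw [this]
    simp [Bf]
  have h8 := mul_left_cancel₀ h0 h7
  rcases sq_eq_sq_iff_eq_or_eq_neg.1 h8 with h9 | h9
  · exact h9
  · exfalso
    rw [h9] at htW'
    have h10 : 2 * (Wp s).eval τ = -(-(z 5) - (Wp s).eval τ) - (z 5 - (Wp s).eval τ) := by ring
    have h11 : ‖2 * (Wp s).eval τ‖ < ρ + ρ := by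
      rw [h10]
      refine (norm_sub_le _ _).trans_lt ?_
      rw [norm_neg]
      exact add_lt_add htW' h5
    rw [norm_mul, hρ] at h11
    simp at h11
    linarith [norm_nonneg ((Wp s).eval τ)]

end Analysis

end

end Pool.Agent.DPFib

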