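import Pool.Agent.DPFib.SecPol2
import Pool.Agent.DPFib.Open
import Pool.Agent.DPFib.Comp
import Pool.Agent.DPFib.DomAlg

/-!
# MP_9669a9_ag, module H: families of sections with the profile `(true, true)`
-/

namespace Pool.Agent.DPFib

open Polynomial Topology

set_option linter.unusedSectionVars false

noncomputable section

/-- the class of profile `(true, true)` -/
def clTT (a b : ℤ) : Var → ℤ
  | .t => 0
  | .s => 0
  | .e => 1
  | .g => 1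
  | .x => a - 1
  | .y => a - 1
  | .p => b - 1
  | .q => b - 1
  | .w => a + b - 1

variable {a b : ℕ} {ν ζ : ℂ}

theorem good_clTT (ha : 1 ≤ a) (hb : 1 ≤ b) : Good a b (clTT a b) :=
  good_TT ha hb _ ⟨rfl, rfl, rfl, rfl, rfl, rfl, rfl, rfl, rfl⟩

/-- the nine polynomials of the section of class `clTT` with `t = t1`, `s = s1` given by `r` -/
def PTT (ν ζ t1 s1 : ℂ) (r : Ix a b → ℂ) : Var → ℂ[X]
  | .t => C t1
  | .s => C s1
  | .e => C t1⁻¹ * X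
  | .g => C s1⁻¹
  | .x => C (t1 / (1 + ν)) * divX (U0 r - C ν * U1 r)
  | .y => C (s1 / (1 + ν)) * (U0 r + U1 r)
  | .p => C t1 * divX (C ζ⁻¹ * V0 r - V1 r)
  | .q => C (s1 / ζ) * V0 r
  | .w => Wp r

def mkTT (ν ζ t1 s1 : ℂ) (r : Ix a b → ℂ) : CIx (clTT a b) → ℂ := ofP _ (PTT ν ζ t1 s1 r)

theorem divX_mul_X' (f : ℂ[X]) : divX (f * X) = f := by
  ext n
  rw [coeff_divX, coeff_mul_X]

theorem natDegree_of_coeff_zero {n : ℕ} {f : ℂ[X]} (hn : 1 ≤ n) (h : f.natDegree ≤ n)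
    (h0 : f.coeff n = 0) : f.natDegree ≤ n - 1 := by
  rw [natDegree_le_iff_coeff_eq_zero]
  intro k hk
  by_cases e : k = n
  · rw [e, h0]
  · exact coeff_eq_zero_of_natDegree_lt (by omega)

theorem PTT_deg (ha : 1 ≤ a) (hb : 1 ≤ b) (t1 s1 : ℂ) {r : Ix a b → ℂ}
    (hr : r ∈ Full a b) (v : Var) :
    (PTT ν ζ t1 s1 r v).natDegree ≤ (clTT a b v).toNat := by
  have hu : (U0 r + U1 r).natDegree ≤ a :=
    natDegree_add_le_of_degree_le (natDegree_U0 r) (natDegree_U1 r)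
  have hu' := natDegree_of_coeff_zero ha hu hr.2.2.1
  have hv' := natDegree_of_coeff_zero hb (natDegree_V0 r) hr.2.2.2.1
  have hux : (U0 r - C ν * U1 r).natDegree ≤ a :=
    (natDegree_sub_le_of_le (natDegree_U0 r)
      ((natDegree_C_mul_le _ _).trans (natDegree_U1 r))).trans (max_self a).le
  have hvp : (C ζ⁻¹ * V0 r - V1 r).natDegree ≤ b :=
    (natDegree_sub_le_of_le ((natDegree_C_mul_le _ _).trans (natDegree_V0 r))
      (natDegree_V1 r)).trans (max_self b).le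
  have e1 : (clTT a b Var.x).toNat = a - 1 := by simp only [clTT]; omega
  have e2 : (clTT a b Var.y).toNat = a - 1 := by simp only [clTT]; omega
  have e3 : (clTT a b Var.p).toNat = b - 1 := by simp only [clTT]; omega
  have e4 : (clTT a b Var.q).toNat = b - 1 := by simp only [clTT]; omega
  have e5 : (clTT a b Var.w).toNat = a + b - 1 := by simp only [clTT]; omega
  have e6 : (clTT a b Var.t).toNat = 0 := by simp only [clTT]; omega
  have e7 : (clTT a b Var.s).toNat = 0 := by simp only [clTT]; omega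
  have e8 : (clTT a b Var.e).toNat = 1 := by simp only [clTT]; omega
  have e9 : (clTT a b Var.g).toNat = 1 := by simp only [clTT]; omega
  cases v
  · rw [e6]; simp [PTT]
  · rw [e7]; simp [PTT]
  · rw [e8]; exact (natDegree_C_mul_le _ _).trans natDegree_X_le
  · rw [e9]; simp [PTT]
  · rw [e1]
    refine (natDegree_C_mul_le _ _).trans ?_
    rw [natDegree_divX_eq_natDegree_tsub_one]
    omega
  · rw [e2]; exact (natDegree_C_mul_le _ _).trans hu'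
  · rw [e3]
    refine (natDegree_C_mul_le _ _).trans ?_
    rw [natDegree_divX_eq_natDegree_tsub_one]
    omega
  · rw [e4]; exact (natDegree_C_mul_le _ _).trans hv'
  · rw [e5]; exact natDegree_Wp r

theorem Pc_mkTT (ha : 1 ≤ a) (hb : 1 ≤ b) (t1 s1 : ℂ) {r : Ix a b → ℂ} (hr : r ∈ Full a b)
    (v : Var) : Pc (mkTT ν ζ t1 s1 r) v = PTT ν ζ t1 s1 r v :=
  Pc_ofP' ((good_clTT ha hb).nonneg v) (PTT_deg ha hb t1 s1 hr v)

section

variable (hν : ν ≠ -1) (hζ : ζ ≠ 0) {t1 s1 : ℂ} (ht : t1 ≠ 0) (hs : s1 ≠ 0) {r : Ix a b → ℂ}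
  (hr : r ∈ At a b ν ζ)
include hν hζ ht hs hr

theorem PTT_ex : PTT ν ζ t1 s1 r .e * PTT ν ζ t1 s1 r .x =
    C (1 / (1 + ν)) * (U0 r - C ν * U1 r) := by
  have h0 : (U0 r - C ν * U1 r).coeff 0 = 0 := by
    rw [coeff_sub, coeff_C_mul, hr.2.1, sub_self]
  have h1 := divX_mul_X_add (U0 r - C ν * U1 r)
  rw [h0, C_0, add_zero] at h1
  have h2 : C t1⁻¹ * C (t1 / (1 + ν)) = (C (1 / (1 + ν)) : ℂ[X]) := by
    rw [← C_mul]; congr 1; field_simp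
  simp only [PTT]
  rw [← h2]
  linear_combination (C t1⁻¹ * C (t1 / (1 + ν))) * h1

theorem PTT_gy : PTT ν ζ t1 s1 r .g * PTT ν ζ t1 s1 r .y = C (1 / (1 + ν)) * (U0 r + U1 r) := by
  have h2 : C s1⁻¹ * C (s1 / (1 + ν)) = (C (1 / (1 + ν)) : ℂ[X]) := by
    rw [← C_mul]; congr 1; field_simp
  simp only [PTT]
  rw [← h2]; ring

theorem PTT_gq : PTT ν ζ t1 s1 r .g * PTT ν ζ t1 s1 r .q = C ζ⁻¹ * V0 r := by
  have h2 : C s1⁻¹ * C (s1 / ζ) = (C ζ⁻¹ : ℂ[X]) := by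
    rw [← C_mul]; congr 1; field_simp
  simp only [PTT]
  rw [← h2]; ring

theorem PTT_ep : PTT ν ζ t1 s1 r .e * PTT ν ζ t1 s1 r .p = C ζ⁻¹ * V0 r - V1 r := by
  have h0 : (C ζ⁻¹ * V0 r - V1 r).coeff 0 = 0 := by
    rw [coeff_sub, coeff_C_mul, hr.2.2, ← mul_assoc, inv_mul_cancel₀ hζ, one_mul, sub_self]
  have h1 := divX_mul_X_add (C ζ⁻¹ * V0 r - V1 r)
  rw [h0, C_0, add_zero] at h1
  have h2 : C t1⁻¹ * C t1 = (1 : ℂ[X]) := by
    rw [← C_mul, inv_mul_cancel₀ ht, C_1]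
  simp only [PTT]
  linear_combination (C t1⁻¹ * C t1) * h1 + (C ζ⁻¹ * V0 r - V1 r) * h2

theorem PTT_qU0 : qU0 ν (PTT ν ζ t1 s1 r) = U0 r := by
  have hν' : (1 + ν) ≠ 0 := fun h => hν (by linear_combination h)
  have h2 : C (1 / (1 + ν)) * (1 + C ν) = (1 : ℂ[X]) := by
    rw [← C_1, ← C_add, ← C_mul]; congr 1; field_simp
  rw [qU0, PTT_gy hν hζ ht hs hr, PTT_ex hν hζ ht hs hr]
  linear_combination U0 r * h2

theorem PTT_qU1 : qU1 (PTT ν ζ t1 s1 r) = U1 r := by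
  have hν' : (1 + ν) ≠ 0 := fun h => hν (by linear_combination h)
  have h2 : C (1 / (1 + ν)) * (1 + C ν) = (1 : ℂ[X]) := by
    rw [← C_1, ← C_add, ← C_mul]; congr 1; field_simp
  rw [qU1, PTT_gy hν hζ ht hs hr, PTT_ex hν hζ ht hs hr]
  linear_combination U1 r * h2

theorem PTT_qV0 : qV0 ζ (PTT ν ζ t1 s1 r) = V0 r := by
  have h2 : C ζ * C ζ⁻¹ = (1 : ℂ[X]) := by
    rw [← C_mul, mul_inv_cancel₀ hζ, C_1]
  rw [qV0, PTT_gq hν hζ ht hs hr]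
  linear_combination V0 r * h2

theorem PTT_qV1 : qV1 (PTT ν ζ t1 s1 r) = V1 r := by
  rw [qV1, PTT_gq hν hζ ht hs hr, PTT_ep hν hζ ht hs hr]
  ring

theorem mkTT_mem (hνζ : (1 + ν) ^ 2 * (1 + ζ) ^ 2 = ν * ζ) (ha : 1 ≤ a) (hb : 1 ≤ b) :
    mkTT ν ζ t1 s1 r ∈ Sec ν ζ (clTT a b) := by
  have hg : Good a b (clTT a b) := good_clTT ha hb
  have hPc := Pc_mkTT (ν := ν) (ζ := ζ) ha hb t1 s1 hr.1
  have hPd := PTT_deg (ν := ν) (ζ := ζ) ha hb t1 s1 hr.1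
  have hpt : ∀ θ σ v, pt (mkTT ν ζ t1 s1 r) θ σ v =
      hom (clTT a b v).toNat (PTT ν ζ t1 s1 r v) θ σ := fun θ σ v => by
    rw [pt_eq_hom _ v (hg.nonneg v), hPc]
  have htt : ∀ θ σ, pt (mkTT ν ζ t1 s1 r) θ σ .t = t1 := fun θ σ => by
    rw [hpt]; exact hom_zero_C _ _ _
  have hss : ∀ θ σ, pt (mkTT ν ζ t1 s1 r) θ σ .s = s1 := fun θ σ => by
    rw [hpt]; exact hom_zero_C _ _ _
  have hee : ∀ θ σ, pt (mkTT ν ζ t1 s1 r) θ σ .e = t1⁻¹ * θ := fun θ σ => by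
    rw [hpt]
    show hom 1 (C t1⁻¹ * X) θ σ = _
    rw [hom_C_mul, hom_X]
  have hgg : ∀ θ σ, pt (mkTT ν ζ t1 s1 r) θ σ .g = s1⁻¹ * σ := fun θ σ => by
    rw [hpt]
    show hom 1 (C s1⁻¹) θ σ = _
    rw [← mul_one (C s1⁻¹), hom_C_mul, hom_one_one]
  have hU0 := PTT_qU0 hν hζ ht hs hr
  have hU1 := PTT_qU1 hν hζ ht hs hr
  have hV0 := PTT_qV0 hν hζ ht hs hr
  have hV1 := PTT_qV1 hν hζ ht hs hr
  -- the equation
  have hEq : ∀ θ, EqX ν ζ (pt (mkTT ν ζ t1 s1 r) θ 1) := by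
    have h1 := Bp_pol hνζ (PTT ν ζ t1 s1 r)
    rw [hU0, hU1, hV0, hV1, ← hr.1.2.2.2.2] at h1
    have h2 : PTT ν ζ t1 s1 r .e * PTT ν ζ t1 s1 r .g * (PTT ν ζ t1 s1 r .s * PTT ν ζ t1 s1 r .t *
        PTT ν ζ t1 s1 r .w ^ 2) = X * Wp r ^ 2 := by
      have h3 : (C t1⁻¹ * C t1 : ℂ[X]) = 1 := by rw [← C_mul, inv_mul_cancel₀ ht, C_1]
      have h4 : (C s1⁻¹ * C s1 : ℂ[X]) = 1 := by rw [← C_mul, inv_mul_cancel₀ hs, C_1]
      simp only [PTT]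
      linear_combination (C s1⁻¹ * C s1 * X * Wp r ^ 2) * h3 + X * Wp r ^ 2 * h4
    have hne : PTT ν ζ t1 s1 r .e * PTT ν ζ t1 s1 r .g ≠ 0 := by
      simp only [PTT]
      exact mul_ne_zero (mul_ne_zero (C_ne_zero.mpr (inv_ne_zero ht)) X_ne_zero)
        (C_ne_zero.mpr (inv_ne_zero hs))
    have h5 := mul_left_cancel₀ hne (h2.trans h1.symm)
    intro θ
    unfold EqX
    simp only [pt_one hg.nonneg, hPc]
    rw [← eval_Bp, ← h5]
    simp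
  intro θ σ hθσ
  refine ⟨⟨?_, ?_, ?_, ?_, ?_, EqX_all hg.nonneg hg.cls hEq θ σ⟩, ?_, ?_⟩
  · rw [htt, hss, hee, hgg]
    have e1 : t1⁻¹ * θ * t1 = θ := by field_simp
    have e2 : s1⁻¹ * σ * s1 = σ := by field_simp
    rw [e1, e2]; exact hθσ
  · have h1 := (noZero_iff_forall (natDegree_U0 r) (natDegree_U1 r)).mp hr.1.1 θ σ hθσ
    rw [← hU0, ← hU1, hom_qU0 hg _ hPd, hom_qU1 hg _ hPd] at h1
    simp only [← hpt] at h1
    by_contra hcon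
    push Not at hcon
    rw [hcon.1, hcon.2] at h1
    simp at h1
  · have h1 := (noZero_iff_forall (natDegree_V0 r) (natDegree_V1 r)).mp hr.1.2.1 θ σ hθσ
    rw [← hV0, ← hV1, hom_qV0 hg _ hPd, hom_qV1 hg _ hPd] at h1
    simp only [← hpt] at h1
    by_contra hcon
    push Not at hcon
    rw [hcon.1, hcon.2.1] at h1
    simp at h1
  · left; rw [htt]; exact ht
  · left; rw [hss]; exact hs
  · rw [htt, hee]; field_simp
  · rw [hss, hgg]; field_simp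

theorem toIx_mkTT (ha : 1 ≤ a) (hb : 1 ≤ b) : toIx a b ν ζ (mkTT ν ζ t1 s1 r) = r := by
  have hPc := Pc_mkTT (ν := ν) (ζ := ζ) ha hb t1 s1 hr.1
  have e : Pc (mkTT ν ζ t1 s1 r) = PTT ν ζ t1 s1 r := funext hPc
  rw [toIx, e, PTT_qU0 hν hζ ht hs hr, PTT_qU1 hν hζ ht hs hr, PTT_qV0 hν hζ ht hs hr,
    PTT_qV1 hν hζ ht hs hr]
  exact mkS_self r

end


theorem sec_TT (hνζ : (1 + ν) ^ 2 * (1 + ζ) ^ 2 = ν * ζ) (hν : ν ≠ -1) (hζ : ζ ≠ 0)
    (ha : 1 ≤ a) (hb : 1 ≤ b) {c : CIx (clTT a b) → ℂ} (hc : c ∈ Sec ν ζ (clTT a b)) :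
    toIx a b ν ζ c ∈ At a b ν ζ ∧ ∃ t1 s1 : ℂ, t1 ≠ 0 ∧ s1 ≠ 0 ∧
      c = mkTT ν ζ t1 s1 (toIx a b ν ζ c) := by
  have hg : Good a b (clTT a b) := good_clTT ha hb
  have hF := toIx_mem_Full hg hνζ hν hζ hc
  obtain ⟨h1, h2, -⟩ := sec_pols hg.nonneg hc
  obtain ⟨s1, hs1, hs, hgg⟩ := sec_s_g hg hc
  have hν' : (1 + ν) ≠ 0 := fun h => hν (by linear_combination h)
  have htd : (Pc c .t).natDegree ≤ 0 := natDegree_Pc c .t
  rw [eq_C_of_natDegree_le_zero htd] at h1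
  set t1 := (Pc c .t).coeff 0 with ht1d
  have ht1 : t1 ≠ 0 := by
    intro h
    rw [h, C_0, mul_zero] at h1
    exact X_ne_zero h1.symm
  have htP : Pc c .t = C t1 := eq_C_of_natDegree_le_zero htd
  have heP : Pc c .e = C t1⁻¹ * X := by
    have h3 : (C t1 * C t1⁻¹ : ℂ[X]) = 1 := by rw [← C_mul, mul_inv_cancel₀ ht1, C_1]
    linear_combination C t1⁻¹ * h1 - Pc c .e * h3
  have hA : toIx a b ν ζ c ∈ At a b ν ζ := by
    refine ⟨hF, ?_, ?_⟩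
    · rw [toIx_U0 hg, toIx_U1 hg, qU0, qU1, heP, mul_assoc]
      simp [coeff_X_mul_zero]
    · rw [toIx_V0 hg, toIx_V1 hg, qV0, qV1, heP, mul_assoc]
      simp
  refine ⟨hA, t1, s1, ht1, hs1, ?_⟩
  have hPc := Pc_mkTT (ν := ν) (ζ := ζ) ha hb t1 s1 hF
  have e : Pc c = Pc (mkTT ν ζ t1 s1 (toIx a b ν ζ c)) := by
    funext v
    rw [hPc]
    cases v
    · exact htP
    · exact hs
    · exact heP
    · exact hgg
    · simp only [PTT]
      rw [toIx_U0 hg, toIx_U1 hg, qU0, qU1, heP]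
      have e1 : C ν * (Pc c .g * Pc c .y) + C t1⁻¹ * X * Pc c .x -
          C ν * (Pc c .g * Pc c .y - C t1⁻¹ * X * Pc c .x) =
          (C ((1 + ν) * t1⁻¹) * Pc c .x) * X := by
        rw [C_mul, C_add, C_1]; ring
      rw [e1, divX_mul_X', ← mul_assoc, ← C_mul]
      have e2 : t1 / (1 + ν) * ((1 + ν) * t1⁻¹) = 1 := by field_simp
      rw [e2, C_1, one_mul]
    · simp only [PTT]
      rw [toIx_U0 hg, toIx_U1 hg, qU0, qU1, hgg]
      have e1 : C ν * (C s1⁻¹ * Pc c .y) + Pc c .e * Pc c .x +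
          (C s1⁻¹ * Pc c .y - Pc c .e * Pc c .x) = C ((1 + ν) * s1⁻¹) * Pc c .y := by
        rw [C_mul, C_add, C_1]; ring
      rw [e1, ← mul_assoc, ← C_mul]
      have e2 : s1 / (1 + ν) * ((1 + ν) * s1⁻¹) = 1 := by field_simp
      rw [e2, C_1, one_mul]
    · simp only [PTT]
      rw [toIx_V0 hg, toIx_V1 hg, qV0, qV1, heP]
      have e0 : (C ζ⁻¹ * C ζ : ℂ[X]) = 1 := by rw [← C_mul, inv_mul_cancel₀ hζ, C_1]
      have e1 : C ζ⁻¹ * (C ζ * (Pc c .g * Pc c .q)) -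
          (Pc c .g * Pc c .q - C t1⁻¹ * X * Pc c .p) = (C t1⁻¹ * Pc c .p) * X := by
        linear_combination (Pc c .g * Pc c .q) * e0
      rw [e1, divX_mul_X', ← mul_assoc, ← C_mul, mul_inv_cancel₀ ht1, C_1, one_mul]
    · simp only [PTT]
      rw [toIx_V0 hg, qV0, hgg]
      have e1 : C (s1 / ζ) * (C ζ * (C s1⁻¹ * Pc c .q)) = C (s1 / ζ * (ζ * s1⁻¹)) * Pc c .q := by
        rw [C_mul, C_mul]; ring
      rw [e1]
      have e2 : s1 / ζ * (ζ * s1⁻¹) = 1 := by field_simp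
      rw [e2, C_1, one_mul]
    · simp only [PTT]
      rw [toIx_Wp hg]
  calc c = ofP _ (Pc c) := (ofP_Pc c).symm
    _ = ofP _ (Pc (mkTT ν ζ t1 s1 (toIx a b ν ζ c))) := by rw [← e]
    _ = mkTT ν ζ t1 s1 (toIx a b ν ζ c) := ofP_Pc _

end

end Pool.Agent.DPFib
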