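import Pool.Agent.DPFib.FamTT

/-!
# MP_9669a9_ag, module H: the families with the profile `(true, true)` are dominant
-/

namespace Pool.Agent.DPFib

open Polynomial Topology

noncomputable section

variable {a b : ℕ} {ν ζ : ℂ}

theorem cont_coeff_pol {E : Type*} [TopologicalSpace E] {n : ℕ} {f : E → Fin n → ℂ}
    (hf : Continuous f) (k : ℕ) : Continuous fun r => (pol (f r)).coeff k := by
  simp only [coeff_pol]
  split_ifs
  · exact (continuous_apply _).comp hf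
  · exact continuous_const

theorem cont_U0 (k : ℕ) : Continuous fun r : Ix a b → ℂ => (U0 r).coeff k :=
  cont_coeff_pol (f := fun (r : Ix a b → ℂ) i => r (Sum.inl i))
    (continuous_pi fun _ => continuous_apply _) k
theorem cont_U1 (k : ℕ) : Continuous fun r : Ix a b → ℂ => (U1 r).coeff k :=
  cont_coeff_pol (f := fun (r : Ix a b → ℂ) i => r (Sum.inr (Sum.inl i)))
    (continuous_pi fun _ => continuous_apply _) k
theorem cont_V0 (k : ℕ) : Continuous fun r : Ix a b → ℂ => (V0 r).coeff k :=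
  cont_coeff_pol (f := fun (r : Ix a b → ℂ) i => r (Sum.inr (Sum.inr (Sum.inl i))))
    (continuous_pi fun _ => continuous_apply _) k
theorem cont_V1 (k : ℕ) : Continuous fun r : Ix a b → ℂ => (V1 r).coeff k :=
  cont_coeff_pol (f := fun (r : Ix a b → ℂ) i => r (Sum.inr (Sum.inr (Sum.inr (Sum.inl i)))))
    (continuous_pi fun _ => continuous_apply _) k
theorem cont_Wp (k : ℕ) : Continuous fun r : Ix a b → ℂ => (Wp r).coeff k :=
  cont_coeff_pol (f := fun (r : Ix a b → ℂ) i => r (Sum.inr (Sum.inr (Sum.inr (Sum.inr i)))))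
    (continuous_pi fun _ => continuous_apply _) k

theorem continuousAt_mkTT {t0 s0 : ℂ} (ht : t0 ≠ 0) (hs : s0 ≠ 0) (r0 : Ix a b → ℂ) :
    ContinuousAt (fun p : (ℂ × ℂ) × (Ix a b → ℂ) => mkTT ν ζ p.1.1 p.1.2 p.2) ((t0, s0), r0) := by
  have c0 := fun k => (cont_U0 (a := a) (b := b) k)
  have c1 := fun k => (cont_U1 (a := a) (b := b) k)
  have c2 := fun k => (cont_V0 (a := a) (b := b) k)
  have c3 := fun k => (cont_V1 (a := a) (b := b) k)
  have c4 := fun k => (cont_Wp (a := a) (b := b) k)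
  have e1 : ContinuousAt (fun p : (ℂ × ℂ) × (Ix a b → ℂ) => p.1.1) ((t0, s0), r0) := by fun_prop
  have e2 : ContinuousAt (fun p : (ℂ × ℂ) × (Ix a b → ℂ) => p.1.2) ((t0, s0), r0) := by fun_prop
  have e3 : ContinuousAt (fun p : (ℂ × ℂ) × (Ix a b → ℂ) => (p.1.1)⁻¹) ((t0, s0), r0) :=
    e1.inv₀ ht
  have e4 : ContinuousAt (fun p : (ℂ × ℂ) × (Ix a b → ℂ) => (p.1.2)⁻¹) ((t0, s0), r0) :=
    e2.inv₀ hs
  have d0 := fun k => ((c0 k).comp (continuous_snd (X := ℂ × ℂ))).continuousAt (x := ((t0, s0), r0))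
  have d1 := fun k => ((c1 k).comp (continuous_snd (X := ℂ × ℂ))).continuousAt (x := ((t0, s0), r0))
  have d2 := fun k => ((c2 k).comp (continuous_snd (X := ℂ × ℂ))).continuousAt (x := ((t0, s0), r0))
  have d3 := fun k => ((c3 k).comp (continuous_snd (X := ℂ × ℂ))).continuousAt (x := ((t0, s0), r0))
  have d4 := fun k => ((c4 k).comp (continuous_snd (X := ℂ × ℂ))).continuousAt (x := ((t0, s0), r0))
  rw [continuousAt_pi]
  rintro ⟨v, i⟩
  cases v
  · simp only [mkTT, ofP_apply, PTT, coeff_C]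
    split_ifs
    · exact e1
    · exact continuousAt_const
  · simp only [mkTT, ofP_apply, PTT, coeff_C]
    split_ifs
    · exact e2
    · exact continuousAt_const
  · simp only [mkTT, ofP_apply, PTT, coeff_C_mul]
    exact e3.mul continuousAt_const
  · simp only [mkTT, ofP_apply, PTT, coeff_C]
    split_ifs
    · exact e4
    · exact continuousAt_const
  · simp only [mkTT, ofP_apply, PTT, coeff_C_mul, coeff_divX, coeff_sub]
    exact (e1.div_const _).mul ((d0 _).sub (continuousAt_const.mul (d1 _)))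
  · simp only [mkTT, ofP_apply, PTT, coeff_C_mul, coeff_add]
    exact (e2.div_const _).mul ((d0 _).add (d1 _))
  · simp only [mkTT, ofP_apply, PTT, coeff_C_mul, coeff_divX, coeff_sub]
    exact e1.mul ((continuousAt_const.mul (d2 _)).sub (d3 _))
  · simp only [mkTT, ofP_apply, PTT, coeff_C_mul]
    exact (e2.div_const _).mul (d2 _)
  · simp only [mkTT, ofP_apply, PTT]
    exact d4 _

theorem Wp_ne_zero (hab : a + 1 ≤ b) {r : Ix a b → ℂ} (hr : r ∈ Full a b) : Wp r ≠ 0 := by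
  intro h
  have h1 := hr.2.2.2.2
  rw [h] at h1
  refine Bf_ne_zero (by omega : a < b) (natDegree_U0 r) (natDegree_U1 r) (natDegree_V0 r)
    (natDegree_V1 r) hr.1 hr.2.1 ?_
  rw [← h1]; ring

/-- the data of the section through a point -/
def xi (a b : ℕ) (ν ζ : ℂ) (z : Var → ℂ) : Fin 6 → ℂ :=
  ![z .e * z .t / (z .g * z .s),
    (ν * (z .g * z .y) + z .e * z .x) / (z .g * z .s) ^ a,
    (z .g * z .y - z .e * z .x) / (z .g * z .s) ^ a,
    (ζ * (z .g * z .q)) / (z .g * z .s) ^ b,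
    (z .g * z .q - z .e * z .p) / (z .g * z .s) ^ b,
    z .w / (z .g * z .s) ^ (a + b - 1)]

theorem continuousAt_xi {z0 : Var → ℂ} (h : z0 .g * z0 .s ≠ 0) :
    ContinuousAt (xi a b ν ζ) z0 := by
  rw [continuousAt_pi]
  intro i
  have h1 : ∀ v : Var, ContinuousAt (fun z : Var → ℂ => z v) z0 := fun v =>
    (continuous_apply v).continuousAt
  have h2 : ContinuousAt (fun z : Var → ℂ => z .g * z .s) z0 := (h1 _).mul (h1 _)
  fin_cases i
  · exact ((h1 _).mul (h1 _)).div h2 h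
  · exact ((continuousAt_const.mul ((h1 _).mul (h1 _))).add ((h1 _).mul (h1 _))).div (h2.pow _)
      (pow_ne_zero _ h)
  · exact (((h1 _).mul (h1 _)).sub ((h1 _).mul (h1 _))).div (h2.pow _) (pow_ne_zero _ h)
  · exact (continuousAt_const.mul ((h1 _).mul (h1 _))).div (h2.pow _) (pow_ne_zero _ h)
  · exact (((h1 _).mul (h1 _)).sub ((h1 _).mul (h1 _))).div (h2.pow _) (pow_ne_zero _ h)
  · exact (h1 _).div (h2.pow _) (pow_ne_zero _ h)

theorem xi_eq_aux {σ θ A B D w u0 u1 v0 v1 : ℂ} (hσ : σ ≠ 0) (hA : A ≠ 0) (hB : B ≠ 0)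
    (hD : D ≠ 0) (h : A * B = D * σ) (h2 : θ * σ * w ^ 2 = Bf u0 u1 v0 v1) :
    θ / σ * (w / D) ^ 2 = Bf (u0 / A) (u1 / A) (v0 / B) (v1 / B) := by
  have e1 : Bf (u0 / A) (u1 / A) (v0 / B) (v1 / B) = Bf u0 u1 v0 v1 / (A * B) ^ 2 := by
    unfold Bf; field_simp
  rw [e1, h, ← h2]
  field_simp

theorem xi_eq (hνζ : (1 + ν) ^ 2 * (1 + ζ) ^ 2 = ν * ζ) (ha : 1 ≤ a) {z : Var → ℂ}
    (hσ : z .g * z .s ≠ 0) (hz : MvPolynomial.eval z (Feq ν ζ) = 0) :
    xi a b ν ζ z 0 * xi a b ν ζ z 5 ^ 2 =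
      Bf (xi a b ν ζ z 1) (xi a b ν ζ z 2) (xi a b ν ζ z 3) (xi a b ν ζ z 4) := by
  have h1 : z .s * z .t * z .w ^ 2 = Bp ν ζ (z .e) (z .g) (z .x) (z .y) (z .p) (z .q) := by
    have : MvPolynomial.eval z (Feq ν ζ) = z .s * z .t * z .w ^ 2 -
        Bp ν ζ (z .e) (z .g) (z .x) (z .y) (z .p) (z .q) := by
      simp [Feq, Bp]
    rw [this] at hz
    linear_combination hz
  have h2 := Bp_spec ν ζ (z .e) (z .g) (z .x) (z .y) (z .p) (z .q)
  rw [hνζ, sub_self, mul_zero, sub_zero, ← h1] at h2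
  have h3 : (z .g * z .s) ^ a * (z .g * z .s) ^ b = (z .g * z .s) ^ (a + b - 1) * (z .g * z .s) := by
    rw [← pow_add, ← pow_succ]; congr 1; omega
  refine xi_eq_aux hσ (pow_ne_zero _ hσ) (pow_ne_zero _ hσ) (pow_ne_zero _ hσ) h3 ?_
  have e1 : Bf (ν * (z .g * z .y) + z .e * z .x) (z .g * z .y - z .e * z .x)
      (ζ * (z .g * z .q)) (z .g * z .q - z .e * z .p) =
      Bf (ν * z .g * z .y + z .e * z .x) (z .g * z .y - z .e * z .x)
      (ζ * z .g * z .q) (z .g * z .q - z .e * z .p) := by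
    rw [mul_assoc, mul_assoc]
  rw [e1, ← h2]
  ring

theorem aux_x {e Px σ A ν gy x : ℂ} (hσ : σ ≠ 0) (hA : A ≠ 0) (hν : 1 + ν ≠ 0) (he : e ≠ 0)
    (k : e / σ * Px = 1 / (1 + ν) * ((ν * gy + e * x) / (A * σ) - ν * ((gy - e * x) / (A * σ)))) :
    A * Px = x := by
  have h1 : e / σ * Px = e * x / (A * σ) := by rw [k]; field_simp; ring
  have h2 : e / (A * σ) * (A * Px) = e / (A * σ) * x := by
    have e1 : e / (A * σ) * (A * Px) = e / σ * Px := by field_simp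
    rw [e1, h1]; ring
  exact mul_left_cancel₀ (div_ne_zero he (mul_ne_zero hA hσ)) h2

theorem aux_y {g s Py A ν y ex : ℂ} (hs : s ≠ 0) (hσ : g * s ≠ 0) (hA : A ≠ 0) (hν : 1 + ν ≠ 0)
    (hg : g ≠ 0)
    (k : s⁻¹ * Py = 1 / (1 + ν) * ((ν * (g * y) + ex) / (A * (g * s)) +
      (g * y - ex) / (A * (g * s)))) : A * Py = y := by
  have h1 : s⁻¹ * Py = y / (A * s) := by rw [k]; field_simp; ring
  have h2 : (A * s)⁻¹ * (A * Py) = (A * s)⁻¹ * y := by
    have e1 : (A * s)⁻¹ * (A * Py) = s⁻¹ * Py := by field_simp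
    rw [e1, h1]; ring
  exact mul_left_cancel₀ (inv_ne_zero (mul_ne_zero hA hs)) h2

theorem aux_p {e Pp σ B ζ gq p : ℂ} (hσ : σ ≠ 0) (hB : B ≠ 0) (hζ : ζ ≠ 0) (he : e ≠ 0)
    (k : e / σ * Pp = ζ⁻¹ * (ζ * gq / (B * σ)) - (gq - e * p) / (B * σ)) :
    B * Pp = p := by
  have h1 : e / σ * Pp = e * p / (B * σ) := by rw [k]; field_simp; ring
  have h2 : e / (B * σ) * (B * Pp) = e / (B * σ) * p := by
    have e1 : e / (B * σ) * (B * Pp) = e / σ * Pp := by field_simp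
    rw [e1, h1]; ring
  exact mul_left_cancel₀ (div_ne_zero he (mul_ne_zero hB hσ)) h2

theorem aux_q {g s Pq B ζ q : ℂ} (hs : s ≠ 0) (hσ : g * s ≠ 0) (hB : B ≠ 0) (hζ : ζ ≠ 0)
    (hg : g ≠ 0) (k : s⁻¹ * Pq = ζ⁻¹ * (ζ * (g * q) / (B * (g * s)))) : B * Pq = q := by
  have h1 : s⁻¹ * Pq = q / (B * s) := by rw [k]; field_simp
  have h2 : (B * s)⁻¹ * (B * Pq) = (B * s)⁻¹ * q := by
    have e1 : (B * s)⁻¹ * (B * Pq) = s⁻¹ * Pq := by field_simp
    rw [e1, h1]; ring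
  exact mul_left_cancel₀ (inv_ne_zero (mul_ne_zero hB hs)) h2

theorem dominant_TT (ha : 2 ≤ a) (hab : a + 1 ≤ b) (hνζ : (1 + ν) ^ 2 * (1 + ζ) ^ 2 = ν * ζ)
    (hν : ν ≠ -1) (hζ : ζ ≠ 0) {Q : Ideal (MvPolynomial (CIx (clTT a b)) ℂ)}
    (hQ : Q ∈ comps (Sec ν ζ (clTT a b))) {G : MvPolynomial Var ℂ}
    (hG : ∀ c ∈ Sec ν ζ (clTT a b), c ∈ MvPolynomial.zeroLocus ℂ Q → ∀ θ σ : ℂ,
      (θ ≠ 0 ∨ σ ≠ 0) → MvPolynomial.eval (pt c θ σ) G = 0) : Feq ν ζ ∣ G := by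
  have hg : Good a b (clTT a b) := good_clTT (by omega) (by omega)
  have hν' : (1 + ν) ≠ 0 := fun h => hν (by linear_combination h)
  obtain ⟨h, hhQ, hh⟩ := comps_isolate hQ
  have hvan := comps_vanishingIdeal_inter hQ
  obtain ⟨c0, hc0, hc0h⟩ : ∃ c0 ∈ Sec ν ζ (clTT a b), MvPolynomial.eval c0 h ≠ 0 := by
    rw [← hvan, MvPolynomial.mem_vanishingIdeal_iff] at hhQ
    push Not at hhQ
    obtain ⟨s, hs, hsf⟩ := hhQ
    exact ⟨s, hs.1, by simpa using hsf⟩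
  have hiso : ∀ c ∈ Sec ν ζ (clTT a b), MvPolynomial.eval c h ≠ 0 →
      c ∈ MvPolynomial.zeroLocus ℂ Q := by
    intro c hc hch
    obtain ⟨P', hP', hz'⟩ := comps_cover hc
    by_cases e : P' = Q
    · exact e ▸ hz'
    · exact absurd (by simpa using hz' h (hh P' hP' e)) hch
  obtain ⟨hA, t0, s0, ht0, hs0, hc0e⟩ := sec_TT hνζ hν hζ (by omega) (by omega) hc0
  set r0 := toIx a b ν ζ c0 with hr0
  obtain ⟨τ, hτ⟩ : ∃ τ : ℂ, (X * Wp r0).eval τ ≠ 0 := by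
    by_contra hcon
    push Not at hcon
    have : X * Wp r0 = 0 := Polynomial.funext fun τ => by rw [hcon τ, eval_zero]
    exact mul_ne_zero X_ne_zero (Wp_ne_zero hab hA.1) this
  rw [eval_mul, eval_X, mul_ne_zero_iff] at hτ
  obtain ⟨hτ0, hτW⟩ := hτ
  -- neighbourhoods
  have hcont : ContinuousAt (fun p : (ℂ × ℂ) × (Ix a b → ℂ) =>
      MvPolynomial.eval (mkTT ν ζ p.1.1 p.1.2 p.2) h) ((t0, s0), r0) :=
    (MvPolynomial.continuous_eval h).continuousAt.comp (continuousAt_mkTT ht0 hs0 r0)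
  have hev : ∀ᶠ p : (ℂ × ℂ) × (Ix a b → ℂ) in 𝓝 ((t0, s0), r0),
      MvPolynomial.eval (mkTT ν ζ p.1.1 p.1.2 p.2) h ≠ 0 := by
    refine hcont.eventually_ne ?_
    show MvPolynomial.eval (mkTT ν ζ t0 s0 r0) h ≠ 0
    rw [← hc0e]; exact hc0h
  rw [nhds_prod_eq, Filter.eventually_prod_iff] at hev
  obtain ⟨pa, hpa, pb, hpb, hpab⟩ := hev
  have hfill := fill_At ha hab hν hA hτ0 hτW (N := {r | pb r}) hpb
  -- the point
  set z0 := pt c0 τ 1 with hz0
  obtain ⟨hX, hz1, hz2⟩ := hc0 τ 1 (Or.inr one_ne_zero)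
  rw [← hz0] at hX hz1 hz2
  have hPt : Pc c0 .t = C t0 := by
    rw [hc0e, Pc_mkTT (by omega) (by omega) t0 s0 hA.1]; rfl
  have hPs : Pc c0 .s = C s0 := by
    rw [hc0e, Pc_mkTT (by omega) (by omega) t0 s0 hA.1]; rfl
  have hzt : z0 .t = t0 := by rw [hz0, pt_one hg.nonneg, hPt, eval_C]
  have hzs : z0 .s = s0 := by rw [hz0, pt_one hg.nonneg, hPs, eval_C]
  have hσ0 : z0 .g * z0 .s ≠ 0 := by rw [hz2]; exact one_ne_zero
  have hxi0 : xi a b ν ζ z0 = ![τ, (U0 r0).eval τ, (U1 r0).eval τ, (V0 r0).eval τ,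
      (V1 r0).eval τ, (Wp r0).eval τ] := by
    rw [hr0, toIx_U0 hg, toIx_U1 hg, toIx_V0 hg, toIx_V1 hg, toIx_Wp hg]
    unfold xi
    rw [hz1, hz2, one_pow, one_pow, one_pow, div_one, div_one, div_one, div_one, div_one, div_one]
    simp only [hz0, pt_one hg.nonneg, qU0, qU1, qV0, qV1, eval_add, eval_sub, eval_mul, eval_C]
  have hfill' : ∀ᶠ z in 𝓝 z0, xi a b ν ζ z 0 * xi a b ν ζ z 5 ^ 2 =
      Bf (xi a b ν ζ z 1) (xi a b ν ζ z 2) (xi a b ν ζ z 3) (xi a b ν ζ z 4) →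
      ∃ t ∈ At a b ν ζ, t ∈ {r | pb r} ∧ (U0 t).eval (xi a b ν ζ z 0) = xi a b ν ζ z 1 ∧
        (U1 t).eval (xi a b ν ζ z 0) = xi a b ν ζ z 2 ∧
        (V0 t).eval (xi a b ν ζ z 0) = xi a b ν ζ z 3 ∧
        (V1 t).eval (xi a b ν ζ z 0) = xi a b ν ζ z 4 ∧
        (Wp t).eval (xi a b ν ζ z 0) = xi a b ν ζ z 5 := by
    have := continuousAt_xi (a := a) (b := b) (ν := ν) (ζ := ζ) hσ0
    rw [← hxi0] at hfill
    exact this.eventually hfill
  have hts : ∀ᶠ z : Var → ℂ in 𝓝 z0, pa (z .t, z .s) := by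
    have h1 : ContinuousAt (fun z : Var → ℂ => (z .t, z .s)) z0 := by fun_prop
    refine h1.eventually ?_
    show ∀ᶠ y in 𝓝 (z0 .t, z0 .s), pa y
    rw [hzt, hzs]
    exact hpa
  have hne : ∀ v : Var, z0 v ≠ 0 → ∀ᶠ z : Var → ℂ in 𝓝 z0, z v ≠ 0 := fun v hv =>
    (continuous_apply v).continuousAt.eventually_ne hv
  have he0 : z0 .e ≠ 0 := left_ne_zero_of_mul (by rw [hz1]; exact hτ0)
  have hg0 : z0 .g ≠ 0 := left_ne_zero_of_mul hσ0
  have hFz0 : MvPolynomial.eval z0 (Feq ν ζ) = 0 := by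
    have h6 := hX.2.2.2.2.2
    have : MvPolynomial.eval z0 (Feq ν ζ) = z0 .s * z0 .t * z0 .w ^ 2 -
        Bp ν ζ (z0 .e) (z0 .g) (z0 .x) (z0 .y) (z0 .p) (z0 .q) := by
      simp [Feq, Bp]
    rw [this, h6, sub_self]
  have hw0 : z0 .w ≠ 0 := by
    rw [hz0, pt_one hg.nonneg, ← toIx_Wp hg c0 ν ζ]
    exact hτW
  refine dominance_alg hζ hFz0 (by rw [hzs]; exact hs0) hw0 ?_
  filter_upwards [hfill', hts, hne .t (by rw [hzt]; exact ht0), hne .s (by rw [hzs]; exact hs0),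
    hne .e he0, hne .g hg0] with z k1 k2 k3 k4 k5 k6 hFz
  have hσ : z .g * z .s ≠ 0 := mul_ne_zero k6 k4
  have hθ : z .e * z .t ≠ 0 := mul_ne_zero k5 k3
  obtain ⟨r, hrA, hrN, u0, u1, v0, v1, w⟩ := k1 (xi_eq hνζ (by omega) hσ hFz)
  have hcS := mkTT_mem hν hζ k3 k4 hrA hνζ (by omega) (by omega)
  have hch : MvPolynomial.eval (mkTT ν ζ (z .t) (z .s) r) h ≠ 0 := hpab k2 hrN
  have hGz := hG _ hcS (hiso _ hcS hch) (z .e * z .t) (z .g * z .s) (Or.inl hθ)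
  suffices hz_eq : pt (mkTT ν ζ (z .t) (z .s) r) (z .e * z .t) (z .g * z .s) = z by
    rw [hz_eq] at hGz; exact hGz
  have hPc := Pc_mkTT (ν := ν) (ζ := ζ) (by omega : 1 ≤ a) (by omega : 1 ≤ b) (z .t) (z .s) hrA.1
  have hPd := PTT_deg (ν := ν) (ζ := ζ) (by omega : 1 ≤ a) (by omega : 1 ≤ b) (z .t) (z .s) hrA.1
  have hval : ∀ v, pt (mkTT ν ζ (z .t) (z .s) r) (z .e * z .t) (z .g * z .s) v =
      (z .g * z .s) ^ (clTT a b v).toNat *
        (PTT ν ζ (z .t) (z .s) r v).eval (z .e * z .t / (z .g * z .s)) := by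
    intro v
    rw [pt_eq_hom _ v (hg.nonneg v), hPc, hom_eq (hPd v) hσ]
  have e0 : xi a b ν ζ z 0 = z .e * z .t / (z .g * z .s) := rfl
  have e1 : xi a b ν ζ z 1 = (ν * (z .g * z .y) + z .e * z .x) / (z .g * z .s) ^ a := rfl
  have e2 : xi a b ν ζ z 2 = (z .g * z .y - z .e * z .x) / (z .g * z .s) ^ a := rfl
  have e3 : xi a b ν ζ z 3 = (ζ * (z .g * z .q)) / (z .g * z .s) ^ b := rfl
  have e4 : xi a b ν ζ z 4 = (z .g * z .q - z .e * z .p) / (z .g * z .s) ^ b := rfl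
  have e5 : xi a b ν ζ z 5 = z .w / (z .g * z .s) ^ (a + b - 1) := rfl
  rw [e0, e1] at u0
  rw [e0, e2] at u1
  rw [e0, e3] at v0
  rw [e0, e4] at v1
  rw [e0, e5] at w
  have hpa' : (z .g * z .s) ^ a = (z .g * z .s) ^ (a - 1) * (z .g * z .s) := by
    rw [← pow_succ]; congr 1; omega
  have hpb' : (z .g * z .s) ^ b = (z .g * z .s) ^ (b - 1) * (z .g * z .s) := by
    rw [← pow_succ]; congr 1; omega
  have f1 : (clTT a b Var.x).toNat = a - 1 := by simp only [clTT]; omega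
  have f2 : (clTT a b Var.y).toNat = a - 1 := by simp only [clTT]; omega
  have f3 : (clTT a b Var.p).toNat = b - 1 := by simp only [clTT]; omega
  have f4 : (clTT a b Var.q).toNat = b - 1 := by simp only [clTT]; omega
  have f5 : (clTT a b Var.w).toNat = a + b - 1 := by simp only [clTT]; omega
  have f6 : (clTT a b Var.t).toNat = 0 := by simp only [clTT]; omega
  have f7 : (clTT a b Var.s).toNat = 0 := by simp only [clTT]; omega
  have f8 : (clTT a b Var.e).toNat = 1 := by simp only [clTT]; omega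
  have f9 : (clTT a b Var.g).toNat = 1 := by simp only [clTT]; omega
  have hA1 : (z .g * z .s) ^ (a - 1) ≠ 0 := pow_ne_zero _ hσ
  have hB1 : (z .g * z .s) ^ (b - 1) ≠ 0 := pow_ne_zero _ hσ
  have ke : (PTT ν ζ (z .t) (z .s) r Var.e).eval (z .e * z .t / (z .g * z .s)) =
      z .e / (z .g * z .s) := by
    simp only [PTT, eval_mul, eval_C, eval_X]
    field_simp
  have kg : (PTT ν ζ (z .t) (z .s) r Var.g).eval (z .e * z .t / (z .g * z .s)) =
      (z .s)⁻¹ := by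
    simp only [PTT, eval_C]
  funext v
  rw [hval]
  cases v
  · rw [f6]; simp [PTT]
  · rw [f7]; simp [PTT]
  · rw [f8]
    simp only [PTT, eval_mul, eval_C, eval_X, pow_one]
    field_simp
  · rw [f9]
    simp only [PTT, eval_C, pow_one]
    field_simp
  · have k := congrArg (Polynomial.eval (z .e * z .t / (z .g * z .s)))
      (PTT_ex hν hζ k3 k4 hrA)
    simp only [eval_mul, eval_C, eval_sub] at k
    rw [u0, u1, ke, hpa'] at k
    rw [f1]
    exact aux_x hσ hA1 hν' k5 k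
  · have k := congrArg (Polynomial.eval (z .e * z .t / (z .g * z .s)))
      (PTT_gy hν hζ k3 k4 hrA)
    simp only [eval_mul, eval_C, eval_add] at k
    rw [u0, u1, kg, hpa'] at k
    rw [f2]
    exact aux_y k4 hσ hA1 hν' k6 k
  · have k := congrArg (Polynomial.eval (z .e * z .t / (z .g * z .s)))
      (PTT_ep hν hζ k3 k4 hrA)
    simp only [eval_mul, eval_C, eval_sub] at k
    rw [v0, v1, ke, hpb'] at k
    rw [f3]
    exact aux_p hσ hB1 hζ k5 k
  · have k := congrArg (Polynomial.eval (z .e * z .t / (z .g * z .s)))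
      (PTT_gq hν hζ k3 k4 hrA)
    simp only [eval_mul, eval_C] at k
    rw [v0, kg, hpb'] at k
    rw [f4]
    exact aux_q k4 hσ hB1 hζ k6 k
  · rw [f5]
    simp only [PTT]
    rw [w]
    field_simp

theorem toIx_image (hνζ : (1 + ν) ^ 2 * (1 + ζ) ^ 2 = ν * ζ) (hν : ν ≠ -1) (hζ : ζ ≠ 0)
    (ha : 1 ≤ a) (hb : 1 ≤ b) :
    (fun (z : CIx (clTT a b) → ℂ) i => MvPolynomial.eval z
      (toIx a b (MvPolynomial.C ν) (MvPolynomial.C ζ) (fun i => MvPolynomial.X i) i)) ''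
        Sec ν ζ (clTT a b) = At a b ν ζ := by
  have key : ∀ z : CIx (clTT a b) → ℂ, (fun i => MvPolynomial.eval z
      (toIx a b (MvPolynomial.C ν) (MvPolynomial.C ζ)
        (fun i : CIx (clTT a b) => (MvPolynomial.X i : MvPolynomial (CIx (clTT a b)) ℂ)) i)) =
      toIx a b ν ζ z := by
    intro z
    funext i
    rw [toIx_map]
    simp only [MvPolynomial.eval_C, MvPolynomial.eval_X]
  ext r
  constructor
  · rintro ⟨z, hz, rfl⟩
    simp only [key]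
    exact (sec_TT hνζ hν hζ ha hb hz).1
  · intro hr
    refine ⟨mkTT ν ζ 1 1 r, mkTT_mem hν hζ one_ne_zero one_ne_zero hr hνζ ha hb, ?_⟩
    simp only [key]
    exact toIx_mkTT hν hζ one_ne_zero one_ne_zero hr ha hb

theorem families_tt (ha : 2 ≤ a) (hab : a + 1 ≤ b)
    (hνζ : (1 + ν) ^ 2 * (1 + ζ) ^ 2 = ν * ζ) (hν : ν ≠ -1) (hζ : ζ ≠ 0) :
    (families ν ζ (clTT a b)).Finite ∧
      (comps (At a b ν ζ)).ncard ≤ (families ν ζ (clTT a b)).ncard := by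
  have h1 : families ν ζ (clTT a b) = comps (Sec ν ζ (clTT a b)) := by
    ext Q
    constructor
    · exact fun h => h.1
    · intro h
      exact ⟨h, fun G hG => dominant_TT ha hab hνζ hν hζ h hG⟩
  rw [h1]
  exact ⟨comps_finite _, comps_ncard_le_of_surj _ (toIx_image hνζ hν hζ (by omega) (by omega))⟩

end

end Pool.Agent.DPFib
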