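import Pool.Agent.DPFib.Threefold

/-!
# MP_9669a9_ag, module I1: smoothness, free action, positivity
-/

namespace Pool.Agent.DPFib

noncomputable section

variable {ν ζ : ℂ}

/-- the curve `Bf = 0` has no singular points -/
theorem g1_Bf_smooth {u0 u1 v0 v1 : ℂ} (hu : u0 ≠ 0 ∨ u1 ≠ 0) (hv : v0 ≠ 0 ∨ v1 ≠ 0)
    (h1 : Bu0 u0 u1 v0 v1 = 0) (h2 : Bu1 u0 u1 v0 v1 = 0) (h3 : Bv0 u0 u1 v0 v1 = 0)
    (h4 : Bv1 u0 u1 v0 v1 = 0) : False := by
  unfold Bu0 at h1; unfold Bu1 at h2; unfold Bv0 at h3; unfold Bv1 at h4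
  have e1 : (u0 - u1) * (v0 * v1) = 0 := by linear_combination h1 - h2
  have e2 : (v0 - v1) * (u0 * u1) = 0 := by linear_combination h3 - h4
  by_cases hvv : v0 * v1 = 0
  · have hs : v0 + v1 ≠ 0 := by
      intro hs
      rcases mul_eq_zero.1 hvv with h | h
      · rw [h, zero_add] at hs; simp [h, hs] at hv
      · rw [h, add_zero] at hs; simp [h, hs] at hv
    have e3 : (u0 + u1) * (v0 + v1) ^ 2 = 0 := by
      linear_combination (1 / 2 : ℂ) * h1 + (1 / 2 : ℂ) * u1 * hvv
    have e4 : u0 + u1 = 0 := by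
      rcases mul_eq_zero.1 e3 with h | h
      · exact h
      · exact absurd (pow_eq_zero_iff two_ne_zero |>.1 h) hs
    have e5 : u1 = -u0 := by linear_combination e4
    have hu0 : u0 ≠ 0 := by
      rcases hu with h | h
      · exact h
      · rw [e5] at h; exact neg_ne_zero.1 h
    have e6 : v0 - v1 = 0 := by
      rcases mul_eq_zero.1 e2 with h | h
      · exact h
      · rw [e5] at h
        exact absurd h (mul_ne_zero hu0 (neg_ne_zero.2 hu0))
    have e7 : v0 = v1 := by linear_combination e6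
    rw [e7] at hvv hv
    have : v1 = 0 := by simpa using hvv
    simp [this] at hv
  · have e3 : u0 = u1 := by
      rcases mul_eq_zero.1 e1 with h | h
      · linear_combination h
      · exact absurd h hvv
    have hu0 : u1 ≠ 0 := by
      rw [e3] at hu; simpa using hu
    have e4 : v0 = v1 := by
      rcases mul_eq_zero.1 e2 with h | h
      · linear_combination h
      · rw [e3] at h; exact absurd h (mul_ne_zero hu0 hu0)
    have hv0 : v1 ≠ 0 := by
      rw [e4] at hv; simpa using hv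
    rw [e3, e4] at h1
    have : 15 * u1 * v1 ^ 2 = 0 := by linear_combination h1
    have h15 : (15 : ℂ) * u1 * v1 ^ 2 ≠ 0 :=
      mul_ne_zero (mul_ne_zero (by norm_num) hu0) (pow_ne_zero _ hv0)
    exact h15 this

theorem g1_two (r : Var) : MvPolynomial.pderiv r (2 : MvPolynomial Var ℂ) = 0 := by
  have h := (MvPolynomial.pderiv (R := ℂ) r).map_natCast 2
  simpa using h

theorem g1_d_t (z : Var → ℂ) : MvPolynomial.eval z (MvPolynomial.pderiv Var.t (Feq ν ζ)) =
    z .s * z .w ^ 2 := by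
  simp [Feq, Bp, Derivation.leibniz, Derivation.leibniz_pow, MvPolynomial.pderiv_X, g1_two]
  ring

theorem g1_d_s (z : Var → ℂ) : MvPolynomial.eval z (MvPolynomial.pderiv Var.s (Feq ν ζ)) =
    z .t * z .w ^ 2 := by
  simp [Feq, Bp, Derivation.leibniz, Derivation.leibniz_pow, MvPolynomial.pderiv_X, g1_two]
  ring

theorem g1_d_x (z : Var → ℂ) : MvPolynomial.eval z (MvPolynomial.pderiv Var.x (Feq ν ζ)) =
    -(ζ * z .q * (-((1 - ν) * (z .g * z .y) * (z .g * z .q - z .e * z .p)) +
      2 * z .e * z .x * (z .g * z .q - z .e * z .p))) := by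
  simp [Feq, Bp, Derivation.leibniz, Derivation.leibniz_pow, MvPolynomial.pderiv_X, g1_two,
    -mul_eq_mul_left_iff, -mul_eq_mul_right_iff]
  ring

theorem g1_d_y (z : Var → ℂ) : MvPolynomial.eval z (MvPolynomial.pderiv Var.y (Feq ν ζ)) =
    -((1 + ν) ^ 2 * (2 * z .g * z .y * z .p) * (z .e * z .p - 2 * (1 + ζ) * (z .g * z .q)) +
      ζ * z .q * (2 * ν * z .g ^ 2 * z .y * z .p -
        (1 - ν) * (z .g * z .x) * (z .g * z .q - z .e * z .p))) := by
  simp [Feq, Bp, Derivation.leibniz, Derivation.leibniz_pow, MvPolynomial.pderiv_X, g1_two]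
  ring

theorem g1_d_p (z : Var → ℂ) : MvPolynomial.eval z (MvPolynomial.pderiv Var.p (Feq ν ζ)) =
    -((1 + ν) ^ 2 * (z .g * z .y ^ 2) * (2 * z .e * z .p - 2 * (1 + ζ) * (z .g * z .q)) +
      ζ * z .q * (ν * z .g ^ 2 * z .y ^ 2 + (1 - ν) * (z .g * z .x * z .y) * z .e -
        z .e ^ 2 * z .x ^ 2)) := by
  simp [Feq, Bp, Derivation.leibniz, Derivation.leibniz_pow, MvPolynomial.pderiv_X, g1_two]
  ring

theorem g1_d_q (z : Var → ℂ) : MvPolynomial.eval z (MvPolynomial.pderiv Var.q (Feq ν ζ)) =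
    -(-((1 + ν) ^ 2 * (z .g * z .y ^ 2 * z .p) * (2 * (1 + ζ) * z .g)) +
      ζ * (ν * (z .g ^ 2 * z .y ^ 2 * z .p) -
        (1 - ν) * (z .g * z .x * z .y) * (2 * z .g * z .q - z .e * z .p) +
        z .e * z .x ^ 2 * (2 * z .g * z .q - z .e * z .p))) := by
  simp [Feq, Bp, Derivation.leibniz, Derivation.leibniz_pow, MvPolynomial.pderiv_X, g1_two]
  ring

theorem geom_smooth (hE : (1 + ν) ^ 2 * (1 + ζ) ^ 2 = ν * ζ) (hν0 : ν ≠ 0) (hν1 : ν ≠ 1)
    (hνm : ν ≠ -1) (hζ0 : ζ ≠ 0) (hζ1 : ζ ≠ 1) (hζm : ζ ≠ -1) :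
    ∀ z ∈ Xhat ν ζ, ∃ r, MvPolynomial.eval z (MvPolynomial.pderiv r (Feq ν ζ)) ≠ 0 := by
  rintro z ⟨h1, h2, h3, h4, h5, h6⟩
  by_contra hcon
  push Not at hcon
  have dt := hcon .t
  have ds := hcon .s
  have dx := hcon .x
  have dy := hcon .y
  have dp := hcon .p
  have dq := hcon .q
  rw [g1_d_t] at dt
  rw [g1_d_s] at ds
  rw [g1_d_x] at dx
  rw [g1_d_y] at dy
  rw [g1_d_p] at dp
  rw [g1_d_q] at dq
  have hνm' : 1 + ν ≠ 0 := fun h => hνm (by linear_combination h)
  have hζm' : 1 + ζ ≠ 0 := fun h => hζm (by linear_combination h)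
  have hw : z .w = 0 := by
    by_contra hw
    have hw2 : z .w ^ 2 ≠ 0 := pow_ne_zero _ hw
    have a1 : z .s = 0 := (mul_eq_zero.1 dt).resolve_right hw2
    have a2 : z .t = 0 := (mul_eq_zero.1 ds).resolve_right hw2
    simp [a1, a2] at h1
  by_cases he : z .e = 0
  · simp only [he, hw, zero_mul, ne_eq, not_true_eq_false, false_or, or_false,
      mul_eq_zero, not_or] at h1 h2 h3
    have : (z .g * z .y) ^ 2 * z .q * ((1 + ν) ^ 2 * (1 + ζ)) * (ζ - 1) = 0 := by
      rw [he] at dp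
      linear_combination -dp + z .g ^ 2 * z .y ^ 2 * z .q * hE
    have h7 : (z .g * z .y) ^ 2 * z .q * ((1 + ν) ^ 2 * (1 + ζ)) * (ζ - 1) ≠ 0 :=
      mul_ne_zero (mul_ne_zero (mul_ne_zero (pow_ne_zero _ (mul_ne_zero h2.1 h2.2)) h3.2)
        (mul_ne_zero (pow_ne_zero _ hνm') hζm')) (sub_ne_zero.2 hζ1)
    exact h7 this
  · by_cases hg : z .g = 0
    · simp only [hg, hw, zero_mul, ne_eq, not_true_eq_false, or_false,
        mul_eq_zero, not_or] at h1 h2 h3
      have : ζ * z .e ^ 2 * z .x ^ 2 * z .p = 0 := by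
        rw [hg] at dq
        linear_combination dq
      have h7 : ζ * z .e ^ 2 * z .x ^ 2 * z .p ≠ 0 :=
        mul_ne_zero (mul_ne_zero (mul_ne_zero hζ0 (pow_ne_zero _ he)) (pow_ne_zero _ h2.2)) h3.2
      exact h7 this
    · set u0 := ν * z .g * z .y + z .e * z .x with hu0
      set u1 := z .g * z .y - z .e * z .x with hu1
      set v0 := ζ * z .g * z .q with hv0
      set v1 := z .g * z .q - z .e * z .p with hv1
      have hu : u0 ≠ 0 ∨ u1 ≠ 0 := by
        by_contra hc
        push Not at hc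
        have a1 : (1 + ν) * (z .g * z .y) = 0 := by
          rw [hu0, hu1] at hc; linear_combination hc.1 + hc.2
        have a2 : z .g * z .y = 0 := (mul_eq_zero.1 a1).resolve_left hνm'
        have a3 : z .e * z .x = 0 := by rw [hu1] at hc; linear_combination a2 - hc.2
        simp [a2, a3] at h2
      have hv : v0 ≠ 0 ∨ v1 ≠ 0 := by
        by_contra hc
        push Not at hc
        have a1 : z .g * z .q = 0 := by
          rw [hv0, mul_assoc] at hc
          exact (mul_eq_zero.1 hc.1).resolve_left hζ0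
        have a3 : z .e * z .p = 0 := by rw [hv1] at hc; linear_combination a1 - hc.2
        rw [a1, a3] at h3
        simp [hw] at h3
      -- the partial derivatives of `Bf` vanish
      have ex : Bu0 u0 u1 v0 v1 - Bu1 u0 u1 v0 v1 = 0 := by
        have : z .e * (Bu0 u0 u1 v0 v1 - Bu1 u0 u1 v0 v1) = 0 := by
          unfold Bu0 Bu1
          rw [hu0, hu1, hv0, hv1]
          linear_combination -(z .e * z .g) * dx
        exact (mul_eq_zero.1 this).resolve_left he
      have ey : ν * Bu0 u0 u1 v0 v1 + Bu1 u0 u1 v0 v1 = 0 := by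
        have : z .g * (ν * Bu0 u0 u1 v0 v1 + Bu1 u0 u1 v0 v1) = 0 := by
          unfold Bu0 Bu1
          rw [hu0, hu1, hv0, hv1]
          linear_combination -(z .e * z .g) * dy + 2 * z .g ^ 4 * z .y * z .q ^ 2 * hE
        exact (mul_eq_zero.1 this).resolve_left hg
      have ep : Bv1 u0 u1 v0 v1 = 0 := by
        have : -z .e * Bv1 u0 u1 v0 v1 = 0 := by
          unfold Bv1
          rw [hu0, hu1, hv0, hv1]
          linear_combination -(z .e * z .g) * dp
        exact (mul_eq_zero.1 this).resolve_left (neg_ne_zero.2 he)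
      have eq : ζ * Bv0 u0 u1 v0 v1 + Bv1 u0 u1 v0 v1 = 0 := by
        have : z .g * (ζ * Bv0 u0 u1 v0 v1 + Bv1 u0 u1 v0 v1) = 0 := by
          unfold Bv0 Bv1
          rw [hu0, hu1, hv0, hv1]
          linear_combination -(z .e * z .g) * dq + 2 * z .g ^ 4 * z .y ^ 2 * z .q * hE
        exact (mul_eq_zero.1 this).resolve_left hg
      have b1 : Bu0 u0 u1 v0 v1 = 0 := by
        have : (1 + ν) * Bu0 u0 u1 v0 v1 = 0 := by linear_combination ex + ey
        exact (mul_eq_zero.1 this).resolve_left hνm'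
      have b2 : Bu1 u0 u1 v0 v1 = 0 := by linear_combination b1 - ex
      have b3 : Bv0 u0 u1 v0 v1 = 0 := by
        have : ζ * Bv0 u0 u1 v0 v1 = 0 := by linear_combination eq - ep
        exact (mul_eq_zero.1 this).resolve_left hζ0
      exact g1_Bf_smooth hu hv b1 b2 b3 ep

theorem geom_invariant :
    ∀ z ∈ Xhat ν ζ, ∀ c : Fin 5 → ℂ, (∀ i, c i ≠ 0) → act c z ∈ Xhat ν ζ := by
  rintro z ⟨h1, h2, h3, h4, h5, h6⟩ c hc
  have c0 := hc 0
  have c1 := hc 1
  have c2 := hc 2
  have c3 := hc 3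
  have c4 := hc 4
  have e1 : ∀ a b : ℂ, c 3 * a * (c 0 * (c 3)⁻¹ * b) = c 0 * (a * b) := fun a b => by
    field_simp
  refine ⟨?_, ?_, ?_, ?_, ?_, ?_⟩
  · refine h1.imp (fun h => ?_) (fun h => ?_)
    · have : act c z .e * act c z .t = c 0 * (z .e * z .t) := by simp only [act]; field_simp
      rw [this]; exact mul_ne_zero c0 h
    · have : act c z .g * act c z .s = c 0 * (z .g * z .s) := by simp only [act]; field_simp
      rw [this]; exact mul_ne_zero c0 h
  · refine h2.imp (fun h => ?_) (fun h => ?_)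
    · have : act c z .e * act c z .x = c 1 * (z .e * z .x) := by simp only [act]; field_simp
      rw [this]; exact mul_ne_zero c1 h
    · have : act c z .g * act c z .y = c 1 * (z .g * z .y) := by simp only [act]; field_simp
      rw [this]; exact mul_ne_zero c1 h
  · refine h3.imp (fun h => ?_) (Or.imp (fun h => ?_) (fun h => ?_))
    · have : act c z .e * act c z .p = c 2 * (z .e * z .p) := by simp only [act]; field_simp
      rw [this]; exact mul_ne_zero c2 h
    · have : act c z .g * act c z .q = c 2 * (z .g * z .q) := by simp only [act]; field_simp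
      rw [this]; exact mul_ne_zero c2 h
    · simp only [act]
      exact mul_ne_zero (mul_ne_zero (mul_ne_zero c1 c2) (inv_ne_zero c0)) h
  · refine h4.imp (fun h => ?_) (Or.imp (fun h => ?_) (fun h => ?_)) <;> simp only [act]
    · exact mul_ne_zero (mul_ne_zero c0 (inv_ne_zero c3)) h
    · exact mul_ne_zero (mul_ne_zero c1 (inv_ne_zero c3)) h
    · exact mul_ne_zero (mul_ne_zero c2 (inv_ne_zero c3)) h
  · refine h5.imp (fun h => ?_) (Or.imp (fun h => ?_) (fun h => ?_)) <;> simp only [act]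
    · exact mul_ne_zero (mul_ne_zero c0 (inv_ne_zero c4)) h
    · exact mul_ne_zero (mul_ne_zero c1 (inv_ne_zero c4)) h
    · exact mul_ne_zero (mul_ne_zero c2 (inv_ne_zero c4)) h
  · have l1 : act c z .s * act c z .t * act c z .w ^ 2 =
        (c 1) ^ 2 * (c 2) ^ 2 * (c 3)⁻¹ * (c 4)⁻¹ * (z .s * z .t * z .w ^ 2) := by
      simp only [act]; field_simp
    have l2 : Bp ν ζ (act c z .e) (act c z .g) (act c z .x) (act c z .y) (act c z .p) (act c z .q) =
        (c 1) ^ 2 * (c 2) ^ 2 * (c 3)⁻¹ * (c 4)⁻¹ *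
          Bp ν ζ (z .e) (z .g) (z .x) (z .y) (z .p) (z .q) := by
      simp only [act, Bp]; field_simp
    rw [l1, l2, h6]

theorem g1_cancel {a b : ℂ} (hb : b ≠ 0) (h : a * b = b) : a = 1 :=
  mul_right_cancel₀ hb (by rw [h, one_mul])

theorem geom_free (hE : (1 + ν) ^ 2 * (1 + ζ) ^ 2 = ν * ζ) (hν0 : ν ≠ 0) (hν1 : ν ≠ 1)
    (hνm : ν ≠ -1) (hζ0 : ζ ≠ 0) (hζ1 : ζ ≠ 1) (hζm : ζ ≠ -1) :
    ∀ z ∈ Xhat ν ζ, ∀ c : Fin 5 → ℂ, (∀ i, c i ≠ 0) → act c z = z → c = 1 := by
  rintro z ⟨h1, h2, h3, h4, h5, -⟩ c hc hz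
  have c0 := hc 0
  have c1 := hc 1
  have c2 := hc 2
  have c3 := hc 3
  have c4 := hc 4
  have zt : z .t ≠ 0 → c 0 = c 3 := fun h => by
    have := g1_cancel h (congrFun hz .t)
    field_simp at this; exact this
  have zs : z .s ≠ 0 → c 0 = c 4 := fun h => by
    have := g1_cancel h (congrFun hz .s)
    field_simp at this; exact this
  have ze : z .e ≠ 0 → c 3 = 1 := fun h => g1_cancel h (congrFun hz .e)
  have zg : z .g ≠ 0 → c 4 = 1 := fun h => g1_cancel h (congrFun hz .g)
  have zx : z .x ≠ 0 → c 1 = c 3 := fun h => by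
    have := g1_cancel h (congrFun hz .x)
    field_simp at this; exact this
  have zy : z .y ≠ 0 → c 1 = c 4 := fun h => by
    have := g1_cancel h (congrFun hz .y)
    field_simp at this; exact this
  have zp : z .p ≠ 0 → c 2 = c 3 := fun h => by
    have := g1_cancel h (congrFun hz .p)
    field_simp at this; exact this
  have zq : z .q ≠ 0 → c 2 = c 4 := fun h => by
    have := g1_cancel h (congrFun hz .q)
    field_simp at this; exact this
  have zw : z .w ≠ 0 → c 1 * c 2 = c 0 := fun h => by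
    have := g1_cancel h (congrFun hz .w)
    field_simp at this; exact this
  have k0 : c 0 = 1 := by
    rcases h1 with h | h
    · rw [zt (right_ne_zero_of_mul h), ze (left_ne_zero_of_mul h)]
    · rw [zs (right_ne_zero_of_mul h), zg (left_ne_zero_of_mul h)]
  have k1 : c 1 = 1 := by
    rcases h2 with h | h
    · rw [zx (right_ne_zero_of_mul h), ze (left_ne_zero_of_mul h)]
    · rw [zy (right_ne_zero_of_mul h), zg (left_ne_zero_of_mul h)]
  have k2 : c 2 = 1 := by
    rcases h3 with h | h | h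
    · rw [zp (right_ne_zero_of_mul h), ze (left_ne_zero_of_mul h)]
    · rw [zq (right_ne_zero_of_mul h), zg (left_ne_zero_of_mul h)]
    · have := zw h
      rw [k0, k1, one_mul] at this
      exact this
  have k3 : c 3 = 1 := by
    rcases h4 with h | h | h
    · rw [← zt h, k0]
    · rw [← zx h, k1]
    · rw [← zp h, k2]
  have k4 : c 4 = 1 := by
    rcases h5 with h | h | h
    · rw [← zs h, k0]
    · rw [← zy h, k1]
    · rw [← zq h, k2]
  funext i
  fin_cases i
  · exact k0
  · exact k1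
  · exact k2
  · exact k3
  · exact k4

theorem geom_pointed : ∀ m : Var → ℕ, wt (fun r => m r) = 0 → m = 0 := by
  intro m h
  have h0 := congrFun h 0
  have h1 := congrFun h 1
  have h2 := congrFun h 2
  have h3 := congrFun h 3
  have h4 := congrFun h 4
  simp only [wt, Matrix.cons_val, Matrix.cons_val_zero, Matrix.cons_val_one, Pi.zero_apply]
    at h0 h1 h2 h3 h4
  funext r
  cases r <;> simp only [Pi.zero_apply] <;> omega

end

end Pool.Agent.DPFib
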