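import Pool.Agent.DPFib.Threefold

/-!
# MP_9669a9_ag, module I2: semistability, curve classes
-/

namespace Pool.Agent.DPFib

noncomputable section

variable {ν ζ : ℂ}

/-- there is a monomial of degree `v` which does not vanish at `z` -/
def G2Good (z : Var → ℂ) (v : Fin 5 → ℤ) : Prop :=
  ∃ m : Var → ℕ, wt (fun r => m r) = v ∧ ∏ r, z r ^ m r ≠ 0

theorem g2_wt_add (m m' : Var → ℕ) :
    wt (fun r => ((m + m') r : ℕ)) = wt (fun r => m r) + wt (fun r => m' r) := by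
  funext i
  fin_cases i <;> simp [wt] <;> ring

theorem g2_add {z : Var → ℂ} {v v' : Fin 5 → ℤ} (h : G2Good z v) (h' : G2Good z v') :
    G2Good z (v + v') := by
  obtain ⟨m, h1, h2⟩ := h
  obtain ⟨m', h1', h2'⟩ := h'
  refine ⟨m + m', ?_, ?_⟩
  · rw [← h1, ← h1']; exact g2_wt_add m m'
  · simp only [Pi.add_apply, pow_add, Finset.prod_mul_distrib]
    exact mul_ne_zero h2 h2'

theorem g2_zero (z : Var → ℂ) : G2Good z 0 := by
  refine ⟨0, ?_, ?_⟩
  · funext i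
    fin_cases i <;> simp [wt]
  · simp

theorem g2_nsmul {z : Var → ℂ} {v : Fin 5 → ℤ} (h : G2Good z v) (n : ℕ) : G2Good z (n • v) := by
  induction n with
  | zero => rw [zero_smul]; exact g2_zero z
  | succ n ih => rw [succ_nsmul]; exact g2_add ih h

theorem g2_single {z : Var → ℂ} {r : Var} (h : z r ≠ 0) :
    G2Good z (wt (fun r' => if r' = r then 1 else 0)) := by
  refine ⟨fun r' => if r' = r then 1 else 0, ?_, ?_⟩
  · congr 1
    funext r'
    split_ifs with h' <;> simp [h']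
  · rw [Finset.prod_eq_single r]
    · simpa using h
    · intro b _ hb; simp [hb]
    · simp

theorem g2_sum {z : Var → ℂ} {v1 v2 v3 v4 v5 v : Fin 5 → ℤ} (h1 : G2Good z v1)
    (h2 : G2Good z v2) (h3 : G2Good z v3) (h4 : G2Good z v4) (h5 : G2Good z v5) (a b c : ℕ)
    (h : a • v1 + b • v2 + c • v3 + v4 + v5 = v) : G2Good z v := by
  rw [← h]
  exact g2_add (g2_add (g2_add (g2_add (g2_nsmul h1 a) (g2_nsmul h2 b)) (g2_nsmul h3 c)) h4) h5

theorem g2_good {z : Var → ℂ} (hz : z ∈ Xhat ν ζ) : G2Good z ![2, 4, 2, -1, -1] := by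
  obtain ⟨h1, h2, h3, h4, h5, -⟩ := hz
  have k1 : G2Good z ![1, 0, 0, 0, 0] := by
    rcases h1 with h | h
    · have := g2_add (g2_single (left_ne_zero_of_mul h)) (g2_single (right_ne_zero_of_mul h))
      convert this using 1
      funext i; fin_cases i <;> simp [wt]
    · have := g2_add (g2_single (left_ne_zero_of_mul h)) (g2_single (right_ne_zero_of_mul h))
      convert this using 1
      funext i; fin_cases i <;> simp [wt]
  have k2 : G2Good z ![0, 1, 0, 0, 0] := by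
    rcases h2 with h | h
    · have := g2_add (g2_single (left_ne_zero_of_mul h)) (g2_single (right_ne_zero_of_mul h))
      convert this using 1
      funext i; fin_cases i <;> simp [wt]
    · have := g2_add (g2_single (left_ne_zero_of_mul h)) (g2_single (right_ne_zero_of_mul h))
      convert this using 1
      funext i; fin_cases i <;> simp [wt]
  have k3 : G2Good z ![0, 0, 1, 0, 0] ∨ G2Good z ![-1, 1, 1, 0, 0] := by
    rcases h3 with h | h | h
    · left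
      have := g2_add (g2_single (left_ne_zero_of_mul h)) (g2_single (right_ne_zero_of_mul h))
      convert this using 1
      funext i; fin_cases i <;> simp [wt]
    · left
      have := g2_add (g2_single (left_ne_zero_of_mul h)) (g2_single (right_ne_zero_of_mul h))
      convert this using 1
      funext i; fin_cases i <;> simp [wt]
    · right
      convert g2_single h using 1
      funext i; fin_cases i <;> simp [wt]
  have k4 : G2Good z ![1, 0, 0, -1, 0] ∨ G2Good z ![0, 1, 0, -1, 0] ∨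
      G2Good z ![0, 0, 1, -1, 0] := by
    rcases h4 with h | h | h
    · left
      convert g2_single h using 1
      funext i; fin_cases i <;> simp [wt]
    · right; left
      convert g2_single h using 1
      funext i; fin_cases i <;> simp [wt]
    · right; right
      convert g2_single h using 1
      funext i; fin_cases i <;> simp [wt]
  have k5 : G2Good z ![1, 0, 0, 0, -1] ∨ G2Good z ![0, 1, 0, 0, -1] ∨
      G2Good z ![0, 0, 1, 0, -1] := by
    rcases h5 with h | h | h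
    · left
      convert g2_single h using 1
      funext i; fin_cases i <;> simp [wt]
    · right; left
      convert g2_single h using 1
      funext i; fin_cases i <;> simp [wt]
    · right; right
      convert g2_single h using 1
      funext i; fin_cases i <;> simp [wt]
  rcases k3 with k3 | k3
  · rcases k4 with k4 | k4 | k4 <;> rcases k5 with k5 | k5 | k5
    · exact g2_sum k1 k2 k3 k4 k5 0 4 2 (by decide)
    · exact g2_sum k1 k2 k3 k4 k5 1 3 2 (by decide)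
    · exact g2_sum k1 k2 k3 k4 k5 1 4 1 (by decide)
    · exact g2_sum k1 k2 k3 k4 k5 1 3 2 (by decide)
    · exact g2_sum k1 k2 k3 k4 k5 2 2 2 (by decide)
    · exact g2_sum k1 k2 k3 k4 k5 2 3 1 (by decide)
    · exact g2_sum k1 k2 k3 k4 k5 1 4 1 (by decide)
    · exact g2_sum k1 k2 k3 k4 k5 2 3 1 (by decide)
    · exact g2_sum k1 k2 k3 k4 k5 2 4 0 (by decide)
  · rcases k4 with k4 | k4 | k4 <;> rcases k5 with k5 | k5 | k5
    · exact g2_sum k1 k2 k3 k4 k5 2 2 2 (by decide)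
    · exact g2_sum k1 k2 k3 k4 k5 3 1 2 (by decide)
    · exact g2_sum k1 k2 k3 k4 k5 2 3 1 (by decide)
    · exact g2_sum k1 k2 k3 k4 k5 3 1 2 (by decide)
    · exact g2_sum k1 k2 k3 k4 k5 4 0 2 (by decide)
    · exact g2_sum k1 k2 k3 k4 k5 3 2 1 (by decide)
    · exact g2_sum k1 k2 k3 k4 k5 2 3 1 (by decide)
    · exact g2_sum k1 k2 k3 k4 k5 3 2 1 (by decide)
    · exact g2_sum k1 k2 k3 k4 k5 2 4 0 (by decide)

theorem geom_semistable : ∀ z : Var → ℂ, MvPolynomial.eval z (Feq ν ζ) = 0 →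
    (z ∈ Xhat ν ζ ↔ ∃ (m : Var → ℕ) (k : ℕ), 0 < k ∧
      wt (fun r => m r) = (k : ℤ) • ![2, 4, 2, -1, -1] ∧ ∏ r, z r ^ m r ≠ 0) := by
  intro z hF
  constructor
  · intro hz
    obtain ⟨m, h1, h2⟩ := g2_good hz
    exact ⟨m, 1, one_pos, by rw [h1]; simp, h2⟩
  · rintro ⟨m, k, hk, hw, hm⟩
    have h0 := congrFun hw 0
    have h1 := congrFun hw 1
    have h2 := congrFun hw 2
    have h3 := congrFun hw 3
    have h4 := congrFun hw 4
    simp only [wt, Matrix.cons_val, Matrix.cons_val_zero, Matrix.cons_val_one, Pi.smul_apply,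
      smul_eq_mul] at h0 h1 h2 h3 h4
    have key : ∀ r, z r = 0 → m r = 0 := by
      intro r hr
      by_contra hmr
      apply hm
      exact Finset.prod_eq_zero (Finset.mem_univ r) (by rw [hr, zero_pow hmr])
    refine ⟨?_, ?_, ?_, ?_, ?_, ?_⟩
    · by_contra hc
      push Not at hc
      have a1 : m .e = 0 ∨ m .t = 0 := (mul_eq_zero.1 hc.1).imp (key _) (key _)
      have a2 : m .g = 0 ∨ m .s = 0 := (mul_eq_zero.1 hc.2).imp (key _) (key _)
      omega
    · by_contra hc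
      push Not at hc
      have a1 : m .e = 0 ∨ m .x = 0 := (mul_eq_zero.1 hc.1).imp (key _) (key _)
      have a2 : m .g = 0 ∨ m .y = 0 := (mul_eq_zero.1 hc.2).imp (key _) (key _)
      omega
    · by_contra hc
      push Not at hc
      have a1 : m .e = 0 ∨ m .p = 0 := (mul_eq_zero.1 hc.1).imp (key _) (key _)
      have a2 : m .g = 0 ∨ m .q = 0 := (mul_eq_zero.1 hc.2.1).imp (key _) (key _)
      have a3 : m .w = 0 := key _ hc.2.2
      omega
    · by_contra hc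
      push Not at hc
      have a1 := key _ hc.1
      have a2 := key _ hc.2.1
      have a3 := key _ hc.2.2
      omega
    · by_contra hc
      push Not at hc
      have a1 := key _ hc.1
      have a2 := key _ hc.2.1
      have a3 := key _ hc.2.2
      omega
    · have : MvPolynomial.eval z (Feq ν ζ) = z .s * z .t * z .w ^ 2 -
          Bp ν ζ (z .e) (z .g) (z .x) (z .y) (z .p) (z .q) := by
        simp [Feq, Bp]
      rw [this] at hF
      linear_combination hF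

/-- the curve with (at most) linear coordinates -/
def g2_cc (α : Var → ℤ) (c0 c1 : Var → ℂ) : CIx α → ℂ := fun i =>
  if (i.2 : ℕ) = 0 then c0 i.1 else c1 i.1

theorem g2_pt (α : Var → ℤ) (c0 c1 : Var → ℂ) (θ σ : ℂ) (r : Var) :
    pt (g2_cc α c0 c1) θ σ r = ∑ i ∈ Finset.range (α r + 1).toNat,
      (if i = 0 then c0 r else c1 r) * θ ^ i * σ ^ ((α r).toNat - i) := by
  unfold pt
  rw [← Fin.sum_univ_eq_sum_range
    (fun i => (if i = 0 then c0 r else c1 r) * θ ^ i * σ ^ ((α r).toNat - i))]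
  rfl

theorem g2_pt0 {α : Var → ℤ} {c0 c1 : Var → ℂ} {θ σ : ℂ} {r : Var} (h : α r = 0) :
    pt (g2_cc α c0 c1) θ σ r = c0 r := by
  rw [g2_pt, h]; simp

theorem g2_pt1 {α : Var → ℤ} {c0 c1 : Var → ℂ} {θ σ : ℂ} {r : Var} (h : α r = 1) :
    pt (g2_cc α c0 c1) θ σ r = c0 r * σ + c1 r * θ := by
  rw [g2_pt, h]
  have : ((1 : ℤ) + 1).toNat = 2 := rfl
  rw [this, Finset.sum_range_succ, Finset.sum_range_succ]
  simp

theorem g2_ptm {α : Var → ℤ} {c0 c1 : Var → ℂ} {θ σ : ℂ} {r : Var} (h : α r = -1) :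
    pt (g2_cc α c0 c1) θ σ r = 0 := by
  rw [g2_pt, h]; simp

/-- five classes of curves -/
def g2_a1 : Var → ℤ
  | .p => 1 | .q => 1 | .w => 1 | _ => 0
def g2_a2 : Var → ℤ
  | .x => 1 | .y => 1 | .w => 1 | _ => 0
def g2_a3 : Var → ℤ
  | .e => -1 | .t => 1 | .x => 1 | .p => 1 | _ => 0
def g2_a4 : Var → ℤ
  | .g => -1 | .s => 1 | .y => 1 | .q => 1 | _ => 0
def g2_a5 : Var → ℤ
  | .e => 1 | .s => 1 | .x => -1 | .q => 1 | _ => 0

theorem g2_c1 : IsCurveClass ν ζ g2_a1 := by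
  refine ⟨by refine ⟨?_, ?_, ?_, ?_⟩ <;> simp [g2_a1], g2_cc g2_a1
    (fun | .e => 1 | .g => 1 | .s => 1 | .x => 1 | .w => 1 | _ => 0)
    (fun | .p => 1 | _ => 0), ?_⟩
  intro θ σ h
  unfold Xhat
  simp only [Set.mem_ofPred_eq]
  rw [g2_pt0 (r := .e) rfl, g2_pt0 (r := .g) rfl, g2_pt0 (r := .t) rfl, g2_pt0 (r := .s) rfl,
    g2_pt0 (r := .x) rfl, g2_pt0 (r := .y) rfl, g2_pt1 (r := .p) rfl, g2_pt1 (r := .q) rfl,
    g2_pt1 (r := .w) rfl]
  simp [Bp]
  tauto

theorem g2_c2 : IsCurveClass ν ζ g2_a2 := by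
  refine ⟨by refine ⟨?_, ?_, ?_, ?_⟩ <;> simp [g2_a2], g2_cc g2_a2
    (fun | .e => 1 | .g => 1 | .s => 1 | .t => 1 | .p => 1 | .y => 1 | .w => 1 + ν | _ => 0)
    (fun | .x => 1 | _ => 0), ?_⟩
  intro θ σ h
  unfold Xhat
  simp only [Set.mem_ofPred_eq]
  rw [g2_pt0 (r := .e) rfl, g2_pt0 (r := .g) rfl, g2_pt0 (r := .t) rfl, g2_pt0 (r := .s) rfl,
    g2_pt1 (r := .x) rfl, g2_pt1 (r := .y) rfl, g2_pt0 (r := .p) rfl, g2_pt0 (r := .q) rfl,
    g2_pt1 (r := .w) rfl]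
  refine ⟨by simp, ?_, by simp, by simp, by simp, ?_⟩
  · simpa using h
  · simp only [Bp]; ring

theorem g2_c3 : IsCurveClass ν ζ g2_a3 := by
  refine ⟨by refine ⟨?_, ?_, ?_, ?_⟩ <;> simp [g2_a3], g2_cc g2_a3
    (fun | .g => 1 | .s => 1 | .y => 1 | .w => 1 | .p => 1 | _ => 0)
    (fun | .x => 1 | _ => 0), ?_⟩
  intro θ σ h
  unfold Xhat
  simp only [Set.mem_ofPred_eq]
  rw [g2_ptm (r := .e) rfl, g2_pt0 (r := .g) rfl, g2_pt1 (r := .t) rfl, g2_pt0 (r := .s) rfl,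
    g2_pt1 (r := .x) rfl, g2_pt0 (r := .y) rfl, g2_pt1 (r := .p) rfl, g2_pt0 (r := .q) rfl,
    g2_pt0 (r := .w) rfl]
  simp [Bp]
  exact h

theorem g2_c4 : IsCurveClass ν ζ g2_a4 := by
  refine ⟨by refine ⟨?_, ?_, ?_, ?_⟩ <;> simp [g2_a4], g2_cc g2_a4
    (fun | .e => 1 | .t => 1 | .x => 1 | .w => 1 | .q => 1 | _ => 0)
    (fun | .y => 1 | _ => 0), ?_⟩
  intro θ σ h
  unfold Xhat
  simp only [Set.mem_ofPred_eq]
  rw [g2_pt0 (r := .e) rfl, g2_ptm (r := .g) rfl, g2_pt0 (r := .t) rfl, g2_pt1 (r := .s) rfl,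
    g2_pt0 (r := .x) rfl, g2_pt1 (r := .y) rfl, g2_pt0 (r := .p) rfl, g2_pt1 (r := .q) rfl,
    g2_pt0 (r := .w) rfl]
  simp [Bp]
  exact h

theorem g2_c5 (hE : (1 + ν) ^ 2 * (1 + ζ) ^ 2 = ν * ζ) (hνm : ν ≠ -1) (hζ1 : ζ ≠ 1)
    (hζm : ζ ≠ -1) : IsCurveClass ν ζ g2_a5 := by
  have hνm' : 1 + ν ≠ 0 := fun h => hνm (by linear_combination h)
  have hζ2 : (ζ - 1) * (ζ + 1) ≠ 0 :=
    mul_ne_zero (sub_ne_zero.2 hζ1) (fun h => hζm (by linear_combination h))
  refine ⟨by refine ⟨?_, ?_, ?_, ?_⟩ <;> simp [g2_a5], g2_cc g2_a5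
    (fun | .s => 1 | .t => 1 | .g => 1 | .y => 1 | .p => 1 | .w => 1
         | .q => ((1 + ν) ^ 2)⁻¹ * ((ζ - 1) * (ζ + 1))⁻¹ | _ => 0)
    (fun | .e => 1 | .q => -((ζ - 1) * (ζ + 1))⁻¹ | _ => 0), ?_⟩
  intro θ σ h
  unfold Xhat
  simp only [Set.mem_ofPred_eq]
  rw [g2_pt1 (r := .e) rfl, g2_pt0 (r := .g) rfl, g2_pt0 (r := .t) rfl, g2_pt1 (r := .s) rfl,
    g2_ptm (r := .x) rfl, g2_pt0 (r := .y) rfl, g2_pt0 (r := .p) rfl, g2_pt1 (r := .q) rfl,
    g2_pt0 (r := .w) rfl]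
  refine ⟨by simpa using h, by simp, by simp, by simp, by simp, ?_⟩
  simp only [Bp]
  set Q : ℂ := ((1 + ν) ^ 2)⁻¹ * ((ζ - 1) * (ζ + 1))⁻¹ * σ + -((ζ - 1) * (ζ + 1))⁻¹ * θ with hQ
  have e1 : (1 + ν) ^ 2 * ((ζ - 1) * (ζ + 1)) * Q = σ - (1 + ν) ^ 2 * θ := by
    have hz1 : ζ - 1 ≠ 0 := left_ne_zero_of_mul hζ2
    have hz2 : ζ + 1 ≠ 0 := right_ne_zero_of_mul hζ2
    rw [hQ]; field_simp
    ring
  linear_combination -e1 + Q * hE

theorem geom_curves (hE : (1 + ν) ^ 2 * (1 + ζ) ^ 2 = ν * ζ) (hν0 : ν ≠ 0) (hν1 : ν ≠ 1)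
    (hνm : ν ≠ -1) (hζ0 : ζ ≠ 0) (hζ1 : ζ ≠ 1) (hζm : ζ ≠ -1) :
    ∀ α : Var → ℤ, IsClass α → α ∈ AddSubgroup.closure {β | IsCurveClass ν ζ β} := by
  rintro α ⟨h1, h2, h3, h4⟩
  have e : α = (α .p - α .t) • g2_a1 + (α .x + α .e) • g2_a2 + (α .t) • g2_a3 +
      (- α .g) • g2_a4 + (α .e + α .t) • g2_a5 := by
    funext r
    cases r <;> simp [g2_a1, g2_a2, g2_a3, g2_a4, g2_a5] <;> omega
  rw [e]
  refine add_mem (add_mem (add_mem (add_mem ?_ ?_) ?_) ?_) ?_
  · exact AddSubgroup.zsmul_mem _ (AddSubgroup.subset_closure (show g2_a1 ∈ {β | IsCurveClass ν ζ β} from g2_c1)) _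
  · exact AddSubgroup.zsmul_mem _ (AddSubgroup.subset_closure (show g2_a2 ∈ {β | IsCurveClass ν ζ β} from g2_c2)) _
  · exact AddSubgroup.zsmul_mem _ (AddSubgroup.subset_closure (show g2_a3 ∈ {β | IsCurveClass ν ζ β} from g2_c3)) _
  · exact AddSubgroup.zsmul_mem _ (AddSubgroup.subset_closure (show g2_a4 ∈ {β | IsCurveClass ν ζ β} from g2_c4)) _
  · exact AddSubgroup.zsmul_mem _ (AddSubgroup.subset_closure (show g2_a5 ∈ {β | IsCurveClass ν ζ β} from
      g2_c5 hE hνm hζ1 hζm)) _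

end

end Pool.Agent.DPFib
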