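import Pool.Agent.DPFib.Threefold

/-!
# MP_9669a9_ag, module I3: the general fibre is a smooth del Pezzo surface of degree four
-/

namespace Pool.Agent.DPFib

noncomputable section

variable {ν ζ : ℂ}

theorem quartic_ne {τ : ℂ} (hτ : τ ≠ 0) {y : Fin 5 → ℂ} (hy : y ∈ Quartic τ) :
    ¬ (y 0 = 0 ∧ y 1 = 0 ∧ y 2 = 0 ∧ y 3 = 0) := by
  rintro ⟨h0, h1, h2, h3⟩
  obtain ⟨hne, _, he⟩ := hy
  apply hne
  have h4 : y 4 = 0 := by
    rw [h0, h1, h2, h3] at he
    have : τ * y 4 ^ 2 = 0 := by rw [he]; ring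
    exact pow_eq_zero_iff (two_ne_zero) |>.mp ((mul_eq_zero.mp this).resolve_left hτ)
  funext i
  fin_cases i
  · exact h0
  · exact h1
  · exact h2
  · exact h3
  · exact h4

theorem geom_quartic_smooth : ∀ τ : ℂ, τ ≠ 0 → ∀ y ∈ Quartic τ, LinearIndependent ℂ
    ![![y 3, - y 2, - y 1, y 0, 0],
      ![2 * (y 0 + y 1 + y 2 + y 3) - y 3, 2 * (y 0 + y 1 + y 2 + y 3),
        2 * (y 0 + y 1 + y 2 + y 3), 2 * (y 0 + y 1 + y 2 + y 3) - y 0, - 2 * τ * y 4]] := by
  intro τ hτ y hy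
  have hne := quartic_ne hτ hy
  obtain ⟨_, hq, he⟩ := hy
  rw [LinearIndependent.pair_iff]
  intro s t hst
  have g0 := congrFun hst 0
  have g1 := congrFun hst 1
  have g2 := congrFun hst 2
  have g3 := congrFun hst 3
  have g4 := congrFun hst 4
  simp only [Pi.add_apply, Pi.smul_apply, smul_eq_mul, Pi.zero_apply, Matrix.cons_val_zero,
    Matrix.cons_val_one, Matrix.cons_val] at g0 g1 g2 g3 g4
  have ht : t = 0 := by
    by_contra ht
    -- `y 4 = 0`
    have h4 : y 4 = 0 := by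
      have : (2 * t * τ) * y 4 = 0 := by linear_combination -g4
      exact (mul_eq_zero.mp this).resolve_left
        (mul_ne_zero (mul_ne_zero two_ne_zero ht) hτ)
    rw [h4] at he
    obtain ⟨l, hl⟩ : ∃ l, s = -(l * t) := ⟨-(s / t), by field_simp⟩
    subst hl
    set σ := y 0 + y 1 + y 2 + y 3 with hσ
    have k0 : 2 * σ = (1 + l) * y 3 := by
      apply mul_left_cancel₀ ht
      linear_combination g0
    have k1 : 2 * σ = - (l * y 2) := by
      apply mul_left_cancel₀ ht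
      linear_combination g1
    have k2 : 2 * σ = - (l * y 1) := by
      apply mul_left_cancel₀ ht
      linear_combination g2
    have k3 : 2 * σ = (1 + l) * y 0 := by
      apply mul_left_cancel₀ ht
      linear_combination g3
    have kS : y 0 + y 3 = -(l * σ) := by
      linear_combination (-1 : ℂ) * k0 - k3 + k1 + k2 + l * hσ
    have kσ : σ * (l ^ 2 + l + 4) = 0 := by
      linear_combination k0 + k3 + (1 + l) * kS
    have hσ0 : σ ≠ 0 := by
      intro h0
      rw [h0] at k0 k1 k2 k3 he kS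
      have hS : y 0 + y 3 = 0 := by rw [kS]; ring
      have hP : y 0 * y 3 = 0 := by linear_combination he
      have h0' : y 0 = 0 := by
        have : y 0 * y 0 = 0 := by linear_combination y 0 * hS - hP
        exact mul_self_eq_zero.mp this
      have h3' : y 3 = 0 := by
        have : y 3 * y 3 = 0 := by linear_combination y 3 * hS - hP
        exact mul_self_eq_zero.mp this
      have hP' : y 1 * y 2 = 0 := by rw [← hq, hP]
      have hS' : y 1 + y 2 = 0 := by linear_combination -hσ + h0 - h0' - h3'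
      have h1' : y 1 = 0 := by
        have : y 1 * y 1 = 0 := by linear_combination y 1 * hS' - hP'
        exact mul_self_eq_zero.mp this
      have h2' : y 2 = 0 := by
        have : y 2 * y 2 = 0 := by linear_combination y 2 * hS' - hP'
        exact mul_self_eq_zero.mp this
      exact hne ⟨h0', h1', h2', h3'⟩
    have hl : l ^ 2 + l + 4 = 0 := (mul_eq_zero.mp kσ).resolve_left hσ0
    -- `4 σ^2 = (1+l)^2 y0 y3 = l^2 y1 y2`
    have e1 : (2 * σ) * (2 * σ) = (1 + l) ^ 2 * (y 0 * y 3) := by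
      calc (2 * σ) * (2 * σ) = ((1 + l) * y 3) * ((1 + l) * y 0) := by rw [← k0, ← k3]
        _ = _ := by ring
    have e2 : (2 * σ) * (2 * σ) = l ^ 2 * (y 0 * y 3) := by
      calc (2 * σ) * (2 * σ) = (-(l * y 1)) * (-(l * y 2)) := by rw [← k1, ← k2]
        _ = l ^ 2 * (y 1 * y 2) := by ring
        _ = _ := by rw [← hq]
    have hP : y 0 * y 3 ≠ 0 := by
      intro h
      rw [h, mul_zero] at e1
      have : 2 * σ = 0 := mul_self_eq_zero.mp e1
      exact hσ0 ((mul_eq_zero.mp this).resolve_left two_ne_zero)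
    have e3 : 1 + 2 * l = 0 := by
      have : (1 + 2 * l) * (y 0 * y 3) = 0 := by linear_combination e2 - e1
      exact (mul_eq_zero.mp this).resolve_right hP
    have e4 : l = -1 / 2 := by linear_combination (1 / 2 : ℂ) * e3
    rw [e4] at hl
    norm_num at hl
  subst ht
  refine ⟨?_, rfl⟩
  by_contra hs
  apply hne
  simp only [zero_mul, add_zero] at g0 g1 g2 g3
  refine ⟨(mul_eq_zero.mp g3).resolve_left hs, ?_, ?_, (mul_eq_zero.mp g0).resolve_left hs⟩
  · exact neg_eq_zero.mp ((mul_eq_zero.mp g2).resolve_left hs)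
  · exact neg_eq_zero.mp ((mul_eq_zero.mp g1).resolve_left hs)

/-- `(U0, U1)` does not vanish on `Xhat`. -/
theorem U_ne (hνm : ν ≠ -1) {z : Var → ℂ} (hz : z ∈ Xhat ν ζ) :
    ¬ (ν * z .g * z .y + z .e * z .x = 0 ∧ z .g * z .y - z .e * z .x = 0) := by
  rintro ⟨h1, h2⟩
  have hν : 1 + ν ≠ 0 := fun h => hνm (by linear_combination h)
  have h3 : z .g * z .y = 0 := by
    have : (1 + ν) * (z .g * z .y) = 0 := by linear_combination h1 + h2
    exact (mul_eq_zero.mp this).resolve_left hν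
  have h4 : z .e * z .x = 0 := by linear_combination h3 - h2
  rcases hz.2.1 with h | h
  · exact h h4
  · exact h h3

theorem geom_fibre_map (hE : (1 + ν) ^ 2 * (1 + ζ) ^ 2 = ν * ζ) (hνm : ν ≠ -1) (hζ0 : ζ ≠ 0) :
    ∀ τ : ℂ, τ ≠ 0 → ∀ z ∈ Xhat ν ζ, z .e * z .t = τ * (z .g * z .s) →
    toQuartic ν ζ z ∈ Quartic τ := by
  intro τ hτ z hz hfib
  have hspec := Bp_spec ν ζ (z .e) (z .g) (z .x) (z .y) (z .p) (z .q)
  obtain ⟨c1, c2, c3, c4, c5, heq⟩ := id hz
  rw [hE, sub_self, mul_zero, sub_zero, ← heq] at hspec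
  refine ⟨fun hzero => ?_, ?_, ?_⟩
  · have g0 := congrFun hzero 0
    have g1 := congrFun hzero 1
    have g2 := congrFun hzero 2
    have g3 := congrFun hzero 3
    have g4 := congrFun hzero 4
    simp only [toQuartic, Pi.zero_apply, Matrix.cons_val_zero, Matrix.cons_val_one,
      Matrix.cons_val] at g0 g1 g2 g3 g4
    have hU := U_ne hνm hz
    have hV : ζ * z .g * z .q = 0 ∧ z .g * z .q - z .e * z .p = 0 := by
      by_cases hu : ν * z .g * z .y + z .e * z .x = 0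
      · have hu' : z .g * z .y - z .e * z .x ≠ 0 := fun h => hU ⟨hu, h⟩
        exact ⟨(mul_eq_zero.mp g2).resolve_left hu', (mul_eq_zero.mp g3).resolve_left hu'⟩
      · exact ⟨(mul_eq_zero.mp g0).resolve_left hu, (mul_eq_zero.mp g1).resolve_left hu⟩
    have h5 : z .g * z .q = 0 := by
      have : ζ * (z .g * z .q) = 0 := by linear_combination hV.1
      exact (mul_eq_zero.mp this).resolve_left hζ0
    have h6 : z .e * z .p = 0 := by linear_combination h5 - hV.2
    have h7 : z .w ≠ 0 := by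
      rcases c3 with h | h | h
      · exact absurd h6 h
      · exact absurd h5 h
      · exact h
    have h8 : z .g * z .s = 0 := (mul_eq_zero.mp g4).resolve_right h7
    rcases c1 with h | h
    · apply h
      rw [hfib, h8, mul_zero]
    · exact h h8
  · simp only [toQuartic, Matrix.cons_val_zero, Matrix.cons_val_one, Matrix.cons_val]
    ring
  · simp only [toQuartic, Matrix.cons_val_zero, Matrix.cons_val_one, Matrix.cons_val]
    unfold Bf at hspec
    linear_combination hspec - z .g * z .s * z .w ^ 2 * hfib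

theorem exists_rank_one {y0 y1 y2 y3 : ℂ} (hq : y0 * y3 = y1 * y2)
    (hne : ¬ (y0 = 0 ∧ y1 = 0 ∧ y2 = 0 ∧ y3 = 0)) :
    ∃ u0 u1 v0 v1 : ℂ, (u0 ≠ 0 ∨ u1 ≠ 0) ∧ (v0 ≠ 0 ∨ v1 ≠ 0) ∧ u0 * v0 = y0 ∧ u0 * v1 = y1 ∧
      u1 * v0 = y2 ∧ u1 * v1 = y3 := by
  by_cases h0 : y0 = 0
  · by_cases h1 : y1 = 0
    · by_cases h2 : y2 = 0
      · have h3 : y3 ≠ 0 := fun h3 => hne ⟨h0, h1, h2, h3⟩
        exact ⟨y1 / y3, 1, y2, y3, Or.inr one_ne_zero, Or.inr h3, by
          field_simp; rw [h0, h1]; ring, by field_simp, by ring, by ring⟩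
      · exact ⟨y0 / y2, 1, y2, y3, Or.inr one_ne_zero, Or.inl h2, by field_simp, by
          field_simp; linear_combination hq, by ring, by ring⟩
    · exact ⟨1, y3 / y1, y0, y1, Or.inl one_ne_zero, Or.inr h1, by ring, by ring, by
        field_simp; linear_combination hq, by field_simp⟩
  · exact ⟨1, y2 / y0, y0, y1, Or.inl one_ne_zero, Or.inl h0, by ring, by ring, by field_simp, by
      field_simp; linear_combination -hq⟩

theorem geom_fibre_surj (hE : (1 + ν) ^ 2 * (1 + ζ) ^ 2 = ν * ζ) (hνm : ν ≠ -1) (hζ0 : ζ ≠ 0) :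
    ∀ τ : ℂ, τ ≠ 0 → ∀ y ∈ Quartic τ, ∃ z ∈ Xhat ν ζ,
    z .e * z .t = τ * (z .g * z .s) ∧ toQuartic ν ζ z = y := by
  intro τ hτ y hy
  obtain ⟨u0, u1, v0, v1, hu, hv, e0, e1, e2, e3⟩ := exists_rank_one hy.2.1 (quartic_ne hτ hy)
  have hν : 1 + ν ≠ 0 := fun h => hνm (by linear_combination h)
  obtain ⟨Y, hY⟩ : ∃ Y, (1 + ν) * Y = u0 + u1 := ⟨(u0 + u1) / (1 + ν), by field_simp⟩
  obtain ⟨Q, hQ⟩ : ∃ Q, ζ * Q = v0 := ⟨v0 / ζ, by field_simp⟩
  let z : Var → ℂ := fun r => match r with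
    | .t => τ
    | .s => 1
    | .e => 1
    | .g => 1
    | .x => Y - u1
    | .y => Y
    | .p => Q - v1
    | .q => Q
    | .w => y 4
  have hU0 : ν * z .g * z .y + z .e * z .x = u0 := by
    change ν * 1 * Y + 1 * (Y - u1) = u0
    linear_combination hY
  have hU1 : z .g * z .y - z .e * z .x = u1 := by
    change 1 * Y - 1 * (Y - u1) = u1
    ring
  have hV0 : ζ * z .g * z .q = v0 := by
    change ζ * 1 * Q = v0
    linear_combination hQ
  have hV1 : z .g * z .q - z .e * z .p = v1 := by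
    change 1 * Q - 1 * (Q - v1) = v1
    ring
  refine ⟨z, ⟨?_, ?_, ?_, ?_, ?_, ?_⟩, ?_, ?_⟩
  · left
    change (1 : ℂ) * τ ≠ 0
    rwa [one_mul]
  · by_contra hcon
    push Not at hcon
    obtain ⟨h1, h2⟩ := hcon
    rcases hu with h | h
    · apply h
      rw [← hU0]
      linear_combination ν * h2 + h1
    · apply h
      rw [← hU1]
      linear_combination h2 - h1
  · by_contra hcon
    push Not at hcon
    obtain ⟨h1, h2, _⟩ := hcon
    rcases hv with h | h
    · apply h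
      rw [← hV0]
      linear_combination ζ * h2
    · apply h
      rw [← hV1]
      linear_combination h2 - h1
  · left
    exact hτ
  · left
    exact one_ne_zero
  · have hspec := Bp_spec ν ζ (z .e) (z .g) (z .x) (z .y) (z .p) (z .q)
    rw [hE, sub_self, mul_zero, sub_zero, hU0, hU1, hV0, hV1] at hspec
    have h1 : z .e * z .g = 1 := by
      change (1 : ℂ) * 1 = 1
      ring
    rw [h1, one_mul] at hspec
    rw [hspec]
    change 1 * τ * y 4 ^ 2 = Bf u0 u1 v0 v1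
    have h2 := hy.2.2
    rw [← e0, ← e1, ← e2, ← e3] at h2
    unfold Bf
    linear_combination h2
  · change (1 : ℂ) * τ = τ * (1 * 1)
    ring
  · unfold toQuartic
    rw [hU0, hU1, hV0, hV1, e0, e1, e2, e3]
    have h5 : z .g * z .s * z .w = y 4 := by
      change (1 : ℂ) * 1 * y 4 = y 4
      ring
    rw [h5]
    funext i
    fin_cases i <;> rfl

theorem geom_fibre_inj (hE : (1 + ν) ^ 2 * (1 + ζ) ^ 2 = ν * ζ) (hνm : ν ≠ -1) (hζ0 : ζ ≠ 0) :
    ∀ τ : ℂ, τ ≠ 0 → ∀ z ∈ Xhat ν ζ, ∀ z' ∈ Xhat ν ζ,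
    z .e * z .t = τ * (z .g * z .s) → z' .e * z' .t = τ * (z' .g * z' .s) →
    (∃ c : ℂ, c ≠ 0 ∧ toQuartic ν ζ z' = c • toQuartic ν ζ z) →
    ∃ c : Fin 5 → ℂ, (∀ i, c i ≠ 0) ∧ z' = act c z := by
  intro τ hτ z hz z' hz' hf hf' hc
  obtain ⟨c, hc0, hcz⟩ := hc
  have hν : 1 + ν ≠ 0 := fun h => hνm (by linear_combination h)
  -- the four coordinates do not vanish
  have hnz : ∀ z ∈ Xhat ν ζ, z .e * z .t = τ * (z .g * z .s) →
      z .e ≠ 0 ∧ z .t ≠ 0 ∧ z .g ≠ 0 ∧ z .s ≠ 0 := by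
    intro z hz hf
    have h1 : z .g * z .s ≠ 0 := by
      rcases hz.1 with h | h
      · intro h0
        apply h
        rw [hf, h0, mul_zero]
      · exact h
    have h2 : z .e * z .t ≠ 0 := by
      rw [hf]
      exact mul_ne_zero hτ h1
    exact ⟨left_ne_zero_of_mul h2, right_ne_zero_of_mul h2, left_ne_zero_of_mul h1,
      right_ne_zero_of_mul h1⟩
  obtain ⟨ne, nt, ng, ns⟩ := hnz z hz hf
  obtain ⟨ne', nt', ng', ns'⟩ := hnz z' hz' hf'
  have g0 := congrFun hcz 0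
  have g1 := congrFun hcz 1
  have g2 := congrFun hcz 2
  have g3 := congrFun hcz 3
  have g4 := congrFun hcz 4
  simp only [toQuartic, Pi.smul_apply, smul_eq_mul, Matrix.cons_val_zero, Matrix.cons_val_one,
    Matrix.cons_val] at g0 g1 g2 g3 g4
  have hU := U_ne hνm hz
  have hQ := quartic_ne hτ (geom_fibre_map hE hνm hζ0 τ hτ z hz hf)
  simp only [toQuartic, Matrix.cons_val_zero, Matrix.cons_val_one, Matrix.cons_val] at hQ
  obtain ⟨U0, hU0⟩ : ∃ U0, U0 = ν * z .g * z .y + z .e * z .x := ⟨_, rfl⟩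
  obtain ⟨U1, hU1⟩ : ∃ U1, U1 = z .g * z .y - z .e * z .x := ⟨_, rfl⟩
  obtain ⟨V0, hV0⟩ : ∃ V0, V0 = ζ * z .g * z .q := ⟨_, rfl⟩
  obtain ⟨V1, hV1⟩ : ∃ V1, V1 = z .g * z .q - z .e * z .p := ⟨_, rfl⟩
  obtain ⟨U0', hU0'⟩ : ∃ U0', U0' = ν * z' .g * z' .y + z' .e * z' .x := ⟨_, rfl⟩
  obtain ⟨U1', hU1'⟩ : ∃ U1', U1' = z' .g * z' .y - z' .e * z' .x := ⟨_, rfl⟩
  obtain ⟨V0', hV0'⟩ : ∃ V0', V0' = ζ * z' .g * z' .q := ⟨_, rfl⟩
  obtain ⟨V1', hV1'⟩ : ∃ V1', V1' = z' .g * z' .q - z' .e * z' .p := ⟨_, rfl⟩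
  rw [← hU0, ← hV0, ← hU0', ← hV0'] at g0
  rw [← hU0, ← hV1, ← hU0', ← hV1'] at g1
  rw [← hU1, ← hV0, ← hU1', ← hV0'] at g2
  rw [← hU1, ← hV1, ← hU1', ← hV1'] at g3
  rw [← hU0, ← hU1] at hU
  rw [← hU0, ← hU1, ← hV0, ← hV1] at hQ
  have hV : ¬ (V0 = 0 ∧ V1 = 0) := by
    rintro ⟨h1, h2⟩
    apply hQ
    rw [h1, h2]
    simp
  obtain ⟨c1, c2, hc1, hc2, k0, k1, l0, l1, hcc⟩ : ∃ c1 c2 : ℂ, c1 ≠ 0 ∧ c2 ≠ 0 ∧
      U0' = c1 * U0 ∧ U1' = c1 * U1 ∧ V0' = c2 * V0 ∧ V1' = c2 * V1 ∧ c1 * c2 = c := by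
    have main : ∀ {a b d e a' b' d' e' : ℂ}, a ≠ 0 → d ≠ 0 → a' * d' = c * (a * d) →
        a' * e' = c * (a * e) → b' * d' = c * (b * d) →
        ∃ c1 c2 : ℂ, c1 ≠ 0 ∧ c2 ≠ 0 ∧ a' = c1 * a ∧ b' = c1 * b ∧ d' = c2 * d ∧ e' = c2 * e ∧
          c1 * c2 = c := by
      intro a b d e a' b' d' e' ha hd h1 h2 h3
      have hp : a' * d' ≠ 0 := by
        rw [h1]
        exact mul_ne_zero hc0 (mul_ne_zero ha hd)
      have ha' := left_ne_zero_of_mul hp
      have hd' := right_ne_zero_of_mul hp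
      refine ⟨a' / a, d' / d, div_ne_zero ha' ha, div_ne_zero hd' hd, by field_simp, ?_,
        by field_simp, ?_, ?_⟩
      · field_simp
        apply mul_right_cancel₀ (mul_ne_zero hd hd')
        linear_combination a * d * h3 - b * d * h1
      · field_simp
        apply mul_right_cancel₀ (mul_ne_zero ha ha')
        linear_combination a * d * h2 - a * e * h1
      · field_simp
        linear_combination h1
    by_cases hu0 : U0 = 0
    · have hu1 : U1 ≠ 0 := fun h => hU ⟨hu0, h⟩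
      by_cases hv0 : V0 = 0
      · have hv1 : V1 ≠ 0 := fun h => hV ⟨hv0, h⟩
        obtain ⟨c1, c2, a1, a2, a3, a4, a5, a6, a7⟩ := main hu1 hv1 g3 g2 g1
        exact ⟨c1, c2, a1, a2, a4, a3, a6, a5, a7⟩
      · obtain ⟨c1, c2, a1, a2, a3, a4, a5, a6, a7⟩ := main hu1 hv0 g2 g3 g0
        exact ⟨c1, c2, a1, a2, a4, a3, a5, a6, a7⟩
    · by_cases hv0 : V0 = 0
      · have hv1 : V1 ≠ 0 := fun h => hV ⟨hv0, h⟩
        obtain ⟨c1, c2, a1, a2, a3, a4, a5, a6, a7⟩ := main hu0 hv1 g1 g0 g3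
        exact ⟨c1, c2, a1, a2, a3, a4, a6, a5, a7⟩
      · obtain ⟨c1, c2, a1, a2, a3, a4, a5, a6, a7⟩ := main hu0 hv0 g0 g1 g2
        exact ⟨c1, c2, a1, a2, a3, a4, a5, a6, a7⟩
  -- the products
  have my : z' .g * z' .y = c1 * (z .g * z .y) := by
    apply mul_left_cancel₀ hν
    linear_combination -hU0' - hU1' + k0 + k1 + c1 * hU0 + c1 * hU1
  have mx : z' .e * z' .x = c1 * (z .e * z .x) := by
    linear_combination my + hU1' - k1 - c1 * hU1
  have mq : z' .g * z' .q = c2 * (z .g * z .q) := by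
    apply mul_left_cancel₀ hζ0
    linear_combination -hV0' + l0 + c2 * hV0
  have mp : z' .e * z' .p = c2 * (z .e * z .p) := by
    linear_combination mq + hV1' - l1 - c2 * hV1
  refine ⟨![z' .g * z' .s / (z .g * z .s), c1, c2, z' .e / z .e, z' .g / z .g], ?_, ?_⟩
  · intro i
    fin_cases i
    · exact div_ne_zero (mul_ne_zero ng' ns') (mul_ne_zero ng ns)
    · exact hc1
    · exact hc2
    · exact div_ne_zero ne' ne
    · exact div_ne_zero ng' ng
  · funext r
    cases r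
    · change z' .t = z' .g * z' .s / (z .g * z .s) * (z' .e / z .e)⁻¹ * z .t
      field_simp
      linear_combination (z .g * z .s) * hf' - (z' .g * z' .s) * hf
    · change z' .s = z' .g * z' .s / (z .g * z .s) * (z' .g / z .g)⁻¹ * z .s
      field_simp
    · change z' .e = z' .e / z .e * z .e
      field_simp
    · change z' .g = z' .g / z .g * z .g
      field_simp
    · change z' .x = c1 * (z' .e / z .e)⁻¹ * z .x
      field_simp
      linear_combination mx
    · change z' .y = c1 * (z' .g / z .g)⁻¹ * z .y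
      field_simp
      linear_combination my
    · change z' .p = c2 * (z' .e / z .e)⁻¹ * z .p
      field_simp
      linear_combination mp
    · change z' .q = c2 * (z' .g / z .g)⁻¹ * z .q
      field_simp
      linear_combination mq
    · change z' .w = c1 * c2 * (z' .g * z' .s / (z .g * z .s))⁻¹ * z .w
      rw [hcc]
      field_simp
      linear_combination g4

end

end Pool.Agent.DPFib
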