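import Pool.Agent.DPFib.Threefold

/-!
# MP_9669a9_ag, module I4: every coordinate divisor meets `Xhat`
-/

namespace Pool.Agent.DPFib

noncomputable section

/-- point with given Cox coordinates -/
def mkPt (t s e g x y p q w : ℂ) : Var → ℂ
  | .t => t
  | .s => s
  | .e => e
  | .g => g
  | .x => x
  | .y => y
  | .p => p
  | .q => q
  | .w => w

set_option linter.unusedVariables false in
/-- No coordinate divisor lies in the complement of `Xhat`. -/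
theorem geom_divisors {ν ζ : ℂ} (hE : (1 + ν) ^ 2 * (1 + ζ) ^ 2 = ν * ζ) (hν0 : ν ≠ 0)
    (hν1 : ν ≠ 1) (hνm : ν ≠ -1) (hζ0 : ζ ≠ 0) (hζ1 : ζ ≠ 1) (hζm : ζ ≠ -1) :
    ∀ r : Var, ∃ z ∈ Xhat ν ζ, z r = 0 := by
  intro r
  cases r
  · exact ⟨mkPt 0 1 1 1 1 0 1 1 0, by simp [Xhat, mkPt, Bp], rfl⟩
  · exact ⟨mkPt 1 0 1 1 1 0 1 1 0, by simp [Xhat, mkPt, Bp], rfl⟩
  · exact ⟨mkPt 0 1 0 1 0 1 1 0 1, by simp [Xhat, mkPt, Bp], rfl⟩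
  · exact ⟨mkPt 1 1 1 0 1 0 1 0 0, by simp [Xhat, mkPt, Bp], rfl⟩
  · exact ⟨mkPt 1 1 1 1 0 1 0 1 0, by simp [Xhat, mkPt, Bp], rfl⟩
  · exact ⟨mkPt 0 1 1 1 1 0 1 1 0, by simp [Xhat, mkPt, Bp], rfl⟩
  · exact ⟨mkPt 1 1 1 1 0 1 0 1 0, by simp [Xhat, mkPt, Bp], rfl⟩
  · exact ⟨mkPt 1 1 1 1 1 0 1 0 0, by simp [Xhat, mkPt, Bp], rfl⟩
  · exact ⟨mkPt 0 1 1 1 1 0 1 1 0, by simp [Xhat, mkPt, Bp], rfl⟩

end

end Pool.Agent.DPFib
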