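import Pool.Agent.DPFib.Threefold

/-!
# MP_9669a9_ag, module J: the Cox ring is a unique factorization domain
-/

namespace Pool.Agent.DPFib

noncomputable section

/-- The coordinate ring of the cone over `X` (the Cox ring of `X`). -/
abbrev Cox (ν ζ : ℂ) : Type := MvPolynomial Var ℂ ⧸ Ideal.span {Feq ν ζ}

namespace UfdJ

/-! ### Nagata's lemma -/

theorem dvd_of_dvd_prime_mul {R : Type*} [CommRing R] [IsDomain R] {τ π x : R} (hτ : Prime τ)
    (h : ¬ τ ∣ π) (hd : π ∣ τ * x) : π ∣ x := by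
  obtain ⟨y, hy⟩ := hd
  rcases hτ.dvd_or_dvd (⟨x, hy.symm⟩ : τ ∣ π * y) with h1 | ⟨z, hz⟩
  · exact absurd h1 h
  · refine ⟨z, mul_left_cancel₀ hτ.ne_zero ?_⟩
    rw [hy, hz]; ring

theorem dvd_of_dvd_prime_pow_mul {R : Type*} [CommRing R] [IsDomain R] {τ π x : R} (hτ : Prime τ)
    (h : ¬ τ ∣ π) (n : ℕ) (hd : π ∣ τ ^ n * x) : π ∣ x := by
  induction n with
  | zero => simpa using hd
  | succ n ih =>
    apply ih
    apply dvd_of_dvd_prime_mul hτ h
    rwa [← mul_assoc, ← pow_succ']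

/-- a form of Nagata's lemma -/
theorem nagata {A R : Type*} [CommRing A] [IsDomain A] [UniqueFactorizationMonoid A]
    [CommRing R] [IsDomain R] [WfDvdMonoid R] (ι : A →+* R) (hι : Function.Injective ι) (t w : A)
    (ht : Prime (ι t)) (hw : Prime (ι w))
    (H : ∀ r : R, ∃ (N : ℕ) (a : A), (ι t * ι w) ^ N * r = ι a) :
    UniqueFactorizationMonoid R := by
  refine UniqueFactorizationMonoid.iff_exists_prime_mem_of_isPrime.2 fun Q hQ0 hQ => ?_
  by_cases htQ : ι t ∈ Q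
  · exact ⟨_, htQ, ht⟩
  by_cases hwQ : ι w ∈ Q
  · exact ⟨_, hwQ, hw⟩
  have hq : (Q.comap ι).IsPrime := Ideal.comap_isPrime ι Q
  have hq0 : Q.comap ι ≠ ⊥ := by
    obtain ⟨r, hr, hr0⟩ := Submodule.exists_mem_ne_zero_of_ne_bot hQ0
    obtain ⟨N, a, ha⟩ := H r
    intro h
    have ha' : a ∈ Q.comap ι := by
      rw [Ideal.mem_comap, ← ha]
      exact Q.mul_mem_left _ hr
    rw [h, Ideal.mem_bot] at ha'
    rw [ha', map_zero] at ha
    exact mul_ne_zero (pow_ne_zero _ (mul_ne_zero ht.ne_zero hw.ne_zero)) hr0 ha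
  obtain ⟨π, hπ, hπp⟩ := hq.exists_mem_prime_of_ne_bot hq0
  rw [Ideal.mem_comap] at hπ
  have hπ0 : ι π ≠ 0 := (map_ne_zero_iff ι hι).2 hπp.ne_zero
  obtain ⟨i, π₁, h1, hi⟩ := WfDvdMonoid.max_power_factor hπ0 ht.irreducible
  have hπ1 : π₁ ≠ 0 := by rintro rfl; exact hπ0 (by rw [hi, mul_zero])
  obtain ⟨j, π₂, h2, hj⟩ := WfDvdMonoid.max_power_factor hπ1 hw.irreducible
  have h3 : ¬ ι t ∣ π₂ := fun h => h1 (hj ▸ h.mul_left _)
  have hπ2 : π₂ ≠ 0 := by rintro rfl; exact hπ1 (by rw [hj, mul_zero])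
  have hπ2Q : π₂ ∈ Q := by
    have h4 : ι t ^ i * (ι w ^ j * π₂) ∈ Q := by rw [← hj, ← hi]; exact hπ
    rcases hQ.mem_or_mem h4 with h5 | h5
    · exact absurd (hQ.mem_of_pow_mem _ h5) htQ
    · rcases hQ.mem_or_mem h5 with h6 | h6
      · exact absurd (hQ.mem_of_pow_mem _ h6) hwQ
      · exact h6
  -- `π₂ ∣ a` iff `ι π ∣ u ^ N * a`
  have F1 : ∀ (N : ℕ) (x : R), ι π ∣ (ι t * ι w) ^ N * x → π₂ ∣ x := by
    intro N x hx
    have h4 : π₂ ∣ (ι t * ι w) ^ N * x :=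
      dvd_trans ⟨ι t ^ i * ι w ^ j, by rw [hi, hj]; ring⟩ hx
    rw [mul_pow, mul_assoc] at h4
    exact dvd_of_dvd_prime_pow_mul hw h2 N (dvd_of_dvd_prime_pow_mul ht h3 N h4)
  refine ⟨π₂, hπ2Q, hπ2, fun hu => hQ.ne_top (Ideal.eq_top_of_isUnit_mem _ hπ2Q hu), ?_⟩
  intro a b hab
  obtain ⟨N₁, a', ha'⟩ := H a
  obtain ⟨N₂, b', hb'⟩ := H b
  have h4 : ι π ∣ (ι t * ι w) ^ (i + j) * (a * b) := by
    obtain ⟨c, hc⟩ := hab
    refine ⟨ι t ^ j * ι w ^ i * c, ?_⟩
    rw [hc, hi, hj]; ring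
  have h5 : ι π ∣ ι ((t * w) ^ (i + j) * (a' * b')) := by
    rw [map_mul, map_mul, ← ha', ← hb', map_pow, map_mul]
    obtain ⟨c, hc⟩ := h4
    refine ⟨c * (ι t * ι w) ^ (N₁ + N₂), ?_⟩
    linear_combination (ι t * ι w) ^ (N₁ + N₂) * hc
  obtain ⟨c, hc⟩ := h5
  obtain ⟨N₃, c', hc'⟩ := H c
  have h6 : (t * w) ^ (N₃ + (i + j)) * (a' * b') = π * c' := by
    apply hι
    rw [map_mul ι π, ← hc', pow_add, mul_assoc, map_mul, hc, map_pow, map_mul]
    ring
  have hpt : ¬ π ∣ t := fun ⟨y, hy⟩ => htQ (by rw [hy, map_mul]; exact Q.mul_mem_right _ hπ)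
  have hpw : ¬ π ∣ w := fun ⟨y, hy⟩ => hwQ (by rw [hy, map_mul]; exact Q.mul_mem_right _ hπ)
  rcases hπp.dvd_or_dvd (⟨c', h6⟩ : π ∣ _ * _) with h7 | h7
  · rcases hπp.dvd_or_dvd (hπp.dvd_of_dvd_pow h7) with h8 | h8
    · exact absurd h8 hpt
    · exact absurd h8 hpw
  · rcases hπp.dvd_or_dvd h7 with h8 | h8
    · left
      apply F1 N₁
      rw [ha']
      exact map_dvd ι h8
    · right
      apply F1 N₂
      rw [hb']
      exact map_dvd ι h8

/-! ### quadratic Eisenstein polynomials -/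

theorem irreducible_quadratic {D : Type*} [CommRing D] [IsDomain D] (a b c π : D) (hπ : Prime π)
    (ha : ¬ π ∣ a) (hb : π ∣ b) (hc : π ∣ c) (hc2 : ¬ π ^ 2 ∣ c)
    (hrel : ∀ d, d ∣ a → d ∣ b → d ∣ c → IsUnit d) :
    Irreducible (Polynomial.C a * Polynomial.X ^ 2 + Polynomial.C b * Polynomial.X +
      Polynomial.C c) := by
  have ha0 : a ≠ 0 := by rintro rfl; exact ha (dvd_zero _)
  have hdeg := Polynomial.degree_quadratic (b := b) (c := c) ha0
  have c2 : (Polynomial.C a * Polynomial.X ^ 2 + Polynomial.C b * Polynomial.X +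
      Polynomial.C c).coeff 2 = a := by
    simp [Polynomial.coeff_C]
  have c1 : (Polynomial.C a * Polynomial.X ^ 2 + Polynomial.C b * Polynomial.X +
      Polynomial.C c).coeff 1 = b := by
    simp [Polynomial.coeff_X, Polynomial.coeff_C, Polynomial.coeff_X_pow]
  have c0 : (Polynomial.C a * Polynomial.X ^ 2 + Polynomial.C b * Polynomial.X +
      Polynomial.C c).coeff 0 = c := by
    simp [Polynomial.coeff_X, Polynomial.coeff_C, Polynomial.coeff_X_pow]
  refine Polynomial.irreducible_of_eisenstein_criterion (P := Ideal.span {π})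
    ((Ideal.span_singleton_prime hπ.ne_zero).2 hπ) ?_ ?_ ?_ ?_ ?_
  · rw [Polynomial.leadingCoeff_quadratic ha0, Ideal.mem_span_singleton]
    exact ha
  · intro n hn
    rw [hdeg] at hn
    have hn' : n < 2 := by exact_mod_cast hn
    rw [Ideal.mem_span_singleton]
    interval_cases n
    · rwa [c0]
    · rwa [c1]
  · rw [hdeg]; norm_num
  · rw [c0, Ideal.span_singleton_pow, Ideal.mem_span_singleton]
    exact hc2
  · intro d hd
    rw [Polynomial.C_dvd_iff_dvd_coeff] at hd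
    exact hrel d (c2 ▸ hd 2) (c1 ▸ hd 1) (c0 ▸ hd 0)

/-! ### reduction to one variable -/

open MvPolynomial

/-- `PP = ℂ[t,s,e,g,x,y,p,q,w]` -/
abbrev PP : Type := MvPolynomial Var ℂ

/-- the variable `r` as a polynomial variable over `PP` -/
def psi (r : Var) : PP →ₐ[ℂ] Polynomial PP :=
  aeval (fun v => if v = r then Polynomial.X else Polynomial.C (X v))

theorem psi_X_self (r : Var) : psi r (X r) = Polynomial.X := by simp [psi]

theorem psi_X_ne {r v : Var} (h : v ≠ r) : psi r (X v) = Polynomial.C (X v) := by simp [psi, h]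

theorem psi_C (r : Var) (c : ℂ) : psi r (C c) = Polynomial.C (C c) := by
  simp only [psi, algHom_C]
  rfl

theorem rho_psi (r : Var) (G : PP) : (psi r G).eval (X r) = G := by
  induction G using MvPolynomial.induction_on with
  | C c => rw [psi_C, Polynomial.eval_C]
  | add f g hf hg => rw [map_add, Polynomial.eval_add, hf, hg]
  | mul_X f v hf =>
    rw [map_mul, Polynomial.eval_mul, hf]
    congr 1
    by_cases h : v = r
    · subst h; rw [psi_X_self, Polynomial.eval_X]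
    · rw [psi_X_ne h, Polynomial.eval_C]

theorem isUnit_of_psi (r : Var) {G : PP} (h : IsUnit (psi r G)) : IsUnit G := by
  have := h.map (Polynomial.evalRingHom (X r : PP))
  rwa [Polynomial.coe_evalRingHom, rho_psi] at this

theorem irreducible_of_psi (r : Var) {G : PP} (h : Irreducible (psi r G)) : Irreducible G := by
  constructor
  · intro hu
    exact h.not_isUnit (hu.map _)
  · intro a b hab
    have := h.isUnit_or_isUnit (show psi r G = psi r a * psi r b by rw [hab, map_mul])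
    exact this.imp (isUnit_of_psi r) (isUnit_of_psi r)

theorem map_Bp {R S : Type*} [CommRing R] [CommRing S] (φ : R →+* S) (ν ζ e g x y p q : R) :
    φ (Bp ν ζ e g x y p q) = Bp (φ ν) (φ ζ) (φ e) (φ g) (φ x) (φ y) (φ p) (φ q) := by
  simp [Bp, map_ofNat]

/-! ### divisibility and evaluation -/

theorem eval_zero_of_dvd {v : Var} {G : PP} (h : X v ∣ G) (z : Var → ℂ) (hz : z v = 0) :
    eval z G = 0 := by
  obtain ⟨H, rfl⟩ := h
  rw [map_mul, eval_X, hz, zero_mul]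

theorem X_dvd_of_prime_dvd {v : Var} {π : PP} (hπ : Prime π) (h : π ∣ X v) : X v ∣ π := by
  have := (X_prime : Prime (X v : PP)).irreducible
  exact (this.dvd_comm hπ.irreducible).2 h

theorem not_dvd_of_eval {v : Var} {π : PP} (hπ : Prime π) (h : π ∣ X v) {G : PP} (z : Var → ℂ)
    (hz : z v = 0) (hG : eval z G ≠ 0) : ¬ π ∣ G := fun hd =>
  hG (eval_zero_of_dvd ((X_dvd_of_prime_dvd hπ h).trans hd) z hz)

theorem prime_lin (c : PP) (hs : psi .s c = Polynomial.C c) (z : Var → ℂ) (hz : z .t = 0)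
    (hc : eval z c ≠ 0) (z' : Var → ℂ) (hz' : z' .w = 0) (hc' : eval z' c ≠ 0) :
    Prime (X .s * X .t * X .w ^ 2 - c : PP) := by
  rw [← irreducible_iff_prime]
  apply irreducible_of_psi .s
  have e1 : psi .s (X .s * X .t * X .w ^ 2 - c) =
      Polynomial.C (X .t * X .w ^ 2) * Polynomial.X + Polynomial.C (- c) := by
    rw [map_sub, hs, map_mul, map_mul, map_pow, psi_X_self, psi_X_ne (by decide),
      psi_X_ne (by decide)]
    simp only [Polynomial.C_mul, Polynomial.C_neg, Polynomial.C_pow]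
    ring
  rw [e1]
  apply Polynomial.irreducible_C_mul_X_add_C
  · exact mul_ne_zero (X_ne_zero _) (pow_ne_zero _ (X_ne_zero _))
  · intro d hd1 hd2
    by_contra hu
    have hd0 : d ≠ 0 := by
      rintro rfl
      rw [zero_dvd_iff] at hd1
      exact mul_ne_zero (X_ne_zero _) (pow_ne_zero _ (X_ne_zero _)) hd1
    obtain ⟨π, hπ, hπd⟩ := WfDvdMonoid.exists_irreducible_factor hu hd0
    rw [irreducible_iff_prime] at hπ
    have h2 : π ∣ c := (dvd_neg.1 (hπd.trans hd2))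
    rcases hπ.dvd_or_dvd (hπd.trans hd1) with h | h
    · exact not_dvd_of_eval hπ h z hz hc h2
    · exact not_dvd_of_eval hπ (hπ.dvd_of_dvd_pow h) z' hz' hc' h2

/-! ### `B'` is prime -/

/-- `B'` as a polynomial -/
def BP (ν ζ : ℂ) : PP :=
  Bp (C ν) (C ζ) (X Var.e) (X Var.g) (X Var.x) (X Var.y) (X Var.p) (X Var.q)

/-- a point given by its nine coordinates -/
def pnt (t s e g x y p q w : ℂ) : Var → ℂ
  | .t => t | .s => s | .e => e | .g => g | .x => x | .y => y | .p => p | .q => q | .w => w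

/-- variable -/
abbrev xv (v : Var) : PP := X v
/-- constant -/
abbrev cc (c : ℂ) : PP := C c

theorem prime_BP {ν ζ : ℂ} (hE : (1 + ν) ^ 2 * (1 + ζ) ^ 2 = ν * ζ) (hν1 : ν ≠ 1) (hν : ν ≠ -1)
    (hζ : ζ ≠ 0) : Prime (BP ν ζ) := by
  have hν' : (1 + ν) ≠ 0 := fun h => hν (by linear_combination h)
  have hν1' : (1 - ν) ≠ 0 := fun h => hν1 (by linear_combination -h)
  rw [← irreducible_iff_prime]
  apply irreducible_of_psi .x
  obtain ⟨a, ha⟩ : ∃ a : PP, a = cc ζ * xv .q * xv .e * (xv .g * xv .q - xv .e * xv .p) := ⟨_, rfl⟩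
  obtain ⟨b, hb⟩ : ∃ b : PP, b = - (cc (ζ * (1 - ν)) * xv .q * xv .g * xv .y *
    (xv .g * xv .q - xv .e * xv .p)) := ⟨_, rfl⟩
  obtain ⟨c', hc'⟩ : ∃ c' : PP, c' = xv .y ^ 2 * xv .p * (cc ((1 + ν) ^ 2) *
    (xv .e * xv .p - 2 * (1 + cc ζ) * (xv .g * xv .q)) + cc (ζ * ν) * xv .q * xv .g) := ⟨_, rfl⟩
  have e1 : psi .x (BP ν ζ) = Polynomial.C a * Polynomial.X ^ 2 + Polynomial.C b * Polynomial.X +
      Polynomial.C (xv .g * c') := by
    have h1 : psi .x (BP ν ζ) = Bp (Polynomial.C (C ν)) (Polynomial.C (C ζ))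
      (Polynomial.C (xv .e)) (Polynomial.C (xv .g)) Polynomial.X (Polynomial.C (xv .y))
      (Polynomial.C (xv .p)) (Polynomial.C (xv .q)) := by
      have := map_Bp (psi .x : PP →+* Polynomial PP) (C ν) (C ζ) (X Var.e) (X Var.g) (X Var.x)
        (X Var.y) (X Var.p) (X Var.q)
      simp only [RingHom.coe_coe, psi_C, psi_X_self] at this
      rw [psi_X_ne (by decide), psi_X_ne (by decide), psi_X_ne (by decide),
        psi_X_ne (by decide), psi_X_ne (by decide)] at this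
      exact this
    rw [h1, ha, hb, hc', Bp]
    simp only [map_mul, map_add, map_sub, map_one, map_pow, map_neg, map_ofNat]
    ring
  rw [e1]
  refine irreducible_quadratic _ _ _ (xv .g) X_prime ?_ ?_ ?_ ?_ ?_
  · intro h
    have := eval_zero_of_dvd h (pnt 0 0 1 0 0 0 1 1 0) rfl
    simp [ha, pnt] at this
    exact hζ this
  · rw [hb]
    exact (dvd_neg.2 ⟨cc (ζ * (1 - ν)) * xv .q * xv .y * (xv .g * xv .q - xv .e * xv .p), by ring⟩)
  · exact dvd_mul_right _ _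
  · intro h
    rw [pow_two] at h
    have h2 := (mul_dvd_mul_iff_left (X_ne_zero (R := ℂ) Var.g)).1 h
    have := eval_zero_of_dvd h2 (pnt 0 0 1 0 0 1 1 1 0) rfl
    simp [hc', pnt] at this
    exact hν' this
  · intro d hd1 hd2 hd3
    by_contra hu
    have hd0 : d ≠ 0 := by
      rintro rfl
      rw [zero_dvd_iff] at hd1
      have : eval (pnt 0 0 1 0 0 0 1 1 0) a = 0 := by rw [hd1, map_zero]
      simp [ha, pnt] at this
      exact hζ this
    obtain ⟨π, hπ, hπd⟩ := WfDvdMonoid.exists_irreducible_factor hu hd0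
    rw [irreducible_iff_prime] at hπ
    have g1 := hπd.trans hd1
    have g2 := hπd.trans hd2
    have g3 := hπd.trans hd3
    -- `π` does not divide ...
    have nq : ¬ π ∣ xv .q := fun h => not_dvd_of_eval hπ h (pnt 0 0 1 1 0 1 1 0 0) rfl
      (by simp [hc', pnt]; exact hν') g3
    have ne : ¬ π ∣ xv .e := fun h => not_dvd_of_eval hπ h (pnt 0 0 0 1 0 1 0 1 0) rfl
      (by simp [hb, pnt]; exact ⟨hζ, hν1'⟩) g2
    have hQ : π ∣ xv .g * xv .q - xv .e * xv .p := by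
      rw [ha] at g1
      rcases hπ.dvd_or_dvd g1 with h | h
      · rcases hπ.dvd_or_dvd h with h | h
        · rcases hπ.dvd_or_dvd h with h | h
          · exact absurd (isUnit_of_dvd_unit h ((isUnit_iff_ne_zero.2 hζ).map C)) hπ.not_isUnit
          · exact absurd h nq
        · exact absurd h ne
      · exact h
    have ng : ¬ π ∣ xv .g := fun h => not_dvd_of_eval hπ h (pnt 0 0 1 0 0 0 1 0 0) rfl
      (by simp [pnt]) hQ
    have ny : ¬ π ∣ xv .y := fun h => not_dvd_of_eval hπ h (pnt 0 0 0 1 0 0 0 1 0) rfl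
      (by simp [pnt]) hQ
    have np : ¬ π ∣ xv .p := fun h => not_dvd_of_eval hπ h (pnt 0 0 0 1 0 0 0 1 0) rfl
      (by simp [pnt]) hQ
    rcases hπ.dvd_or_dvd g3 with h | h
    · exact ng h
    rw [hc'] at h
    rcases hπ.dvd_or_dvd h with h | h
    · rcases hπ.dvd_or_dvd h with h | h
      · exact ny (hπ.dvd_of_dvd_pow h)
      · exact np h
    · have h5 := dvd_add h (hQ.mul_left (cc ((1 + ν) ^ 2)))
      have h6 : (cc ((1 + ν) ^ 2) * (xv .e * xv .p - 2 * (1 + cc ζ) * (xv .g * xv .q)) +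
          cc (ζ * ν) * xv .q * xv .g + cc ((1 + ν) ^ 2) * (xv .g * xv .q - xv .e * xv .p) : PP) =
          cc ((1 + ν) ^ 2 * ζ ^ 2) * (xv .g * xv .q) := by
        have e2 : (cc ((1 + ν) ^ 2 * (1 + ζ) ^ 2) : PP) = cc (ν * ζ) := by rw [hE]
        simp only [map_mul, map_add, map_pow, map_one] at e2 ⊢
        linear_combination (-(xv .q * xv .g) : PP) * e2
      rw [h6] at h5
      rcases hπ.dvd_or_dvd h5 with h | h
      · exact hπ.not_isUnit (isUnit_of_dvd_unit h ((isUnit_iff_ne_zero.2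
          (mul_ne_zero (pow_ne_zero _ hν') (pow_ne_zero _ hζ))).map C))
      · rcases hπ.dvd_or_dvd h with h | h
        · exact ng h
        · exact nq h

/-! ### the quotient ring -/

/-- `B'` evaluated at `z` -/
def BPs (ν ζ : ℂ) (z : Var → PP) : PP :=
  Bp (C ν) (C ζ) (z .e) (z .g) (z .x) (z .y) (z .p) (z .q)

/-- the substitution `r ↦ 0` -/
def zr (r : Var) (v : Var) : PP := if v = r then 0 else X v

/-- the substitution `r ↦ 0` -/
def sig (r : Var) : PP →ₐ[ℂ] PP := aeval (zr r)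

theorem sig_X (r v : Var) : sig r (X v) = zr r v := by simp [sig]

theorem sig_C (r : Var) (c : ℂ) : sig r (C c) = C c := by
  simp only [sig, algHom_C]
  rfl

theorem sig_BP (ν ζ : ℂ) (r : Var) : sig r (BP ν ζ) = BPs ν ζ (zr r) := by
  have := map_Bp (sig r : PP →+* PP) (C ν) (C ζ) (X Var.e) (X Var.g) (X Var.x)
        (X Var.y) (X Var.p) (X Var.q)
  simp only [RingHom.coe_coe, sig_C, sig_X] at this
  exact this

theorem sig_Feq (ν ζ : ℂ) (r : Var) : sig r (Feq ν ζ) =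
    zr r .s * zr r .t * zr r .w ^ 2 - BPs ν ζ (zr r) := by
  have : Feq ν ζ = X .s * X .t * X .w ^ 2 - BP ν ζ := rfl
  rw [this, map_sub, sig_BP, map_mul, map_mul, map_pow, sig_X, sig_X, sig_X]

theorem psi_zr {r v : Var} (h : v ≠ .s) : psi .s (zr r v) = Polynomial.C (zr r v) := by
  unfold zr
  split_ifs
  · simp
  · exact psi_X_ne h

theorem psi_BPs (ν ζ : ℂ) (r : Var) :
    psi .s (BPs ν ζ (zr r)) = Polynomial.C (BPs ν ζ (zr r)) := by
  have := map_Bp (psi .s : PP →+* Polynomial PP) (C ν) (C ζ) (zr r .e) (zr r .g) (zr r .x)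
        (zr r .y) (zr r .p) (zr r .q)
  simp only [RingHom.coe_coe, psi_C] at this
  rw [psi_zr (by decide), psi_zr (by decide), psi_zr (by decide),
        psi_zr (by decide), psi_zr (by decide), psi_zr (by decide)] at this
  have h2 := map_Bp (Polynomial.C : PP →+* Polynomial PP) (C ν) (C ζ) (zr r .e) (zr r .g) (zr r .x)
        (zr r .y) (zr r .p) (zr r .q)
  exact this.trans h2.symm

theorem psi_BP (ν ζ : ℂ) : psi .s (BP ν ζ) = Polynomial.C (BP ν ζ) := by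
  have := map_Bp (psi .s : PP →+* Polynomial PP) (C ν) (C ζ) (X Var.e) (X Var.g) (X Var.x)
        (X Var.y) (X Var.p) (X Var.q)
  simp only [RingHom.coe_coe, psi_C] at this
  rw [psi_X_ne (by decide), psi_X_ne (by decide), psi_X_ne (by decide),
        psi_X_ne (by decide), psi_X_ne (by decide), psi_X_ne (by decide)] at this
  have h2 := map_Bp (Polynomial.C : PP →+* Polynomial PP) (C ν) (C ζ) (X Var.e) (X Var.g)
        (X Var.x) (X Var.y) (X Var.p) (X Var.q)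
  exact this.trans h2.symm

theorem eval_BPs (ν ζ : ℂ) (r : Var) (u : Var → ℂ) : eval u (BPs ν ζ (zr r)) =
    Bp ν ζ (eval u (zr r .e)) (eval u (zr r .g)) (eval u (zr r .x)) (eval u (zr r .y))
      (eval u (zr r .p)) (eval u (zr r .q)) := by
  have := map_Bp (eval u) (C ν) (C ζ) (zr r .e) (zr r .g) (zr r .x)
        (zr r .y) (zr r .p) (zr r .q)
  simp only [eval_C] at this
  exact this

theorem eval_BP (ν ζ : ℂ) (u : Var → ℂ) : eval u (BP ν ζ) =
    Bp ν ζ (u .e) (u .g) (u .x) (u .y) (u .p) (u .q) := by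
  have := map_Bp (eval u) (C ν) (C ζ) (X Var.e) (X Var.g) (X Var.x)
        (X Var.y) (X Var.p) (X Var.q)
  simp only [eval_C, eval_X] at this
  exact this

theorem eval_Feq (ν ζ : ℂ) (u : Var → ℂ) : eval u (Feq ν ζ) =
    u .s * u .t * u .w ^ 2 - Bp ν ζ (u .e) (u .g) (u .x) (u .y) (u .p) (u .q) := by
  have : Feq ν ζ = X .s * X .t * X .w ^ 2 - BP ν ζ := rfl
  rw [this, map_sub, eval_BP]
  simp

theorem prime_Feq {ν ζ : ℂ} (hν : ν ≠ -1) : Prime (Feq ν ζ) := by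
  have hν' : (1 + ν) ≠ 0 := fun h => hν (by linear_combination h)
  exact prime_lin (BP ν ζ) (psi_BP ν ζ) (pnt 0 0 1 1 0 1 1 0 0) rfl
    (by rw [eval_BP]; simp [pnt, Bp]; exact hν') (pnt 0 0 1 1 0 1 1 0 0) rfl
    (by rw [eval_BP]; simp [pnt, Bp]; exact hν')

theorem isDomain_Cox {ν ζ : ℂ} (hν : ν ≠ -1) : IsDomain (Cox ν ζ) := by
  rw [Ideal.Quotient.isDomain_iff_prime, Ideal.span_singleton_prime (prime_Feq hν).ne_zero]
  exact prime_Feq hν

theorem X_dvd_sub_sig (r : Var) (G : PP) : X r ∣ G - sig r G := by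
  induction G using MvPolynomial.induction_on with
  | C c => rw [sig_C, sub_self]; exact dvd_zero _
  | add f g hf hg =>
    rw [map_add, add_sub_add_comm]
    exact dvd_add hf hg
  | mul_X f v hf =>
    rw [map_mul, sig_X, zr]
    split_ifs with h
    · subst h; rw [mul_zero, sub_zero]; exact dvd_mul_left _ _
    · rw [← sub_mul]; exact hf.mul_right _

theorem mk_dvd_iff (ν ζ : ℂ) (r : Var) (G : PP) :
    (Ideal.Quotient.mk (Ideal.span {Feq ν ζ}) (X r) ∣ Ideal.Quotient.mk (Ideal.span {Feq ν ζ}) G)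
      ↔ sig r (Feq ν ζ) ∣ sig r G := by
  constructor
  · rintro ⟨c, hc⟩
    obtain ⟨H, rfl⟩ := Ideal.Quotient.mk_surjective c
    rw [← map_mul, Ideal.Quotient.mk_eq_mk_iff_sub_mem, Ideal.mem_span_singleton] at hc
    have := map_dvd (sig r) hc
    rwa [map_sub, map_mul, sig_X, zr, if_pos rfl, zero_mul, sub_zero] at this
  · rintro ⟨K, hK⟩
    obtain ⟨L, hL⟩ := X_dvd_sub_sig r G
    obtain ⟨L', hL'⟩ := X_dvd_sub_sig r (Feq ν ζ)
    have e : G = Feq ν ζ * K + X r * (L - L' * K) := by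
      linear_combination hL + hK - K * hL'
    rw [e, map_add, map_mul, map_mul]
    have : Ideal.Quotient.mk (Ideal.span {Feq ν ζ}) (Feq ν ζ) = 0 := by
      rw [Ideal.Quotient.eq_zero_iff_mem]
      exact Ideal.mem_span_singleton_self _
    rw [this, zero_mul, zero_add]
    exact dvd_mul_right _ _

/-- a point of the cone with `z r = 0`, `z r' = 1` -/
def tp (r r' : Var) (v : Var) : ℂ :=
  if v = r ∨ (r' = .t ∧ v = .s) ∨ (r' ≠ .t ∧ v = .t) ∨ ((r' = .x ∨ r' = .y) ∧ (v = .e ∨ v = .g)) ∨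
    (¬ (r' = .x ∨ r' = .y) ∧ (v = .x ∨ v = .y)) then 0 else 1

theorem tp_zero (r r' : Var) : tp r r' r = 0 := by simp [tp]

theorem tp_one {r r' : Var} (h : r ≠ r') : tp r r' r' = 1 := by
  unfold tp
  rw [if_neg]
  revert h
  cases r' <;> simp [eq_comm]

theorem tp_Feq (ν ζ : ℂ) (r r' : Var) : eval (tp r r') (Feq ν ζ) = 0 := by
  have h1 : tp r r' .s * tp r r' .t = 0 := by
    by_cases h : r' = .t
    · rw [show tp r r' .s = 0 by simp [tp, h], zero_mul]
    · rw [show tp r r' .t = 0 by simp [tp, h], mul_zero]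
  rw [eval_Feq, h1, zero_mul, zero_sub, neg_eq_zero]
  by_cases h : r' = .x ∨ r' = .y
  · rw [show tp r r' .e = 0 by simp [tp, h], show tp r r' .g = 0 by simp [tp, h]]
    simp [Bp]
  · rw [show tp r r' .x = 0 by simp [tp, h], show tp r r' .y = 0 by simp [tp, h]]
    simp [Bp]

/-- evaluation at a point of the cone -/
def ev {ν ζ : ℂ} (u : Var → ℂ) (h : eval u (Feq ν ζ) = 0) : Cox ν ζ →+* ℂ :=
  Ideal.Quotient.lift _ (eval u) (fun a ha => by
    rw [Ideal.mem_span_singleton] at ha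
    obtain ⟨b, rfl⟩ := ha
    rw [map_mul, h, zero_mul])

theorem ev_mk {ν ζ : ℂ} (u : Var → ℂ) (h : eval u (Feq ν ζ) = 0) (G : PP) :
    ev u h (Ideal.Quotient.mk (Ideal.span {Feq ν ζ}) G) = eval u G := rfl

theorem ufd_distinct (ν ζ : ℂ) (r r' : Var)
    (h : Ideal.Quotient.mk (Ideal.span {Feq ν ζ}) (X r) ∣
      Ideal.Quotient.mk (Ideal.span {Feq ν ζ}) (X r')) : r = r' := by
  by_contra hne
  have := map_dvd (ev (tp r r') (tp_Feq ν ζ r r')) h
  rw [ev_mk, ev_mk, eval_X, eval_X, tp_zero, tp_one hne, zero_dvd_iff] at this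
  exact one_ne_zero this

theorem prime_sig {ν ζ : ℂ} (hE : (1 + ν) ^ 2 * (1 + ζ) ^ 2 = ν * ζ) (hν1 : ν ≠ 1) (hν : ν ≠ -1)
    (hζ : ζ ≠ 0) (r : Var) : Prime (sig r (Feq ν ζ)) := by
  have hν' : (1 + ν) ≠ 0 := fun h => hν (by linear_combination h)
  have hν1' : (1 - ν) ≠ 0 := fun h => hν1 (by linear_combination -h)
  have hB := prime_BP hE hν1 hν hζ
  have key : ∀ r : Var, r ≠ .t → r ≠ .s → r ≠ .w → (∃ u : Var → ℂ, u .t = 0 ∧ u .w = 0 ∧
      eval u (BPs ν ζ (zr r)) ≠ 0) → Prime (sig r (Feq ν ζ)) := by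
    rintro r h1 h2 h3 ⟨u, hu1, hu2, hu3⟩
    rw [sig_Feq]
    have : zr r .s = X .s := by simp [zr, h2.symm]
    rw [this]
    have : zr r .t = X .t := by simp [zr, h1.symm]
    rw [this]
    have : zr r .w = X .w := by simp [zr, h3.symm]
    rw [this]
    exact prime_lin _ (psi_BPs ν ζ r) u hu1 hu3 u hu2 hu3
  have key2 : ∀ r : Var, r = .t ∨ r = .s ∨ r = .w → Prime (sig r (Feq ν ζ)) := by
    intro r hr
    have h0 : zr r .s * zr r .t * zr r .w ^ 2 = 0 := by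
      rcases hr with rfl | rfl | rfl <;> simp [zr]
    have h1 : BPs ν ζ (zr r) = BP ν ζ := by
      unfold BPs BP
      rcases hr with rfl | rfl | rfl <;> simp [zr]
    rw [sig_Feq, h0, h1, zero_sub]
    exact hB.neg
  cases r with
  | t => exact key2 _ (Or.inl rfl)
  | s => exact key2 _ (Or.inr (Or.inl rfl))
  | w => exact key2 _ (Or.inr (Or.inr rfl))
  | e =>
    refine key _ (by decide) (by decide) (by decide) ⟨pnt 0 0 0 1 1 1 0 1 0, rfl, rfl, ?_⟩
    rw [eval_BPs]; simp [zr, pnt, Bp]; exact ⟨hζ, fun h => hν1 (by linear_combination h)⟩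
  | g =>
    refine key _ (by decide) (by decide) (by decide) ⟨pnt 0 0 1 0 1 1 1 1 0, rfl, rfl, ?_⟩
    rw [eval_BPs]; simp [zr, pnt, Bp]; exact hζ
  | x =>
    refine key _ (by decide) (by decide) (by decide) ⟨pnt 0 0 1 1 0 1 1 0 0, rfl, rfl, ?_⟩
    rw [eval_BPs]; simp [zr, pnt, Bp]; exact hν'
  | y =>
    refine key _ (by decide) (by decide) (by decide) ⟨pnt 0 0 1 1 1 0 0 1 0, rfl, rfl, ?_⟩
    rw [eval_BPs]; simp [zr, pnt, Bp]; exact hζ
  | p =>
    refine key _ (by decide) (by decide) (by decide) ⟨pnt 0 0 0 1 1 1 0 1 0, rfl, rfl, ?_⟩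
    rw [eval_BPs]; simp [zr, pnt, Bp]; exact ⟨hζ, fun h => hν1 (by linear_combination h)⟩
  | q =>
    refine key _ (by decide) (by decide) (by decide) ⟨pnt 0 0 1 1 0 1 1 0 0, rfl, rfl, ?_⟩
    rw [eval_BPs]; simp [zr, pnt, Bp]; exact hν'

theorem ufd_prime {ν ζ : ℂ} (hE : (1 + ν) ^ 2 * (1 + ζ) ^ 2 = ν * ζ) (hν1 : ν ≠ 1) (hν : ν ≠ -1)
    (hζ : ζ ≠ 0) (r : Var) : Prime (Ideal.Quotient.mk (Ideal.span {Feq ν ζ}) (X r)) := by
  obtain ⟨r', hr'⟩ : ∃ r', r' ≠ r := by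
    by_cases h : r = .t
    · exact ⟨.s, by rw [h]; decide⟩
    · exact ⟨.t, fun h' => h h'.symm⟩
  refine ⟨?_, ?_, ?_⟩
  · intro h0
    have := congrArg (ev (tp r' r) (tp_Feq ν ζ r' r)) h0
    rw [ev_mk, eval_X, tp_one hr', map_zero] at this
    exact one_ne_zero this
  · intro hu
    have := hu.map (ev (tp r r') (tp_Feq ν ζ r r'))
    rw [ev_mk, eval_X, tp_zero] at this
    exact not_isUnit_zero this
  · intro a b
    obtain ⟨G, rfl⟩ := Ideal.Quotient.mk_surjective a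
    obtain ⟨H, rfl⟩ := Ideal.Quotient.mk_surjective b
    rw [← map_mul, mk_dvd_iff, mk_dvd_iff, mk_dvd_iff, map_mul]
    exact (prime_sig hE hν1 hν hζ r).dvd_or_dvd

/-! ### unique factorization -/

/-- the variables other than `s` -/
abbrev Var' : Type := {v : Var // v ≠ .s}

theorem psi_rename (a : MvPolynomial Var' ℂ) :
    psi .s (rename Subtype.val a) = Polynomial.C (rename Subtype.val a) := by
  induction a using MvPolynomial.induction_on with
  | C c => rw [rename_C, psi_C]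
  | add f g hf hg => rw [map_add, map_add, hf, hg, Polynomial.C_add]
  | mul_X f v hf => rw [map_mul, map_mul, hf, rename_X, psi_X_ne v.2, Polynomial.C_mul]

/-- the subring of polynomials in the variables other than `s` -/
def iot (ν ζ : ℂ) : MvPolynomial Var' ℂ →+* Cox ν ζ :=
  (Ideal.Quotient.mk (Ideal.span {Feq ν ζ})).comp
    (rename Subtype.val : MvPolynomial Var' ℂ →ₐ[ℂ] PP).toRingHom

theorem iot_apply (ν ζ : ℂ) (a : MvPolynomial Var' ℂ) :
    iot ν ζ a = Ideal.Quotient.mk (Ideal.span {Feq ν ζ}) (rename Subtype.val a) := rfl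

theorem psi_Feq (ν ζ : ℂ) : psi .s (Feq ν ζ) =
    Polynomial.C (X .t * X .w ^ 2) * Polynomial.X + Polynomial.C (- BP ν ζ) := by
  have : Feq ν ζ = X .s * X .t * X .w ^ 2 - BP ν ζ := rfl
  rw [this, map_sub, psi_BP, map_mul, map_mul, map_pow, psi_X_self, psi_X_ne (by decide),
      psi_X_ne (by decide)]
  simp only [Polynomial.C_mul, Polynomial.C_neg, Polynomial.C_pow]
  ring

theorem iot_injective (ν ζ : ℂ) : Function.Injective (iot ν ζ) := by
  rw [injective_iff_map_eq_zero]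
  intro a ha
  rw [iot_apply, Ideal.Quotient.eq_zero_iff_mem, Ideal.mem_span_singleton] at ha
  have h1 := map_dvd (psi .s) ha
  rw [psi_rename, psi_Feq] at h1
  by_contra hne
  have h2 : (rename Subtype.val a : PP) ≠ 0 := by
    rw [Ne, map_eq_zero_iff _ (rename_injective _ Subtype.val_injective)]
    exact hne
  have h3 := Polynomial.degree_le_of_dvd h1 (by rwa [Ne, Polynomial.C_eq_zero])
  rw [Polynomial.degree_linear (mul_ne_zero (X_ne_zero _) (pow_ne_zero _ (X_ne_zero _))),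
    Polynomial.degree_C h2] at h3
  exact absurd h3 (by decide)

/-- `B'` in the variables other than `s` -/
def BP' (ν ζ : ℂ) : MvPolynomial Var' ℂ :=
  Bp (C ν) (C ζ) (X ⟨.e, by decide⟩) (X ⟨.g, by decide⟩) (X ⟨.x, by decide⟩) (X ⟨.y, by decide⟩)
    (X ⟨.p, by decide⟩) (X ⟨.q, by decide⟩)

theorem rename_BP' (ν ζ : ℂ) : rename Subtype.val (BP' ν ζ) = BP ν ζ := by
  have := map_Bp ((rename Subtype.val : MvPolynomial Var' ℂ →ₐ[ℂ] PP) :
    MvPolynomial Var' ℂ →+* PP) (C ν) (C ζ) (X ⟨.e, by decide⟩) (X ⟨.g, by decide⟩)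
      (X ⟨.x, by decide⟩) (X ⟨.y, by decide⟩) (X ⟨.p, by decide⟩) (X ⟨.q, by decide⟩)
  simp only [RingHom.coe_coe, rename_C, rename_X] at this
  exact this

theorem iot_surj (ν ζ : ℂ) (r : Cox ν ζ) : ∃ (N : ℕ) (a : MvPolynomial Var' ℂ),
    (iot ν ζ (X ⟨.t, by decide⟩) * iot ν ζ (X ⟨.w, by decide⟩)) ^ N * r = iot ν ζ a := by
  obtain ⟨G, rfl⟩ := Ideal.Quotient.mk_surjective r
  set u := iot ν ζ (X ⟨.t, by decide⟩) * iot ν ζ (X ⟨.w, by decide⟩) with hu
  set v : MvPolynomial Var' ℂ := X ⟨.t, by decide⟩ * X ⟨.w, by decide⟩ with hv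
  have huv : u = iot ν ζ v := by rw [hu, hv, map_mul]
  induction G using MvPolynomial.induction_on with
  | C c => exact ⟨0, C c, by rw [pow_zero, one_mul, iot_apply, rename_C]⟩
  | add f g hf hg =>
    obtain ⟨N, a, ha⟩ := hf
    obtain ⟨M, b, hb⟩ := hg
    refine ⟨N + M, v ^ M * a + v ^ N * b, ?_⟩
    rw [map_add, map_add, map_mul, map_mul, ← ha, ← hb, map_pow, map_pow, ← huv]
    ring
  | mul_X f y hf =>
    obtain ⟨N, a, ha⟩ := hf
    by_cases h : y = .s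
    · subst h
      refine ⟨N + 2, a * X ⟨.t, by decide⟩ * BP' ν ζ, ?_⟩
      rw [map_mul, map_mul, map_mul, ← ha, iot_apply ν ζ (BP' ν ζ), rename_BP']
      have h1 : Ideal.Quotient.mk (Ideal.span {Feq ν ζ}) (BP ν ζ) =
          Ideal.Quotient.mk (Ideal.span {Feq ν ζ}) (X .s * X .t * X .w ^ 2) := by
        rw [eq_comm, Ideal.Quotient.mk_eq_mk_iff_sub_mem]
        exact Ideal.mem_span_singleton_self _
      rw [h1, hu]
      simp only [iot_apply, rename_X, map_mul, map_pow]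
      ring
    · refine ⟨N, a * X ⟨y, h⟩, ?_⟩
      rw [map_mul, map_mul, ← ha, iot_apply ν ζ (X ⟨y, h⟩), rename_X]
      ring

theorem ufd_factorial {ν ζ : ℂ} (hE : (1 + ν) ^ 2 * (1 + ζ) ^ 2 = ν * ζ) (hν1 : ν ≠ 1)
    (hν : ν ≠ -1) (hζ : ζ ≠ 0) :
    ∃ _ : IsDomain (Cox ν ζ), UniqueFactorizationMonoid (Cox ν ζ) := by
  have := isDomain_Cox (ζ := ζ) hν
  refine ⟨inferInstance, ?_⟩
  refine nagata (iot ν ζ) (iot_injective ν ζ) (X ⟨.t, by decide⟩) (X ⟨.w, by decide⟩) ?_ ?_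
    (iot_surj ν ζ)
  · rw [iot_apply, rename_X]
    exact ufd_prime hE hν1 hν hζ .t
  · rw [iot_apply, rename_X]
    exact ufd_prime hE hν1 hν hζ .w

end UfdJ

open MvPolynomial

theorem geom_prime {ν ζ : ℂ} (hE : (1 + ν) ^ 2 * (1 + ζ) ^ 2 = ν * ζ) (_hν0 : ν ≠ 0) (hν1 : ν ≠ 1)
    (hνm : ν ≠ -1) (hζ0 : ζ ≠ 0) (_hζ1 : ζ ≠ 1) (_hζm : ζ ≠ -1) :
    ∀ r : Var, Prime (Ideal.Quotient.mk (Ideal.span {Feq ν ζ}) (MvPolynomial.X r)) :=
  fun r => UfdJ.ufd_prime hE hν1 hνm hζ0 r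

theorem geom_distinct {ν ζ : ℂ} (_hE : (1 + ν) ^ 2 * (1 + ζ) ^ 2 = ν * ζ) (_hν0 : ν ≠ 0)
    (_hν1 : ν ≠ 1) (_hνm : ν ≠ -1) (_hζ0 : ζ ≠ 0) (_hζ1 : ζ ≠ 1) (_hζm : ζ ≠ -1) :
    ∀ r r' : Var, Ideal.Quotient.mk (Ideal.span {Feq ν ζ}) (MvPolynomial.X r) ∣
    Ideal.Quotient.mk (Ideal.span {Feq ν ζ}) (MvPolynomial.X r') → r = r' :=
  fun r r' h => UfdJ.ufd_distinct ν ζ r r' h

theorem geom_factorial {ν ζ : ℂ} (hE : (1 + ν) ^ 2 * (1 + ζ) ^ 2 = ν * ζ) (_hν0 : ν ≠ 0)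
    (hν1 : ν ≠ 1) (hνm : ν ≠ -1) (hζ0 : ζ ≠ 0) (_hζ1 : ζ ≠ 1) (_hζm : ζ ≠ -1) :
    ∃ _ : IsDomain (Cox ν ζ), UniqueFactorizationMonoid (Cox ν ζ) :=
  UfdJ.ufd_factorial hE hν1 hνm hζ0

end

end Pool.Agent.DPFib
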