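import Pool.Agent.DPFib.Core
import Pool.Agent.DPFib.Fam
import Pool.Agent.DPFib.Geom1
import Pool.Agent.DPFib.Geom2
import Pool.Agent.DPFib.Geom3
import Pool.Agent.DPFib.Geom4
import Pool.Agent.DPFib.Ufd

/-!
# MP_9669a9_ag, module K: final assembly
-/

namespace Pool.Agent.DPFib

noncomputable section

theorem exists_general {N : Set (ℂ × ℂ)} (hN : N.Countable) :
    ∃ x ρ : ℂ, (1 + x ^ 2) * (1 + ρ ^ 2) = x * ρ ∧ (x, ρ) ∉ N ∧
      x ^ 2 ≠ 0 ∧ x ^ 2 ≠ 1 ∧ x ^ 2 ≠ -1 ∧ ρ ^ 2 ≠ 0 ∧ ρ ^ 2 ≠ 1 ∧ ρ ^ 2 ≠ -1 := by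
  have hbad : (Prod.snd '' N ∪ {ρ : ℂ | ρ ^ 2 = 0 ∨ ρ ^ 2 = 1 ∨ ρ ^ 2 = -1 ∨
      2 * (1 + ρ ^ 2) = ρ ∨ 2 * (1 + ρ ^ 2) = - ρ}).Countable := by
    refine (hN.image _).union ?_
    have h1 : ∀ q : Polynomial ℂ, q ≠ 0 → {ρ : ℂ | q.eval ρ = 0}.Countable := by
      intro q hq
      exact (Polynomial.finite_setOfPred_isRoot hq).countable
    have e : {ρ : ℂ | ρ ^ 2 = 0 ∨ ρ ^ 2 = 1 ∨ ρ ^ 2 = -1 ∨
      2 * (1 + ρ ^ 2) = ρ ∨ 2 * (1 + ρ ^ 2) = - ρ} =
        {ρ : ℂ | (Polynomial.X ^ 2 : Polynomial ℂ).eval ρ = 0} ∪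
        {ρ : ℂ | (Polynomial.X ^ 2 - Polynomial.C 1 : Polynomial ℂ).eval ρ = 0} ∪
        {ρ : ℂ | (Polynomial.X ^ 2 + Polynomial.C 1 : Polynomial ℂ).eval ρ = 0} ∪
        {ρ : ℂ | (Polynomial.C 2 * Polynomial.X ^ 2 - Polynomial.C 1 * Polynomial.X + Polynomial.C 2 :
          Polynomial ℂ).eval ρ = 0} ∪
        {ρ : ℂ | (Polynomial.C 2 * Polynomial.X ^ 2 + Polynomial.C 1 * Polynomial.X + Polynomial.C 2 :
          Polynomial ℂ).eval ρ = 0} := by
      ext ρ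
      simp only [Set.mem_ofPred_eq, Set.mem_union, Polynomial.eval_add, Polynomial.eval_sub,
        Polynomial.eval_mul, Polynomial.eval_pow, Polynomial.eval_X, Polynomial.eval_C]
      constructor
      · rintro (h | h | h | h | h)
        · simp [h]
        · left; left; left; right; linear_combination h
        · left; left; right; linear_combination h
        · left; right; linear_combination h
        · right; linear_combination h
      · rintro ((((h | h) | h) | h) | h)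
        · simp [h]
        · right; left; linear_combination h
        · right; right; left; linear_combination h
        · right; right; right; left; linear_combination h
        · right; right; right; right; linear_combination h
    rw [e]
    have hne : ∀ q : Polynomial ℂ, q.coeff 2 ≠ 0 → q ≠ 0 := by
      rintro q hq rfl; simp at hq
    refine ((((h1 _ (hne _ ?_)).union (h1 _ (hne _ ?_))).union (h1 _ (hne _ ?_))).union
      (h1 _ (hne _ ?_))).union (h1 _ (hne _ ?_)) <;>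
      simp [Polynomial.coeff_X, Polynomial.coeff_one, Polynomial.coeff_C]
  obtain ⟨ρ, hρ⟩ : ∃ ρ : ℂ, ρ ∉ (Prod.snd '' N ∪ {ρ : ℂ | ρ ^ 2 = 0 ∨ ρ ^ 2 = 1 ∨ ρ ^ 2 = -1 ∨
      2 * (1 + ρ ^ 2) = ρ ∨ 2 * (1 + ρ ^ 2) = - ρ}) := by
    by_contra hcon
    push Not at hcon
    exact not_countable_complex (hbad.mono fun x _ => hcon x)
  simp only [Set.mem_union, Set.mem_ofPred_eq, not_or, Set.mem_image, Prod.exists,
    exists_eq_right, not_exists] at hρ
  obtain ⟨hρN, hρ0, hρ1, hρm, hρ4, hρ5⟩ := hρ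
  have h1 : (1 + ρ ^ 2) ≠ 0 := fun h => hρm (by linear_combination h)
  obtain ⟨x, hx⟩ : ∃ x : ℂ, (1 + ρ ^ 2) * (x * x) + (- ρ) * x + (1 + ρ ^ 2) = 0 := by
    obtain ⟨s, hs⟩ := IsAlgClosed.exists_pow_nat_eq (discrim (1 + ρ ^ 2) (-ρ) (1 + ρ ^ 2))
      (n := 2) (by norm_num)
    exact exists_quadratic_eq_zero h1 ⟨s, by rw [← hs]; ring⟩
  refine ⟨x, ρ, by linear_combination hx, fun h => hρN x h, ?_, ?_, ?_, hρ0, hρ1, hρm⟩
  · intro h
    have : x = 0 := by simpa using h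
    subst this
    apply h1; linear_combination hx
  · intro h
    have h2 : (x - 1) * (x + 1) = 0 := by linear_combination h
    rcases mul_eq_zero.mp h2 with h3 | h3
    · obtain rfl : x = 1 := by linear_combination h3
      apply hρ4; linear_combination hx
    · obtain rfl : x = -1 := by linear_combination h3
      apply hρ5; linear_combination hx
  · intro h
    have h2 : x * ρ = 0 := by linear_combination (1 + ρ ^ 2) * h - hx
    rcases mul_eq_zero.mp h2 with h3 | h3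
    · rw [h3] at h; norm_num at h
    · apply hρ0; rw [h3]; norm_num

theorem geometry {ν ζ : ℂ} (hE : (1 + ν) ^ 2 * (1 + ζ) ^ 2 = ν * ζ) (hν0 : ν ≠ 0) (hν1 : ν ≠ 1)
    (hνm : ν ≠ -1) (hζ0 : ζ ≠ 0) (hζ1 : ζ ≠ 1) (hζm : ζ ≠ -1) : Geometry ν ζ where
  smooth := geom_smooth hE hν0 hν1 hνm hζ0 hζ1 hζm
  free := fun z hz c hc =>
    ⟨geom_invariant z hz c hc, geom_free hE hν0 hν1 hνm hζ0 hζ1 hζm z hz c hc⟩
  semistable := ⟨geom_pointed, geom_semistable⟩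
  factorial := ⟨geom_factorial hE hν0 hν1 hνm hζ0 hζ1 hζm,
    geom_prime hE hν0 hν1 hνm hζ0 hζ1 hζm, geom_distinct hE hν0 hν1 hνm hζ0 hζ1 hζm,
    geom_divisors hE hν0 hν1 hνm hζ0 hζ1 hζm⟩
  quartic := fun τ hτ => ⟨geom_quartic_smooth τ hτ, geom_fibre_map hE hνm hζ0 τ hτ,
    geom_fibre_surj hE hνm hζ0 τ hτ, geom_fibre_inj hE hνm hζ0 τ hτ⟩
  curves := geom_curves hE hν0 hν1 hνm hζ0 hζ1 hζm

theorem Q1_false : ∃ ν ζ : ℂ, (1 + ν) ^ 2 * (1 + ζ) ^ 2 = ν * ζ ∧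
    ν ≠ 0 ∧ ν ≠ 1 ∧ ν ≠ -1 ∧ ζ ≠ 0 ∧ ζ ≠ 1 ∧ ζ ≠ -1 ∧
    ∀ κ : Cardinal.{0}, κ ≠ 0 → ¬ Q1 ν ζ κ := by
  obtain ⟨N, hN, hcore⟩ := core
  obtain ⟨x, ρ, hE, hxρ, hx0, hx1, hxm, hρ0, hρ1, hρm⟩ := exists_general hN
  have hνζ : (1 + x ^ 2) ^ 2 * (1 + ρ ^ 2) ^ 2 = x ^ 2 * ρ ^ 2 := by
    have h : ((1 + x ^ 2) * (1 + ρ ^ 2)) ^ 2 = (x * ρ) ^ 2 := by rw [hE]
    linear_combination h
  refine ⟨x ^ 2, ρ ^ 2, hνζ, hx0, hx1, hxm, hρ0, hρ1, hρm, ?_⟩
  intro κ hκ hQ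
  obtain ⟨v, hv, hve, hvt, hvg, hvs, hv2⟩ := hQ true true
  obtain ⟨v', hv', hve', hvt', hvg', hvs', hv2'⟩ := hQ false true
  obtain ⟨M, hM⟩ := exists_nat_gt (∑ r, |v r| + ∑ r, |v' r|)
  have hMv : ∀ r, v r ≤ M := fun r => by
    have h1 : |v r| ≤ ∑ r, |v r| := Finset.single_le_sum (f := fun r => |v r|)
      (fun i _ => abs_nonneg _) (Finset.mem_univ r)
    have h2 : 0 ≤ ∑ r, |v' r| := Finset.sum_nonneg fun i _ => abs_nonneg _
    have h3 := le_abs_self (v r)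
    linarith
  have hMv' : ∀ r, v' r ≤ M := fun r => by
    have h1 : |v' r| ≤ ∑ r, |v' r| := Finset.single_le_sum (f := fun r => |v' r|)
      (fun i _ => abs_nonneg _) (Finset.mem_univ r)
    have h2 : 0 ≤ ∑ r, |v r| := Finset.sum_nonneg fun i _ => abs_nonneg _
    have h3 := le_abs_self (v' r)
    linarith
  have h1 := hv2 (clTT ((M + 2 : ℕ) : ℤ) ((M + 3 : ℕ) : ℤ)) ?_ ?_
  have h2 := hv2' (clFT ((M + 2 : ℕ) : ℤ) ((M + 3 : ℕ) : ℤ)) ?_ ?_
  · have hm : x ^ 2 ≠ -1 := hxm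
    obtain ⟨hf1, hc1⟩ := families_tt (a := M + 2) (b := M + 3) (by omega) (by omega) hνζ hm hρ0
    obtain ⟨hf2, hc2⟩ := families_ft (a := M + 2) (b := M + 3) (by omega) (by omega) hνζ hm hρ0
    have hρ' : ρ ≠ 0 := fun h => hρ0 (by rw [h]; norm_num)
    have h3 := hcore x ρ hE hxρ hρ' (M + 2) (M + 3) (by omega) (by omega)
    have e1 : ((families (x ^ 2) (ρ ^ 2) (clTT ((M + 2 : ℕ) : ℤ) ((M + 3 : ℕ) : ℤ))).ncard :
        Cardinal.{0}) = κ := by
      rw [← h1]; exact Set.cast_ncard hf1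
    have e2 : ((families (x ^ 2) (ρ ^ 2) (clFT ((M + 2 : ℕ) : ℤ) ((M + 3 : ℕ) : ℤ))).ncard :
        Cardinal.{0}) = κ := by
      rw [← h2]; exact Set.cast_ncard hf2
    have e3 := e1.trans e2.symm
    rw [Nat.cast_inj] at e3
    have h0 : (families (x ^ 2) (ρ ^ 2) (clFT ((M + 2 : ℕ) : ℤ) ((M + 3 : ℕ) : ℤ))).ncard = 0 := by
      omega
    rw [h0] at e2
    exact hκ (by rw [← e2]; simp)
  · refine ⟨⟨?_, ?_, ?_, ?_⟩, ?_, ?_, ?_, ?_⟩ <;> simp [clFT] <;> ring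
  · refine ⟨?_, ?_⟩
    · obtain ⟨c1, c2, c3, c4⟩ := hv'
      refine ⟨?_, ?_, ?_, ?_⟩ <;> simp only [clFT] <;> push_cast <;> linarith
    · intro r
      cases r <;> simp only [clFT] <;> push_cast <;>
        first
        | (have := hMv' .t; linarith)
        | (have := hMv' .s; linarith)
        | (have := hMv' .e; linarith)
        | (have := hMv' .g; linarith)
        | (have := hMv' .x; linarith)
        | (have := hMv' .y; linarith)
        | (have := hMv' .p; linarith)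
        | (have := hMv' .q; linarith)
        | (have := hMv' .w; linarith)
  · refine ⟨⟨?_, ?_, ?_, ?_⟩, ?_, ?_, ?_, ?_⟩ <;> simp [clTT] <;> ring
  · refine ⟨?_, ?_⟩
    · obtain ⟨c1, c2, c3, c4⟩ := hv
      refine ⟨?_, ?_, ?_, ?_⟩ <;> simp only [clTT] <;> push_cast <;> linarith
    · intro r
      cases r <;> simp only [clTT] <;> push_cast <;>
        first
        | (have := hMv .t; linarith)
        | (have := hMv .s; linarith)
        | (have := hMv .e; linarith)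
        | (have := hMv .g; linarith)
        | (have := hMv .x; linarith)
        | (have := hMv .y; linarith)
        | (have := hMv .p; linarith)
        | (have := hMv .q; linarith)
        | (have := hMv .w; linarith)

end

end Pool.Agent.DPFib
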