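import Pool.Agent.DPFib.Threefold
import Pool.Agent.DPFib.Basic

/-!
# MP_9669a9_ag: values of binary forms given by polynomials
-/

namespace Pool.Agent.DPFib

open Polynomial

noncomputable section

/-- value at `(θ,σ)` of the form of degree `n` given by the polynomial `f` of degree `≤ n` -/
def hom (n : ℕ) (f : ℂ[X]) (θ σ : ℂ) : ℂ :=
  ∑ i ∈ Finset.range (n + 1), f.coeff i * θ ^ i * σ ^ (n - i)

variable {n m : ℕ} {f g : ℂ[X]} {θ σ : ℂ}

theorem hom_one (hf : f.natDegree ≤ n) (θ : ℂ) : hom n f θ 1 = f.eval θ := by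
  rw [eval_eq_sum_range' (Nat.lt_succ_of_le hf)]
  simp [hom]

theorem hom_eq (hf : f.natDegree ≤ n) (hσ : σ ≠ 0) : hom n f θ σ = σ ^ n * f.eval (θ / σ) := by
  rw [eval_eq_sum_range' (Nat.lt_succ_of_le hf), Finset.mul_sum, hom]
  refine Finset.sum_congr rfl fun i hi => ?_
  have hi' : i ≤ n := Nat.lt_succ_iff.mp (Finset.mem_range.mp hi)
  have : σ ^ n = σ ^ (n - i) * σ ^ i := by rw [← pow_add, Nat.sub_add_cancel hi']
  rw [this, div_pow]
  field_simp

theorem hom_zero_right (n : ℕ) (f : ℂ[X]) (θ : ℂ) : hom n f θ 0 = f.coeff n * θ ^ n := by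
  rw [hom, Finset.sum_eq_single n]
  · simp
  · intro i hi hne
    have : n - i ≠ 0 := by have := Finset.mem_range.mp hi; omega
    rw [zero_pow this, mul_zero]
  · intro h; exact absurd (Finset.mem_range.mpr (Nat.lt_succ_self n)) h

theorem hom_mul (hf : f.natDegree ≤ n) (hg : g.natDegree ≤ m) (θ σ : ℂ) :
    hom (n + m) (f * g) θ σ = hom n f θ σ * hom m g θ σ := by
  by_cases hσ : σ = 0
  · subst hσ
    rw [hom_zero_right, hom_zero_right, hom_zero_right, coeff_mul_add_eq_of_natDegree_le hf hg, pow_add]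
    ring
  · rw [hom_eq hf hσ, hom_eq hg hσ, hom_eq (natDegree_mul_le.trans (add_le_add hf hg)) hσ,
      eval_mul, pow_add]
    ring

theorem hom_pow (hf : f.natDegree ≤ n) (k : ℕ) (θ σ : ℂ) :
    hom (k * n) (f ^ k) θ σ = hom n f θ σ ^ k := by
  induction k with
  | zero => simp [hom]
  | succ k ih =>
    have h1 : (k + 1) * n = k * n + n := by ring
    rw [h1, pow_succ, hom_mul (natDegree_pow_le.trans (Nat.mul_le_mul_left k hf)) hf, ih, pow_succ]

theorem hom_add (θ σ : ℂ) : hom n (f + g) θ σ = hom n f θ σ + hom n g θ σ := by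
  simp [hom, add_mul, Finset.sum_add_distrib]

theorem hom_sub (θ σ : ℂ) : hom n (f - g) θ σ = hom n f θ σ - hom n g θ σ := by
  simp [hom, sub_mul, Finset.sum_sub_distrib]

theorem hom_C_mul (r : ℂ) (θ σ : ℂ) : hom n (C r * f) θ σ = r * hom n f θ σ := by
  simp [hom, Finset.mul_sum, mul_assoc]

theorem hom_X (θ σ : ℂ) : hom 1 (X : ℂ[X]) θ σ = θ := by
  simp [hom, Finset.sum_range_succ, coeff_X]

theorem hom_one_one (θ σ : ℂ) : hom 1 (1 : ℂ[X]) θ σ = σ := by
  simp [hom, Finset.sum_range_succ, coeff_one]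

theorem hom_zero_C (r θ σ : ℂ) : hom 0 (C r : ℂ[X]) θ σ = r := by
  simp [hom]

theorem hom_scale (n : ℕ) (f : ℂ[X]) (l θ σ : ℂ) :
    hom n f (l * θ) (l * σ) = l ^ n * hom n f θ σ := by
  rw [hom, hom, Finset.mul_sum]
  refine Finset.sum_congr rfl fun i hi => ?_
  have hi' : i ≤ n := Nat.lt_succ_iff.mp (Finset.mem_range.mp hi)
  have : l ^ n = l ^ (n - i) * l ^ i := by rw [← pow_add, Nat.sub_add_cancel hi']
  rw [this, mul_pow, mul_pow]
  ring

/-- `NoZero` in terms of values -/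
theorem noZero_iff_forall {n : ℕ} {f g : ℂ[X]} (hf : f.natDegree ≤ n) (hg : g.natDegree ≤ n) :
    NoZero n f g ↔ ∀ θ σ : ℂ, (θ ≠ 0 ∨ σ ≠ 0) → hom n f θ σ ≠ 0 ∨ hom n g θ σ ≠ 0 := by
  constructor
  · rintro ⟨hc, h⟩ θ σ hθσ
    by_cases hσ : σ = 0
    · subst hσ
      have hθ : θ ≠ 0 := by simpa using hθσ
      rw [hom_zero_right, hom_zero_right]
      rcases h with h | h
      · exact Or.inl (mul_ne_zero h (pow_ne_zero _ hθ))
      · exact Or.inr (mul_ne_zero h (pow_ne_zero _ hθ))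
    · rw [hom_eq hf hσ, hom_eq hg hσ]
      by_contra hcon
      push Not at hcon
      obtain ⟨p, q, e⟩ := hc
      have h1 : f.eval (θ / σ) = 0 := by
        rcases mul_eq_zero.mp hcon.1 with h | h
        · exact absurd h (pow_ne_zero _ hσ)
        · exact h
      have h2 : g.eval (θ / σ) = 0 := by
        rcases mul_eq_zero.mp hcon.2 with h | h
        · exact absurd h (pow_ne_zero _ hσ)
        · exact h
      have := congrArg (Polynomial.eval (θ / σ)) e
      simp [h1, h2] at this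
  · intro h
    refine ⟨?_, ?_⟩
    · rw [Polynomial.isCoprime_iff_aeval_ne_zero_of_isAlgClosed ℂ ℂ]
      intro x
      have := h x 1 (Or.inr one_ne_zero)
      rw [hom_one hf, hom_one hg] at this
      simpa using this
    · have := h 1 0 (Or.inl one_ne_zero)
      rw [hom_zero_right, hom_zero_right] at this
      simpa using this

/-- the polynomials of a tuple of forms -/
def Pc {R : Type*} [CommRing R] {α : Var → ℤ} (c : CIx α → R) (r : Var) : R[X] :=
  pol fun i => c ⟨r, i⟩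

theorem natDegree_Pc {R : Type*} [CommRing R] {α : Var → ℤ} (c : CIx α → R) (r : Var) :
    (Pc c r).natDegree ≤ (α r).toNat := by
  refine (natDegree_pol_le' _).trans ?_
  omega

theorem pt_eq_hom {α : Var → ℤ} (c : CIx α → ℂ) (r : Var) (hr : 0 ≤ α r) (θ σ : ℂ) :
    pt c θ σ r = hom (α r).toNat (Pc c r) θ σ := by
  have h1 : (α r + 1).toNat = (α r).toNat + 1 := by omega
  rw [hom, pt, Finset.sum_range]
  have h2 : ∀ i : Fin ((α r).toNat + 1), (Pc c r).coeff i = c ⟨r, Fin.cast h1.symm i⟩ := by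
    intro i
    rw [Pc, coeff_pol_of_lt _ (by omega : (i : ℕ) < (α r + 1).toNat)]
    rfl
  simp only [h2]
  exact Fintype.sum_equiv (finCongr h1) _ _ (fun i => by simp)

/-- the tuple of forms with given polynomials -/
def ofP {R : Type*} [CommRing R] (α : Var → ℤ) (P : Var → R[X]) : CIx α → R
  | ⟨r, i⟩ => (P r).coeff (i : ℕ)

theorem ofP_apply {R : Type*} [CommRing R] (α : Var → ℤ) (P : Var → R[X]) (r : Var)
    (i : Fin (α r + 1).toNat) : ofP α P ⟨r, i⟩ = (P r).coeff (i : ℕ) := rfl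

theorem Pc_ofP {R : Type*} [CommRing R] {α : Var → ℤ} {P : Var → R[X]} {r : Var}
    (h : (P r).degree < (α r + 1).toNat) : Pc (ofP α P) r = P r := by
  rw [Pc]
  simp only [ofP_apply]
  exact pol_coeff_of_degree_lt h

theorem Pc_ofP' {R : Type*} [CommRing R] {α : Var → ℤ} {P : Var → R[X]} {r : Var}
    (hr : 0 ≤ α r) (h : (P r).natDegree ≤ (α r).toNat) : Pc (ofP α P) r = P r := by
  refine Pc_ofP ?_
  have h1 : (α r + 1).toNat = (α r).toNat + 1 := by omega
  rw [h1]
  exact (degree_le_natDegree).trans_lt (by exact_mod_cast Nat.lt_succ_of_le h)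

theorem ofP_Pc {R : Type*} [CommRing R] {α : Var → ℤ} (c : CIx α → R) :
    ofP α (Pc c) = c := by
  funext i
  obtain ⟨r, i⟩ := i
  rw [ofP_apply, Pc]
  exact coeff_pol_of_lt _ i.2

end

end Pool.Agent.DPFib
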