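import Pool.Agent.DPFib.Alg

/-!
# MP_9669a9_ag, module B: change of coordinates on `P^1`
-/

namespace Pool.Agent.DPFib

open Polynomial

noncomputable section

/-- The substitution `(θ,σ) ↦ (θ,σ+kθ)` on forms of degree `n`. -/
def Tm (k : ℂ) (n : ℕ) (p : ℂ[X]) : ℂ[X] := reflect n (taylor k (reflect n p))

section Tm

variable {k : ℂ} {m n N : ℕ} {p q : ℂ[X]}

lemma natDegree_reflect_le' (h : p.natDegree ≤ n) : (reflect n p).natDegree ≤ n :=
  natDegree_reflect_le.trans (max_le le_rfl h)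

lemma natDegree_Tm (h : p.natDegree ≤ n) : (Tm k n p).natDegree ≤ n :=
  natDegree_reflect_le' (by rw [natDegree_taylor]; exact natDegree_reflect_le' h)

lemma Tm_add : Tm k n (p + q) = Tm k n p + Tm k n q := by
  simp only [Tm, reflect_add, map_add]

lemma Tm_sub : Tm k n (p - q) = Tm k n p - Tm k n q := by
  simp only [Tm, reflect_sub, map_sub]

lemma Tm_two : Tm k n (2 * p) = 2 * Tm k n p := by
  rw [two_mul, two_mul, Tm_add]

lemma Tm_mul (hp : p.natDegree ≤ m) (hq : q.natDegree ≤ n) (hN : N = m + n) :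
    Tm k N (p * q) = Tm k m p * Tm k n q := by
  subst hN
  unfold Tm
  rw [reflect_mul p q hp hq, taylor_mul, reflect_mul]
  · rw [natDegree_taylor]; exact natDegree_reflect_le' hp
  · rw [natDegree_taylor]; exact natDegree_reflect_le' hq

lemma Tm_Tm : Tm (-k) n (Tm k n p) = p := by
  unfold Tm
  rw [reflect_reflect, taylor_taylor, neg_add_cancel, taylor_zero, reflect_reflect]

lemma Tm_Tm' : Tm k n (Tm (-k) n p) = p := by
  unfold Tm
  rw [reflect_reflect, taylor_taylor, add_neg_cancel, taylor_zero, reflect_reflect]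

lemma coeff_zero_Tm (h : p.natDegree ≤ n) : (Tm k n p).coeff 0 = p.coeff 0 := by
  have hr := natDegree_reflect_le' h
  have key : (taylor k (reflect n p)).coeff n = (reflect n p).coeff n := by
    rcases lt_or_eq_of_le hr with h1 | h1
    · rw [coeff_eq_zero_of_natDegree_lt h1,
        coeff_eq_zero_of_natDegree_lt (by rw [natDegree_taylor]; exact h1)]
    · have h2 := coeff_taylor_natDegree k (reflect n p)
      rw [h1] at h2
      rw [h2, leadingCoeff, h1]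
  unfold Tm
  rw [coeff_reflect, revAt_le (Nat.zero_le n), Nat.sub_zero, key, coeff_reflect, revAt_le le_rfl,
    Nat.sub_self]

lemma coeff_top_Tm : (Tm k n p).coeff n = (reflect n p).eval k := by
  unfold Tm
  rw [coeff_reflect, revAt_le le_rfl, Nat.sub_self, taylor_coeff_zero]

lemma eval_reflect {r : ℂ} (hr : r ≠ 0) (h : p.natDegree ≤ n) :
    (reflect n p).eval r = 0 ↔ p.eval r⁻¹ = 0 := by
  have hr' : r⁻¹ ≠ 0 := inv_ne_zero hr
  let _ : Invertible r⁻¹ := invertibleOfNonzero hr'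
  have h1 := eval₂_reflect_eq_zero_iff (RingHom.id ℂ) r⁻¹ n p h
  rw [invOf_eq_inv, inv_inv] at h1
  exact h1

lemma Tm_X : Tm k 2 X = X * (1 + C k * X) := by
  have e1 : Tm k 2 (X * 1) = Tm k 1 X * Tm k 1 1 :=
    Tm_mul natDegree_X_le (by rw [natDegree_one]; exact Nat.zero_le _) rfl
  have e2 : Tm k 1 X = X := by
    unfold Tm
    rw [reflect_one_X, taylor_one, C_1, reflect_one, pow_one]
  have e3 : Tm k 1 1 = 1 + C k * X := by
    unfold Tm
    rw [reflect_one, pow_one, taylor_X, reflect_add, reflect_one_X, reflect_C, pow_one]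
  rw [mul_one, e2, e3] at e1
  exact e1

end Tm

lemma noZero_reflect {n : ℕ} {f g : ℂ[X]} (hf : f.natDegree ≤ n) (hg : g.natDegree ≤ n)
    (h : NoZero n f g) : NoZero n (reflect n f) (reflect n g) := by
  obtain ⟨hc, ht⟩ := h
  rw [Polynomial.isCoprime_iff_aeval_ne_zero_of_isAlgClosed ℂ ℂ] at hc
  simp only [coe_aeval_eq_eval] at hc
  refine ⟨?_, ?_⟩
  · rw [Polynomial.isCoprime_iff_aeval_ne_zero_of_isAlgClosed ℂ ℂ]
    simp only [coe_aeval_eq_eval]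
    intro r
    by_cases hr : r = 0
    · subst hr
      rw [← coeff_zero_eq_eval_zero, ← coeff_zero_eq_eval_zero, coeff_reflect, coeff_reflect,
        revAt_le (Nat.zero_le n), Nat.sub_zero]
      exact ht
    · rcases hc r⁻¹ with h1 | h1
      · left; rwa [Ne, eval_reflect hr hf]
      · right; rwa [Ne, eval_reflect hr hg]
  · rw [coeff_reflect, coeff_reflect, revAt_le le_rfl, Nat.sub_self]
    have := hc 0
    rwa [← coeff_zero_eq_eval_zero, ← coeff_zero_eq_eval_zero] at this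

lemma coeff_taylor_top {k : ℂ} {n : ℕ} {f : ℂ[X]} (h : f.natDegree ≤ n) :
    (taylor k f).coeff n = f.coeff n := by
  rcases lt_or_eq_of_le h with h1 | h1
  · rw [coeff_eq_zero_of_natDegree_lt h1,
      coeff_eq_zero_of_natDegree_lt (by rw [natDegree_taylor]; exact h1)]
  · have h2 := coeff_taylor_natDegree k f
    rw [h1] at h2
    rw [h2, leadingCoeff, h1]

lemma noZero_taylor {k : ℂ} {n : ℕ} {f g : ℂ[X]} (hf : f.natDegree ≤ n) (hg : g.natDegree ≤ n)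
    (h : NoZero n f g) : NoZero n (taylor k f) (taylor k g) := by
  obtain ⟨hc, ht⟩ := h
  refine ⟨?_, by rw [coeff_taylor_top hf, coeff_taylor_top hg]; exact ht⟩
  have := hc.map (taylorAlgHom k).toRingHom
  exact this

lemma noZero_Tm {k : ℂ} {n : ℕ} {f g : ℂ[X]} (hf : f.natDegree ≤ n) (hg : g.natDegree ≤ n)
    (h : NoZero n f g) : NoZero n (Tm k n f) (Tm k n g) := by
  unfold Tm
  refine noZero_reflect ?_ ?_ (noZero_taylor ?_ ?_ (noZero_reflect hf hg h))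
  · rw [natDegree_taylor]; exact natDegree_reflect_le' hf
  · rw [natDegree_taylor]; exact natDegree_reflect_le' hg
  · exact natDegree_reflect_le' hf
  · exact natDegree_reflect_le' hg

lemma nd_mul {p q : ℂ[X]} {m n N : ℕ} (hp : p.natDegree ≤ m) (hq : q.natDegree ≤ n)
    (hN : N = m + n) : (p * q).natDegree ≤ N := by
  subst hN
  exact natDegree_mul_le.trans (add_le_add hp hq)

lemma nd_add {p q : ℂ[X]} {n : ℕ} (hp : p.natDegree ≤ n) (hq : q.natDegree ≤ n) :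
    (p + q).natDegree ≤ n := (natDegree_add_le _ _).trans (max_le hp hq)

lemma nd_sub {p q : ℂ[X]} {n : ℕ} (hp : p.natDegree ≤ n) (hq : q.natDegree ≤ n) :
    (p - q).natDegree ≤ n := (natDegree_sub_le _ _).trans (max_le hp hq)

lemma nd_two {p : ℂ[X]} {n : ℕ} (hp : p.natDegree ≤ n) : (2 * p).natDegree ≤ n := by
  rw [two_mul]; exact nd_add hp hp

section forms

variable {k : ℂ} {a b : ℕ} {u0 u1 v0 v1 : ℂ[X]} (hu0 : u0.natDegree ≤ a) (hu1 : u1.natDegree ≤ a)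
  (hv0 : v0.natDegree ≤ b) (hv1 : v1.natDegree ≤ b)

include hu0 hu1 hv0 hv1

lemma Tm_Bf {N : ℕ} (hN : N = 2 * a + 2 * b) :
    Tm k N (Bf u0 u1 v0 v1) = Bf (Tm k a u0) (Tm k a u1) (Tm k b v0) (Tm k b v1) := by
  unfold Bf
  have hs := nd_add hu0 hu1
  have ht := nd_add hv0 hv1
  rw [pow_two, pow_two, Tm_sub, Tm_mul (nd_mul hs hs rfl) (nd_mul ht ht rfl) (by omega),
    Tm_mul hs hs rfl, Tm_mul ht ht rfl, Tm_mul (nd_mul hu0 hu1 rfl) (nd_mul hv0 hv1 rfl) (by omega),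
    Tm_mul hu0 hu1 rfl, Tm_mul hv0 hv1 rfl, Tm_add, Tm_add]
  ring

lemma nd_Bu0 : (Bu0 u0 u1 v0 v1).natDegree ≤ a + 2 * b := by
  unfold Bu0
  have hs := nd_add hu0 hu1
  have ht := nd_add hv0 hv1
  rw [pow_two]
  exact nd_sub (nd_mul (nd_two hs) (nd_mul ht ht rfl) (by omega))
    (nd_mul hu1 (nd_mul hv0 hv1 rfl) (by omega))

lemma nd_Bu1 : (Bu1 u0 u1 v0 v1).natDegree ≤ a + 2 * b := by
  unfold Bu1
  have hs := nd_add hu0 hu1
  have ht := nd_add hv0 hv1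
  rw [pow_two]
  exact nd_sub (nd_mul (nd_two hs) (nd_mul ht ht rfl) (by omega))
    (nd_mul hu0 (nd_mul hv0 hv1 rfl) (by omega))

lemma nd_Bv0 : (Bv0 u0 u1 v0 v1).natDegree ≤ 2 * a + b := by
  unfold Bv0
  have hs := nd_add hu0 hu1
  have ht := nd_add hv0 hv1
  rw [pow_two, mul_assoc 2]
  refine nd_sub (nd_two (nd_mul (nd_mul hs hs rfl) ht (by omega))) ?_
  exact nd_mul (nd_mul hu0 hu1 rfl) hv1 (by omega)

lemma nd_Bv1 : (Bv1 u0 u1 v0 v1).natDegree ≤ 2 * a + b := by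
  unfold Bv1
  have hs := nd_add hu0 hu1
  have ht := nd_add hv0 hv1
  rw [pow_two, mul_assoc 2]
  refine nd_sub (nd_two (nd_mul (nd_mul hs hs rfl) ht (by omega))) ?_
  exact nd_mul (nd_mul hu0 hu1 rfl) hv0 (by omega)

lemma Tm_Bu0 : Tm k (a + 2 * b) (Bu0 u0 u1 v0 v1) =
    Bu0 (Tm k a u0) (Tm k a u1) (Tm k b v0) (Tm k b v1) := by
  unfold Bu0
  have hs := nd_add hu0 hu1
  have ht := nd_add hv0 hv1
  rw [pow_two, Tm_sub, Tm_mul (nd_two hs) (nd_mul ht ht rfl) (by omega), Tm_two,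
    Tm_mul ht ht rfl, Tm_mul hu1 (nd_mul hv0 hv1 rfl) (by omega), Tm_mul hv0 hv1 rfl, Tm_add, Tm_add]
  ring

lemma Tm_Bu1 : Tm k (a + 2 * b) (Bu1 u0 u1 v0 v1) =
    Bu1 (Tm k a u0) (Tm k a u1) (Tm k b v0) (Tm k b v1) := by
  unfold Bu1
  have hs := nd_add hu0 hu1
  have ht := nd_add hv0 hv1
  rw [pow_two, Tm_sub, Tm_mul (nd_two hs) (nd_mul ht ht rfl) (by omega), Tm_two,
    Tm_mul ht ht rfl, Tm_mul hu0 (nd_mul hv0 hv1 rfl) (by omega), Tm_mul hv0 hv1 rfl, Tm_add, Tm_add]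
  ring

lemma Tm_Bv0 : Tm k (2 * a + b) (Bv0 u0 u1 v0 v1) =
    Bv0 (Tm k a u0) (Tm k a u1) (Tm k b v0) (Tm k b v1) := by
  unfold Bv0
  have hs := nd_add hu0 hu1
  have ht := nd_add hv0 hv1
  rw [pow_two, mul_assoc 2, mul_assoc 2, Tm_sub, Tm_two, Tm_mul (nd_mul hs hs rfl) ht (by omega),
    Tm_mul hs hs rfl, Tm_mul (nd_mul hu0 hu1 rfl) hv1 (by omega), Tm_mul hu0 hu1 rfl, Tm_add, Tm_add]
  ring

lemma Tm_Bv1 : Tm k (2 * a + b) (Bv1 u0 u1 v0 v1) =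
    Bv1 (Tm k a u0) (Tm k a u1) (Tm k b v0) (Tm k b v1) := by
  unfold Bv1
  have hs := nd_add hu0 hu1
  have ht := nd_add hv0 hv1
  rw [pow_two, mul_assoc 2, mul_assoc 2, Tm_sub, Tm_two, Tm_mul (nd_mul hs hs rfl) ht (by omega),
    Tm_mul hs hs rfl, Tm_mul (nd_mul hu0 hu1 rfl) hv0 (by omega), Tm_mul hu0 hu1 rfl, Tm_add, Tm_add]
  ring

end forms

/-- Vanishing at both ends after going back. -/
lemma back_ends {k : ℂ} (hk : k ≠ 0) {N : ℕ} {P : ℂ[X]} (hP : P.natDegree ≤ N)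
    (hc : X * (1 + C k * X) ∣ P) : (Tm (-k) N P).coeff 0 = 0 ∧ (Tm (-k) N P).coeff N = 0 := by
  obtain ⟨Q, rfl⟩ := hc
  constructor
  · rw [coeff_zero_Tm hP, mul_assoc, coeff_X_mul_zero]
  · rw [coeff_top_Tm, eval_reflect (neg_ne_zero.mpr hk) hP]
    simp only [eval_mul, eval_add, eval_one, eval_C, eval_X]
    field_simp
    ring

/-- Unobstructedness with prescribed points over `0` and `∞`. -/
theorem surj_X {a b : ℕ} (ha : 1 ≤ a) (hab : a + 1 ≤ b) {u0 u1 v0 v1 w : ℂ[X]}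
    (hu0 : u0.natDegree ≤ a) (hu1 : u1.natDegree ≤ a) (hv0 : v0.natDegree ≤ b)
    (hv1 : v1.natDegree ≤ b) (hw : w.natDegree ≤ a + b - 1)
    (hu : NoZero a u0 u1) (hv : NoZero b v0 v1) (hE : X * w ^ 2 = Bf u0 u1 v0 v1)
    (H : ℂ[X]) (hH : H.natDegree ≤ 2 * a + 2 * b - 3) :
    ∃ d0 d1 e0 e1 f : ℂ[X], d0.natDegree ≤ a - 1 ∧ d1.natDegree ≤ a - 1 ∧
      e0.natDegree ≤ b - 1 ∧ e1.natDegree ≤ b - 1 ∧ f.natDegree ≤ a + b - 2 ∧
      (u0 * d1 - u1 * d0).coeff 0 = 0 ∧ (u0 * d1 - u1 * d0).coeff (2 * a - 1) = 0 ∧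
      (v0 * e1 - v1 * e0).coeff 0 = 0 ∧ (v0 * e1 - v1 * e0).coeff (2 * b - 1) = 0 ∧
      Bu0 u0 u1 v0 v1 * d0 + Bu1 u0 u1 v0 v1 * d1 + Bv0 u0 u1 v0 v1 * e0 +
        Bv1 u0 u1 v0 v1 * e1 - 2 * X * w * f = X * H := by
  have hwne : w ≠ 0 := by
    rintro rfl
    apply Bf_ne_zero (by omega) hu0 hu1 hv0 hv1 hu hv
    rw [← hE]; ring
  -- choice of `k`
  obtain ⟨k, hk⟩ : ∃ k : ℂ, (X * reflect (a + b - 1) w).eval k ≠ 0 := by
    by_contra hcon
    push Not at hcon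
    have h1 : X * reflect (a + b - 1) w = 0 := Polynomial.funext fun r => by
      rw [hcon r, eval_zero]
    rcases mul_eq_zero.mp h1 with h2 | h2
    · exact X_ne_zero h2
    · exact hwne (reflect_eq_zero_iff.mp h2)
  rw [eval_mul, eval_X] at hk
  have hk0 : k ≠ 0 := left_ne_zero_of_mul hk
  have hkw : (reflect (a + b - 1) w).eval k ≠ 0 := right_ne_zero_of_mul hk
  have hXd : (X : ℂ[X]).natDegree ≤ 2 := natDegree_X_le.trans (by norm_num)
  have hcd : (X * (1 + C k * X) : ℂ[X]).natDegree = 2 := by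
    rw [natDegree_X_mul]
    · have : (1 + C k * X : ℂ[X]) = C k * X + C 1 := by rw [C_1]; ring
      rw [this, natDegree_linear hk0]
    · intro h
      have := congrArg (eval 0) h
      simp at this
  have hWd : (Tm k (a + b - 1) w).natDegree = a + b - 1 := by
    refine le_antisymm (natDegree_Tm hw) (le_natDegree_of_ne_zero ?_)
    rw [coeff_top_Tm]; exact hkw
  have hE' : X * (1 + C k * X) * (Tm k (a + b - 1) w) ^ 2 =
      Bf (Tm k a u0) (Tm k a u1) (Tm k b v0) (Tm k b v1) := by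
    rw [← Tm_Bf hu0 hu1 hv0 hv1 rfl, ← hE, pow_two, pow_two,
      Tm_mul hXd (nd_mul hw hw rfl) (by omega), Tm_mul hw hw rfl, Tm_X]
  obtain ⟨D0, D1, E0, E1, F, hD0, hD1, hE0, hE1, hF, hc1, hc2, hmain⟩ :=
    surj_good ha hab (natDegree_Tm (k := k) hu0) (natDegree_Tm (k := k) hu1)
      (natDegree_Tm (k := k) hv0) (natDegree_Tm (k := k) hv1) hWd hcd
      (noZero_Tm hu0 hu1 hu) (noZero_Tm hv0 hv1 hv) hE' (Tm k (2 * a + 2 * b - 3) H)
      (natDegree_Tm hH)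
  have hU0 := natDegree_Tm (k := k) hu0
  have hU1 := natDegree_Tm (k := k) hu1
  have hV0 := natDegree_Tm (k := k) hv0
  have hV1 := natDegree_Tm (k := k) hv1
  have hW := natDegree_Tm (k := k) hw
  refine ⟨Tm (-k) (a - 1) D0, Tm (-k) (a - 1) D1, Tm (-k) (b - 1) E0, Tm (-k) (b - 1) E1,
    Tm (-k) (a + b - 2) F, natDegree_Tm hD0, natDegree_Tm hD1, natDegree_Tm hE0, natDegree_Tm hE1,
    natDegree_Tm hF, ?_⟩
  have h1 : u0 * Tm (-k) (a - 1) D1 - u1 * Tm (-k) (a - 1) D0 =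
      Tm (-k) (2 * a - 1) (Tm k a u0 * D1 - Tm k a u1 * D0) := by
    rw [Tm_sub, Tm_mul hU0 hD1 (by omega), Tm_mul hU1 hD0 (by omega), Tm_Tm, Tm_Tm]
  have h2 : v0 * Tm (-k) (b - 1) E1 - v1 * Tm (-k) (b - 1) E0 =
      Tm (-k) (2 * b - 1) (Tm k b v0 * E1 - Tm k b v1 * E0) := by
    rw [Tm_sub, Tm_mul hV0 hE1 (by omega), Tm_mul hV1 hE0 (by omega), Tm_Tm, Tm_Tm]
  have b1 := back_ends hk0 (nd_sub (nd_mul hU0 hD1 (by omega : 2 * a - 1 = a + (a - 1)))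
    (nd_mul hU1 hD0 (by omega))) hc1
  have b2 := back_ends hk0 (nd_sub (nd_mul hV0 hE1 (by omega : 2 * b - 1 = b + (b - 1)))
    (nd_mul hV1 hE0 (by omega))) hc2
  rw [← h1] at b1
  rw [← h2] at b2
  refine ⟨b1.1, b1.2, b2.1, b2.2, ?_⟩
  have h3 := congrArg (Tm (-k) (2 * a + 2 * b - 1)) hmain
  have hcd' : (X * (1 + C k * X) : ℂ[X]).natDegree ≤ 2 := hcd.le
  have hTc : Tm (-k) 2 (X * (1 + C k * X)) = X := by rw [← Tm_X, Tm_Tm]
  rw [Tm_sub, Tm_add, Tm_add, Tm_add, mul_assoc 2, mul_assoc 2, Tm_two,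
    Tm_mul (nd_Bu0 hU0 hU1 hV0 hV1) hD0 (by omega), Tm_mul (nd_Bu1 hU0 hU1 hV0 hV1) hD1 (by omega),
    Tm_mul (nd_Bv0 hU0 hU1 hV0 hV1) hE0 (by omega), Tm_mul (nd_Bv1 hU0 hU1 hV0 hV1) hE1 (by omega),
    Tm_mul (nd_mul hcd' hW rfl) hF (by omega), Tm_mul hcd' hW rfl,
    Tm_mul hcd' (natDegree_Tm hH) (by omega), Tm_Bu0 hU0 hU1 hV0 hV1, Tm_Bu1 hU0 hU1 hV0 hV1,
    Tm_Bv0 hU0 hU1 hV0 hV1, Tm_Bv1 hU0 hU1 hV0 hV1, hTc] at h3
  simp only [Tm_Tm] at h3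
  rw [← h3]
  ring

end

end Pool.Agent.DPFib
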