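import Pool.Agent.DPFib.HomForm
import Pool.Agent.DPFib.Geom1

/-!
# MP_9669a9_ag, module H: sections in Cox coordinates by polynomials
-/

namespace Pool.Agent.DPFib

open Polynomial

noncomputable section

section Maps

variable {R S : Type*} [CommRing R] [CommRing S]

def qU0 (ν : R) (P : Var → R[X]) : R[X] := C ν * (P .g * P .y) + P .e * P .x
def qU1 (P : Var → R[X]) : R[X] := P .g * P .y - P .e * P .x
def qV0 (ζ : R) (P : Var → R[X]) : R[X] := C ζ * (P .g * P .q)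
def qV1 (P : Var → R[X]) : R[X] := P .g * P .q - P .e * P .p

/-- the section of `s t w^2 = B` of a tuple of nine forms -/
def toIx (a b : ℕ) (ν ζ : R) {α : Var → ℤ} (c : CIx α → R) : Ix a b → R :=
  mkS a b (qU0 ν (Pc c)) (qU1 (Pc c)) (qV0 ζ (Pc c)) (qV1 (Pc c)) (Pc c .w)

theorem Pc_map (φ : R →+* S) {α : Var → ℤ} (c : CIx α → R) (r : Var) :
    (Pc c r).map φ = Pc (fun i => φ (c i)) r := map_pol _ _

theorem mkS_map (φ : R →+* S) (a b : ℕ) (u0 u1 v0 v1 w : R[X]) (i : Ix a b) :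
    φ (mkS a b u0 u1 v0 v1 w i) = mkS a b (u0.map φ) (u1.map φ) (v0.map φ) (v1.map φ)
      (w.map φ) i := by
  rcases i with i | i | i | i | i <;> simp [mkS, coeff_map]

theorem toIx_map (φ : R →+* S) (a b : ℕ) (ν ζ : R) {α : Var → ℤ} (c : CIx α → R) (i : Ix a b) :
    φ (toIx a b ν ζ c i) = toIx a b (φ ν) (φ ζ) (fun i => φ (c i)) i := by
  rw [toIx, mkS_map, toIx]
  simp only [qU0, qU1, qV0, qV1, Polynomial.map_add, Polynomial.map_sub, Polynomial.map_mul,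
    map_C, Pc_map]

end Maps

/-- the classes that we use -/
structure Good (a b : ℕ) (α : Var → ℤ) : Prop where
  nonneg : ∀ r, 0 ≤ α r
  cls : IsClass α
  s : α .s = 0
  g : α .g = 1
  t : α .e + α .t = 1
  x : α .e + α .x = a
  y : α .y + 1 = a
  p : α .e + α .p = b
  q : α .q + 1 = b
  w : α .w + 1 = a + b

theorem good_TT {a b : ℕ} (ha : 1 ≤ a) (hb : 1 ≤ b) (α : Var → ℤ)
    (h : α .t = 0 ∧ α .s = 0 ∧ α .e = 1 ∧ α .g = 1 ∧ α .x = a - 1 ∧ α .y = a - 1 ∧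
      α .p = b - 1 ∧ α .q = b - 1 ∧ α .w = a + b - 1) : Good a b α := by
  obtain ⟨h1, h2, h3, h4, h5, h6, h7, h8, h9⟩ := h
  refine ⟨fun r => ?_, ⟨?_, ?_, ?_, ?_⟩, h2, h4, ?_, ?_, ?_, ?_, ?_, ?_⟩
  · cases r <;> omega
  all_goals omega

theorem good_FT {a b : ℕ} (ha : 1 ≤ a) (hb : 1 ≤ b) (α : Var → ℤ)
    (h : α .t = 1 ∧ α .s = 0 ∧ α .e = 0 ∧ α .g = 1 ∧ α .x = a ∧ α .y = a - 1 ∧
      α .p = b ∧ α .q = b - 1 ∧ α .w = a + b - 1) : Good a b α := by
  obtain ⟨h1, h2, h3, h4, h5, h6, h7, h8, h9⟩ := h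
  refine ⟨fun r => ?_, ⟨?_, ?_, ?_, ?_⟩, h2, h4, ?_, ?_, ?_, ?_, ?_, ?_⟩
  · cases r <;> omega
  all_goals omega

/-- scaling of the arguments is the action of a torus element -/
theorem pt_scale {α : Var → ℤ} (hα : ∀ r, 0 ≤ α r) (hc : IsClass α) (c : CIx α → ℂ) {l : ℂ}
    (hl : l ≠ 0) (θ σ : ℂ) : pt c (l * θ) (l * σ) =
      act ![l ^ (α .e + α .t), l ^ (α .e + α .x), l ^ (α .e + α .p), l ^ α .e, l ^ α .g]
        (pt c θ σ) := by
  have key : ∀ r, pt c (l * θ) (l * σ) r = l ^ α r * pt c θ σ r := by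
    intro r
    rw [pt_eq_hom c r (hα r), pt_eq_hom c r (hα r), hom_scale]
    congr 1
    rw [← zpow_natCast, Int.toNat_of_nonneg (hα r)]
  obtain ⟨c1, c2, c3, c4⟩ := hc
  funext r
  rw [key]
  cases r
  · simp only [act, Matrix.cons_val]
    rw [← zpow_neg, ← zpow_add₀ hl]; congr 2; ring
  · simp only [act, Matrix.cons_val]
    rw [← zpow_neg, ← zpow_add₀ hl]; congr 2; linarith
  · simp only [act, Matrix.cons_val]
  · simp only [act, Matrix.cons_val]
  · simp only [act, Matrix.cons_val]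
    rw [← zpow_neg, ← zpow_add₀ hl]; congr 2; ring
  · simp only [act, Matrix.cons_val]
    rw [← zpow_neg, ← zpow_add₀ hl]; congr 2; linarith
  · simp only [act, Matrix.cons_val]
    rw [← zpow_neg, ← zpow_add₀ hl]; congr 2; ring
  · simp only [act, Matrix.cons_val]
    rw [← zpow_neg, ← zpow_add₀ hl]; congr 2; linarith
  · simp only [act, Matrix.cons_val]
    rw [← zpow_neg, ← zpow_add₀ hl, ← zpow_add₀ hl]; congr 2; omega

/-- the equation of `X` at a point -/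
def EqX (ν ζ : ℂ) (z : Var → ℂ) : Prop :=
  z .s * z .t * z .w ^ 2 = Bp ν ζ (z .e) (z .g) (z .x) (z .y) (z .p) (z .q)

theorem EqX_act {ν ζ : ℂ} {z : Var → ℂ} (h : EqX ν ζ z) {c : Fin 5 → ℂ} (hc : ∀ i, c i ≠ 0) :
    EqX ν ζ (act c z) := by
  have c0 := hc 0
  have c1 := hc 1
  have c2 := hc 2
  have c3 := hc 3
  have c4 := hc 4
  have l1 : act c z .s * act c z .t * act c z .w ^ 2 =
      (c 1) ^ 2 * (c 2) ^ 2 * (c 3)⁻¹ * (c 4)⁻¹ * (z .s * z .t * z .w ^ 2) := by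
    simp only [act]; field_simp
  have l2 : Bp ν ζ (act c z .e) (act c z .g) (act c z .x) (act c z .y) (act c z .p) (act c z .q) =
      (c 1) ^ 2 * (c 2) ^ 2 * (c 3)⁻¹ * (c 4)⁻¹ *
        Bp ν ζ (z .e) (z .g) (z .x) (z .y) (z .p) (z .q) := by
    simp only [act, Bp]; field_simp
  unfold EqX at h ⊢
  rw [l1, l2, h]

theorem continuous_pt {α : Var → ℤ} (c : CIx α → ℂ) (r : Var) :
    Continuous fun p : ℂ × ℂ => pt c p.1 p.2 r := by
  unfold pt
  fun_prop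

theorem EqX_all {ν ζ : ℂ} {α : Var → ℤ} (hα : ∀ r, 0 ≤ α r) (hc : IsClass α) {c : CIx α → ℂ}
    (h : ∀ θ, EqX ν ζ (pt c θ 1)) (θ σ : ℂ) : EqX ν ζ (pt c θ σ) := by
  have h1 : ∀ σ : ℂ, σ ≠ 0 → EqX ν ζ (pt c θ σ) := by
    intro σ hσ
    have := pt_scale hα hc c hσ (θ / σ) 1
    rw [mul_div_cancel₀ _ hσ, mul_one] at this
    rw [this]
    refine EqX_act (h _) ?_
    intro i
    fin_cases i <;> simp <;> exact zpow_ne_zero _ hσ
  have h2 : Continuous fun σ : ℂ => pt c θ σ .s * pt c θ σ .t * pt c θ σ .w ^ 2 -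
      Bp ν ζ (pt c θ σ .e) (pt c θ σ .g) (pt c θ σ .x) (pt c θ σ .y) (pt c θ σ .p)
        (pt c θ σ .q) := by
    have h3 : ∀ r, Continuous fun σ : ℂ => pt c θ σ r := fun r =>
      (continuous_pt c r).comp (by fun_prop : Continuous fun σ : ℂ => (θ, σ))
    have e1 := h3 .s
    have e2 := h3 .t
    have e3 := h3 .w
    have e4 := h3 .e
    have e5 := h3 .g
    have e6 := h3 .x
    have e7 := h3 .y
    have e8 := h3 .p
    have e9 := h3 .q
    unfold Bp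
    fun_prop
  have h4 := Continuous.ext_on (dense_compl_singleton (0 : ℂ)) h2 (continuous_const (y := (0 : ℂ)))
    (fun σ hσ => by
      have := h1 σ hσ
      unfold EqX at this
      rw [this, sub_self])
  have h5 := congrFun h4 σ
  unfold EqX
  linear_combination h5

end

end Pool.Agent.DPFib
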