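import Pool.Agent.DPFib.SecPol

/-!
# MP_9669a9_ag, module H: sections in Cox coordinates and sections of `s t w^2 = B`
-/

namespace Pool.Agent.DPFib

open Polynomial

noncomputable section

variable {a b : ℕ} {α : Var → ℤ} {ν ζ : ℂ}

theorem pt_one (hα : ∀ r, 0 ≤ α r) (c : CIx α → ℂ) (θ : ℂ) (r : Var) :
    pt c θ 1 r = (Pc c r).eval θ := by
  rw [pt_eq_hom c r (hα r), hom_one (natDegree_Pc c r)]

theorem eval_Bp (ν ζ θ : ℂ) (e g x y p q : ℂ[X]) :
    (Bp (C ν) (C ζ) e g x y p q).eval θ =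
      Bp ν ζ (e.eval θ) (g.eval θ) (x.eval θ) (y.eval θ) (p.eval θ) (q.eval θ) := by
  simp [Bp]

theorem eval_Bf (θ : ℂ) (u0 u1 v0 v1 : ℂ[X]) :
    (Bf u0 u1 v0 v1).eval θ = Bf (u0.eval θ) (u1.eval θ) (v0.eval θ) (v1.eval θ) := by
  simp [Bf]

theorem sec_pols (hα : ∀ r, 0 ≤ α r) {c : CIx α → ℂ} (hc : c ∈ Sec ν ζ α) :
    Pc c .e * Pc c .t = X ∧ Pc c .g * Pc c .s = 1 ∧
      Pc c .s * Pc c .t * Pc c .w ^ 2 = Bp (C ν) (C ζ) (Pc c .e) (Pc c .g) (Pc c .x) (Pc c .y)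
        (Pc c .p) (Pc c .q) := by
  refine ⟨?_, ?_, ?_⟩
  · refine Polynomial.funext fun θ => ?_
    have := (hc θ 1 (Or.inr one_ne_zero)).2.1
    rw [pt_one hα, pt_one hα] at this
    simpa using this
  · refine Polynomial.funext fun θ => ?_
    have := (hc θ 1 (Or.inr one_ne_zero)).2.2
    rw [pt_one hα, pt_one hα] at this
    simpa using this
  · refine Polynomial.funext fun θ => ?_
    have := (hc θ 1 (Or.inr one_ne_zero)).1.2.2.2.2.2
    simp only [pt_one hα] at this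
    rw [eval_Bp]
    simpa using this

/-- `e g B' = B` for polynomials -/
theorem Bp_pol (hνζ : (1 + ν) ^ 2 * (1 + ζ) ^ 2 = ν * ζ) (P : Var → ℂ[X]) :
    P .e * P .g * Bp (C ν) (C ζ) (P .e) (P .g) (P .x) (P .y) (P .p) (P .q) =
      Bf (qU0 ν P) (qU1 P) (qV0 ζ P) (qV1 P) := by
  have h := Bp_spec (C ν) (C ζ) (P .e) (P .g) (P .x) (P .y) (P .p) (P .q)
  have h1 : ((1 + C ν) ^ 2 * (1 + C ζ) ^ 2 - C ν * C ζ : ℂ[X]) = 0 := by
    have : C ((1 + ν) ^ 2 * (1 + ζ) ^ 2 - ν * ζ) = (0 : ℂ[X]) := by rw [hνζ, sub_self, C_0]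
    simpa using this
  rw [h, h1, mul_zero, sub_zero]
  unfold qU0 qU1 qV0 qV1 Bf
  ring

theorem Good.deg (hg : Good a b α) :
    (α .s).toNat = 0 ∧ (α .g).toNat = 1 ∧ (α .g).toNat + (α .y).toNat = a ∧
      (α .e).toNat + (α .x).toNat = a ∧ (α .g).toNat + (α .q).toNat = b ∧
      (α .e).toNat + (α .p).toNat = b ∧ (α .w).toNat = a + b - 1 ∧ 1 ≤ a ∧ 1 ≤ b := by
  have n := hg.nonneg
  have n1 := n .s
  have n2 := n .g
  have n3 := n .y
  have n4 := n .e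
  have n5 := n .x
  have n6 := n .q
  have n7 := n .p
  have n8 := n .w
  obtain ⟨-, -, h3, h4, h5, h6, h7, h8, h9, h10⟩ := hg
  refine ⟨?_, ?_, ?_, ?_, ?_, ?_, ?_, ?_, ?_⟩ <;> omega

section

variable (hg : Good a b α) (P : Var → ℂ[X]) (hP : ∀ r, (P r).natDegree ≤ (α r).toNat)
include hg hP

theorem hom_gy (θ σ : ℂ) : hom a (P .g * P .y) θ σ =
    hom (α .g).toNat (P .g) θ σ * hom (α .y).toNat (P .y) θ σ := by
  have := hom_mul (hP .g) (hP .y) θ σ
  rwa [hg.deg.2.2.1] at this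
theorem hom_ex (θ σ : ℂ) : hom a (P .e * P .x) θ σ =
    hom (α .e).toNat (P .e) θ σ * hom (α .x).toNat (P .x) θ σ := by
  have := hom_mul (hP .e) (hP .x) θ σ
  rwa [hg.deg.2.2.2.1] at this
theorem hom_gq (θ σ : ℂ) : hom b (P .g * P .q) θ σ =
    hom (α .g).toNat (P .g) θ σ * hom (α .q).toNat (P .q) θ σ := by
  have := hom_mul (hP .g) (hP .q) θ σ
  rwa [hg.deg.2.2.2.2.1] at this
theorem hom_ep (θ σ : ℂ) : hom b (P .e * P .p) θ σ =
    hom (α .e).toNat (P .e) θ σ * hom (α .p).toNat (P .p) θ σ := by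
  have := hom_mul (hP .e) (hP .p) θ σ
  rwa [hg.deg.2.2.2.2.2.1] at this

theorem natDegree_gy : (P .g * P .y).natDegree ≤ a := by
  have := natDegree_mul_le.trans (add_le_add (hP .g) (hP .y))
  rwa [hg.deg.2.2.1] at this
theorem natDegree_ex : (P .e * P .x).natDegree ≤ a := by
  have := natDegree_mul_le.trans (add_le_add (hP .e) (hP .x))
  rwa [hg.deg.2.2.2.1] at this
theorem natDegree_gq : (P .g * P .q).natDegree ≤ b := by
  have := natDegree_mul_le.trans (add_le_add (hP .g) (hP .q))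
  rwa [hg.deg.2.2.2.2.1] at this
theorem natDegree_ep : (P .e * P .p).natDegree ≤ b := by
  have := natDegree_mul_le.trans (add_le_add (hP .e) (hP .p))
  rwa [hg.deg.2.2.2.2.2.1] at this

theorem natDegree_qU0 (ν : ℂ) : (qU0 ν P).natDegree ≤ a :=
  natDegree_add_le_of_degree_le ((natDegree_C_mul_le _ _).trans (natDegree_gy hg P hP))
    (natDegree_ex hg P hP)
theorem natDegree_qU1 : (qU1 P).natDegree ≤ a :=
  (natDegree_sub_le_of_le (natDegree_gy hg P hP) (natDegree_ex hg P hP)).trans (max_self a).le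
theorem natDegree_qV0 (ζ : ℂ) : (qV0 ζ P).natDegree ≤ b :=
  (natDegree_C_mul_le _ _).trans (natDegree_gq hg P hP)
theorem natDegree_qV1 : (qV1 P).natDegree ≤ b :=
  (natDegree_sub_le_of_le (natDegree_gq hg P hP) (natDegree_ep hg P hP)).trans (max_self b).le

theorem hom_qU0 (ν θ σ : ℂ) : hom a (qU0 ν P) θ σ =
    ν * (hom (α .g).toNat (P .g) θ σ * hom (α .y).toNat (P .y) θ σ) +
      hom (α .e).toNat (P .e) θ σ * hom (α .x).toNat (P .x) θ σ := by
  rw [qU0, hom_add, hom_C_mul, hom_gy hg P hP, hom_ex hg P hP]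
theorem hom_qU1 (θ σ : ℂ) : hom a (qU1 P) θ σ =
    hom (α .g).toNat (P .g) θ σ * hom (α .y).toNat (P .y) θ σ -
      hom (α .e).toNat (P .e) θ σ * hom (α .x).toNat (P .x) θ σ := by
  rw [qU1, hom_sub, hom_gy hg P hP, hom_ex hg P hP]
theorem hom_qV0 (ζ θ σ : ℂ) : hom b (qV0 ζ P) θ σ =
    ζ * (hom (α .g).toNat (P .g) θ σ * hom (α .q).toNat (P .q) θ σ) := by
  rw [qV0, hom_C_mul, hom_gq hg P hP]
theorem hom_qV1 (θ σ : ℂ) : hom b (qV1 P) θ σ =
    hom (α .g).toNat (P .g) θ σ * hom (α .q).toNat (P .q) θ σ -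
      hom (α .e).toNat (P .e) θ σ * hom (α .p).toNat (P .p) θ σ := by
  rw [qV1, hom_sub, hom_gq hg P hP, hom_ep hg P hP]

end

section

variable (hg : Good a b α) (c : CIx α → ℂ)
include hg

theorem toIx_U0 (ν ζ : ℂ) : U0 (toIx a b ν ζ c) = qU0 ν (Pc c) :=
  U0_mkS (natDegree_qU0 hg _ (natDegree_Pc c) ν)
theorem toIx_U1 (ν ζ : ℂ) : U1 (toIx a b ν ζ c) = qU1 (Pc c) :=
  U1_mkS (natDegree_qU1 hg _ (natDegree_Pc c))
theorem toIx_V0 (ν ζ : ℂ) : V0 (toIx a b ν ζ c) = qV0 ζ (Pc c) :=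
  V0_mkS (natDegree_qV0 hg _ (natDegree_Pc c) ζ)
theorem toIx_V1 (ν ζ : ℂ) : V1 (toIx a b ν ζ c) = qV1 (Pc c) :=
  V1_mkS (natDegree_qV1 hg _ (natDegree_Pc c))
theorem toIx_Wp (ν ζ : ℂ) : Wp (toIx a b ν ζ c) = Pc c .w := by
  obtain ⟨-, -, -, -, -, -, h7, h8, h9⟩ := hg.deg
  refine Wp_mkS (by omega) ?_
  rw [← h7]
  exact natDegree_Pc c .w

end

/-- the coordinate `s` is a non-zero constant, `g` is a multiple of `σ` -/
theorem sec_s_g (hg : Good a b α) {c : CIx α → ℂ} (hc : c ∈ Sec ν ζ α) :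
    ∃ s1 : ℂ, s1 ≠ 0 ∧ Pc c .s = C s1 ∧ Pc c .g = C s1⁻¹ := by
  obtain ⟨-, h2, -⟩ := sec_pols hg.nonneg hc
  have h1 : (Pc c .s).natDegree ≤ 0 := by
    have := natDegree_Pc c .s
    rwa [hg.deg.1] at this
  rw [eq_C_of_natDegree_le_zero h1] at h2 ⊢
  set s1 := (Pc c .s).coeff 0
  have hs1 : s1 ≠ 0 := by
    intro h
    rw [h, C_0, mul_zero] at h2
    exact zero_ne_one h2
  refine ⟨s1, hs1, rfl, ?_⟩
  have h3 : Pc c .g * C s1 * C s1⁻¹ = C s1⁻¹ := by rw [h2, one_mul]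
  rwa [mul_assoc, ← C_mul, mul_inv_cancel₀ hs1, C_1, mul_one] at h3

theorem toIx_mem_Full (hg : Good a b α) (hνζ : (1 + ν) ^ 2 * (1 + ζ) ^ 2 = ν * ζ) (hν : ν ≠ -1)
    (hζ : ζ ≠ 0) {c : CIx α → ℂ} (hc : c ∈ Sec ν ζ α) : toIx a b ν ζ c ∈ Full a b := by
  obtain ⟨h1, h2, h3⟩ := sec_pols hg.nonneg hc
  obtain ⟨s1, hs1, hs, hgg⟩ := sec_s_g hg hc
  have hP := natDegree_Pc c
  have hν' : (1 + ν) ≠ 0 := fun h => hν (by linear_combination h)
  obtain ⟨d1, d2, d3, d4, d5, d6, d7, d8, d9⟩ := hg.deg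
  have hpt : ∀ θ σ r, pt c θ σ r = hom (α r).toNat (Pc c r) θ σ := fun θ σ r =>
    pt_eq_hom c r (hg.nonneg r) θ σ
  refine ⟨?_, ?_, ?_, ?_, ?_⟩
  · rw [toIx_U0 hg, toIx_U1 hg, noZero_iff_forall (natDegree_qU0 hg _ hP ν)
      (natDegree_qU1 hg _ hP)]
    intro θ σ hθσ
    rw [hom_qU0 hg _ hP, hom_qU1 hg _ hP]
    have h4 := (hc θ σ hθσ).1.2.1
    simp only [hpt] at h4
    generalize hom (α .e).toNat (Pc c .e) θ σ * hom (α .x).toNat (Pc c .x) θ σ = A at h4 ⊢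
    generalize hom (α .g).toNat (Pc c .g) θ σ * hom (α .y).toNat (Pc c .y) θ σ = B at h4 ⊢
    by_contra hcon
    push Not at hcon
    obtain ⟨k1, k2⟩ := hcon
    have hB : (1 + ν) * B = 0 := by linear_combination k1 + k2
    have hB0 : B = 0 := (mul_eq_zero.mp hB).resolve_left hν'
    have hA0 : A = 0 := by linear_combination hB0 - k2
    rcases h4 with h4 | h4
    · exact h4 hA0
    · exact h4 hB0
  · rw [toIx_V0 hg, toIx_V1 hg, noZero_iff_forall (natDegree_qV0 hg _ hP ζ)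
      (natDegree_qV1 hg _ hP)]
    intro θ σ hθσ
    rw [hom_qV0 hg _ hP, hom_qV1 hg _ hP]
    by_contra hcon
    push Not at hcon
    obtain ⟨k1, k2⟩ := hcon
    have k3 := (mul_eq_zero.mp k1).resolve_left hζ
    rw [k3, zero_sub, neg_eq_zero] at k2
    simp only [← hpt] at k2 k3
    obtain ⟨⟨m1, -, m3, m4, -, m6⟩, m7, m8⟩ := hc θ σ hθσ
    have hw : pt c θ σ .w ≠ 0 := by
      rcases m3 with m | m | m
      · exact absurd k2 m
      · exact absurd k3 m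
      · exact m
    have hs2 : pt c θ σ .s ≠ 0 := by
      rw [hpt, hs, d1, hom_zero_C]; exact hs1
    have hB : Bp ν ζ (pt c θ σ .e) (pt c θ σ .g) (pt c θ σ .x) (pt c θ σ .y) (pt c θ σ .p)
        (pt c θ σ .q) = 0 := by
      by_cases he : pt c θ σ .e = 0
      · have hg0 : pt c θ σ .g ≠ 0 := by
          rcases m1 with m | m
          · rw [he, zero_mul] at m; exact absurd rfl m
          · exact left_ne_zero_of_mul m
        have hq := (mul_eq_zero.mp k3).resolve_left hg0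
        rw [he, hq]; unfold Bp; ring
      · have hp := (mul_eq_zero.mp k2).resolve_left he
        rcases mul_eq_zero.mp k3 with hg0 | hq
        · rw [hg0, hp]; unfold Bp; ring
        · rw [hp, hq]; unfold Bp; ring
    rw [hB] at m6
    have ht0 : pt c θ σ .t = 0 := by
      rcases mul_eq_zero.mp m6 with m | m
      · exact (mul_eq_zero.mp m).resolve_left hs2
      · exact absurd (pow_eq_zero_iff two_ne_zero |>.mp m) hw
    rw [ht0, mul_zero] at m7
    subst m7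
    have hσ : σ ≠ 0 := by simpa using hθσ
    have hg0 : pt c 0 σ .g ≠ 0 := by
      intro h; rw [h, zero_mul] at m8; exact hσ m8.symm
    have hq := (mul_eq_zero.mp k3).resolve_left hg0
    -- values at zero
    have hval : ∀ r, pt c 0 σ r = σ ^ (α r).toNat * (Pc c r).eval 0 := by
      intro r
      rw [hpt, hom_eq (hP r) hσ, zero_div]
    have hval0 : ∀ r, pt c 0 σ r = 0 → (Pc c r).coeff 0 = 0 := by
      intro r hr
      rw [hval] at hr
      rw [coeff_zero_eq_eval_zero]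
      exact (mul_eq_zero.mp hr).resolve_left (pow_ne_zero _ hσ)
    have ht1 := hval0 _ ht0
    have he0 : pt c 0 σ .e ≠ 0 := by
      intro he
      have he1 := hval0 _ he
      have := congrArg (fun f => Polynomial.coeff f 1) h1
      simp [mul_coeff_one, he1, ht1] at this
    have hp := (mul_eq_zero.mp k2).resolve_left he0
    obtain ⟨p', hp'⟩ := X_dvd_iff.mpr (hval0 _ hp)
    obtain ⟨q', hq'⟩ := X_dvd_iff.mpr (hval0 _ hq)
    obtain ⟨t', ht'⟩ := X_dvd_iff.mpr ht1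
    have h5 : t' * Pc c .e = 1 := by
      have : X * (t' * Pc c .e) = X * 1 := by rw [mul_one]; rw [ht'] at h1; linear_combination h1
      exact mul_left_cancel₀ X_ne_zero this
    have h6 : Pc c .s * Pc c .w ^ 2 = X * (Pc c .e * Bp (C ν) (C ζ) (Pc c .e) (Pc c .g) (Pc c .x)
        (Pc c .y) p' q') := by
      have h7 : X * (Pc c .s * Pc c .w ^ 2) = X * (X * (Pc c .e * Bp (C ν) (C ζ) (Pc c .e)
          (Pc c .g) (Pc c .x) (Pc c .y) p' q')) := by
        rw [ht', hp', hq'] at h3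
        have h8 : Bp (C ν) (C ζ) (Pc c .e) (Pc c .g) (Pc c .x) (Pc c .y) (X * p') (X * q') =
            X ^ 2 * Bp (C ν) (C ζ) (Pc c .e) (Pc c .g) (Pc c .x) (Pc c .y) p' q' := by
          unfold Bp; ring
        rw [h8] at h3
        linear_combination (-(X * Pc c .s * Pc c .w ^ 2)) * h5 + Pc c .e * h3
      exact mul_left_cancel₀ X_ne_zero h7
    have h9 := congrArg (Polynomial.eval 0) h6
    rw [hs] at h9
    simp only [eval_mul, eval_C, eval_pow, eval_X, zero_mul] at h9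
    have h10 : (Pc c .w).eval 0 = 0 := by
      rcases mul_eq_zero.mp h9 with h | h
      · exact absurd h hs1
      · exact pow_eq_zero_iff two_ne_zero |>.mp h
    apply hw
    rw [hval, h10, mul_zero]
  · rw [toIx_U0 hg, toIx_U1 hg]
    have h4 : qU0 ν (Pc c) + qU1 (Pc c) = C ((1 + ν) * s1⁻¹) * Pc c .y := by
      rw [qU0, qU1, hgg, C_mul, C_add, C_1]; ring
    rw [h4, coeff_C_mul, coeff_eq_zero_of_natDegree_lt, mul_zero]
    have := hP .y
    omega
  · rw [toIx_V0 hg]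
    have h4 : qV0 ζ (Pc c) = C (ζ * s1⁻¹) * Pc c .q := by
      rw [qV0, hgg, C_mul]; ring
    rw [h4, coeff_C_mul, coeff_eq_zero_of_natDegree_lt, mul_zero]
    have := hP .q
    omega
  · rw [toIx_U0 hg, toIx_U1 hg, toIx_V0 hg, toIx_V1 hg, toIx_Wp hg, ← Bp_pol hνζ, ← h3]
    linear_combination (-(Pc c .w ^ 2)) * h1 * 1 - (Pc c .e * Pc c .t * Pc c .w ^ 2) * h2

end

end Pool.Agent.DPFib
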