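import Pool.Agent.DPFib.Defs

/-!
# The threefold `X` and its sections, in Cox coordinates

`X` is the quotient by the torus `T = (ℂ*)^5` of the open part `Xhat` (given by the usual
non-vanishing conditions) of the hypersurface `s t w^2 = B'(e,g,x,y,p,q)`.
-/

namespace Pool.Agent.DPFib

noncomputable section

/-- The nine Cox coordinates. -/
inductive Var : Type
  | t | s | e | g | x | y | p | q | w
  deriving DecidableEq, Fintype

/-- The polynomial `B'`: one has `e g B' = B(ν g y + e x, g y - e x, ζ g q, g q - e p)` when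
`(1+ν)^2 (1+ζ)^2 = ν ζ`. -/
def Bp {R : Type*} [CommRing R] (ν ζ e g x y p q : R) : R :=
  (1 + ν) ^ 2 * (g * y ^ 2 * p) * (e * p - 2 * (1 + ζ) * (g * q)) +
    ζ * q * (ν * (g ^ 2 * y ^ 2 * p) - (1 - ν) * (g * x * y) * (g * q - e * p) +
      e * x ^ 2 * (g * q - e * p))

/-- The equation of `X`. -/
def Feq (ν ζ : ℂ) : MvPolynomial Var ℂ :=
  MvPolynomial.X Var.s * MvPolynomial.X Var.t * MvPolynomial.X Var.w ^ 2 -
    Bp (MvPolynomial.C ν) (MvPolynomial.C ζ) (MvPolynomial.X Var.e) (MvPolynomial.X Var.g)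
      (MvPolynomial.X Var.x) (MvPolynomial.X Var.y) (MvPolynomial.X Var.p) (MvPolynomial.X Var.q)

/-- The total space `Xhat` over `X`. -/
def Xhat (ν ζ : ℂ) : Set (Var → ℂ) :=
  {z | (z Var.e * z Var.t ≠ 0 ∨ z Var.g * z Var.s ≠ 0) ∧
    (z Var.e * z Var.x ≠ 0 ∨ z Var.g * z Var.y ≠ 0) ∧
    (z Var.e * z Var.p ≠ 0 ∨ z Var.g * z Var.q ≠ 0 ∨ z Var.w ≠ 0) ∧
    (z Var.t ≠ 0 ∨ z Var.x ≠ 0 ∨ z Var.p ≠ 0) ∧
    (z Var.s ≠ 0 ∨ z Var.y ≠ 0 ∨ z Var.q ≠ 0) ∧
    z Var.s * z Var.t * z Var.w ^ 2 =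
      Bp ν ζ (z Var.e) (z Var.g) (z Var.x) (z Var.y) (z Var.p) (z Var.q)}

/-- The action of the torus `(ℂ*)^5`. -/
def act (c : Fin 5 → ℂ) (z : Var → ℂ) : Var → ℂ
  | .t => c 0 * (c 3)⁻¹ * z .t
  | .s => c 0 * (c 4)⁻¹ * z .s
  | .e => c 3 * z .e
  | .g => c 4 * z .g
  | .x => c 1 * (c 3)⁻¹ * z .x
  | .y => c 1 * (c 4)⁻¹ * z .y
  | .p => c 2 * (c 3)⁻¹ * z .p
  | .q => c 2 * (c 4)⁻¹ * z .q
  | .w => c 1 * c 2 * (c 0)⁻¹ * z .w

/-- The degree, in the character lattice `ℤ^5` of the torus, of the monomial with exponents `m`. -/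
def wt (m : Var → ℤ) : Fin 5 → ℤ :=
  ![m .t + m .s - m .w, m .x + m .y + m .w, m .p + m .q + m .w, m .e - m .t - m .x - m .p,
    m .g - m .s - m .y - m .q]

/-- A class of curves, given by its intersection numbers with the nine coordinate divisors. -/
def IsClass {A : Type*} [Ring A] (α : Var → A) : Prop :=
  α .e + α .t = α .g + α .s ∧ α .e + α .x = α .g + α .y ∧ α .e + α .p = α .g + α .q ∧
    α .s + α .t + 2 * α .w = 2 * α .g + 2 * α .y + α .p + α .q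

/-- Nef classes of curves: non-negative on all effective divisors. -/
def IsNef (α : Var → ℝ) : Prop := IsClass α ∧ ∀ ρ, 0 ≤ α ρ

/-- The classes of curves with the intersection profile `(i,j)`. -/
def HasProfile {A : Type*} [Ring A] (i j : Bool) (α : Var → A) : Prop :=
  IsClass α ∧ α .e = (if i then 1 else 0) ∧ α .t = (if i then 0 else 1) ∧
    α .g = (if j then 1 else 0) ∧ α .s = (if j then 0 else 1)

/-- Index set for the coefficients of nine binary forms of degrees `α ρ`. -/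
abbrev CIx (α : Var → ℤ) : Type := Σ ρ : Var, Fin (α ρ + 1).toNat

/-- The point with Cox coordinates the values at `(θ,σ)` of nine binary forms. -/
def pt {α : Var → ℤ} (c : CIx α → ℂ) (θ σ : ℂ) : Var → ℂ := fun ρ =>
  ∑ i : Fin (α ρ + 1).toNat, c ⟨ρ, i⟩ * θ ^ (i : ℕ) * σ ^ ((α ρ).toNat - (i : ℕ))

/-- The sections of class `α` of `X → P^1`, `z ↦ (e t : g s)`, in Cox coordinates. -/
def Sec (ν ζ : ℂ) (α : Var → ℤ) : Set (CIx α → ℂ) :=
  {c | ∀ θ σ : ℂ, (θ ≠ 0 ∨ σ ≠ 0) → pt c θ σ ∈ Xhat ν ζ ∧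
    pt c θ σ .e * pt c θ σ .t = θ ∧ pt c θ σ .g * pt c θ σ .s = σ}

/-- The families of sections of class `α` (the irreducible components of `Sec ν ζ α`) which are
dominant: the points of their members are dense in `X`. -/
def families (ν ζ : ℂ) (α : Var → ℤ) : Set (Ideal (MvPolynomial (CIx α) ℂ)) :=
  {P ∈ comps (Sec ν ζ α) | ∀ G : MvPolynomial Var ℂ,
    (∀ c ∈ Sec ν ζ α, c ∈ MvPolynomial.zeroLocus ℂ P → ∀ θ σ : ℂ, (θ ≠ 0 ∨ σ ≠ 0) →
      MvPolynomial.eval (pt c θ σ) G = 0) → Feq ν ζ ∣ G}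

/-- The smooth intersection of two quadrics in `P^4` that is the fibre over `(τ : 1)`. -/
def Quartic (τ : ℂ) : Set (Fin 5 → ℂ) :=
  {y | y ≠ 0 ∧ y 0 * y 3 = y 1 * y 2 ∧
    τ * y 4 ^ 2 = (y 0 + y 1 + y 2 + y 3) ^ 2 - y 0 * y 3}

/-- The map from the fibre over `(τ : 1)` to `P^4`. -/
def toQuartic (ν ζ : ℂ) (z : Var → ℂ) : Fin 5 → ℂ :=
  ![(ν * z .g * z .y + z .e * z .x) * (ζ * z .g * z .q),
    (ν * z .g * z .y + z .e * z .x) * (z .g * z .q - z .e * z .p),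
    (z .g * z .y - z .e * z .x) * (ζ * z .g * z .q),
    (z .g * z .y - z .e * z .x) * (z .g * z .q - z .e * z .p),
    z .g * z .s * z .w]

/-- `α` is the class of a curve `P^1 → X`. -/
def IsCurveClass (ν ζ : ℂ) (α : Var → ℤ) : Prop :=
  IsClass α ∧ ∃ c : CIx α → ℂ, ∀ θ σ : ℂ, (θ ≠ 0 ∨ σ ≠ 0) → pt c θ σ ∈ Xhat ν ζ

/-- `Xhat` is smooth (of dimension `8`). -/
def IsSmooth (ν ζ : ℂ) : Prop :=
  ∀ z ∈ Xhat ν ζ, ∃ r, MvPolynomial.eval z (MvPolynomial.pderiv r (Feq ν ζ)) ≠ 0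

/-- The torus acts on `Xhat`, and freely. -/
def HasFreeAction (ν ζ : ℂ) : Prop :=
  ∀ z ∈ Xhat ν ζ, ∀ c : Fin 5 → ℂ, (∀ i, c i ≠ 0) →
    act c z ∈ Xhat ν ζ ∧ (act c z = z → c = 1)

/-- There are no non-constant invariants, and `Xhat` is the semistable locus of the character
`(2,4,2,-1,-1)`: hence `X = Xhat / T` is projective. -/
def IsSemistableLocus (ν ζ : ℂ) : Prop :=
  (∀ m : Var → ℕ, wt (fun r => m r) = 0 → m = 0) ∧
    ∀ z : Var → ℂ, MvPolynomial.eval z (Feq ν ζ) = 0 →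
      (z ∈ Xhat ν ζ ↔ ∃ (m : Var → ℕ) (k : ℕ), 0 < k ∧
        wt (fun r => m r) = (k : ℤ) • ![2, 4, 2, -1, -1] ∧ ∏ r, z r ^ m r ≠ 0)

/-- The ring `A / (F)` is a unique factorisation domain. -/
def IsUFDModulo {A : Type} [CommRing A] (F : A) : Prop :=
  ∃ _ : IsDomain (A ⧸ Ideal.span {F}), UniqueFactorizationMonoid (A ⧸ Ideal.span {F})

/-- The class of `f` in `A / (F)` is a prime element. -/
def IsPrimeModulo {A : Type} [CommRing A] (F f : A) : Prop :=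
  Prime (Ideal.Quotient.mk (Ideal.span {F}) f)

/-- The class of `f` divides the class of `g` in `A / (F)`. -/
def DvdModulo {A : Type} [CommRing A] (F f g : A) : Prop :=
  Ideal.Quotient.mk (Ideal.span {F}) f ∣ Ideal.Quotient.mk (Ideal.span {F}) g

/-- The cone is factorial, the nine coordinates are pairwise non-associated prime elements, and
every coordinate divisor meets `Xhat` (so that the complement of `Xhat` has codimension at least
two in the cone).  Hence the class group of `X` is the character lattice `ℤ^5`, and the nine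
coordinate divisors, which are prime, generate the effective cone; `{e = 0}` and `{t = 0}` are the
components of the fibre over `0`, `{g = 0}` and `{s = 0}` those of the fibre over `∞`, all of
multiplicity one. -/
def IsFactorial (ν ζ : ℂ) : Prop :=
  IsUFDModulo (Feq ν ζ) ∧ (∀ r, IsPrimeModulo (Feq ν ζ) (MvPolynomial.X r)) ∧
    (∀ r r', DvdModulo (Feq ν ζ) (MvPolynomial.X r) (MvPolynomial.X r') → r = r') ∧
    ∀ r, ∃ z ∈ Xhat ν ζ, z r = 0

/-- The gradients of the two equations of `Quartic τ`. -/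
def grad1 (y : Fin 5 → ℂ) : Fin 5 → ℂ := ![y 3, - y 2, - y 1, y 0, 0]
def grad2 (τ : ℂ) (y : Fin 5 → ℂ) : Fin 5 → ℂ :=
  ![2 * (y 0 + y 1 + y 2 + y 3) - y 3, 2 * (y 0 + y 1 + y 2 + y 3),
    2 * (y 0 + y 1 + y 2 + y 3), 2 * (y 0 + y 1 + y 2 + y 3) - y 0, - 2 * τ * y 4]

/-- The point `z` lies over `(τ : 1)`. -/
def IsOver (τ : ℂ) (z : Var → ℂ) : Prop := z .e * z .t = τ * (z .g * z .s)

/-- The fibres over the points `(τ : 1)`, `τ ≠ 0`, are smooth del Pezzo surfaces of degree four: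
they are mapped bijectively to complete intersections of two quadrics in `P^4` with Jacobian
matrix of rank two. -/
def HasQuarticFibres (ν ζ : ℂ) : Prop :=
  ∀ τ : ℂ, τ ≠ 0 → (∀ y ∈ Quartic τ, LinearIndependent ℂ ![grad1 y, grad2 τ y]) ∧
    (∀ z ∈ Xhat ν ζ, IsOver τ z → toQuartic ν ζ z ∈ Quartic τ) ∧
    (∀ y ∈ Quartic τ, ∃ z ∈ Xhat ν ζ, IsOver τ z ∧ toQuartic ν ζ z = y) ∧
    ∀ z ∈ Xhat ν ζ, ∀ z' ∈ Xhat ν ζ, IsOver τ z → IsOver τ z' →
      (∃ c : ℂ, c ≠ 0 ∧ toQuartic ν ζ z' = c • toQuartic ν ζ z) →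
      ∃ c : Fin 5 → ℂ, (∀ i, c i ≠ 0) ∧ z' = act c z

/-- The integral classes are generated by classes of curves in `X`. -/
def CurvesGenerate (ν ζ : ℂ) : Prop :=
  ∀ α : Var → ℤ, IsClass α → α ∈ AddSubgroup.closure {β | IsCurveClass ν ζ β}

/-- The geometric facts on `X = Xhat / T` and on the fibration `X → P^1`, `z ↦ (e t : g s)`. -/
structure Geometry (ν ζ : ℂ) : Prop where
  smooth : IsSmooth ν ζ
  free : HasFreeAction ν ζ
  semistable : IsSemistableLocus ν ζ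
  factorial : IsFactorial ν ζ
  quartic : HasQuarticFibres ν ζ
  curves : CurvesGenerate ν ζ

/-- The statement of Q1 for `X`, with `κ` in the place of `|Br(X)|`. -/
def Q1 (ν ζ : ℂ) (κ : Cardinal.{0}) : Prop :=
  ∀ i j : Bool, ∃ v : Var → ℝ, IsClass v ∧ v .e = 0 ∧ v .t = 0 ∧ v .g = 0 ∧ v .s = 0 ∧
    ∀ α : Var → ℤ, HasProfile i j α → IsNef (fun ρ => (α ρ : ℝ) - v ρ) →
      Cardinal.mk (families ν ζ α) = κ

theorem Bp_spec {R : Type*} [CommRing R] (ν ζ e g x y p q : R) :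
    e * g * Bp ν ζ e g x y p q =
      Bf (ν * g * y + e * x) (g * y - e * x) (ζ * g * q) (g * q - e * p) -
        g ^ 4 * y ^ 2 * q ^ 2 * ((1 + ν) ^ 2 * (1 + ζ) ^ 2 - ν * ζ) := by
  unfold Bp Bf
  ring

end

end Pool.Agent.DPFib
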